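import Pool.Agent.GPR.BbGrid

/-!
# GPR/Bb: interface of part III for part IV

Proof.  `n`, `c₂` from `bb_grid`; `K = (k-1) n`.  Given `μ, s, ε` (wlog `ε ≤ 1`), put `ε' = ε/2`,
`c = c₂ (ε/2)^k/(K + n + 2)^2`.  Given `η ≤ 1` put `σ = η/(K + n + 2)`, `θ = log μ + σ/4`.  For `w ≥ w₀` take a
prime `N ≥ e^{2w}` and `j₀, d, D` from `bb_grid` for `θ, s, σ, ε'`.  Let `G` be the set of the good
`q = (x, h) ∈ (ZMod N)^2`; `card G ≥ c₂ (ε'/w)^k N^2`.
For `q ∈ G` let `a = uu x`, and `H = uu (x + h) - uu x ∈ (-1/4, 1/4)` (`k ≥ 2`); `H ≡ h.val/N` mod `1`.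
Claim: `uu (x + i • h) = a + i H` for `i < k`: `uu (x + (i+1)•h) - uu (x + i•h)` lies in `(-1/4, 1/4)` and is
`≡ H` mod `1`, so it is `H`.  `q ↦ (a, H)` is injective on `G` (`H` mod `1` determines `h`), with values in
`(1/N) ℤ^2`.  For `q ∈ G` and real `a' ∈ [a, a + 1/N)`, `H' ∈ [H, H + 1/N)` let
`z.1 = σ j₀/4 + σ a'`, `z.2 = σ d/4 + σ H'`.  `0 ≤ z.1 ≤ σ (K/4 + 1/4 + 1) ≤ η`,
`0 ≤ σ/4 + σ H < z.2 + ... ≤ σ (n/4 + 1/4 + 1) ≤ η` (`d ≥ 1`, `H > -1/4`).
`w + (j₀ + i d) log μ + z.1 + i z.2 = w + (j₀ + i d) θ + σ (a' + i H')`, and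
`|σ (a' + i H') - σ uu (x + i•h)| ≤ k/N`, so `exp(...)` differs from `yy ... (uu (x + i•h)) + s` by at most
`e^{w + Kθ + 1} (e^{k/N} - 1) ≤ 2k e^{w + Kθ + 1} e^{-2w} ≤ ε/2` for `w` large; and
`yy` is within `ε/2` of the prime `⌊yy⌋₊`.  The squares (in the `z` plane, side `σ/N`) are disjoint, so the
volume of the set is at least `card G * (σ/N)^2 ≥ c₂ (ε/(2w))^k σ^2 = c η^2/w^k`.
(The set of the statement contains a finite disjoint union of measurable rectangles; the statement is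
about the outer measure `volume`, so no measurability of the set is needed.)
-/

namespace GPR

open MeasureTheory

theorem bb_val_lt {N : ℕ} [NeZero N] (x : ZMod N) (h : uu x < 1 / 4) : 4 * (x.val : ℤ) < N := by
  unfold uu at h
  have hN : (0 : ℝ) < N := by
    have := NeZero.pos N
    exact_mod_cast this
  rw [div_lt_iff₀ hN] at h
  have h2 : (4 : ℝ) * (x.val : ℝ) < N := by linarith
  exact_mod_cast h2

theorem bb_prog {N : ℕ} [NeZero N] (x h : ZMod N) {k : ℕ} (hk : 2 ≤ k)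
    (hG : ∀ i < k, uu (x + i • h) < 1 / 4) :
    ∀ i < k, ((x + i • h).val : ℤ) = (x.val : ℤ) + i * (((x + h).val : ℤ) - (x.val : ℤ)) := by
  intro i
  induction i with
  | zero => intro _; simp
  | succ i ih =>
    intro hi
    have h0 := bb_val_lt _ (hG 0 (by omega))
    have h1 := bb_val_lt _ (hG 1 (by omega))
    have h2 := bb_val_lt _ (hG i (by omega))
    have h3 := bb_val_lt _ (hG (i + 1) hi)
    rw [zero_smul, add_zero] at h0
    rw [one_smul] at h1
    have ih' := ih (by omega)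
    have key : (((x + (i + 1) • h).val : ℤ) - ((x + i • h).val : ℤ)) -
        (((x + h).val : ℤ) - (x.val : ℤ)) = 0 := by
      apply Int.eq_zero_of_abs_lt_dvd (m := (N : ℤ))
      · rw [← ZMod.intCast_zmod_eq_zero_iff_dvd]
        push_cast
        rw [ZMod.natCast_zmod_val, ZMod.natCast_zmod_val, ZMod.natCast_zmod_val,
          ZMod.natCast_zmod_val, succ_nsmul]
        ring
      · rw [abs_lt]
        constructor <;> omega
    push_cast
    have : ((x + (i + 1) • h).val : ℤ) = ((x + i • h).val : ℤ) +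
        (((x + h).val : ℤ) - (x.val : ℤ)) := by omega
    rw [this, ih']
    ring

theorem bb_inj {N : ℕ} [NeZero N] (x h x' h' : ZMod N) (hx : (x.val : ℤ) = x'.val)
    (hh : ((x + h).val : ℤ) - (x.val : ℤ) = ((x' + h').val : ℤ) - (x'.val : ℤ)) :
    x = x' ∧ h = h' := by
  have h1 : x = x' := ZMod.val_injective N (by exact_mod_cast hx)
  subst h1
  refine ⟨rfl, ?_⟩
  have h2 : x + h = x + h' := ZMod.val_injective N (by
    have : ((x + h).val : ℤ) = (x + h').val := by omega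
    exact_mod_cast this)
  exact add_left_cancel h2

/-- the half open square -/
def bbR (A B r : ℝ) (m l : ℤ) : Set (ℝ × ℝ) :=
  Set.Ico (A + r * m) (A + r * m + r) ×ˢ Set.Ico (B + r * l) (B + r * l + r)

theorem bbR_vol (A B : ℝ) {r : ℝ} (hr : 0 ≤ r) (m l : ℤ) :
    volume (bbR A B r m l) = ENNReal.ofReal (r ^ 2) := by
  unfold bbR
  rw [Measure.volume_eq_prod, Measure.prod_prod, Real.volume_Ico, Real.volume_Ico,
    ← ENNReal.ofReal_mul (by linarith)]
  congr 1
  ring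

theorem bbR_meas (A B r : ℝ) (m l : ℤ) : MeasurableSet (bbR A B r m l) :=
  measurableSet_Ico.prod measurableSet_Ico

theorem bb_int_eq {A r t : ℝ} (hr : 0 < r) {m m' : ℤ} (h : t ∈ Set.Ico (A + r * m) (A + r * m + r))
    (h' : t ∈ Set.Ico (A + r * m') (A + r * m' + r)) : m = m' := by
  have h1 : r * m < r * (m' + 1) := by linarith [h.1, h'.2]
  have h2 : r * m' < r * (m + 1) := by linarith [h'.1, h.2]
  have h3 : (m : ℝ) < m' + 1 := lt_of_mul_lt_mul_left h1 hr.le
  have h4 : (m' : ℝ) < m + 1 := lt_of_mul_lt_mul_left h2 hr.le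
  have h5 : m < m' + 1 := by exact_mod_cast h3
  have h6 : m' < m + 1 := by exact_mod_cast h4
  omega

/-- closeness of the exponentials -/
theorem bb_exp_close {E F t : ℝ} (hE : E ≤ F) (ht0 : 0 ≤ t) (ht1 : t ≤ 1) :
    |Real.exp (E + t) - Real.exp E| ≤ Real.exp F * (2 * t) := by
  rw [Real.exp_add]
  have h1 : 0 ≤ Real.exp t - 1 := by linarith [Real.add_one_le_exp t]
  have h2 : Real.exp t - 1 ≤ 2 * t := by
    have := Real.abs_exp_sub_one_le (x := t) (by rw [abs_of_nonneg ht0]; exact ht1)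
    rw [abs_of_nonneg h1, abs_of_nonneg ht0] at this
    exact this
  rw [show Real.exp E * Real.exp t - Real.exp E = Real.exp E * (Real.exp t - 1) by ring,
    abs_of_nonneg (mul_nonneg (Real.exp_pos _).le h1)]
  exact mul_le_mul (Real.exp_le_exp.2 hE) h2 h1 (Real.exp_pos _).le

/-- near a prime -/
theorem bb_near {N : ℕ} {w θ s σ ε : ℝ} {D j : ℕ} {x : ZMod N} (h : GG w θ s σ ε D j x) :
    ∃ p : ℕ, p.Prime ∧ |yy w θ s σ j (uu x) - p| ≤ ε := by
  obtain ⟨_, h2, h3, _⟩ := h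
  refine ⟨_, h3, ?_⟩
  have h4 : 0 ≤ yy w θ s σ j (uu x) := by
    by_contra hc
    push Not at hc
    rw [Nat.floor_of_nonpos hc.le] at h3
    exact Nat.not_prime_zero h3
  have h5 : yy w θ s σ j (uu x) - (⌊yy w θ s σ j (uu x)⌋₊ : ℝ) = Int.fract (yy w θ s σ j (uu x)) := by
    rw [natCast_floor_eq_intCast_floor h4]
    rfl
  rw [h5, abs_of_nonneg (Int.fract_nonneg _)]
  exact h2.le

theorem bb_av_filter {X : Type*} [Fintype X] (P : X → Prop) [DecidablePred P] :
    av (fun x => if P x then (1 : ℝ) else 0) = ((Finset.univ.filter P).card : ℝ) / Fintype.card X := by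
  unfold av
  rw [Finset.sum_boole]

theorem bb {k : ℕ} (hk : 2 ≤ k) : ∃ n : ℕ, 1 ≤ n ∧ ∀ μ s ε : ℝ, 1 < μ → 0 < ε → ∃ c : ℝ, 0 < c ∧
    ∀ η : ℝ, 0 < η → η ≤ 1 → ∃ w₀ : ℝ, ∀ w ≥ w₀, ∃ j₀ d : ℕ, 1 ≤ d ∧ d ≤ n ∧
      j₀ + (k - 1) * d ≤ (k - 1) * n ∧
      ENNReal.ofReal (c * η ^ 2 / w ^ k) ≤ volume {z : ℝ × ℝ | z.1 ∈ Set.Icc 0 η ∧
        z.2 ∈ Set.Icc 0 η ∧ ∀ i < k, ∃ p : ℕ, p.Prime ∧
          |Real.exp (w + ((j₀ : ℝ) + i * d) * Real.log μ + z.1 + i * z.2) - s - p| ≤ ε} := by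
  classical
  obtain ⟨n, c₂, hn, hc₂, H⟩ := bb_grid hk
  refine ⟨n, hn, ?_⟩
  intro μ s ε hμ hε
  -- constants
  set ε' : ℝ := min (ε / 2) (1 / 2) with hε'
  have hε'0 : 0 < ε' := lt_min (by linarith) (by norm_num)
  have hε'1 : ε' ≤ 1 / 2 := min_le_right _ _
  have hε'2 : ε' ≤ ε / 2 := min_le_left _ _
  set M : ℝ := ((k - 1 : ℕ) : ℝ) * n + n + 2 with hM
  have hn1 : (1 : ℝ) ≤ n := by exact_mod_cast hn
  have hK0 : (0 : ℝ) ≤ ((k - 1 : ℕ) : ℝ) * n := by positivity
  have hM2 : 2 ≤ M := by rw [hM]; linarith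
  have hM0 : 0 < M := by linarith
  refine ⟨c₂ * ε' ^ k / M ^ 2, by positivity, ?_⟩
  intro η hη hη1
  set σ : ℝ := η / M with hσ
  have hσ0 : 0 < σ := by positivity
  have hσM : σ * M = η := by rw [hσ]; field_simp
  have hσ1 : σ ≤ 1 := by
    rw [hσ, div_le_one hM0]; linarith
  have hlogμ : 0 < Real.log μ := Real.log_pos hμ
  set θ : ℝ := Real.log μ + σ / 4 with hθ
  have hθ0 : 0 ≤ θ := by rw [hθ]; positivity
  obtain ⟨w₁, hw₁⟩ := H θ s σ ε' hθ0 hσ0 hσ1 hε'0 hε'1
  set A : ℝ := 4 * k * Real.exp (((k - 1 : ℕ) : ℝ) * n * θ + 1) / ε with hA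
  refine ⟨max w₁ (max (k : ℝ) A), ?_⟩
  intro w hw
  have hww₁ : w₁ ≤ w := le_trans (le_max_left _ _) hw
  have hwk : (k : ℝ) ≤ w := le_trans (le_trans (le_max_left _ _) (le_max_right _ _)) hw
  have hwA : A ≤ w := le_trans (le_trans (le_max_right _ _) (le_max_right _ _)) hw
  have hk2 : (2 : ℝ) ≤ k := by exact_mod_cast hk
  have hw0 : 0 < w := by linarith
  obtain ⟨N, hNge, hNp⟩ := Nat.exists_infinite_primes ⌈Real.exp (2 * w)⌉₊
  have : Fact N.Prime := ⟨hNp⟩
  have hN : Real.exp (2 * w) ≤ N := le_trans (Nat.le_ceil _) (by exact_mod_cast hNge)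
  have hNpos : (0 : ℝ) < N := lt_of_lt_of_le (Real.exp_pos _) hN
  have hN1 : (1 : ℝ) ≤ N := by
    have := hNp.one_lt
    exact_mod_cast this.le
  have hNk : (k : ℝ) ≤ N := by
    have := Real.add_one_le_exp (2 * w)
    linarith
  obtain ⟨D, j₀, d, hd1, hdn, hjd, hav⟩ := hw₁ w hww₁ N hN
  refine ⟨j₀, d, hd1, hdn, hjd, ?_⟩
  set G : Finset (ZMod N × ZMod N) := Finset.univ.filter
    (fun q => ∀ i < k, GG w θ s σ ε' D (j₀ + i * d) (q.1 + i • q.2)) with hG
  have hcard : c₂ * (ε' / w) ^ k * (N : ℝ) ^ 2 ≤ G.card := by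
    have h1 : c₂ * (ε' / w) ^ k ≤ (G.card : ℝ) / Fintype.card (ZMod N × ZMod N) := by
      refine le_trans hav (le_of_eq ?_)
      rw [hG, ← bb_av_filter]
    rw [Fintype.card_prod, ZMod.card, le_div_iff₀ (by push_cast; positivity)] at h1
    push_cast at h1
    calc c₂ * (ε' / w) ^ k * (N : ℝ) ^ 2 = c₂ * (ε' / w) ^ k * ((N : ℝ) * N) := by ring
      _ ≤ _ := h1
  -- the squares
  set r : ℝ := σ / N with hr
  have hr0 : 0 < r := by positivity
  set R : ZMod N × ZMod N → Set (ℝ × ℝ) := fun q =>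
    bbR (σ * j₀ / 4) (σ * d / 4) r (q.1.val : ℤ) (((q.1 + q.2).val : ℤ) - (q.1.val : ℤ)) with hR
  have hdisj : (G : Set (ZMod N × ZMod N)).PairwiseDisjoint R := by
    intro q _ q' _ hne
    rw [Function.onFun, Set.disjoint_left]
    intro z hz hz'
    apply hne
    have h1 := bb_int_eq hr0 hz.1 hz'.1
    have h2 := bb_int_eq hr0 hz.2 hz'.2
    obtain ⟨h3, h4⟩ := bb_inj _ _ _ _ h1 h2
    exact Prod.ext h3 h4
  have hsub : (⋃ q ∈ G, R q) ⊆ {z : ℝ × ℝ | z.1 ∈ Set.Icc 0 η ∧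
        z.2 ∈ Set.Icc 0 η ∧ ∀ i < k, ∃ p : ℕ, p.Prime ∧
          |Real.exp (w + ((j₀ : ℝ) + i * d) * Real.log μ + z.1 + i * z.2) - s - p| ≤ ε} := by
    intro z hz
    simp only [Set.mem_iUnion] at hz
    obtain ⟨q, hq, hz⟩ := hz
    obtain ⟨x, h⟩ := q
    have hq' : ∀ i < k, GG w θ s σ ε' D (j₀ + i * d) (x + i • h) := (Finset.mem_filter.1 hq).2
    have hG4 : ∀ i < k, uu (x + i • h) < 1 / 4 := fun i hi => (hq' i hi).1
    have hprog := bb_prog x h hk hG4
    have hv0 := bb_val_lt _ (hG4 0 (by omega))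
    have hv1 := bb_val_lt _ (hG4 1 (by omega))
    rw [zero_smul, add_zero] at hv0
    rw [one_smul] at hv1
    have hm0 : (0 : ℤ) ≤ (x.val : ℤ) := by positivity
    have hm1 : (0 : ℤ) ≤ ((x + h).val : ℤ) := by positivity
    set m : ℤ := (x.val : ℤ) with hm
    set l : ℤ := ((x + h).val : ℤ) - m with hl
    have hl1 : 4 * l < N := by omega
    have hl2 : -(N : ℤ) < 4 * l := by omega
    have hz1 : z.1 ∈ Set.Ico (σ * j₀ / 4 + r * m) (σ * j₀ / 4 + r * m + r) := hz.1
    have hz2 : z.2 ∈ Set.Ico (σ * d / 4 + r * l) (σ * d / 4 + r * l + r) := hz.2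
    have hm0R : (0 : ℝ) ≤ m := by exact_mod_cast hm0
    have hm4R : 4 * (m : ℝ) < N := by exact_mod_cast hv0
    have hl1R : 4 * (l : ℝ) < N := by exact_mod_cast hl1
    have hl2R : -(N : ℝ) < 4 * l := by exact_mod_cast hl2
    have hrN : r * N = σ := by rw [hr]; field_simp
    have hrσ : r ≤ σ := by
      rw [hr]; exact div_le_self hσ0.le hN1
    have hd1R : (1 : ℝ) ≤ d := by exact_mod_cast hd1
    have hdnR : (d : ℝ) ≤ n := by exact_mod_cast hdn
    have hj0R : (0 : ℝ) ≤ j₀ := by positivity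
    have hjKR : (j₀ : ℝ) ≤ ((k - 1 : ℕ) : ℝ) * n := by
      have : j₀ ≤ (k - 1) * n := le_trans (Nat.le_add_right _ _) hjd
      exact_mod_cast this
    have hrm : r * m ≤ σ / 4 := by nlinarith
    have hrl1 : r * l ≤ σ / 4 := by nlinarith
    have hrl2 : -(σ / 4) ≤ r * l := by nlinarith
    have hrm0 : 0 ≤ r * m := by positivity
    have hσj : σ * j₀ ≤ σ * (((k - 1 : ℕ) : ℝ) * n) := by gcongr
    have hσj0 : 0 ≤ σ * j₀ := by positivity
    have hσd : σ * d ≤ σ * n := by gcongr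
    have hσd1 : σ ≤ σ * d := by nlinarith
    have hσn : σ ≤ σ * n := by nlinarith
    have hηexp : η = σ * (((k - 1 : ℕ) : ℝ) * n) + σ * n + 2 * σ := by
      rw [← hσM, hM]; ring
    have hσK : 0 ≤ σ * (((k - 1 : ℕ) : ℝ) * n) := by positivity
    refine ⟨⟨?_, ?_⟩, ⟨?_, ?_⟩, ?_⟩
    · linarith [hz1.1]
    · linarith [hz1.2]
    · linarith [hz2.1]
    · linarith [hz2.2]
    · intro i hi
      obtain ⟨p, hp, hyp⟩ := bb_near (hq' i hi)
      refine ⟨p, hp, ?_⟩
      have hik : (i : ℝ) + 1 ≤ k := by exact_mod_cast hi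
      have hi0 : (0 : ℝ) ≤ i := by positivity
      set t : ℝ := (z.1 - (σ * j₀ / 4 + r * m)) + i * (z.2 - (σ * d / 4 + r * l)) with ht
      have ht0 : 0 ≤ t := by
        have h1 : 0 ≤ z.1 - (σ * j₀ / 4 + r * m) := by linarith [hz1.1]
        have h2 : 0 ≤ z.2 - (σ * d / 4 + r * l) := by linarith [hz2.1]
        positivity
      have htr : t ≤ k * r := by
        have h1 : z.1 - (σ * j₀ / 4 + r * m) ≤ r := by linarith [hz1.2]
        have h2 : z.2 - (σ * d / 4 + r * l) ≤ r := by linarith [hz2.2]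
        calc t ≤ r + i * r := by rw [ht]; gcongr
          _ = (i + 1) * r := by ring
          _ ≤ k * r := by gcongr
      have hrN1 : r ≤ 1 / N := by
        rw [hr]; gcongr
      have htN : t ≤ k / N := by
        calc t ≤ k * r := htr
          _ ≤ k * (1 / N) := by gcongr
          _ = k / N := by ring
      have ht1 : t ≤ 1 := by
        refine le_trans htN ?_
        rw [div_le_one hNpos]
        exact hNk
      have huu : σ * uu (x + i • h) = r * m + i * (r * l) := by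
        have h1 : (((x + i • h).val : ℤ) : ℝ) = ((m + i * l : ℤ) : ℝ) := by
          rw [hprog i hi]
        push_cast at h1
        unfold uu
        rw [h1, hr]
        field_simp
      set E : ℝ := w + ((j₀ + i * d : ℕ) : ℝ) * θ + σ * uu (x + i • h) with hE
      have hEt : w + ((j₀ : ℝ) + i * d) * Real.log μ + z.1 + i * z.2 = E + t := by
        rw [hE, huu, ht, hθ]
        push_cast
        ring
      have hyy : yy w θ s σ (j₀ + i * d) (uu (x + i • h)) = Real.exp E - s := rfl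
      have hjK : ((j₀ + i * d : ℕ) : ℝ) ≤ ((k - 1 : ℕ) : ℝ) * n := by
        have h1 : i * d ≤ (k - 1) * d := Nat.mul_le_mul_right _ (by omega)
        have : j₀ + i * d ≤ (k - 1) * n := by omega
        exact_mod_cast this
      have hEF : E ≤ w + (((k - 1 : ℕ) : ℝ) * n * θ + 1) := by
        have h1 : ((j₀ + i * d : ℕ) : ℝ) * θ ≤ ((k - 1 : ℕ) : ℝ) * n * θ := by gcongr
        have h2 : σ * uu (x + i • h) ≤ 1 := by
          have h3 : uu (x + i • h) ≤ 1 := by linarith [hG4 i hi]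
          have h4 : 0 ≤ uu (x + i • h) := by unfold uu; positivity
          nlinarith
        linarith
      have hclose := bb_exp_close hEF ht0 ht1
      have hbound : Real.exp (w + (((k - 1 : ℕ) : ℝ) * n * θ + 1)) * (2 * t) ≤ ε / 2 := by
        have h1 : t ≤ k * Real.exp (-(2 * w)) := by
          refine le_trans htN ?_
          rw [Real.exp_neg, ← div_eq_mul_inv]
          gcongr
        calc Real.exp (w + (((k - 1 : ℕ) : ℝ) * n * θ + 1)) * (2 * t)
            ≤ Real.exp (w + (((k - 1 : ℕ) : ℝ) * n * θ + 1)) * (2 * (k * Real.exp (-(2 * w)))) := by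
              gcongr
          _ = 2 * k * Real.exp (((k - 1 : ℕ) : ℝ) * n * θ + 1) * Real.exp (-w) := by
              rw [Real.exp_add w, show -(2 * w) = -w + -w by ring, Real.exp_add (-w)]
              have : Real.exp w * Real.exp (-w) = 1 := by rw [← Real.exp_add]; simp
              linear_combination (2 * k * Real.exp (((k - 1 : ℕ) : ℝ) * n * θ + 1) * Real.exp (-w)) * this
          _ = (A * ε / 2) * Real.exp (-w) := by
              rw [hA]; field_simp; ring
          _ ≤ ε / 2 := by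
              have h2 : A ≤ Real.exp w := by
                have := Real.add_one_le_exp w
                linarith
              have h3 : A * Real.exp (-w) ≤ 1 := by
                rw [Real.exp_neg, ← div_eq_mul_inv, div_le_one (Real.exp_pos _)]
                exact h2
              calc (A * ε / 2) * Real.exp (-w) = (A * Real.exp (-w)) * (ε / 2) := by ring
                _ ≤ 1 * (ε / 2) := by gcongr
                _ = ε / 2 := by ring
      rw [hEt]
      rw [hyy] at hyp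
      calc |Real.exp (E + t) - s - p|
          = |(Real.exp (E + t) - Real.exp E) + (Real.exp E - s - p)| := by ring_nf
        _ ≤ |Real.exp (E + t) - Real.exp E| + |Real.exp E - s - p| := abs_add_le _ _
        _ ≤ ε / 2 + ε / 2 := add_le_add (le_trans hclose hbound) (le_trans hyp hε'2)
        _ = ε := by ring
  refine le_trans ?_ (measure_mono hsub)
  rw [measure_biUnion_finset hdisj (fun q _ => bbR_meas _ _ _ _ _)]
  have hvol : ∀ q ∈ G, volume (R q) = ENNReal.ofReal (r ^ 2) := fun q _ => bbR_vol _ _ hr0.le _ _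
  rw [Finset.sum_congr rfl hvol, Finset.sum_const, nsmul_eq_mul]
  rw [← ENNReal.ofReal_natCast, ← ENNReal.ofReal_mul (by positivity)]
  apply ENNReal.ofReal_le_ofReal
  calc c₂ * ε' ^ k / M ^ 2 * η ^ 2 / w ^ k = (c₂ * (ε' / w) ^ k * (N : ℝ) ^ 2) * r ^ 2 := by
        rw [hr, hσ, div_pow ε' w k]
        field_simp
    _ ≤ (G.card : ℝ) * r ^ 2 := by gcongr

end GPR
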