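import Pool.Agent.GPR.SDefs
import Pool.Agent.Lib.PNT

/-!
# GPR/PrDen: the density of the primes in the windows

Proof.  Let `Y = exp(w + jθ)`, `W = w + jθ ≤ 2w` (for `w ≥ Kθ`).  For a prime `q` with
`Y + |s| + 1 ≤ q ≤ Y e^{σ/4} - |s| - 1` and `q > D` the set of `u` with
`yy w θ s σ j u ∈ [q, q + ε)` is the interval `[(log(q+s) - W)/σ, (log(q+s+ε) - W)/σ) ⊆ [0, 1/4)`, of
length `≥ (1/σ) ε/(q + s + ε) ≥ ε/(σ Y e^{σ/4})` (`log(1+x) ≥ x/(1+x)`); for these `u`: `⌊yy⌋₊ = q`,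
`fract < ε`.  It contains at least `N ε/(σ Y e^{σ/4}) - 1` points `a/N`, `0 ≤ a < N`.  The intervals are
disjoint for different primes.  By the prime number theorem (`Lib/PNT`, `pi_real`) the number of these
primes is `≥ (1 - ρ)(e^{σ/4} - 1) Y/W` for every fixed `ρ > 0` and `w ≥ w₀` (`D ≤ e^{w/2}` costs
`O(Y^{1/2})`).  So the average is at least
`(1-ρ)(e^{σ/4} - 1)(Y/W) (ε/(σ Y e^{σ/4}) - e^{-2w}) ≥ (1-ρ)^2 ε (1 - e^{-σ/4})/(σ W)
 ≥ (1-ρ)^2 ε (1/4) e^{-1/4}/(2 w) ≥ ε/(16 w)`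
(`N ≥ e^{2w}`, `Y e^{-2w} → 0`: careful, `Y = e^{w + jθ}` with `jθ ≤ Kθ` fixed; and
`1 - e^{-x} ≥ x e^{-x}`, `x = σ/4 ≤ 1/4`).
-/

namespace GPR

open Filter Topology

/-! ### primes in a short interval -/

private theorem pc_split (A B : ℕ) (h : A ≤ B) :
    Nat.primeCounting B = Nat.primeCounting A + ((Finset.Ioc A B).filter Nat.Prime).card := by
  unfold Nat.primeCounting Nat.primeCounting'
  rw [Nat.count_eq_card_filter_range, Nat.count_eq_card_filter_range, ← Finset.card_union_of_disjoint]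
  · congr 1
    ext q
    simp only [Finset.mem_filter, Finset.mem_range, Finset.mem_union, Finset.mem_Ioc]
    constructor
    · rintro ⟨h1, h2⟩
      by_cases h3 : q < A + 1
      · exact Or.inl ⟨h3, h2⟩
      · exact Or.inr ⟨⟨by omega, by omega⟩, h2⟩
    · rintro (⟨h1, h2⟩ | ⟨⟨h1, h3⟩, h2⟩)
      · exact ⟨by omega, h2⟩
      · exact ⟨by omega, h2⟩
  · rw [Finset.disjoint_left]
    intro q h1 h2
    simp only [Finset.mem_filter, Finset.mem_range, Finset.mem_Ioc] at h1 h2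
    omega

/-- primes in `(a Y, b Y]`, `a = 1 + (E-1)/20`, `b = E - (E-1)/20` -/
private theorem prime_window (E : ℝ) (hE : 1 < E) (hE2 : E ≤ 13 / 10) :
    ∃ x₀ : ℝ, 1 < x₀ ∧ ∀ Y ≥ x₀, 4 / 5 * (E - 1) * Y / Real.log Y ≤
      (((Finset.Ioc ⌊(1 + (E - 1) / 20) * Y⌋₊ ⌊(E - (E - 1) / 20) * Y⌋₊).filter Nat.Prime).card : ℝ) := by
  set δ : ℝ := (E - 1) / 50 with hδ
  have hδ0 : 0 < δ := by rw [hδ]; linarith
  have hδ1 : δ ≤ 1 / 100 := by rw [hδ]; linarith
  have hp := Pool.Agent.Lib.PNT.pi_real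
  have h1 : ∀ᶠ x : ℝ in atTop, |(Nat.primeCounting ⌊x⌋₊ : ℝ) * Real.log x / x - 1| < δ := by
    have := (Metric.tendsto_nhds.1 hp) δ hδ0
    filter_upwards [this] with x hx
    rwa [Real.dist_eq] at hx
  obtain ⟨x₁, hx₁⟩ := eventually_atTop.1 h1
  refine ⟨max (max x₁ 3) (Real.exp (1 / δ)), ?_, ?_⟩
  · exact lt_of_lt_of_le (by norm_num) ((le_max_right x₁ 3).trans (le_max_left _ _))
  intro Y hY
  have hY1 : x₁ ≤ Y := (le_max_left _ _).trans ((le_max_left _ _).trans hY)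
  have hY3 : 3 ≤ Y := (le_max_right x₁ 3).trans ((le_max_left _ _).trans hY)
  have hYe : Real.exp (1 / δ) ≤ Y := (le_max_right _ _).trans hY
  have hY0 : 0 < Y := by linarith
  set a : ℝ := 1 + (E - 1) / 20 with ha
  set b : ℝ := E - (E - 1) / 20 with hb
  have ha1 : 1 < a := by rw [ha]; linarith
  have hab : a < b := by rw [ha, hb]; linarith
  have hb1 : b ≤ 13 / 10 := by rw [hb]; linarith
  set W := Real.log Y with hW
  have hW1 : 1 / δ ≤ W := by
    rw [hW]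
    have := Real.log_le_log (Real.exp_pos _) hYe
    rwa [Real.log_exp] at this
  have hW0 : 0 < W := lt_of_lt_of_le (by positivity) hW1
  have hWδ : 1 ≤ δ * W := by
    rw [div_le_iff₀ hδ0] at hW1
    linarith
  have hA := hx₁ (a * Y) (by nlinarith)
  have hB := hx₁ (b * Y) (by nlinarith)
  have hlA : Real.log (a * Y) = Real.log a + W := Real.log_mul (by linarith) hY0.ne'
  have hlB : Real.log (b * Y) = Real.log b + W := Real.log_mul (by linarith) hY0.ne'
  have hla : 0 ≤ Real.log a := Real.log_nonneg ha1.le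
  have hlb : Real.log b ≤ 3 / 10 := by
    have := Real.log_le_sub_one_of_pos (show 0 < b by linarith)
    linarith
  have hlb0 : 0 ≤ Real.log b := Real.log_nonneg (by linarith)
  rw [hlA] at hA
  rw [hlB] at hB
  have hA1 := (abs_lt.1 hA).2
  have hB1 := (abs_lt.1 hB).1
  -- upper bound for A
  have haY : 0 < a * Y := by positivity
  have hbY : 0 < b * Y := mul_pos (by linarith) hY0
  have hA2 : (Nat.primeCounting ⌊a * Y⌋₊ : ℝ) * W ≤ (1 + δ) * (a * Y) := by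
    have h2 : (Nat.primeCounting ⌊a * Y⌋₊ : ℝ) * (Real.log a + W) ≤ (1 + δ) * (a * Y) := by
      have h3 : (Nat.primeCounting ⌊a * Y⌋₊ : ℝ) * (Real.log a + W) / (a * Y) ≤ 1 + δ := by linarith
      rwa [div_le_iff₀ haY] at h3
    have h4 : (0 : ℝ) ≤ (Nat.primeCounting ⌊a * Y⌋₊ : ℝ) := Nat.cast_nonneg _
    nlinarith
  have hB2 : (1 - δ) * (b * Y) ≤ (Nat.primeCounting ⌊b * Y⌋₊ : ℝ) * (Real.log b + W) := by
    have h3 : 1 - δ ≤ (Nat.primeCounting ⌊b * Y⌋₊ : ℝ) * (Real.log b + W) / (b * Y) := by linarith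
    rwa [le_div_iff₀ hbY] at h3
  have hB3 : (1 - δ) * (b * Y) * (1 - δ) ≤ (Nat.primeCounting ⌊b * Y⌋₊ : ℝ) * W := by
    have h4 : (0 : ℝ) ≤ (Nat.primeCounting ⌊b * Y⌋₊ : ℝ) := Nat.cast_nonneg _
    have h5 : (Real.log b + W) * (1 - δ) ≤ W := by nlinarith
    calc (1 - δ) * (b * Y) * (1 - δ) ≤ (Nat.primeCounting ⌊b * Y⌋₊ : ℝ) * (Real.log b + W) * (1 - δ) :=
          mul_le_mul_of_nonneg_right hB2 (by linarith)
      _ = (Nat.primeCounting ⌊b * Y⌋₊ : ℝ) * ((Real.log b + W) * (1 - δ)) := by ring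
      _ ≤ _ := mul_le_mul_of_nonneg_left h5 h4
  have hsp := pc_split ⌊a * Y⌋₊ ⌊b * Y⌋₊ (Nat.floor_mono (by nlinarith))
  have hsp' : (Nat.primeCounting ⌊b * Y⌋₊ : ℝ) = (Nat.primeCounting ⌊a * Y⌋₊ : ℝ) +
      (((Finset.Ioc ⌊a * Y⌋₊ ⌊b * Y⌋₊).filter Nat.Prime).card : ℝ) := by
    rw [hsp]
    push_cast
    ring
  rw [div_le_iff₀ hW0]
  have h6 : (((Finset.Ioc ⌊a * Y⌋₊ ⌊b * Y⌋₊).filter Nat.Prime).card : ℝ) * W =
      (Nat.primeCounting ⌊b * Y⌋₊ : ℝ) * W - (Nat.primeCounting ⌊a * Y⌋₊ : ℝ) * W := by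
    rw [hsp']
    ring
  rw [h6]
  have h7 : 4 / 5 * (E - 1) ≤ (1 - δ) * b * (1 - δ) - (1 + δ) * a := by
    have e1 : E = 1 + 50 * δ := by rw [hδ]; ring
    have e2 : a = 1 + 5 / 2 * δ := by rw [ha, e1]; ring
    have e3 : b = 1 + 95 / 2 * δ := by rw [hb, e1]; ring
    rw [e1, e2, e3]
    nlinarith [mul_nonneg hδ0.le hδ0.le, mul_nonneg (mul_nonneg hδ0.le hδ0.le) hδ0.le]
  have h8 := mul_le_mul_of_nonneg_right h7 hY0.le
  nlinarith

/-! ### the points above one prime -/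

private theorem slot_card {N : ℕ} [NeZero N] {α β : ℝ} (hα : 0 ≤ α) (hβ : β ≤ 1 / 4) :
    (N : ℝ) * (β - α) - 1 ≤
      (((Finset.univ : Finset (ZMod N)).filter fun x => α ≤ uu x ∧ uu x < β).card : ℝ) := by
  classical
  have hN : 0 < N := Nat.pos_of_ne_zero (NeZero.ne N)
  have hN' : (0 : ℝ) < N := by exact_mod_cast hN
  have hsub : (Finset.Ico ⌈(N : ℝ) * α⌉₊ ⌈(N : ℝ) * β⌉₊).image (fun m : ℕ => (m : ZMod N)) ⊆
      (Finset.univ : Finset (ZMod N)).filter fun x => α ≤ uu x ∧ uu x < β := by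
    intro x hx
    obtain ⟨m, hm, rfl⟩ := Finset.mem_image.1 hx
    rw [Finset.mem_Ico] at hm
    have h1 : (N : ℝ) * α ≤ m := Nat.ceil_le.1 hm.1
    have h2 : (m : ℝ) < N * β := Nat.lt_ceil.1 hm.2
    have hmN : m < N := by
      have : (m : ℝ) < N := by nlinarith
      exact_mod_cast this
    have hval : ((m : ZMod N)).val = m := ZMod.val_natCast_of_lt hmN
    rw [Finset.mem_filter]
    refine ⟨Finset.mem_univ _, ?_, ?_⟩
    · unfold uu
      rw [hval, le_div_iff₀ hN']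
      linarith
    · unfold uu
      rw [hval, div_lt_iff₀ hN']
      linarith
  have hcard : ((Finset.Ico ⌈(N : ℝ) * α⌉₊ ⌈(N : ℝ) * β⌉₊).image (fun m : ℕ => (m : ZMod N))).card =
      ⌈(N : ℝ) * β⌉₊ - ⌈(N : ℝ) * α⌉₊ := by
    rw [Finset.card_image_of_injOn, Nat.card_Ico]
    intro m hm m' hm' h
    have hlt : ∀ m ∈ Finset.Ico ⌈(N : ℝ) * α⌉₊ ⌈(N : ℝ) * β⌉₊, m < N := by
      intro m hm
      rw [Finset.mem_Ico] at hm
      have h2 : (m : ℝ) < N * β := Nat.lt_ceil.1 hm.2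
      have : (m : ℝ) < N := by nlinarith
      exact_mod_cast this
    have e1 : ((m : ZMod N)).val = m := ZMod.val_natCast_of_lt (hlt m hm)
    have e2 : ((m' : ZMod N)).val = m' := ZMod.val_natCast_of_lt (hlt m' hm')
    have h' : ((m : ZMod N)) = (m' : ZMod N) := h
    rw [← e1, ← e2, h']
  have h3 := Finset.card_le_card hsub
  rw [hcard] at h3
  have h4 : (N : ℝ) * β ≤ ⌈(N : ℝ) * β⌉₊ := Nat.le_ceil _
  have h5 : (⌈(N : ℝ) * α⌉₊ : ℝ) < (N : ℝ) * α + 1 := Nat.ceil_lt_add_one (by positivity)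
  have h6 : ((⌈(N : ℝ) * β⌉₊ - ⌈(N : ℝ) * α⌉₊ : ℕ) : ℝ) ≥ (⌈(N : ℝ) * β⌉₊ : ℝ) - (⌈(N : ℝ) * α⌉₊ : ℝ) := by
    rcases le_total ⌈(N : ℝ) * α⌉₊ ⌈(N : ℝ) * β⌉₊ with h | h
    · rw [Nat.cast_sub h]
    · have : (⌈(N : ℝ) * β⌉₊ : ℝ) ≤ (⌈(N : ℝ) * α⌉₊ : ℝ) := by exact_mod_cast h
      have h7 : (0 : ℝ) ≤ ((⌈(N : ℝ) * β⌉₊ - ⌈(N : ℝ) * α⌉₊ : ℕ) : ℝ) := Nat.cast_nonneg _
      linarith
  have h7 : ((⌈(N : ℝ) * β⌉₊ - ⌈(N : ℝ) * α⌉₊ : ℕ) : ℝ) ≤
      (((Finset.univ : Finset (ZMod N)).filter fun x => α ≤ uu x ∧ uu x < β).card : ℝ) := by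
    exact_mod_cast h3
  have h8 : (N : ℝ) * (β - α) = N * β - N * α := by ring
  linarith

open Classical in
theorem pr_den (θ s σ ε : ℝ) (K : ℕ) (hθ : 0 ≤ θ) (hσ : 0 < σ) (hσ1 : σ ≤ 1) (hε : 0 < ε)
    (hε1 : ε ≤ 1 / 2) : ∃ w₀ : ℝ, ∀ w ≥ w₀, ∀ (N : ℕ) [NeZero N], Real.exp (2 * w) ≤ N →
    ∀ j ≤ K, ∀ D : ℕ, (D : ℝ) ≤ Real.exp (w / 2) →
      ε / (16 * w) ≤ av (fun x : ZMod N => if GG w θ s σ ε D j x then (1 : ℝ) else 0) := by
  set E := Real.exp (σ / 4) with hE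
  have hE1 : 1 < E := Real.one_lt_exp_iff.2 (by linarith)
  have hE2 : E ≤ 13 / 10 := by
    have h1 : E ≤ Real.exp (1 / 4) := Real.exp_le_exp.2 (by linarith)
    have h2 : Real.exp (1 / 4) ≤ 13 / 10 := by
      have h3 : Real.exp (1 / 4) ^ 4 = Real.exp 1 := by
        rw [← Real.exp_nat_mul]
        norm_num
      have h4 := Real.exp_one_lt_d9
      by_contra hcon
      push Not at hcon
      have h5 : (13 / 10 : ℝ) ^ 4 < Real.exp (1 / 4) ^ 4 := pow_lt_pow_left₀ hcon (by norm_num) (by norm_num)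
      rw [h3] at h5
      norm_num at h5
      linarith
    exact h1.trans h2
  have hEinv : 3 / 4 ≤ E⁻¹ := by
    rw [hE, ← Real.exp_neg]
    have := Real.add_one_le_exp (-(σ / 4))
    linarith
  have hE0 : 0 < E := by linarith
  obtain ⟨x₀, hx₀, hpr⟩ := prime_window E hE1 hE2
  -- the threshold
  set w₀ : ℝ := max (max 1 (K * θ)) (max (Real.log x₀)
    (max (Real.log ((|s| + 1) / ((E - 1) / 20))) (Real.log (10 * σ * E * Real.exp (K * θ) / ε)))) with hw₀
  refine ⟨w₀, ?_⟩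
  intro w hw N _ hN j hj D hD
  have hw1 : 1 ≤ w := (le_max_left _ _).trans ((le_max_left _ _).trans hw)
  have hwK : K * θ ≤ w := (le_max_right _ _).trans ((le_max_left _ _).trans hw)
  have hwx : Real.log x₀ ≤ w := (le_max_left _ _).trans ((le_max_right _ _).trans hw)
  have hws : Real.log ((|s| + 1) / ((E - 1) / 20)) ≤ w :=
    (le_max_left _ _).trans ((le_max_right _ _).trans ((le_max_right _ _).trans hw))
  have hwε : Real.log (10 * σ * E * Real.exp (K * θ) / ε) ≤ w :=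
    (le_max_right _ _).trans ((le_max_right _ _).trans ((le_max_right _ _).trans hw))
  have hw0 : 0 < w := by linarith
  set W : ℝ := w + j * θ with hW
  set Y : ℝ := Real.exp W with hY
  have hjθ : (j : ℝ) * θ ≤ K * θ := mul_le_mul_of_nonneg_right (by exact_mod_cast hj) hθ
  have hjθ0 : 0 ≤ (j : ℝ) * θ := mul_nonneg (Nat.cast_nonneg _) hθ
  have hWw : w ≤ W := by rw [hW]; linarith
  have hW2 : W ≤ 2 * w := by rw [hW]; linarith
  have hYw : Real.exp w ≤ Y := Real.exp_le_exp.2 hWw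
  have hY0 : 0 < Y := Real.exp_pos _
  have hlogY : Real.log Y = W := Real.log_exp W
  have hYx : x₀ ≤ Y := by
    refine le_trans ?_ hYw
    have := Real.exp_le_exp.2 hwx
    rwa [Real.exp_log (by linarith)] at this
  have hYs : |s| + 1 ≤ (E - 1) / 20 * Y := by
    have h0 : 0 < (E - 1) / 20 := by linarith
    have h1 := Real.exp_le_exp.2 hws
    rw [Real.exp_log (by positivity), div_le_iff₀ h0] at h1
    have h2 := mul_le_mul_of_nonneg_left hYw h0.le
    linarith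
  have hN0 : (0 : ℝ) < N := lt_of_lt_of_le (Real.exp_pos _) hN
  -- the primes
  set P : Finset ℕ := (Finset.Ioc ⌊(1 + (E - 1) / 20) * Y⌋₊ ⌊(E - (E - 1) / 20) * Y⌋₊).filter Nat.Prime with hP
  have hPc := hpr Y hYx
  rw [hlogY] at hPc
  -- length of a slot
  set ℓ : ℝ := ε / (σ * (Y * E)) with hℓ
  have hℓ0 : 0 < ℓ := by rw [hℓ]; positivity
  have hℓN : 1 / (N : ℝ) ≤ ℓ / 10 := by
    have h1 := Real.exp_le_exp.2 hwε
    rw [Real.exp_log (by positivity), div_le_iff₀ hε] at h1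
    have h2 : Y ≤ Real.exp w * Real.exp (K * θ) := by
      rw [hY, ← Real.exp_add]
      exact Real.exp_le_exp.2 (by rw [hW]; linarith)
    have h3 : Real.exp (2 * w) = Real.exp w * Real.exp w := by rw [← Real.exp_add]; ring_nf
    rw [hℓ, div_div, div_le_div_iff₀ hN0 (by positivity), one_mul]
    calc σ * (Y * E) * 10 ≤ σ * ((Real.exp w * Real.exp (K * θ)) * E) * 10 := by
          have : Y * E ≤ (Real.exp w * Real.exp (K * θ)) * E := mul_le_mul_of_nonneg_right h2 hE0.le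
          have := mul_le_mul_of_nonneg_left this hσ.le
          linarith
      _ = Real.exp w * (10 * σ * E * Real.exp (K * θ)) := by ring
      _ ≤ Real.exp w * (Real.exp w * ε) := mul_le_mul_of_nonneg_left h1 (Real.exp_pos _).le
      _ = ε * Real.exp (2 * w) := by rw [h3]; ring
      _ ≤ ε * N := mul_le_mul_of_nonneg_left hN hε.le
  -- slots
  let α : ℕ → ℝ := fun q => (Real.log (q + s) - W) / σ
  let β : ℕ → ℝ := fun q => (Real.log (q + s + ε) - W) / σ
  have hPm : ∀ q ∈ P, Nat.Prime q ∧ Y ≤ q + s ∧ (q : ℝ) + s + ε ≤ Y * E ∧ Y < q := by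
    intro q hq
    rw [hP, Finset.mem_filter, Finset.mem_Ioc] at hq
    obtain ⟨⟨h1, h2⟩, h3⟩ := hq
    have h4 : (1 + (E - 1) / 20) * Y < q := (Nat.floor_lt (by positivity)).1 h1
    have h5 : (q : ℝ) ≤ (E - (E - 1) / 20) * Y := by
      have h6 : (q : ℝ) ≤ (⌊(E - (E - 1) / 20) * Y⌋₊ : ℝ) := by exact_mod_cast h2
      exact h6.trans (Nat.floor_le (mul_nonneg (by linarith) hY0.le))
    have h7 := neg_abs_le s
    have h8 := le_abs_self s
    have h9 := abs_nonneg s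
    refine ⟨h3, ?_, ?_, ?_⟩
    · nlinarith
    · nlinarith
    · nlinarith
  have hαβ : ∀ q ∈ P, 0 ≤ α q ∧ β q ≤ 1 / 4 ∧ ℓ ≤ β q - α q := by
    intro q hq
    obtain ⟨h1, h2, h3, h4⟩ := hPm q hq
    have hqs : 0 < (q : ℝ) + s := by linarith
    have e1 : W ≤ Real.log (q + s) := by
      rw [← hlogY]
      exact Real.log_le_log hY0 h2
    have e2 : Real.log (q + s + ε) ≤ W + σ / 4 := by
      have h5 := Real.log_le_log (by linarith) h3
      rw [Real.log_mul hY0.ne' hE0.ne', hlogY, hE, Real.log_exp] at h5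
      exact h5
    refine ⟨div_nonneg (by linarith) hσ.le, ?_, ?_⟩
    · change (Real.log (q + s + ε) - W) / σ ≤ 1 / 4
      rw [div_le_iff₀ hσ]
      linarith
    · have e3 : β q - α q = (Real.log (q + s + ε) - Real.log (q + s)) / σ := by
        change (Real.log (q + s + ε) - W) / σ - (Real.log (q + s) - W) / σ = _
        ring
      rw [e3, hℓ, le_div_iff₀ hσ]
      have e4 : Real.log (q + s + ε) - Real.log (q + s) = -Real.log ((q + s) / (q + s + ε)) := by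
        rw [Real.log_div hqs.ne' (by linarith)]
        ring
      have e5 : Real.log ((q + s) / (q + s + ε)) ≤ (q + s) / (q + s + ε) - 1 :=
        Real.log_le_sub_one_of_pos (by positivity)
      have e6 : (q + s) / (q + s + ε) - 1 = -(ε / (q + s + ε)) := by
        have : (q : ℝ) + s + ε ≠ 0 := by linarith
        field_simp
        ring
      rw [e4]
      have e7 : ε / (Y * E) ≤ ε / (q + s + ε) := div_le_div_of_nonneg_left hε.le (by linarith) h3
      have e8 : ε / (σ * (Y * E)) * σ = ε / (Y * E) := by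
        have := hσ.ne'
        field_simp
      rw [e8]
      linarith
  let S : ℕ → Finset (ZMod N) := fun q => Finset.univ.filter fun x => α q ≤ uu x ∧ uu x < β q
  have hfl : ∀ q ∈ P, ∀ x ∈ S q, uu x < 1 / 4 ∧ (q : ℝ) ≤ yy w θ s σ j (uu x) ∧
      yy w θ s σ j (uu x) < q + ε := by
    intro q hq x hx
    obtain ⟨h1, h2, h3, h4⟩ := hPm q hq
    obtain ⟨g1, g2, g3⟩ := hαβ q hq
    have hx' := (Finset.mem_filter.1 hx).2
    have hqs : 0 < (q : ℝ) + s := by linarith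
    have k1 : Real.log (q + s) ≤ w + j * θ + σ * uu x := by
      have : (Real.log (q + s) - W) / σ ≤ uu x := hx'.1
      rw [div_le_iff₀ hσ] at this
      rw [hW] at this
      linarith
    have k2 : w + j * θ + σ * uu x < Real.log (q + s + ε) := by
      have : uu x < (Real.log (q + s + ε) - W) / σ := hx'.2
      rw [lt_div_iff₀ hσ] at this
      rw [hW] at this
      linarith
    refine ⟨lt_of_lt_of_le hx'.2 g2, ?_, ?_⟩
    · unfold yy
      have := Real.exp_le_exp.2 k1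
      rw [Real.exp_log hqs] at this
      linarith
    · unfold yy
      have := Real.exp_lt_exp.2 k2
      rw [Real.exp_log (by linarith)] at this
      linarith
  have hfloor : ∀ q ∈ P, ∀ x ∈ S q, ⌊yy w θ s σ j (uu x)⌋₊ = q := by
    intro q hq x hx
    obtain ⟨_, h2, h3⟩ := hfl q hq x hx
    rw [Nat.floor_eq_iff (le_trans (Nat.cast_nonneg q) h2)]
    exact ⟨h2, by linarith⟩
  have hdisj : ∀ q ∈ P, ∀ q' ∈ P, q ≠ q' → Disjoint (S q) (S q') := by
    intro q hq q' hq' hne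
    rw [Finset.disjoint_left]
    intro x hx hx'
    exact hne ((hfloor q hq x hx).symm.trans (hfloor q' hq' x hx'))
  have hsub : P.biUnion S ⊆ Finset.univ.filter fun x : ZMod N => GG w θ s σ ε D j x := by
    intro x hx
    obtain ⟨q, hq, hxq⟩ := Finset.mem_biUnion.1 hx
    obtain ⟨h1, h2, h3⟩ := hfl q hq x hxq
    have h4 := hfloor q hq x hxq
    obtain ⟨p1, p2, p3, p4⟩ := hPm q hq
    rw [Finset.mem_filter]
    refine ⟨Finset.mem_univ _, h1, ?_, ?_, ?_⟩
    · have h5 : ⌊yy w θ s σ j (uu x)⌋ = (q : ℤ) := by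
        rw [Int.floor_eq_iff]
        push_cast
        exact ⟨h2, by linarith⟩
      rw [← Int.self_sub_floor, h5]
      push_cast
      linarith
    · rw [h4]
      exact p1
    · rw [h4]
      have h5 : (D : ℝ) < q := by
        have : Real.exp (w / 2) ≤ Real.exp w := Real.exp_le_exp.2 (by linarith)
        linarith
      exact_mod_cast h5
  -- counting
  have hcount : (P.card : ℝ) * ((N : ℝ) * ℓ - 1) ≤
      ((Finset.univ.filter fun x : ZMod N => GG w θ s σ ε D j x).card : ℝ) := by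
    have h1 : (P.biUnion S).card = ∑ q ∈ P, (S q).card := Finset.card_biUnion hdisj
    have h2 : ((P.biUnion S).card : ℝ) ≤
        ((Finset.univ.filter fun x : ZMod N => GG w θ s σ ε D j x).card : ℝ) := by
      exact_mod_cast Finset.card_le_card hsub
    refine le_trans ?_ h2
    rw [h1]
    push_cast
    have h3 : (P.card : ℝ) * ((N : ℝ) * ℓ - 1) = ∑ _q ∈ P, ((N : ℝ) * ℓ - 1) := by
      rw [Finset.sum_const, nsmul_eq_mul]
    rw [h3]
    refine Finset.sum_le_sum fun q hq => ?_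
    obtain ⟨g1, g2, g3⟩ := hαβ q hq
    refine le_trans ?_ (slot_card (N := N) g1 g2)
    have := mul_le_mul_of_nonneg_left g3 hN0.le
    linarith
  have hav : av (fun x : ZMod N => if GG w θ s σ ε D j x then (1 : ℝ) else 0) =
      ((Finset.univ.filter fun x : ZMod N => GG w θ s σ ε D j x).card : ℝ) / N := by
    unfold av
    rw [Finset.sum_boole, ZMod.card]
  rw [hav, le_div_iff₀ hN0]
  refine le_trans ?_ hcount
  -- the numbers
  have hW0 : 0 < W := by linarith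
  have n1 : 9 / 10 * ℓ * N ≤ (N : ℝ) * ℓ - 1 := by
    have h1 : 1 ≤ ℓ / 10 * N := by
      rwa [div_le_iff₀ hN0] at hℓN
    linarith
  have n2 : 4 / 5 * (E - 1) * Y / W * (9 / 10 * ℓ * N) ≤ (P.card : ℝ) * ((N : ℝ) * ℓ - 1) :=
    mul_le_mul hPc n1 (by positivity) (Nat.cast_nonneg _)
  refine le_trans ?_ n2
  have n3 : 4 / 5 * (E - 1) * Y / W * (9 / 10 * ℓ * N) = 18 / 25 * ((E - 1) * E⁻¹ / σ) * (ε / W) * N := by
    rw [hℓ]
    have := hσ.ne'
    have := hY0.ne'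
    have := hE0.ne'
    field_simp
    ring
  rw [n3]
  have n4 : 3 / 16 ≤ (E - 1) * E⁻¹ / σ := by
    rw [le_div_iff₀ hσ]
    have h1 : σ / 4 ≤ E - 1 := by
      have := Real.add_one_le_exp (σ / 4)
      rw [← hE] at this
      linarith
    have h2 : σ / 4 * (3 / 4) ≤ (E - 1) * E⁻¹ := mul_le_mul h1 hEinv (by norm_num) (by linarith)
    linarith
  have n5 : ε / (2 * w) ≤ ε / W := div_le_div_of_nonneg_left hε.le hW0 hW2
  have n6 : 18 / 25 * (3 / 16) * (ε / (2 * w)) ≤ 18 / 25 * ((E - 1) * E⁻¹ / σ) * (ε / W) := by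
    refine mul_le_mul ?_ n5 (by positivity) ?_
    · linarith
    · have : 0 ≤ (E - 1) * E⁻¹ / σ := le_trans (by norm_num) n4
      positivity
  have n7 : ε / (16 * w) ≤ 18 / 25 * (3 / 16) * (ε / (2 * w)) := by
    have e1 : 18 / 25 * (3 / 16) * (ε / (2 * w)) = (27 / 400) * (ε / w) := by
      field_simp
      ring
    have e2 : ε / (16 * w) = 1 / 16 * (ε / w) := by
      field_simp
    rw [e1, e2]
    have : 0 ≤ ε / w := by positivity
    nlinarith
  exact mul_le_mul_of_nonneg_right (n7.trans n6) hN0.le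

end GPR
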