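import Pool.Agent.GPR.Dmt

/-!
# GPR/DmtCut: the dense model theorem for the cut norm on a finite abelian group

Proof.  Apply `dense_model` with `Φ` the set of the generalised convolutions
`φ x = av_{y : Fin r → G, ∑ y = x} ∏_l U l y`, `|U l| ≤ 1`, `U l` independent of the coordinate `l`.
To avoid sums over fibres define `φ_U x = card G * av_{y : Fin r → G} (1[∑ y = x] ∏_l U l y)`; as `r ≥ 1`
all fibres of `y ↦ ∑ y` have `card G^(r-1)` elements, so `|φ_U| ≤ 1`, and for all `g : G → ℝ`: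
`av_x (g x φ_U x) = av_y (g (∑ y) ∏_l U l y)`.                                                   (1)
So the conclusion of `dense_model` is `CutG r (f - g) ε`.  Hypothesis: for `U_1, ..., U_m`,
`av_x ((ν x - 1) ∏_a φ_{U_a} x)` is, with `Z = {z : Fin r → G | ∑ z = 0}` (nonempty finite):
`φ_U x = av_{z ∈ Z} ∏_l U l (y + z)` for any `y` with `∑ y = x`; so
`∏_a φ_{U_a}(∑ y) = av_{(z_a) ∈ Z^m} ∏_l ∏_a U_a l (y + z_a)`, and the average over `x` of
`(ν x - 1) ∏_a φ_{U_a} x` equals (all fibres have the same size) the average over `y : Fin r → G` of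
`(ν (∑ y) - 1) ∏_a φ_{U_a}(∑ y)` `= av_{(z_a)} av_y (ν (∑ y) - 1) ∏_l U' l y` with
`U' l y = ∏_a U_a l (y + z_a)`, bounded by `1` and independent of the coordinate `l`.  Each inner average
is `≤ ε'` in absolute value by `CutG r (ν - 1) ε'`.
-/

namespace GPR

private abbrev DCZ (s : ℕ) (G : Type) [AddCommGroup G] : Type := {z : Fin (s + 1) → G // ∑ l, z l = 0}

private noncomputable instance (s : ℕ) (G : Type) [Fintype G] [AddCommGroup G] : Fintype (DCZ s G) :=
  Fintype.ofFinite _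

private instance (s : ℕ) (G : Type) [AddCommGroup G] : Nonempty (DCZ s G) := ⟨⟨0, by simp⟩⟩

private theorem DC_single {s : ℕ} {G : Type} [AddCommGroup G] (x : G) :
    ∑ l, (Pi.single (0 : Fin (s + 1)) x : Fin (s + 1) → G) l = x := by
  rw [Finset.sum_pi_single']
  simp

private noncomputable def DCe (s : ℕ) (G : Type) [AddCommGroup G] : G × DCZ s G ≃ (Fin (s + 1) → G) where
  toFun p := Pi.single 0 p.1 + p.2.1
  invFun y := (∑ l, y l, ⟨y - Pi.single 0 (∑ l, y l), by
    simp only [Pi.sub_apply, Finset.sum_sub_distrib]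
    rw [DC_single, sub_self]⟩)
  left_inv p := by
    have h : ∑ l, (Pi.single (0 : Fin (s + 1)) p.1 + p.2.1 : Fin (s + 1) → G) l = p.1 := by
      simp only [Pi.add_apply, Finset.sum_add_distrib]
      rw [DC_single, p.2.2, add_zero]
    refine Prod.ext h (Subtype.ext ?_)
    show Pi.single 0 p.1 + p.2.1 - Pi.single 0 (∑ l, (Pi.single (0 : Fin (s + 1)) p.1 + p.2.1 : Fin (s + 1) → G) l) = p.2.1
    rw [h, add_sub_cancel_left]
  right_inv y := by
    show Pi.single 0 (∑ l, y l) + (y - Pi.single 0 (∑ l, y l)) = y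
    rw [add_sub_cancel]

private theorem DC_sum {s : ℕ} {G : Type} [AddCommGroup G] (x : G) (z : DCZ s G) :
    ∑ l, (Pi.single (0 : Fin (s + 1)) x + z.1 : Fin (s + 1) → G) l = x := by
  simp only [Pi.add_apply, Finset.sum_add_distrib]
  rw [DC_single, z.2, add_zero]

section

variable {s : ℕ} {G : Type} [Fintype G] [AddCommGroup G]

private theorem DC_split (h : (Fin (s + 1) → G) → ℝ) :
    av h = av (fun x : G => av (fun z : DCZ s G => h (Pi.single 0 x + z.1))) := by
  rw [← av_equiv (DCe s G) h, av_prod]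
  rfl

/-- the generalised convolution -/
private noncomputable def DCphi (U : Fin (s + 1) → (Fin (s + 1) → G) → ℝ) (x : G) : ℝ :=
  av (fun z : DCZ s G => ∏ l, U l (Pi.single 0 x + z.1))

private theorem DC_one (g : G → ℝ) (U : Fin (s + 1) → (Fin (s + 1) → G) → ℝ) :
    av (fun y : Fin (s + 1) → G => g (∑ l, y l) * ∏ l, U l y) = av (fun x => g x * DCphi U x) := by
  rw [DC_split]
  congr 1
  funext x
  simp only [DC_sum]
  rw [av_mul_left]
  rfl

private theorem DC_fib (F : G → ℝ) : av F = av (fun y : Fin (s + 1) → G => F (∑ l, y l)) := by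
  rw [DC_split]
  congr 1
  funext x
  simp only [DC_sum]
  rw [av_const]

private def DCt (z0 : DCZ s G) : DCZ s G ≃ DCZ s G where
  toFun z := ⟨z0.1 + z.1, by
    simp only [Pi.add_apply, Finset.sum_add_distrib]
    rw [z0.2, z.2, add_zero]⟩
  invFun z := ⟨-z0.1 + z.1, by
    simp only [Pi.add_apply, Pi.neg_apply, Finset.sum_add_distrib, Finset.sum_neg_distrib]
    rw [z0.2, z.2, neg_zero, add_zero]⟩
  left_inv z := by
    refine Subtype.ext ?_
    show -z0.1 + (z0.1 + z.1) = z.1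
    rw [neg_add_cancel_left]
  right_inv z := by
    refine Subtype.ext ?_
    show z0.1 + (-z0.1 + z.1) = z.1
    rw [add_neg_cancel_left]

private theorem DC_phi (U : Fin (s + 1) → (Fin (s + 1) → G) → ℝ) (y : Fin (s + 1) → G) :
    DCphi U (∑ l, y l) = av (fun z : DCZ s G => ∏ l, U l (y + z.1)) := by
  unfold DCphi
  rw [← av_equiv (DCt (⟨y - Pi.single 0 (∑ l, y l), by
    simp only [Pi.sub_apply, Finset.sum_sub_distrib]
    rw [DC_single, sub_self]⟩ : DCZ s G))]
  congr 1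
  funext z
  have h : (Pi.single 0 (∑ l, y l) + (y - Pi.single 0 (∑ l, y l) + z.1) : Fin (s + 1) → G) = y + z.1 := by
    abel
  show ∏ l, U l (Pi.single 0 (∑ l, y l) + (y - Pi.single 0 (∑ l, y l) + z.1)) = _
  rw [h]

private theorem DC_prod_le {ι : Type} (S : Finset ι) (f : ι → ℝ) (h : ∀ i, |f i| ≤ 1) : |∏ i ∈ S, f i| ≤ 1 := by
  rw [Finset.abs_prod]
  exact Finset.prod_le_one (fun i _ => abs_nonneg _) fun i _ => h i

private theorem DC_phi_le {U : Fin (s + 1) → (Fin (s + 1) → G) → ℝ} (hU : ∀ l x, |U l x| ≤ 1) (x : G) :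
    |DCphi U x| ≤ 1 := by
  unfold DCphi
  refine (abs_av_le _).trans (av_le fun z => ?_)
  exact DC_prod_le _ _ fun l => hU l _

private theorem DC_prod_av {m : ℕ} {Z : Type} [Fintype Z] (f : Fin m → Z → ℝ) :
    ∏ a, av (f a) = av (fun w : Fin m → Z => ∏ a, f a (w a)) := by
  unfold av
  rw [Finset.prod_div_distrib, Finset.prod_const, Finset.card_univ, Fintype.card_fin, Fintype.card_fun,
    Fintype.card_fin]
  push_cast
  congr 1
  rw [Finset.prod_univ_sum, Fintype.piFinset_univ]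

private theorem DC_swap {X Y : Type} [Fintype X] [Fintype Y] (f : X → Y → ℝ) :
    av (fun x => av (fun y => f x y)) = av (fun y => av (fun x => f x y)) := by
  rw [← av_prod (fun p : X × Y => f p.1 p.2), av_prod']

end

theorem dmt_cut {r : ℕ} (hr : 1 ≤ r) (ε : ℝ) (hε : 0 < ε) :
    ∃ ε' : ℝ, 0 < ε' ∧ ∀ (G : Type) [Fintype G] [AddCommGroup G] (ν f : G → ℝ),
      (∀ x, 0 ≤ f x) → (∀ x, f x ≤ ν x) → CutG r (fun x => ν x - 1) ε' →
      ∃ g : G → ℝ, (∀ x, 0 ≤ g x) ∧ (∀ x, g x ≤ 1) ∧ CutG r (fun x => f x - g x) ε := by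
  obtain ⟨s, rfl⟩ : ∃ s, r = s + 1 := ⟨r - 1, by omega⟩
  obtain ⟨M, ε', hε', hdm⟩ := dense_model ε hε
  refine ⟨ε', hε', ?_⟩
  intro G _ _ ν f hf hfν hcut
  have hA : ∀ φ ∈ {φ : G → ℝ | ∃ U : Fin (s + 1) → (Fin (s + 1) → G) → ℝ,
      (∀ l x, |U l x| ≤ 1) ∧ (∀ l, Ind1 l (U l)) ∧ φ = DCphi U}, ∀ x, |φ x| ≤ 1 := by
    rintro φ ⟨U, hU1, -, rfl⟩ x
    exact DC_phi_le hU1 x
  have hB : ∀ m ≤ M, ∀ φ : Fin m → G → ℝ, (∀ i, φ i ∈ {φ : G → ℝ | ∃ U : Fin (s + 1) → (Fin (s + 1) → G) → ℝ,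
      (∀ l x, |U l x| ≤ 1) ∧ (∀ l, Ind1 l (U l)) ∧ φ = DCphi U}) →
      |av (fun x => (ν x - 1) * ∏ i, φ i x)| ≤ ε' := by
    intro m _ φ hφ
    choose U hU1 hU2 hU3 using hφ
    have h1 : av (fun x => (ν x - 1) * ∏ i, φ i x) =
        av (fun w : Fin m → DCZ s G => av (fun y : Fin (s + 1) → G =>
          (ν (∑ l, y l) - 1) * ∏ l, ∏ i, U i l (y + (w i).1))) := by
      rw [DC_fib (s := s), DC_swap]
      congr 1
      funext y
      have h2 : ∏ i, φ i (∑ l, y l) = av (fun w : Fin m → DCZ s G => ∏ l, ∏ i, U i l (y + (w i).1)) := by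
        have h3 : ∀ i, φ i (∑ l, y l) = av (fun z : DCZ s G => ∏ l, U i l (y + z.1)) := fun i => by
          rw [hU3 i, DC_phi]
        simp only [h3]
        rw [DC_prod_av]
        congr 1
        funext w
        rw [Finset.prod_comm]
      rw [h2, av_mul_left]
    rw [h1]
    refine (abs_av_le _).trans (av_le fun w => ?_)
    refine hcut (fun l y => ∏ i, U i l (y + (w i).1)) (fun l y => ?_) (fun l x y hxy => ?_)
    · exact DC_prod_le _ _ fun i => hU1 i l _
    · refine Finset.prod_congr rfl fun i _ => hU2 i l _ _ fun l' hl' => ?_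
      rw [Pi.add_apply, Pi.add_apply, hxy l' hl']
  obtain ⟨g, hg0, hg1, hg⟩ := hdm G _ hA ν f hf hfν hB
  refine ⟨g, hg0, hg1, fun U hU1 hU2 => ?_⟩
  have h1 := hg (DCphi U) ⟨U, hU1, hU2, rfl⟩
  rw [← DC_one (fun x => f x - g x) U] at h1
  exact h1

end GPR
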