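import Pool.Agent.GPR.HDefs

/-!
# GPR/Link: arithmetic progressions in `ZMod N` as simplices

`psi_ind`: clear, the coefficient of `x_i` in `psi i` is `0`.
`psi_count`: `psi i x = a + i h` with `h = ∑ x_l`, `a = - ∑ l x_l`; for fixed other coordinates the
map `(x_0, x_1) ↦ (a, h)` is a bijection of `G^2` (`k ≥ 2`); so `x ↦ (a, h)` is a surjective group
homomorphism `G^k → G^2` and the averages agree.
`cut_to`, `cut_from`: `N` prime, `k ≤ N`: for `l ≠ i` the coefficient `i - l` is invertible.  Write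
`x : Fin k → G` as the coordinate `x i` and `y : Fin (k-1) → G`, with
`y_m = (i - l) x_l`, `l = i.succAbove m` (write `k = r + 1`): a bijection, `psi i x = ∑ y_m`.
A function `U l` of `x` independent of the coordinates `l` and `i` becomes a function of `y`
independent of the coordinate `m`, and conversely.
-/

namespace GPR

theorem psi_ind {k N : ℕ} (i : Fin k) (f : ZMod N → ℝ) :
    Ind1 i (fun x : Fin k → ZMod N => f (psi i x)) := by
  intro x y hxy
  have : psi i x = psi i y := by
    unfold psi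
    refine Finset.sum_congr rfl fun l _ => ?_
    by_cases hl : l = i
    · subst hl; simp
    · rw [hxy l hl]
  show f (psi i x) = f (psi i y)
  rw [this]

/-- the equivalence behind `psi_count` -/
private def linkE (r N : ℕ) :
    (ZMod N × ZMod N) × (Fin r → ZMod N) ≃ (Fin (r + 2) → ZMod N) where
  toFun p := Fin.cons (p.1.2 + p.1.1 + (∑ l : Fin r, (((l : ℕ) : ZMod N) + 2) * p.2 l) - ∑ l, p.2 l)
    (Fin.cons (- p.1.1 - ∑ l : Fin r, (((l : ℕ) : ZMod N) + 2) * p.2 l) p.2)
  invFun x := ((- ∑ l : Fin (r + 2), ((l : ℕ) : ZMod N) * x l, ∑ l, x l), fun l => x l.succ.succ)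
  left_inv p := by
    obtain ⟨⟨a, h⟩, z⟩ := p
    ext l
    · simp [Fin.sum_univ_succ]
      rw [show (∑ x : Fin r, ((x : ℕ) + 1 + 1 : ZMod N) * z x) =
        ∑ x : Fin r, (((x : ℕ) : ZMod N) + 2) * z x from
        Finset.sum_congr rfl fun l _ => by ring]
      ring
    · simp [Fin.sum_univ_succ]
    · simp
  right_inv x := by
    funext l
    refine Fin.cases ?_ (fun l => Fin.cases ?_ (fun l => ?_) l) l
    · simp [Fin.sum_univ_succ]
      rw [show (∑ i : Fin r, ((i : ℕ) + 1 + 1 : ZMod N) * x i.succ.succ) =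
        ∑ i : Fin r, (((i : ℕ) : ZMod N) + 2) * x i.succ.succ from
        Finset.sum_congr rfl fun l _ => by ring]
      ring
    · simp [Fin.sum_univ_succ]
      rw [show (∑ i : Fin r, ((i : ℕ) + 1 + 1 : ZMod N) * x i.succ.succ) =
        ∑ i : Fin r, (((i : ℕ) : ZMod N) + 2) * x i.succ.succ from
        Finset.sum_congr rfl fun l _ => by ring]
      ring
    · simp

private theorem psi_eq {k N : ℕ} (i : Fin k) (x : Fin k → ZMod N) :
    psi i x = (- ∑ l : Fin k, ((l : ℕ) : ZMod N) * x l) + (i : ℕ) • ∑ l, x l := by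
  unfold psi
  rw [nsmul_eq_mul, Finset.mul_sum, neg_add_eq_sub, ← Finset.sum_sub_distrib]
  exact Finset.sum_congr rfl fun l _ => by ring

theorem psi_count {k N : ℕ} [NeZero N] (hk : 2 ≤ k) (g : ℕ → ZMod N → ℝ) :
    av (fun x : Fin k → ZMod N => ∏ i : Fin k, g i (psi i x)) =
      av (fun q : ZMod N × ZMod N => ∏ i ∈ Finset.range k, g i (q.1 + i • q.2)) := by
  obtain ⟨r, rfl⟩ : ∃ r, k = r + 2 := ⟨k - 2, by omega⟩
  rw [← av_equiv (linkE r N) (fun x : Fin (r + 2) → ZMod N => ∏ i : Fin (r + 2), g i (psi i x)),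
    av_prod]
  congr 1
  funext q
  have h : ∀ z : Fin r → ZMod N,
      (∏ i : Fin (r + 2), g i (psi i ((linkE r N) (q, z)))) =
        ∏ i ∈ Finset.range (r + 2), g i (q.1 + i • q.2) := by
    intro z
    rw [Finset.prod_range]
    refine Finset.prod_congr rfl fun i _ => ?_
    rw [psi_eq]
    have h1 : (linkE r N).symm ((linkE r N) (q, z)) = (q, z) := Equiv.symm_apply_apply _ _
    have h2 : (- ∑ l : Fin (r + 2), ((l : ℕ) : ZMod N) * (linkE r N) (q, z) l,
        ∑ l, (linkE r N) (q, z) l) = q := congrArg Prod.fst h1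
    have h3 := congrArg Prod.fst h2
    have h4 := congrArg Prod.snd h2
    simp only at h3 h4
    rw [h3, h4]
  rw [show (fun y => ∏ i : Fin (r + 2), g i (psi i ((linkE r N) (q, y)))) =
    fun _ => ∏ i ∈ Finset.range (r + 2), g i (q.1 + i • q.2) from funext h, av_const]

/-- the coordinates of `x` other than `i`, multiplied by their coefficients in `psi i` -/
private def prj {r N : ℕ} (i : Fin (r + 1)) (x : Fin (r + 1) → ZMod N) : Fin r → ZMod N :=
  fun m => (((i : ℕ) : ZMod N) - ((i.succAbove m : ℕ) : ZMod N)) * x (i.succAbove m)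

/-- section of `prj` -/
private def emb {r N : ℕ} (i : Fin (r + 1)) (t : ZMod N) (y : Fin r → ZMod N) :
    Fin (r + 1) → ZMod N :=
  i.insertNth t
    (fun m => (((i : ℕ) : ZMod N) - ((i.succAbove m : ℕ) : ZMod N))⁻¹ * y m)

private theorem psi_prj {r N : ℕ} (i : Fin (r + 1)) (x : Fin (r + 1) → ZMod N) :
    psi i x = ∑ m, prj i x m := by
  unfold psi prj
  rw [Fin.sum_univ_succAbove _ i]
  simp

private theorem coef_ne {r N : ℕ} (hN : r + 1 ≤ N) (i : Fin (r + 1)) (m : Fin r) :
    (((i : ℕ) : ZMod N) - ((i.succAbove m : ℕ) : ZMod N)) ≠ 0 := by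
  intro h
  rw [sub_eq_zero, ZMod.natCast_eq_natCast_iff'] at h
  rw [Nat.mod_eq_of_lt (lt_of_lt_of_le i.2 hN),
    Nat.mod_eq_of_lt (lt_of_lt_of_le (i.succAbove m).2 hN)] at h
  exact Fin.succAbove_ne i m (Fin.ext h.symm)

private theorem av_prj {r N : ℕ} [Fact N.Prime] (hN : r + 1 ≤ N) (i : Fin (r + 1))
    (F : (Fin r → ZMod N) → ℝ) :
    av (fun x : Fin (r + 1) → ZMod N => F (prj i x)) = av F := by
  let E : ZMod N × (Fin r → ZMod N) ≃ (Fin (r + 1) → ZMod N) :=
    (Equiv.prodCongr (Equiv.refl _) (Equiv.piCongrRight fun m : Fin r =>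
      (Equiv.mulLeft₀ _ (inv_ne_zero (coef_ne hN i m))))).trans
        (Fin.insertNthEquiv (fun _ => ZMod N) i)
  rw [← av_equiv E (fun x : Fin (r + 1) → ZMod N => F (prj i x)), av_prod']
  congr 1
  funext y
  have h : ∀ t : ZMod N, prj i (E (t, y)) = y := by
    intro t
    funext m
    have : E (t, y) (i.succAbove m) =
        (((i : ℕ) : ZMod N) - ((i.succAbove m : ℕ) : ZMod N))⁻¹ * y m := by
      simp [E]
    unfold prj
    rw [this, mul_inv_cancel_left₀ (coef_ne hN i m)]
  simp only [h]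
  exact av_const _

private theorem prod_er {r : ℕ} (i : Fin (r + 1)) (u : Fin (r + 1) → ℝ) :
    ∏ l ∈ Finset.univ.erase i, u l = ∏ m : Fin r, u (i.succAbove m) := by
  rw [Fin.univ_succAbove r i, Finset.erase_cons, Finset.prod_map]
  rfl

theorem cut_to {r N : ℕ} [Fact N.Prime] (hN : r + 1 ≤ N) (i : Fin (r + 1)) (f : ZMod N → ℝ) (ε : ℝ)
    (h : CutG r f ε) : CutH i (fun x : Fin (r + 1) → ZMod N => f (psi i x)) ε := by
  intro U hU hl hi
  have key := h (fun m y => U (i.succAbove m) (emb i 0 y)) (fun m y => hU _ _) (fun m x y hxy => by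
    refine hl (i.succAbove m) _ _ ?_
    intro l hlm
    unfold emb
    induction l using i.succAboveCases with
    | x => simp
    | p j =>
      have : j ≠ m := fun hj => hlm (by rw [hj])
      simp [hxy j this])
  rw [← av_prj hN i] at key
  convert key using 3
  funext x
  beta_reduce
  rw [psi_prj, prod_er]
  congr 1
  refine Finset.prod_congr rfl fun m _ => ?_
  refine hi (i.succAbove m) _ _ ?_
  intro l hli
  obtain ⟨j, rfl⟩ := Fin.exists_succAbove_eq hli
  unfold emb prj
  rw [Fin.insertNth_apply_succAbove, inv_mul_cancel_left₀ (coef_ne hN i j)]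

theorem cut_from {r N : ℕ} [Fact N.Prime] (hN : r + 1 ≤ N) (i : Fin (r + 1)) (f : ZMod N → ℝ) (ε : ℝ)
    (h : CutH i (fun x : Fin (r + 1) → ZMod N => f (psi i x)) ε) : CutG r f ε := by
  intro V hV hl
  have key := h (i.insertNth (α := fun _ => (Fin (r + 1) → ZMod N) → ℝ) (fun _ => 1)
      (fun m x => V m (prj i x))) ?_ ?_ ?_
  · rw [← av_prj hN i]
    convert key using 3
    funext x
    beta_reduce
    rw [psi_prj, prod_er]
    congr 1
    refine Finset.prod_congr rfl fun m _ => ?_
    rw [Fin.insertNth_apply_succAbove]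
  · rw [Fin.forall_iff_succAbove i]
    refine ⟨fun x => ?_, fun m x => ?_⟩
    · rw [Fin.insertNth_apply_same]; simp
    · rw [Fin.insertNth_apply_succAbove]; exact hV _ _
  · rw [Fin.forall_iff_succAbove i]
    refine ⟨fun x y _ => ?_, fun m x y hxy => ?_⟩
    · rw [Fin.insertNth_apply_same]
    · rw [Fin.insertNth_apply_succAbove]
      refine hl m _ _ ?_
      intro j hj
      unfold prj
      rw [hxy (i.succAbove j) (fun hc => hj (Fin.succAbove_right_injective hc))]
  · rw [Fin.forall_iff_succAbove i]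
    refine ⟨fun x y _ => ?_, fun m x y hxy => ?_⟩
    · rw [Fin.insertNth_apply_same]
    · rw [Fin.insertNth_apply_succAbove]
      congr 1
      funext j
      unfold prj
      rw [hxy (i.succAbove j) (Fin.succAbove_ne i j)]

end GPR
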