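import Pool.Agent.GPR.Dhj

/-!
# GPR/Win: Szemeredi's theorem with windows, functional form

Functions `f_0, ..., f_K : G → [0,1]` on a finite abelian group, all of average `≥ δ`; `K = (k-1) n`.
Then some `k`-term progression of windows `j₀, j₀ + d, ...` carries many `k`-term progressions of `G`.

Proof.  Let `n ≥ 1` be the dimension of `DHJ k 1` for `δ/4` (`n ≥ 1` by `dhj_gen`).  For `a : G`,
`h : Fin n → G` and a word `w : Fin n → Fin k` let `P(w) = a + ∑_s w_s • h_s ∈ G`, `|w| = ∑_s w_s ≤ (k-1) n`.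
For fixed `w` and `h`, `a ↦ P(w)` is a bijection, so `av_{(a,h)} f_{|w|}(P(w)) = av f_{|w|} ≥ δ`.  Let
`B_{a,h} = {w | δ/2 ≤ f_{|w|}(P(w))}`.  `av_w f_{|w|}(P(w)) ≤ dn B_{a,h} + δ/2`, so
`av_{(a,h)} dn B_{a,h} ≥ δ/2`, and the set of the `(a,h)` with `dn B_{a,h} ≥ δ/4` has density `≥ δ/4`.
For these `B_{a,h}` contains a line `L : Subspace (Fin 1) (Fin k) (Fin n)`.  By pigeonhole (the number
of `L` is at most `(k+1)^n`) there is one line `L` which is contained in `B_{a,h}` for a set of `(a,h)` of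
density `≥ (δ/4)(k+1)^{-n}`.  Let `W ⊆ Fin n` be its set of wildcards, `d = card W ∈ [1, n]`,
`w⁰` its fixed letters, `j₀ = ∑_{s ∉ W} w⁰_s ≤ (k-1)(n-d)`.  The point `i : Fin k` of `L` is the word with
`|w| = j₀ + i d`, `P(w) = x + i • y`, `x = a + ∑_{s ∉ W} w⁰_s • h_s`, `y = ∑_{s ∈ W} h_s`.  For those
`(a,h)` the product `∏_{i<k} f_{j₀+id}(x + i•y) ≥ (δ/2)^k`; and `(a,h) ↦ (x,y)` is a surjective group
homomorphism `G × G^n → G × G` (`W` nonempty), so all the fibres have the same cardinality and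
`av_{(a,h)} F(x,y) = av F`.  Hence `av ∏ ≥ (δ/4)(k+1)^{-n} (δ/2)^k = c`.
-/

namespace GPR

open Combinatorics

private theorem win_fib {Ω H : Type*} [Fintype Ω] [AddCommGroup Ω] [Fintype H] [AddCommGroup H]
    (T : Ω → H) (h : ∀ z, ∃ t, ∀ ω, T (ω + t) = T ω + z) (F : H → ℝ) :
    av (fun ω => F (T ω)) = av F := by
  have h1 : ∀ z, av (fun ω => F (T ω + z)) = av (fun ω => F (T ω)) := by
    intro z
    obtain ⟨t, ht⟩ := h z
    rw [← av_equiv (Equiv.addRight t) (fun ω => F (T ω))]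
    congr 1
    funext ω
    simp only [Equiv.coe_addRight, ht]
  have h2 : av (fun p : H × Ω => F (T p.2 + p.1)) = av (fun ω => F (T ω)) := by
    rw [av_prod]
    simp only [h1]
    exact av_const _
  rw [← h2, av_prod']
  have h3 : ∀ ω : Ω, av (fun z : H => F (T ω + z)) = av F := fun ω =>
    av_equiv (Equiv.addLeft (T ω)) F
  simp only [h3]
  exact av_const _

private theorem win_sum {Ω I : Type*} [Fintype Ω] [Fintype I] (g : I → Ω → ℝ) :
    av (fun ω => ∑ i, g i ω) = ∑ i, av (g i) := by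
  unfold av
  rw [Finset.sum_comm, Finset.sum_div]

/-- Markov -/
private theorem win_markov {Ω : Type*} [Fintype Ω] [Nonempty Ω] (g : Ω → ℝ) (s t : ℝ)
    (h1 : ∀ ω, g ω ≤ 1) (ht : 0 ≤ t) (h : s ≤ av g) : s - t ≤ dn {ω | t ≤ g ω} := by
  have h2 : av g ≤ av (fun ω => ({ω | t ≤ g ω} : Set Ω).indicator (fun _ => (1 : ℝ)) ω + t) := by
    refine av_mono fun ω => ?_
    by_cases hw : ω ∈ {ω | t ≤ g ω}
    · rw [Set.indicator_of_mem hw]
      linarith [h1 ω]
    · rw [Set.indicator_of_notMem hw]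
      have : g ω < t := not_le.1 hw
      linarith
  rw [av_add, av_const] at h2
  have : dn {ω | t ≤ g ω} = av (fun ω => ({ω | t ≤ g ω} : Set Ω).indicator (fun _ => (1 : ℝ)) ω) :=
    rfl
  rw [this]
  linarith

private theorem win_shift {n : ℕ} {G : Type*} [AddCommGroup G] (c : Fin n → ℕ) (h : Fin n → G)
    (s0 : Fin n) (z : G) : ∑ s, c s • (h + Pi.single s0 z : Fin n → G) s =
      ∑ s, c s • h s + c s0 • z := by
  have e2 : ∀ s, c s • (h + Pi.single s0 z : Fin n → G) s =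
      c s • h s + c s • (Pi.single s0 z : Fin n → G) s := fun s => by
    rw [Pi.add_apply, smul_add]
  rw [Finset.sum_congr rfl fun s _ => e2 s, Finset.sum_add_distrib]
  congr 1
  rw [Finset.sum_eq_single s0]
  · rw [Pi.single_eq_same]
  · intro s _ hs
    rw [Pi.single_eq_of_ne hs, smul_zero]
  · intro h
    exact absurd (Finset.mem_univ s0) h

theorem win {k : ℕ} (hk : 1 ≤ k) (δ : ℝ) (hδ : 0 < δ) :
    ∃ (n : ℕ) (c : ℝ), 1 ≤ n ∧ 0 < c ∧ ∀ (G : Type) [Fintype G] [AddCommGroup G] (f : ℕ → G → ℝ),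
      (∀ j x, 0 ≤ f j x) → (∀ j x, f j x ≤ 1) → (∀ j ≤ (k - 1) * n, δ ≤ av (f j)) →
      ∃ j₀ d : ℕ, 1 ≤ d ∧ d ≤ n ∧ j₀ + (k - 1) * d ≤ (k - 1) * n ∧
        c ≤ av (fun q : G × G => ∏ i ∈ Finset.range k, f (j₀ + i * d) (q.1 + i • q.2)) := by
  classical
  obtain ⟨N, hN⟩ := dhj_gen (dhj hk 1) (δ / 4) (by positivity)
  obtain ⟨n, hn⟩ : ∃ n, n = max N 1 := ⟨_, rfl⟩
  have hn1 : 1 ≤ n := hn ▸ le_max_right _ _
  have hNn : N ≤ n := hn ▸ le_max_left _ _
  refine ⟨n, (δ / 4) / (k + 1) ^ n * (δ / 2) ^ k, hn1, by positivity, ?_⟩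
  intro G _ _ f f0 f1 hf
  have : Nonempty (Fin k) := ⟨⟨0, hk⟩⟩
  obtain ⟨P, hP⟩ : ∃ P : (Fin n → Fin k) → G × (Fin n → G) → G,
    ∀ w ω, P w ω = ω.1 + ∑ s, (w s : ℕ) • ω.2 s := ⟨_, fun _ _ => rfl⟩
  obtain ⟨wt, hwt⟩ : ∃ wt : (Fin n → Fin k) → ℕ, ∀ w, wt w = ∑ s, (w s : ℕ) := ⟨_, fun _ => rfl⟩
  obtain ⟨B, hB⟩ : ∃ B : G × (Fin n → G) → Set (Fin n → Fin k),
    ∀ ω w, w ∈ B ω ↔ δ / 2 ≤ f (wt w) (P w ω) := ⟨fun ω => {w | δ / 2 ≤ f (wt w) (P w ω)},
      fun _ _ => Iff.rfl⟩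
  have hwt1 : ∀ w, wt w ≤ (k - 1) * n := by
    intro w
    rw [hwt]
    calc ∑ s, (w s : ℕ) ≤ ∑ _s : Fin n, (k - 1) := Finset.sum_le_sum fun s _ => by
          have := (w s).isLt
          omega
      _ = (k - 1) * n := by simp [mul_comm]
  have h1 : ∀ w, δ ≤ av (fun ω => f (wt w) (P w ω)) := by
    intro w
    rw [win_fib (P w) (fun z => ⟨(z, 0), fun ω => by
      simp only [hP, Prod.fst_add, Prod.snd_add, add_zero]
      abel⟩) (f (wt w))]
    exact hf _ (hwt1 w)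
  have h2 : δ ≤ av (fun ω => av (fun w => f (wt w) (P w ω))) := by
    have e : av (fun ω => av (fun w => f (wt w) (P w ω))) =
        av (fun w => av (fun ω => f (wt w) (P w ω))) := by
      rw [← av_prod (fun p : (G × (Fin n → G)) × (Fin n → Fin k) => f (wt p.2) (P p.2 p.1)),
        av_prod']
    rw [e]
    exact le_av h1
  have h3 : ∀ ω, av (fun w => f (wt w) (P w ω)) - δ / 2 ≤ dn (B ω) := by
    intro ω
    have e : B ω = {w | δ / 2 ≤ f (wt w) (P w ω)} := Set.ext fun w => hB ω w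
    rw [e]
    exact win_markov _ _ _ (fun w => f1 _ _) (by positivity) le_rfl
  have h4 : δ / 2 ≤ av (fun ω => dn (B ω)) := by
    have h := av_mono h3
    rw [av_sub, av_const] at h
    linarith
  have h5 : δ / 4 ≤ dn {ω | δ / 4 ≤ dn (B ω)} := by
    have h := win_markov (fun ω => dn (B ω)) _ (δ / 4) (fun ω => dn_le_one _) (by positivity) h4
    linarith
  -- pigeonhole
  obtain ⟨Q, hQ⟩ : ∃ Q : (Fin n → Fin k ⊕ Fin 1) → Set (G × (Fin n → G)), ∀ φ ω, ω ∈ Q φ ↔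
    ∃ V : Subspace (Fin 1) (Fin k) (Fin n), V.idxFun = φ ∧ ∀ x, V x ∈ B ω :=
    ⟨fun φ => {ω | ∃ V : Subspace (Fin 1) (Fin k) (Fin n), V.idxFun = φ ∧ ∀ x, V x ∈ B ω},
      fun _ _ => Iff.rfl⟩
  have h6 : dn {ω | δ / 4 ≤ dn (B ω)} ≤ ∑ φ, dn (Q φ) := by
    unfold dn
    rw [← win_sum]
    refine av_mono fun ω => ?_
    by_cases hw : ω ∈ {ω | δ / 4 ≤ av ((B ω).indicator (fun _ => (1 : ℝ)))}
    · rw [Set.indicator_of_mem hw]
      obtain ⟨V, hV⟩ := hN (Fin n) (by simpa using hNn) (B ω) hw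
      have hm : ω ∈ Q V.idxFun := (hQ _ _).2 ⟨V, rfl, hV⟩
      have h := Finset.single_le_sum (f := fun φ => (Q φ).indicator (fun _ => (1 : ℝ)) ω)
        (fun φ _ => Set.indicator_nonneg (fun _ _ => zero_le_one) ω) (Finset.mem_univ V.idxFun)
      simp only [Set.indicator_of_mem hm] at h
      exact h
    · rw [Set.indicator_of_notMem hw]
      exact Finset.sum_nonneg fun φ _ => Set.indicator_nonneg (fun _ _ => zero_le_one) ω
  obtain ⟨φ, hφ⟩ : ∃ φ, (δ / 4) / (k + 1) ^ n ≤ dn (Q φ) := by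
    by_contra hc
    push Not at hc
    have : Nonempty (Fin n → Fin k ⊕ Fin 1) := ⟨fun _ => Sum.inr 0⟩
    have hlt := Finset.sum_lt_sum_of_nonempty (s := (Finset.univ : Finset (Fin n → Fin k ⊕ Fin 1)))
      Finset.univ_nonempty (fun φ _ => hc φ)
    have hcard : ∑ _φ : Fin n → Fin k ⊕ Fin 1, (δ / 4) / ((k : ℝ) + 1) ^ n = δ / 4 := by
      rw [Finset.sum_const, Finset.card_univ, nsmul_eq_mul]
      have : (Fintype.card (Fin n → Fin k ⊕ Fin 1) : ℝ) = ((k : ℝ) + 1) ^ n := by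
        simp
      rw [this]
      field_simp
    rw [hcard] at hlt
    linarith
  have hne : (Q φ).Nonempty := by
    rw [Set.nonempty_iff_ne_empty]
    intro he
    rw [he] at hφ
    have : dn (∅ : Set (G × (Fin n → G))) = 0 := by
      unfold dn
      simp only [Set.indicator_empty]
      exact av_const 0
    rw [this] at hφ
    have : 0 < (δ / 4) / ((k : ℝ) + 1) ^ n := by positivity
    linarith
  obtain ⟨ω0, hω0⟩ := hne
  obtain ⟨V, hVφ, -⟩ := (hQ φ ω0).1 hω0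
  have hV : ∀ ω ∈ Q φ, ∀ x, V x ∈ B ω := by
    intro ω hω
    obtain ⟨V', hV', h⟩ := (hQ φ ω).1 hω
    have : V' = V := Subspace.ext (hV'.trans hVφ.symm)
    rwa [this] at h
  -- the line
  obtain ⟨ind, hind⟩ : ∃ ind : Fin n → ℕ, ∀ s, ind s = Sum.elim (fun _ => 0) (fun _ => 1)
    (V.idxFun s) := ⟨_, fun _ => rfl⟩
  obtain ⟨w0, hw0⟩ : ∃ w0 : Fin n → ℕ, ∀ s, w0 s = Sum.elim (fun a : Fin k => (a : ℕ)) (fun _ => 0)
    (V.idxFun s) := ⟨_, fun _ => rfl⟩
  have hval : ∀ (i : Fin k) (s : Fin n), ((V (fun _ => i) s : Fin k) : ℕ) = w0 s + i * ind s := by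
    intro i s
    rw [hind, hw0, Subspace.coe_apply]
    cases V.idxFun s <;> simp
  obtain ⟨s0, hs0⟩ := V.proper 0
  have hi0 : ind s0 = 1 := by rw [hind, hs0]; rfl
  have hw00 : w0 s0 = 0 := by rw [hw0, hs0]; rfl
  have hle : ∀ s, w0 s + (k - 1) * ind s ≤ k - 1 := by
    intro s
    rw [hind, hw0]
    cases V.idxFun s with
    | inl a =>
      have := a.isLt
      simp only [Sum.elim_inl]
      omega
    | inr a => simp
  have hind1 : ∀ s, ind s ≤ 1 := by
    intro s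
    rw [hind]
    cases V.idxFun s <;> simp
  have hwt2 : ∀ i : Fin k, wt (V (fun _ => i)) = ∑ s, w0 s + i * ∑ s, ind s := by
    intro i
    rw [hwt, Finset.mul_sum, ← Finset.sum_add_distrib]
    exact Finset.sum_congr rfl fun s _ => hval i s
  have hP2 : ∀ (i : Fin k) (ω : G × (Fin n → G)), P (V (fun _ => i)) ω =
      (ω.1 + ∑ s, w0 s • ω.2 s) + (i : ℕ) • ∑ s, ind s • ω.2 s := by
    intro i ω
    rw [hP, Finset.smul_sum, add_assoc, ← Finset.sum_add_distrib]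
    congr 1
    refine Finset.sum_congr rfl fun s _ => ?_
    rw [hval, add_smul, mul_smul]
  refine ⟨∑ s, w0 s, ∑ s, ind s, ?_, ?_, ?_, ?_⟩
  · calc 1 = ind s0 := hi0.symm
      _ ≤ ∑ s, ind s := Finset.single_le_sum (fun s _ => Nat.zero_le _) (Finset.mem_univ s0)
  · calc ∑ s, ind s ≤ ∑ _s : Fin n, 1 := Finset.sum_le_sum fun s _ => hind1 s
      _ = n := by simp
  · rw [Finset.mul_sum, ← Finset.sum_add_distrib]
    calc ∑ s, (w0 s + (k - 1) * ind s) ≤ ∑ _s : Fin n, (k - 1) :=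
          Finset.sum_le_sum fun s _ => hle s
      _ = (k - 1) * n := by simp [mul_comm]
  · set F : G × G → ℝ := fun q => ∏ i ∈ Finset.range k,
      f (∑ s, w0 s + i * ∑ s, ind s) (q.1 + i • q.2) with hF
    have hfib := win_fib (fun ω : G × (Fin n → G) =>
      ((ω.1 + ∑ s, w0 s • ω.2 s, ∑ s, ind s • ω.2 s) : G × G)) (fun z => ⟨(z.1, Pi.single s0 z.2),
        fun ω => by
          have e0 := win_shift w0 ω.2 s0 z.2
          have e1 := win_shift ind ω.2 s0 z.2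
          rw [hw00, zero_smul, add_zero] at e0
          rw [hi0, one_smul] at e1
          refine Prod.ext ?_ ?_
          · show ω.1 + z.1 + ∑ s, w0 s • (ω.2 + Pi.single s0 z.2 : Fin n → G) s =
              ω.1 + ∑ s, w0 s • ω.2 s + z.1
            rw [e0]
            abel
          · exact e1⟩) F
    rw [← hfib]
    have h7 : av (fun ω => (δ / 2) ^ k * (Q φ).indicator (fun _ => (1 : ℝ)) ω) ≤
        av (fun ω : G × (Fin n → G) => F (ω.1 + ∑ s, w0 s • ω.2 s, ∑ s, ind s • ω.2 s)) := by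
      refine av_mono fun ω => ?_
      by_cases hw : ω ∈ Q φ
      · rw [Set.indicator_of_mem hw, mul_one, hF]
        have e : (δ / 2) ^ k = ∏ _i ∈ Finset.range k, (δ / 2) := by
          rw [Finset.prod_const, Finset.card_range]
        rw [e]
        refine Finset.prod_le_prod (fun i _ => by positivity) fun i hi => ?_
        have hik := Finset.mem_range.1 hi
        have h := (hB ω _).1 (hV ω hw (fun _ => ⟨i, hik⟩))
        rw [hwt2, hP2] at h
        exact h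
      · rw [Set.indicator_of_notMem hw, mul_zero]
        exact Finset.prod_nonneg fun i _ => f0 _ _
    rw [av_mul_left] at h7
    refine le_trans ?_ h7
    rw [mul_comm]
    exact mul_le_mul_of_nonneg_left hφ (by positivity)

end GPR
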