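import Pool.Agent.GPR.RelCount
import Pool.Agent.GPR.DmtCut
import Pool.Agent.GPR.Link
import Pool.Agent.GPR.Win

/-!
# GPR/RelWin: relative Szemeredi theorem with windows

Proof.  Let `n, c₁` be the constants of `win` for `k, δ/2`, `c = c₁/2`.  Let `η₁ ≤ δ/2` be the `η` of
`rel_count` for `ε = c₁/2`, `ε'` the constant of `dmt_cut` for `r = k-1` and `ε = η₁`, `η₂` the `η` of
`lfc_cut` for `ε'`, and `η = min η₁ η₂` (`LFC`, `CutH` are monotone in the error).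
Write `k = r + 1`.  For each `j ≤ (k-1) n`: `LFC` for the constant `J = j` and `lfc_cut` (position `0`)
give `CutH 0 ((ν j - 1) ∘ psi 0) ε'`, so `CutG r (ν j - 1) ε'` (`cut_from`), and `dmt_cut` gives
`g j : ZMod N → [0,1]` with `CutG r (f j - g j) η₁`.  Taking `U = 1` in `CutG` (`r ≥ 1`, the sum of the
coordinates is uniform): `|av (f j) - av (g j)| ≤ η₁ ≤ δ/2`, so `av (g j) ≥ δ/2`.  (For `j > (k-1)n` put
`g j = 0`.)  `win` (`G = ZMod N`): `j₀, d` with `c₁ ≤ av ∏_i g (j₀+id)(x + ih)`.  By `psi_count` this is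
the count of the functions `g (j₀ + i d) ∘ psi i`, `i < k`.  `rel_count` for the functions
`f (j₀+id) ∘ psi i`, `g (j₀+id) ∘ psi i` with the majorants `ν (j₀+id) ∘ psi i`
(`LFC` with `J i = j₀ + i d ≤ (k-1) n`, cut norms by `cut_to`, independence `psi_ind`) gives
`av ∏ f ≥ c₁ - c₁/2`, and `psi_count` again.
-/

namespace GPR

private theorem rw_fib {Ω H : Type*} [Fintype Ω] [AddCommGroup Ω] [Fintype H] [AddCommGroup H]
    (T : Ω → H) (h : ∀ z, ∃ t, ∀ ω, T (ω + t) = T ω + z) (F : H → ℝ) :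
    av (fun ω => F (T ω)) = av F := by
  have h1 : ∀ z, av (fun ω => F (T ω + z)) = av (fun ω => F (T ω)) := by
    intro z
    obtain ⟨t, ht⟩ := h z
    rw [← av_equiv (Equiv.addRight t) (fun ω => F (T ω))]
    congr 1
    funext ω
    simp only [Equiv.coe_addRight, ht]
  have h2 : av (fun p : H × Ω => F (T p.2 + p.1)) = av (fun ω => F (T ω)) := by
    rw [av_prod]
    simp only [h1]
    exact av_const _
  rw [← h2, av_prod']
  have h3 : ∀ ω : Ω, av (fun z : H => F (T ω + z)) = av F := fun ω =>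
    av_equiv (Equiv.addLeft (T ω)) F
  simp only [h3]
  exact av_const _

private theorem rw_sum {r : ℕ} (hr : 1 ≤ r) {G : Type*} [Fintype G] [AddCommGroup G] (F : G → ℝ) :
    av (fun x : Fin r → G => F (∑ l, x l)) = av F := by
  refine rw_fib (fun x : Fin r → G => ∑ l, x l) (fun z => ⟨Pi.single ⟨0, hr⟩ z, fun x => ?_⟩) F
  have e : ∀ l, (x + Pi.single ⟨0, hr⟩ z : Fin r → G) l = x l + (Pi.single ⟨0, hr⟩ z : Fin r → G) l :=
    fun l => rfl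
  simp only [e, Finset.sum_add_distrib]
  congr 1
  rw [Finset.sum_eq_single (⟨0, hr⟩ : Fin r)]
  · rw [Pi.single_eq_same]
  · intro l _ hl
    rw [Pi.single_eq_of_ne hl]
  · intro h
    exact absurd (Finset.mem_univ _) h

private theorem rw_cut_av {r : ℕ} (hr : 1 ≤ r) {G : Type*} [Fintype G] [AddCommGroup G]
    (F : G → ℝ) (ε : ℝ) (h : CutG r F ε) : |av F| ≤ ε := by
  have h1 := h (fun _ _ => 1) (fun _ _ => by simp) (fun _ _ _ _ => rfl)
  simp only [Finset.prod_const_one, mul_one] at h1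
  rwa [rw_sum hr F] at h1

theorem rel_win {k : ℕ} (hk : 2 ≤ k) (δ : ℝ) (hδ : 0 < δ) :
    ∃ (n : ℕ) (c η : ℝ), 1 ≤ n ∧ 0 < c ∧ 0 < η ∧ ∀ (N : ℕ) [Fact N.Prime], k ≤ N →
      ∀ (f ν : ℕ → ZMod N → ℝ), (∀ j x, 0 ≤ f j x) → (∀ j x, f j x ≤ ν j x) →
      (∀ J : Fin k → ℕ, (∀ i, J i ≤ (k - 1) * n) →
        LFC k (fun i (x : Fin k → ZMod N) => ν (J i) (psi i x)) η) →
      (∀ j ≤ (k - 1) * n, δ ≤ av (f j)) →
      ∃ j₀ d : ℕ, 1 ≤ d ∧ d ≤ n ∧ j₀ + (k - 1) * d ≤ (k - 1) * n ∧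
        c ≤ av (fun q : ZMod N × ZMod N =>
          ∏ i ∈ Finset.range k, f (j₀ + i * d) (q.1 + i • q.2)) := by
  classical
  obtain ⟨r, rfl⟩ : ∃ r, k = r + 1 := ⟨k - 1, by omega⟩
  have hr : 1 ≤ r := by omega
  obtain ⟨n, c₁, hn, hc₁, hwin⟩ := win (k := r + 1) (by omega) (δ / 2) (by positivity)
  obtain ⟨η₀, hη₀, hrc⟩ := rel_count (k := r + 1) (by omega) (c₁ / 2) (by positivity)
  obtain ⟨η₁, hη₁, h10, h1δ⟩ : ∃ η₁ : ℝ, 0 < η₁ ∧ η₁ ≤ η₀ ∧ η₁ ≤ δ / 2 :=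
    ⟨min η₀ (δ / 2), lt_min hη₀ (by positivity), min_le_left _ _, min_le_right _ _⟩
  obtain ⟨ε', hε', hdmt⟩ := dmt_cut hr η₁ hη₁
  obtain ⟨η₂, hη₂, hlc⟩ := lfc_cut (k := r + 1) (by omega) ε' hε'
  obtain ⟨η, hη, he0, he2⟩ : ∃ η : ℝ, 0 < η ∧ η ≤ η₀ ∧ η ≤ η₂ :=
    ⟨min η₀ η₂, lt_min hη₀ hη₂, min_le_left _ _, min_le_right _ _⟩
  refine ⟨n, c₁ / 2, η, hn, by positivity, hη, ?_⟩
  intro N _ hkN f ν hf0 hfν hL hfd
  have hex : ∀ j, ∃ g : ZMod N → ℝ, (∀ x, 0 ≤ g x) ∧ (∀ x, g x ≤ 1) ∧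
      (j ≤ (r + 1 - 1) * n → CutG r (fun x => f j x - g x) η₁) := by
    intro j
    by_cases hj : j ≤ (r + 1 - 1) * n
    · have hLj := hL (fun _ => j) (fun _ => hj)
      have hLj2 : LFC (r + 1) (fun (i : Fin (r + 1)) (x : Fin (r + 1) → ZMod N) => ν j (psi i x)) η₂ :=
        fun S hS => (hLj S hS).trans he2
      have h1 := hlc (ZMod N) (fun (i : Fin (r + 1)) (x : Fin (r + 1) → ZMod N) => ν j (psi i x))
        (fun i => psi_ind i (ν j)) hLj2 0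
      have h2 := cut_from hkN 0 (fun y => ν j y - 1) ε' h1
      obtain ⟨g, hg0, hg1, hgc⟩ := hdmt (ZMod N) (ν j) (f j) (hf0 j) (hfν j) h2
      exact ⟨g, hg0, hg1, fun _ => hgc⟩
    · exact ⟨fun _ => 0, fun _ => le_rfl, fun _ => zero_le_one, fun h => absurd h hj⟩
  choose g hg0 hg1 hgc using hex
  have hgd : ∀ j ≤ (r + 1 - 1) * n, δ / 2 ≤ av (g j) := by
    intro j hj
    have h1 := rw_cut_av hr _ _ (hgc j hj)
    rw [av_sub] at h1
    have h2 := (abs_le.1 h1).2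
    have h3 := hfd j hj
    linarith
  obtain ⟨j₀, d, hd1, hdn, hjd, hcount⟩ := hwin (ZMod N) g hg0 hg1 hgd
  refine ⟨j₀, d, hd1, hdn, hjd, ?_⟩
  have hJ : ∀ i : Fin (r + 1), j₀ + (i : ℕ) * d ≤ (r + 1 - 1) * n := by
    intro i
    have hi : (i : ℕ) * d ≤ (r + 1 - 1) * d := Nat.mul_le_mul_right _ (by have := i.isLt; omega)
    omega
  have hLJ := hL (fun i => j₀ + (i : ℕ) * d) hJ
  have e1 := psi_count (N := N) hk (fun i => g (j₀ + i * d))
  have e2 := psi_count (N := N) hk (fun i => f (j₀ + i * d))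
  have h3 := hrc (ZMod N)
    (fun (i : Fin (r + 1)) (x : Fin (r + 1) → ZMod N) => ν (j₀ + (i : ℕ) * d) (psi i x))
    (fun i => psi_ind i (ν (j₀ + (i : ℕ) * d)))
    (fun i x => (hf0 _ _).trans (hfν _ _))
    (fun S hS => (hLJ S hS).trans he0)
    (fun i x => f (j₀ + (i : ℕ) * d) (psi i x))
    (fun i x => g (j₀ + (i : ℕ) * d) (psi i x))
    (fun i => psi_ind i (f (j₀ + (i : ℕ) * d)))
    (fun i => psi_ind i (g (j₀ + (i : ℕ) * d)))
    (fun i x => hf0 _ _)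
    (fun i x => hfν _ _)
    (fun i x => hg0 _ _)
    (fun i x => hg1 _ _)
    (fun i U hU1 hU2 hU3 =>
      (cut_to hkN i (fun y => f (j₀ + (i : ℕ) * d) y - g (j₀ + (i : ℕ) * d) y) η₁
        (hgc _ (hJ i)) U hU1 hU2 hU3).trans h10)
  rw [e1, e2] at h3
  have h4 := (abs_le.1 h3).1
  linarith

end GPR
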