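import Pool.Agent.GPR.LfcSel
import Pool.Agent.GPR.PrDen
import Pool.Agent.GPR.RelWin
import Pool.Agent.MRZ.SelMaj

/-!
# GPR/BbGrid: many progressions of prime positions on the grid

Proof.  Let `c₁` be the minimum of `1/2` and the constants of `lfc_sel` (for `k`) and `mean_sel`, `C` the
constant of `MRZ.sel_maj` (wlog `C ≥ 1`) and `δ = c₁/(64 C)`.  Let `n, c, η` be from `rel_win` for `k, δ`,
`K = (k-1) n`, `c' = c/64^k`.  Given `θ, s, σ, ε` let `w` be large, `N ≥ e^{2w}` prime,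
`D = ⌊e^{c₁ w}⌋ ≥ 2`, `log D ≥ c₁ w/2`, and `l` the weights of `sel_maj`: `wt ≥ 0` on `m ≥ 1`, `wt ≥ 1` on primes
`> D`, `|VV| ≤ C/log D ≤ 2C/(c₁ w)`.
(a) `GG ... x → 1 ≤ nu0 ... x`, and `nu0 ≥ 0` (`⌊yy⌋₊ ≥ 1` for `w` large).  So by `pr_den`, `mean_sel` (`j = 0`):
`ε/(16 w) ≤ av nu0 ≤ ε VV + e^{-c₁ w}`, hence `VV ≥ 1/(32 w)` for `w` large (so `≥ 1/w^2`).
(b) Let `f j x = 1[GG ... j x]/(ε VV)`, `ν j x = nu0 ... j x/(ε VV)` for `j ≤ K` (and `0` for `j > K`).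
`0 ≤ f ≤ ν`; `av (f j) ≥ (ε/(16 w))/(ε VV) ≥ c₁/(32 C) ≥ δ`; `LFC` by `lfc_sel`.
(c) `rel_win` gives `j₀, d` with `c ≤ av_q ∏_{i<k} f (j₀+id) (q.1 + i•q.2)`
`= (ε VV)^(-k) av_q 1[∀ i < k, GG ... (j₀+id) (q.1 + i • q.2)]`, so the last average is
`≥ c (ε VV)^k ≥ c (ε/(32 w))^k`.
-/

namespace GPR

private theorem bg_av_div {X : Type*} [Fintype X] (f : X → ℝ) (c : ℝ) :
    av (fun x => f x / c) = av f / c := by
  unfold av
  rw [← Finset.sum_div, div_div, div_div, mul_comm]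

private theorem bg_exp {c₁ ε w : ℝ} (hc : 0 < c₁) (hε : 0 < ε) (hw : 64 / (c₁ ^ 2 * ε) ≤ w)
    (hw0 : 0 < w) : Real.exp (-(c₁ * w)) ≤ ε / (32 * w) := by
  have h1 : 1 + c₁ * w + (c₁ * w) ^ 2 / 2 ≤ Real.exp (c₁ * w) :=
    Real.quadratic_le_exp_of_nonneg (by positivity)
  have h2 : 0 < c₁ ^ 2 * ε := by positivity
  rw [div_le_iff₀ h2] at hw
  rw [Real.exp_neg, inv_eq_one_div, div_le_div_iff₀ (Real.exp_pos _) (by positivity)]
  have h3 : 0 < c₁ * w := by positivity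
  have h4 : (c₁ * w) ^ 2 / 2 ≤ Real.exp (c₁ * w) := by linarith
  have h5 : ε * ((c₁ * w) ^ 2 / 2) ≤ ε * Real.exp (c₁ * w) := mul_le_mul_of_nonneg_left h4 hε.le
  have h6 : w * 64 ≤ w * (w * (c₁ ^ 2 * ε)) := mul_le_mul_of_nonneg_left hw hw0.le
  nlinarith

private theorem bg_floor {x : ℝ} (hx : 2 ≤ x) : 2 ≤ ⌊Real.exp x⌋₊ ∧
    x / 2 ≤ Real.log (⌊Real.exp x⌋₊ : ℝ) := by
  have h1 : Real.exp x = Real.exp (x / 2) * Real.exp (x / 2) := by
    rw [← Real.exp_add]; congr 1; ring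
  have h2 : (2 : ℝ) ≤ Real.exp (x / 2) := by
    have := Real.add_one_le_exp (x / 2)
    linarith
  have h3 : Real.exp (x / 2) ≤ (⌊Real.exp x⌋₊ : ℝ) := by
    have := Nat.lt_floor_add_one (Real.exp x)
    nlinarith
  refine ⟨?_, ?_⟩
  · have h4 : (2 : ℝ) ≤ (⌊Real.exp x⌋₊ : ℝ) := h2.trans h3
    exact_mod_cast h4
  · rw [Real.le_log_iff_exp_le (by linarith)]
    exact h3

open Classical in
theorem bb_grid {k : ℕ} (hk : 2 ≤ k) : ∃ (n : ℕ) (c : ℝ), 1 ≤ n ∧ 0 < c ∧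
    ∀ (θ s σ ε : ℝ), 0 ≤ θ → 0 < σ → σ ≤ 1 → 0 < ε → ε ≤ 1 / 2 → ∃ w₀ : ℝ, ∀ w ≥ w₀,
    ∀ (N : ℕ) [Fact N.Prime], Real.exp (2 * w) ≤ N → ∃ (D j₀ d : ℕ), 1 ≤ d ∧ d ≤ n ∧
      j₀ + (k - 1) * d ≤ (k - 1) * n ∧
      c * (ε / w) ^ k ≤ av (fun q : ZMod N × ZMod N =>
        if ∀ i < k, GG w θ s σ ε D (j₀ + i * d) (q.1 + i • q.2) then (1 : ℝ) else 0) := by
  obtain ⟨C, hC, hmaj⟩ := Pool.MRZ.sel_maj
  obtain ⟨ca, hca, hlfc⟩ := lfc_sel hk
  obtain ⟨cb, hcb, hmean⟩ := mean_sel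
  obtain ⟨c₁, hc₁, hc1h, hc1a, hc1b⟩ : ∃ c₁ : ℝ, 0 < c₁ ∧ c₁ ≤ 1 / 2 ∧ c₁ ≤ ca ∧ c₁ ≤ cb :=
    ⟨min (1 / 2) (min ca cb), lt_min (by norm_num) (lt_min hca hcb), min_le_left _ _,
      (min_le_right _ _).trans (min_le_left _ _), (min_le_right _ _).trans (min_le_right _ _)⟩
  obtain ⟨n, c, η, hn, hc, hη, hrel⟩ := rel_win hk (c₁ / (64 * C)) (by positivity)
  refine ⟨n, c / 32 ^ k, hn, by positivity, ?_⟩
  intro θ s σ ε hθ hσ hσ1 hε hε1
  obtain ⟨wa, ha⟩ := hlfc θ s σ ε ((k - 1) * n) η hθ hσ hσ1 hε (by linarith) hη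
  obtain ⟨wb, hb⟩ := hmean θ s σ ε ((k - 1) * n) hθ hσ hσ1 hε (by linarith)
  obtain ⟨wc, hcc⟩ := pr_den θ s σ ε ((k - 1) * n) hθ hσ hσ1 hε hε1
  refine ⟨max wa (max wb (max wc (max (64 / (c₁ ^ 2 * ε)) (max (2 / c₁) (max (|s| + 1)
    (max 32 (k : ℝ))))))), ?_⟩
  intro w hw N _ hN
  simp only [ge_iff_le, max_le_iff] at hw
  obtain ⟨hwa, hwb, hwc, hwd, hwe, hws, hw32, hwk⟩ := hw
  have hw0 : 0 < w := by linarith
  have hx2 : 2 ≤ c₁ * w := by
    rw [div_le_iff₀ hc₁] at hwe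
    linarith
  obtain ⟨hD2, hDlog⟩ := bg_floor hx2
  obtain ⟨D, hD⟩ : ∃ D : ℕ, D = ⌊Real.exp (c₁ * w)⌋₊ := ⟨_, rfl⟩
  rw [← hD] at hD2 hDlog
  have hDle : (D : ℝ) ≤ Real.exp (c₁ * w) := by
    rw [hD]
    exact Nat.floor_le (Real.exp_pos _).le
  obtain ⟨l, hl, hpos, hprime, hV⟩ := hmaj D hD2
  have hlogpos : 0 < Real.log D := lt_of_lt_of_le (by linarith) hDlog
  have hVle : VV l D ≤ 2 * C / (c₁ * w) := by
    have h1 : VV l D ≤ C / Real.log D := (le_abs_self _).trans hV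
    refine h1.trans ?_
    rw [div_le_div_iff₀ hlogpos (by linarith)]
    nlinarith
  have hfl : ∀ (j : ℕ) (x : ZMod N), 1 ≤ ⌊yy w θ s σ j (uu x)⌋₊ := by
    intro j x
    have hu : 0 ≤ uu x := by unfold uu; positivity
    have h1 : w + 1 ≤ Real.exp w := Real.add_one_le_exp w
    have h2 : Real.exp w ≤ Real.exp (w + j * θ + σ * uu x) := by
      apply Real.exp_le_exp.2
      have : 0 ≤ (j : ℝ) * θ := by positivity
      have : 0 ≤ σ * uu x := by positivity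
      linarith
    have h3 : s ≤ |s| := le_abs_self s
    have h4 : (1 : ℝ) ≤ yy w θ s σ j (uu x) := by
      unfold yy
      linarith
    exact Nat.le_floor (by exact_mod_cast h4)
  have hnu0 : ∀ (j : ℕ) (x : ZMod N), 0 ≤ nu0 w θ s σ ε l D j x := by
    intro j x
    unfold nu0
    split_ifs
    · exact hpos _ (hfl j x)
    · exact le_rfl
  have hGG : ∀ (j : ℕ) (x : ZMod N), (if GG w θ s σ ε D j x then (1 : ℝ) else 0) ≤
      nu0 w θ s σ ε l D j x := by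
    intro j x
    by_cases h : GG w θ s σ ε D j x
    · rw [if_pos h]
      obtain ⟨-, hf, hp, hDp⟩ := h
      unfold nu0
      rw [if_pos hf]
      exact hprime _ hp hDp
    · rw [if_neg h]
      exact hnu0 j x
  have hDw : (D : ℝ) ≤ Real.exp (w / 2) := by
    refine hDle.trans (Real.exp_le_exp.2 ?_)
    nlinarith
  have hDa : (D : ℝ) ≤ Real.exp (ca * w) :=
    hDle.trans (Real.exp_le_exp.2 (mul_le_mul_of_nonneg_right hc1a hw0.le))
  have hDb : (D : ℝ) ≤ Real.exp (cb * w) :=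
    hDle.trans (Real.exp_le_exp.2 (mul_le_mul_of_nonneg_right hc1b hw0.le))
  have hNz : NeZero N := ⟨(Fact.out : N.Prime).ne_zero⟩
  have hden : ∀ j ≤ (k - 1) * n, ε / (16 * w) ≤
      av (fun x : ZMod N => if GG w θ s σ ε D j x then (1 : ℝ) else 0) := fun j hj =>
    hcc w hwc N hN j hj D hDw
  have hVge : 1 / (32 * w) ≤ VV l D := by
    have h1 := hden 0 (Nat.zero_le _)
    have h2 := av_mono (hGG 0)
    have h3 := (abs_le.1 (hb w hwb N hN D l (by omega) hDb hl 0 (Nat.zero_le _))).2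
    have h4 : Real.exp (-(cb * w)) ≤ Real.exp (-(c₁ * w)) :=
      Real.exp_le_exp.2 (by nlinarith)
    have h5 := bg_exp hc₁ hε hwd hw0
    have h6 : ε / (16 * w) - ε / (32 * w) = ε * (1 / (32 * w)) := by
      field_simp
      ring
    have h7 : ε * (1 / (32 * w)) ≤ ε * VV l D := by linarith
    exact le_of_mul_le_mul_left h7 hε
  have hVpos : 0 < VV l D := lt_of_lt_of_le (by positivity) hVge
  have hV2 : 1 / w ^ 2 ≤ VV l D := by
    refine le_trans ?_ hVge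
    apply one_div_le_one_div_of_le (by positivity)
    nlinarith
  have hkN : k ≤ N := by
    have h1 : 2 * w + 1 ≤ Real.exp (2 * w) := Real.add_one_le_exp _
    have h2 : (k : ℝ) ≤ (N : ℝ) := by linarith
    exact_mod_cast h2
  have hεV : 0 < ε * VV l D := by positivity
  obtain ⟨j₀, d, hd1, hdn, hjd, hcount⟩ := hrel N hkN
    (fun j x => (if GG w θ s σ ε D j x then (1 : ℝ) else 0) / (ε * VV l D))
    (fun j x => nu0 w θ s σ ε l D j x / (ε * VV l D))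
    (fun j x => div_nonneg (by split_ifs <;> norm_num) hεV.le)
    (fun j x => div_le_div_of_nonneg_right (hGG j x) hεV.le)
    (fun J hJ => ha w hwa N hN D l (by omega) hDa hl hV2 J hJ)
    (fun j hj => by
      rw [bg_av_div, le_div_iff₀ hεV]
      refine le_trans ?_ (hden j hj)
      have h1 : ε * VV l D ≤ ε * (2 * C / (c₁ * w)) := mul_le_mul_of_nonneg_left hVle hε.le
      have h2 : c₁ / (64 * C) * (ε * VV l D) ≤ c₁ / (64 * C) * (ε * (2 * C / (c₁ * w))) :=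
        mul_le_mul_of_nonneg_left h1 (by positivity)
      refine h2.trans ?_
      have h3 : c₁ / (64 * C) * (ε * (2 * C / (c₁ * w))) = ε / (32 * w) := by
        field_simp
        ring
      rw [h3]
      apply div_le_div_of_nonneg_left hε.le (by positivity)
      linarith)
  refine ⟨D, j₀, d, hd1, hdn, hjd, ?_⟩
  have e1 : ∀ q : ZMod N × ZMod N, (∏ i ∈ Finset.range k,
      (if GG w θ s σ ε D (j₀ + i * d) (q.1 + i • q.2) then (1 : ℝ) else 0) / (ε * VV l D)) =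
      (if ∀ i < k, GG w θ s σ ε D (j₀ + i * d) (q.1 + i • q.2) then (1 : ℝ) else 0) /
        (ε * VV l D) ^ k := by
    intro q
    rw [Finset.prod_div_distrib, Finset.prod_const, Finset.card_range]
    congr 1
    by_cases h : ∀ i < k, GG w θ s σ ε D (j₀ + i * d) (q.1 + i • q.2)
    · rw [if_pos h]
      refine Finset.prod_eq_one fun i hi => ?_
      rw [if_pos (h i (Finset.mem_range.1 hi))]
    · rw [if_neg h]
      push Not at h
      obtain ⟨i, hi, hn⟩ := h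
      refine Finset.prod_eq_zero (Finset.mem_range.2 hi) ?_
      rw [if_neg hn]
  simp only [e1] at hcount
  rw [bg_av_div, le_div_iff₀ (by positivity)] at hcount
  refine le_trans ?_ hcount
  have h1 : ε / (32 * w) ≤ ε * VV l D := by
    have := mul_le_mul_of_nonneg_left hVge hε.le
    calc ε / (32 * w) = ε * (1 / (32 * w)) := by ring
      _ ≤ _ := this
  have h2 : (ε / (32 * w)) ^ k ≤ (ε * VV l D) ^ k := pow_le_pow_left₀ (by positivity) h1 k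
  have h3 : c / 32 ^ k * (ε / w) ^ k = c * (ε / (32 * w)) ^ k := by
    rw [show ε / (32 * w) = (ε / w) / 32 by field_simp, div_pow (ε / w) 32 k]
    ring
  rw [h3]
  exact mul_le_mul_of_nonneg_left h2 hc.le

end GPR
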