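import Pool.Agent.GPR.Defs

/-!
# GPR/Md: general index types and multidimensional density Hales-Jewett

`dhj_gen`: `DHJ k m` gives the same statement for every finite index type of cardinality at least
`N` (take an injection `Fin N → ι`, fix the other coordinates suitably: the average over the words on
the complement of the densities of the sections is `dn A`, so some section has density `≥ δ`
(`exists_le_of_av`); a subspace of the section extends by the fixed word).

`dhj_mult`: `DHJ k 1` implies `DHJ k m` for all `m` (for `k ≥ 1`), by induction on `m`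
(`m = 0`: `A` is nonempty, take `N = 0`... or any `N`, a constant subspace; note that for `m = 0`
there is one word `Fin 0 → Fin k`).  Step: given `δ`, let `n₁` be the dimension of `DHJ k m` for
`δ/2`, `M ≥ 1` the (finite) number of subspaces `Subspace (Fin m) (Fin k) (Fin n₁)` and `n₂` the
dimension of `DHJ k 1` for `δ / (2 M)`.  For `A ⊆ [k]^(Fin n₁ ⊕ Fin n₂)` of density `≥ δ` and
`y ∈ [k]^(n₂)` let `A_y ⊆ [k]^(n₁)` be the section.  The set `Y` of the `y` with `dn A_y ≥ δ/2` has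
density `≥ δ/2`; for `y ∈ Y` choose an `m`-dimensional `V_y` in `A_y`; by pigeonhole one `V` is chosen
for a set `Y'` of `y`'s of density `≥ δ/(2M)`; `Y'` contains a line `L`; `V × L` is an
`(m+1)`-dimensional subspace in `A`.  Transport along `Fin n₁ ⊕ Fin n₂ ≃ Fin (n₁ + n₂)` and
`Fin m ⊕ Fin 1 ≃ Fin (m+1)` (`Subspace.reindex`).
-/

namespace GPR

open Combinatorics

/-! ### helpers -/

private theorem dn_equiv_md {X Y : Type*} [Fintype X] [Fintype Y] (e : X ≃ Y) (A : Set Y) :
    dn (e ⁻¹' A) = dn A := by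
  unfold dn
  rw [← av_equiv e]
  rfl

private theorem dn_prod_md {X Y : Type*} [Fintype X] [Fintype Y] (A : Set (X × Y)) :
    dn A = av (fun y => dn {x | (x, y) ∈ A}) := by
  unfold dn
  rw [av_prod']
  rfl

private theorem av_finsum_md {X V : Type*} [Fintype X] (s : Finset V) (g : V → X → ℝ) :
    av (fun x => ∑ v ∈ s, g v x) = ∑ v ∈ s, av (g v) := by
  unfold av
  rw [Finset.sum_comm, Finset.sum_div]

private theorem dn_union_md {X V : Type*} [Fintype X] [Fintype V] (Y : V → Set X) (Z : Set X)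
    (h : ∀ x ∈ Z, ∃ v, x ∈ Y v) : dn Z ≤ ∑ v, dn (Y v) := by
  unfold dn
  rw [← av_finsum_md]
  refine av_mono fun x => ?_
  by_cases hx : x ∈ Z
  · obtain ⟨v, hv⟩ := h x hx
    have h1 : (Y v).indicator (fun _ => (1 : ℝ)) x
        ≤ ∑ v, (Y v).indicator (fun _ => (1 : ℝ)) x :=
      Finset.single_le_sum (f := fun v => (Y v).indicator (fun _ => (1 : ℝ)) x)
        (fun w _ => Set.indicator_nonneg (fun _ _ => zero_le_one) x) (Finset.mem_univ v)
    rw [Set.indicator_of_mem hv] at h1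
    rw [Set.indicator_of_mem hx]
    exact h1
  · rw [Set.indicator_of_notMem hx]
    exact Finset.sum_nonneg fun w _ => Set.indicator_nonneg (fun _ _ => zero_le_one) x

private theorem exists_mem_of_dn_pos {X : Type*} [Fintype X] (A : Set X) (h : 0 < dn A) :
    ∃ x, x ∈ A := by
  by_contra hc
  push Not at hc
  have h0 : dn A = 0 := by
    unfold dn av
    rw [Finset.sum_eq_zero fun x _ => Set.indicator_of_notMem (hc x) _, zero_div]
  linarith

/-- words on a sum of index types -/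
private def wordEquiv {ι κ τ : Type*} (E : ι ⊕ κ ≃ τ) (α : Type*) :
    (ι → α) × (κ → α) ≃ (τ → α) :=
  (Equiv.sumArrowEquivProdArrow ι κ α).symm.trans (Equiv.arrowCongr E (Equiv.refl α))

private theorem wordEquiv_apply {ι κ τ : Type*} (E : ι ⊕ κ ≃ τ) (α : Type*)
    (x : ι → α) (y : κ → α) : wordEquiv E α (x, y) = fun t => Sum.elim x y (E.symm t) := by
  ext t
  simp [wordEquiv, Equiv.sumArrowEquivProdArrow, Equiv.arrowCongr]

/-- a subspace extended by a fixed word -/
private def extSub {η α ι κ τ : Type*} (E : ι ⊕ κ ≃ τ) (V : Subspace η α ι) (y : κ → α) :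
    Subspace η α τ where
  idxFun t := Sum.elim V.idxFun (fun c => Sum.inl (y c)) (E.symm t)
  proper e := by
    obtain ⟨i, hi⟩ := V.proper e
    exact ⟨E (Sum.inl i), by simp [hi]⟩

private theorem extSub_apply {η α ι κ τ : Type*} (E : ι ⊕ κ ≃ τ) (V : Subspace η α ι)
    (y : κ → α) (x : η → α) : extSub E V y x = wordEquiv E α (V x, y) := by
  rw [wordEquiv_apply]
  ext t
  rw [Subspace.coe_apply]
  unfold extSub
  simp only
  rcases h : E.symm t with i | c
  · simp only [Sum.elim_inl]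
    rw [Subspace.coe_apply]
  · simp only [Sum.elim_inr, Sum.elim_inl, id]

/-- the product of two subspaces -/
private def prodSub {η θ α ι κ τ σ : Type*} (E : ι ⊕ κ ≃ τ) (F : η ⊕ θ ≃ σ) (V : Subspace η α ι)
    (L : Subspace θ α κ) : Subspace σ α τ where
  idxFun t := Sum.elim (fun i => (V.idxFun i).map id (fun e => F (Sum.inl e)))
    (fun c => (L.idxFun c).map id (fun e => F (Sum.inr e))) (E.symm t)
  proper s := by
    rcases h : F.symm s with e | e
    · obtain ⟨i, hi⟩ := V.proper e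
      refine ⟨E (Sum.inl i), ?_⟩
      simp [hi, ← h]
    · obtain ⟨i, hi⟩ := L.proper e
      refine ⟨E (Sum.inr i), ?_⟩
      simp [hi, ← h]

private theorem prodSub_apply {η θ α ι κ τ σ : Type*} (E : ι ⊕ κ ≃ τ) (F : η ⊕ θ ≃ σ)
    (V : Subspace η α ι) (L : Subspace θ α κ) (x : σ → α) :
    prodSub E F V L x =
      wordEquiv E α (V (fun e => x (F (Sum.inl e))), L (fun e => x (F (Sum.inr e)))) := by
  rw [wordEquiv_apply]
  ext t
  rw [Subspace.coe_apply]
  unfold prodSub
  simp only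
  rcases h : E.symm t with i | c
  · simp only [Sum.elim_inl]
    rw [Subspace.coe_apply]
    rcases V.idxFun i with a | e <;> simp
  · simp only [Sum.elim_inr]
    rw [Subspace.coe_apply]
    rcases L.idxFun c with a | e <;> simp

private theorem finite_subspace (η α ι : Type*) [Finite η] [Finite α] [Finite ι] :
    Finite (Subspace η α ι) :=
  Finite.of_injective Subspace.idxFun (fun _ _ h => Subspace.ext h)

/-! ### the theorems -/

theorem dhj_gen {k m : ℕ} (h : DHJ k m) (δ : ℝ) (hδ : 0 < δ) :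
    ∃ N : ℕ, ∀ (ι : Type) [Fintype ι] [DecidableEq ι], N ≤ Fintype.card ι →
      ∀ A : Set (ι → Fin k), δ ≤ dn A → ∃ V : Subspace (Fin m) (Fin k) ι, ∀ x, V x ∈ A := by
  classical
  obtain ⟨N, hN⟩ := h δ hδ
  refine ⟨N, fun ι _ _ hc A hA => ?_⟩
  have hc' : Fintype.card (Fin N) ≤ Fintype.card ι := by simpa using hc
  obtain ⟨e⟩ := Function.Embedding.nonempty_of_card_le hc'
  let E : Fin N ⊕ ↥(Set.range e)ᶜ ≃ ι :=
    (Equiv.sumCongr (Equiv.ofInjective e e.injective) (Equiv.refl _)).trans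
      (Equiv.Set.sumCompl (Set.range e))
  obtain ⟨w, -⟩ := exists_mem_of_dn_pos A (lt_of_lt_of_le hδ hA)
  have : Nonempty (↥(Set.range e)ᶜ → Fin k) := ⟨fun c => w c.1⟩
  have h1 : δ ≤ av (fun y : ↥(Set.range e)ᶜ → Fin k =>
      dn {x : Fin N → Fin k | (x, y) ∈ (wordEquiv E (Fin k)) ⁻¹' A}) := by
    rw [← dn_prod_md, dn_equiv_md]
    exact hA
  obtain ⟨y, hy⟩ := exists_le_of_av h1
  obtain ⟨V, hV⟩ := hN _ hy
  refine ⟨extSub E V y, fun x => ?_⟩
  rw [extSub_apply]
  exact hV x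

theorem dhj_mult {k : ℕ} (hk : 1 ≤ k) (h : DHJ k 1) (m : ℕ) : DHJ k m := by
  classical
  have : Nonempty (Fin k) := ⟨⟨0, hk⟩⟩
  induction m with
  | zero =>
    intro δ hδ
    refine ⟨0, fun A hA => ?_⟩
    obtain ⟨w, hw⟩ := exists_mem_of_dn_pos A (lt_of_lt_of_le hδ hA)
    refine ⟨⟨fun i => i.elim0, fun e => e.elim0⟩, fun x => ?_⟩
    have h0 : ∀ v : Fin 0 → Fin k, v = w := fun v => funext fun i => i.elim0
    rw [h0 (Subspace.toFun _ x)]
    exact hw
  | succ m ih =>
    intro δ hδ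
    obtain ⟨n₁, hn₁⟩ := ih (δ / 2) (by positivity)
    have := finite_subspace (Fin m) (Fin k) (Fin n₁)
    have := Fintype.ofFinite (Subspace (Fin m) (Fin k) (Fin n₁))
    set M : ℕ := Fintype.card (Subspace (Fin m) (Fin k) (Fin n₁)) with hM
    have hM1 : (0 : ℝ) < 2 * ((M : ℝ) + 1) := by positivity
    obtain ⟨n₂, hn₂⟩ := h (δ / (2 * ((M : ℝ) + 1))) (by positivity)
    refine ⟨n₁ + n₂, fun A hA => ?_⟩
    let E : Fin n₁ ⊕ Fin n₂ ≃ Fin (n₁ + n₂) := finSumFinEquiv
    let Y : Subspace (Fin m) (Fin k) (Fin n₁) → Set (Fin n₂ → Fin k) := fun V =>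
      {y | ∀ x, wordEquiv E (Fin k) (V x, y) ∈ A}
    let Z : Set (Fin n₂ → Fin k) :=
      {y | δ / 2 ≤ dn {x : Fin n₁ → Fin k | (x, y) ∈ (wordEquiv E (Fin k)) ⁻¹' A}}
    have hZY : ∀ y ∈ Z, ∃ V, y ∈ Y V := by
      intro y hy
      obtain ⟨V, hV⟩ := hn₁ _ hy
      exact ⟨V, fun x => hV x⟩
    have h1 : δ ≤ av (fun y : Fin n₂ → Fin k =>
        dn {x : Fin n₁ → Fin k | (x, y) ∈ (wordEquiv E (Fin k)) ⁻¹' A}) := by
      rw [← dn_prod_md, dn_equiv_md]
      exact hA
    have h2 : av (fun y : Fin n₂ → Fin k =>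
        dn {x : Fin n₁ → Fin k | (x, y) ∈ (wordEquiv E (Fin k)) ⁻¹' A}) ≤ δ / 2 + dn Z := by
      have h3 : av (fun y : Fin n₂ → Fin k => δ / 2 + Z.indicator (fun _ => (1 : ℝ)) y)
          = δ / 2 + dn Z := by
        rw [av_add, av_const]
        rfl
      rw [← h3]
      refine av_mono fun y => ?_
      by_cases hy : y ∈ Z
      · rw [Set.indicator_of_mem hy]
        have := dn_le_one {x : Fin n₁ → Fin k | (x, y) ∈ (wordEquiv E (Fin k)) ⁻¹' A}
        linarith
      · rw [Set.indicator_of_notMem hy, add_zero]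
        exact (not_le.mp hy).le
    have h4 := dn_union_md Y Z hZY
    have h5 : ∃ V, δ / (2 * ((M : ℝ) + 1)) ≤ dn (Y V) := by
      by_contra hc
      push Not at hc
      have h6 : ∑ V, dn (Y V) ≤ ∑ _V : Subspace (Fin m) (Fin k) (Fin n₁),
          δ / (2 * ((M : ℝ) + 1)) := Finset.sum_le_sum fun V _ => (hc V).le
      rw [Finset.sum_const, Finset.card_univ, nsmul_eq_mul, ← hM] at h6
      have h7 : (M : ℝ) * (δ / (2 * ((M : ℝ) + 1))) < δ / 2 := by
        rw [mul_div_assoc', div_lt_div_iff₀ hM1 (by norm_num)]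
        nlinarith
      linarith
    obtain ⟨V, hV⟩ := h5
    obtain ⟨L, hL⟩ := hn₂ _ hV
    refine ⟨prodSub E (finSumFinEquiv : Fin m ⊕ Fin 1 ≃ Fin (m + 1)) V L, fun x => ?_⟩
    rw [prodSub_apply]
    exact hL _ _

/-- the case of one letter -/
theorem dhj_one (m : ℕ) : DHJ 1 m := by
  intro δ hδ
  refine ⟨m, fun A hA => ?_⟩
  obtain ⟨w, hw⟩ := exists_mem_of_dn_pos A (lt_of_lt_of_le hδ hA)
  refine ⟨default, fun x => ?_⟩
  have : (default : Subspace (Fin m) (Fin 1) (Fin m)) x = w := Subsingleton.elim _ _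
  rw [this]
  exact hw

end GPR
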