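import Pool.Agent.GPR.Tv
import Pool.Agent.GPR.Md

/-!
# GPR/CorA: many lines of the small alphabet in a dense set, of one fixed shape

Letters: `Fin (k+1)`, last letter `k`; small alphabet `Fin k`.  Types: `Fin k ⊕ Fin m'` (a type is a
fixed letter `inl a` or a group `inr g`).  For `τ : J → Fin k ⊕ Fin m'` and `z : Fin m' → Fin (k+1)`
let `uW τ z : J → Fin (k+1)` be the word with letter `a` at the `j` with `τ j = inl a` and letter `z g`
at the `j` with `τ j = inr g`.

Proof of `exists_z`.  Let `m'` be the dimension of `DHJ k 1` for the density `δ₀/2` and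
`c = (δ₀/4) (k+1)^(-m')`.  Let `N₀` be such that `card J * sqrt ((k+1)/N₀) ≤ δ₀/4`.
For `τ` and `z : Fin m' → Fin k` (seen over `Fin (k+1)`), `place_av` with `v = uW τ z` gives
`av_{(t,x)} 1_A(place (uW τ z) t x) ≥ dn A - δ₀/4 ≥ 3 δ₀/4`.  So, averaging over `τ` and `z`,
`av_{(τ,t,x)} dn A_{τ,t,x} ≥ 3δ₀/4` where `A_{τ,t,x} = {z : Fin m' → Fin k | place (uW τ z) t x ∈ A}`,
so (as `dn ≤ 1`) the set `Q` of the `q = (τ,t,x)` with `dn A_q ≥ δ₀/2` has density `≥ δ₀/4`.
For `q ∈ Q` there is a line `V : Subspace (Fin 1) (Fin k) (Fin m')` in `A_q`; let `z_q g = castSucc a`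
if `V.idxFun g = inl a` and `z_q g = last` if `V.idxFun g = inr 0`.  Then `z_q` contains `last`
(`proper`), and for `i : Fin k`: `lowW i (z_q) = V (fun _ => i)`, and
`castSucc ∘ lowW i (uW q.1 z_q) = uW q.1 (castSucc ∘ lowW i z_q)` (the fixed letters of a type are in
the small alphabet).  So for `q ∈ Q` the property in the conclusion holds for `z = z_q`.
By pigeonhole (at most `(k+1)^{m'}` words `z`) one `z` works for a set of `q` of density
`≥ (δ₀/4) (k+1)^{-m'}`.
-/

namespace GPR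

open Combinatorics

/-- the word given by the types `τ` and the letters `z` of the groups -/
def uW {k m' : ℕ} {J : Type*} (τ : J → Fin k ⊕ Fin m') (z : Fin m' → Fin (k + 1)) :
    J → Fin (k + 1) :=
  fun j => Sum.elim (fun a => a.castSucc) z (τ j)

/-- the words `y` all of whose small versions, placed in `x` at the positions `t`, are in `A` -/
def DD {k : ℕ} {J T : Type*} [DecidableEq T] (A : Set (J × T → Fin (k + 1))) (t : J → T)
    (x : J × T → Fin (k + 1)) : Set (J → Fin (k + 1)) :=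
  {y | ∀ i : Fin k, place (fun j => (lowW i y j).castSucc) t x ∈ A}

/-- the number of positions needed -/
private theorem corA_small (a k : ℕ) {δ : ℝ} (hδ : 0 < δ) :
    ∃ N₀ : ℕ, 1 ≤ N₀ ∧ ∀ N : ℕ, N₀ ≤ N → (a : ℝ) * Real.sqrt (((k + 1 : ℕ) : ℝ) / (N : ℝ)) ≤ δ := by
  obtain ⟨n, hn⟩ := exists_nat_ge ((a : ℝ) ^ 2 * ((k + 1 : ℕ) : ℝ) / δ ^ 2)
  refine ⟨n + 1, by omega, fun N hN => ?_⟩
  have hN' : (n : ℝ) + 1 ≤ N := by exact_mod_cast hN
  have hN0 : (0 : ℝ) < N := by
    have : (0 : ℝ) ≤ n := Nat.cast_nonneg n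
    linarith
  have h1 : (a : ℝ) ^ 2 * ((k + 1 : ℕ) : ℝ) ≤ δ ^ 2 * N := by
    have h2 : (a : ℝ) ^ 2 * ((k + 1 : ℕ) : ℝ) / δ ^ 2 ≤ N := by linarith
    rw [div_le_iff₀ (by positivity)] at h2
    linarith
  have ha : (a : ℝ) = Real.sqrt ((a : ℝ) ^ 2) := (Real.sqrt_sq (Nat.cast_nonneg a)).symm
  rw [ha, ← Real.sqrt_mul (by positivity), Real.sqrt_le_left hδ.le, ← mul_div_assoc, div_le_iff₀ hN0]
  exact h1

/-- a mean of numbers in `[0, 1]` -/
private theorem corA_markov {X : Type*} [Fintype X] [Nonempty X] {f : X → ℝ} (h1 : ∀ x, f x ≤ 1) {a b : ℝ}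
    (h : a ≤ av f) (hb : 0 ≤ b) : a - b ≤ dn {x | b ≤ f x} := by
  have h2 : av f ≤ av (fun x => ({x | b ≤ f x} : Set X).indicator (fun _ => (1 : ℝ)) x + b) := by
    refine av_mono fun x => ?_
    by_cases hx : b ≤ f x
    · rw [Set.indicator_of_mem (show x ∈ {x | b ≤ f x} from hx)]
      have := h1 x
      linarith
    · rw [Set.indicator_of_notMem (show x ∉ {x | b ≤ f x} from hx)]
      push Not at hx
      linarith
  rw [av_add, av_const] at h2
  unfold dn
  have : av (({x | b ≤ f x} : Set X).indicator fun _ => (1 : ℝ)) =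
      av (fun x => ({x | b ≤ f x} : Set X).indicator (fun _ => (1 : ℝ)) x) := rfl
  linarith

/-- pigeonhole for densities -/
private theorem corA_pigeon {X Z : Type*} [Fintype X] [Fintype Z] [Nonempty Z] (E : Set X) (f : X → Z) :
    ∃ z, dn E / (Fintype.card Z : ℝ) ≤ dn {x | x ∈ E ∧ f x = z} := by
  classical
  refine exists_le_of_av (f := fun z => dn {x | x ∈ E ∧ f x = z}) (le_of_eq ?_)
  unfold dn av
  rw [← Finset.sum_div, Finset.sum_comm]
  congr 1
  congr 1
  refine Finset.sum_congr rfl fun x _ => ?_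
  rw [Finset.sum_eq_single (f x)]
  · by_cases hx : x ∈ E
    · rw [Set.indicator_of_mem hx, Set.indicator_of_mem (show x ∈ {y | y ∈ E ∧ f y = f x} from ⟨hx, rfl⟩)]
    · rw [Set.indicator_of_notMem hx,
        Set.indicator_of_notMem (show x ∉ {y | y ∈ E ∧ f y = f x} from fun h => hx h.1)]
  · intro z _ hz
    exact Set.indicator_of_notMem (fun h => hz h.2.symm) _
  · intro h
    exact absurd (Finset.mem_univ _) h

open Classical in
/-- the word of a line -/
private noncomputable def corA_z {k m' : ℕ} (S : Set (Fin m' → Fin k)) : Fin m' → Fin (k + 1) :=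
  if h : ∃ V : Subspace (Fin 1) (Fin k) (Fin m'), ∀ x, V x ∈ S then
    fun g => Sum.elim (fun a => a.castSucc) (fun _ => Fin.last k) (h.choose.idxFun g)
  else fun _ => Fin.last k

private theorem corA_z_spec {k m' : ℕ} {S : Set (Fin m' → Fin k)}
    (h : ∃ V : Subspace (Fin 1) (Fin k) (Fin m'), ∀ x, V x ∈ S) :
    (∃ g, corA_z S g = Fin.last k) ∧ ∀ i : Fin k, (fun g => low i (corA_z S g)) ∈ S := by
  have e : corA_z S = fun g => Sum.elim (fun a => a.castSucc) (fun _ => Fin.last k) (h.choose.idxFun g) := by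
    unfold corA_z
    rw [dif_pos h]
  constructor
  · obtain ⟨g, hg⟩ := h.choose.proper 0
    refine ⟨g, ?_⟩
    rw [e]
    show Sum.elim _ _ (h.choose.idxFun g) = _
    rw [hg]
    rfl
  · intro i
    have h1 := h.choose_spec (fun _ => i)
    convert h1 using 1
    funext g
    rw [e]
    show low i (Sum.elim (fun a => a.castSucc) (fun _ => Fin.last k) (h.choose.idxFun g)) = _
    rw [Subspace.apply_def]
    rcases h.choose.idxFun g with a | b
    · simp
    · simp

theorem exists_z {k : ℕ} (hk : 1 ≤ k) (h : DHJ k 1) (δ₀ : ℝ) (hδ : 0 < δ₀) :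
    ∃ (m' : ℕ) (c : ℝ), 0 < c ∧ c ≤ 1 ∧ ∀ (J : Type) [Fintype J] [DecidableEq J],
      ∃ N₀ : ℕ, ∀ (T : Type) [Fintype T] [DecidableEq T], 1 ≤ Fintype.card T →
        N₀ ≤ Fintype.card T →
        ∀ A : Set (J × T → Fin (k + 1)), δ₀ ≤ dn A →
          ∃ z : Fin m' → Fin (k + 1), (∃ g, z g = Fin.last k) ∧
            c ≤ dn {q : (J → Fin k ⊕ Fin m') × (J → T) × (J × T → Fin (k + 1)) |
              uW q.1 z ∈ DD A q.2.1 q.2.2} := by
  classical
  set δ : ℝ := min δ₀ 1 with hδd
  have hδ0 : 0 < δ := lt_min hδ one_pos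
  have hδ1 : δ ≤ 1 := min_le_right _ _
  have hδδ : δ ≤ δ₀ := min_le_left _ _
  obtain ⟨m', hm'⟩ := h (δ / 2) (by positivity)
  have : Nonempty (Fin k) := ⟨⟨0, hk⟩⟩
  have hcard : (1 : ℝ) ≤ (Fintype.card (Fin m' → Fin (k + 1)) : ℝ) := by
    exact_mod_cast Nat.one_le_iff_ne_zero.2 Fintype.card_ne_zero
  refine ⟨m', δ / 4 / (Fintype.card (Fin m' → Fin (k + 1)) : ℝ), by positivity, ?_, ?_⟩
  · rw [div_le_one (by positivity)]
    linarith
  intro J _ _
  obtain ⟨N₀, hN1, hN₀⟩ := corA_small (Fintype.card J) k (show 0 < δ / 4 by positivity)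
  refine ⟨N₀, fun T _ _ hT hTN A hA => ?_⟩
  have : Nonempty T := Fintype.card_pos_iff.1 (by omega)
  set Q := (J → Fin k ⊕ Fin m') × (J → T) × (J × T → Fin (k + 1)) with hQ
  set S : Q → Set (Fin m' → Fin k) := fun q =>
    {z | place (uW q.1 (fun g => (z g).castSucc)) q.2.1 q.2.2 ∈ A} with hS
  -- the mean of the densities
  have hone : ∀ v : J → Fin (k + 1), δ - δ / 4 ≤
      av (fun q : (J → T) × (J × T → Fin (k + 1)) => A.indicator (fun _ => (1 : ℝ)) (place v q.1 q.2)) := by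
    intro v
    have h1 := place_av (T := T) v (A.indicator (fun _ => (1 : ℝ))) (fun x => by
      by_cases hx : x ∈ A <;> simp [hx])
    have h2 := hN₀ (Fintype.card T) hTN
    rw [Fintype.card_fin] at h1
    have h3 := (abs_le.1 (h1.trans h2)).1
    have h4 : dn A = av (A.indicator (fun _ => (1 : ℝ))) := rfl
    rw [← h4] at h3
    linarith
  have hmean : δ - δ / 4 ≤ av (fun q : Q => dn (S q)) := by
    have e1 : av (fun q : Q => dn (S q)) = av (fun τ : J → Fin k ⊕ Fin m' => av (fun z : Fin m' → Fin k =>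
        av (fun q : (J → T) × (J × T → Fin (k + 1)) => A.indicator (fun _ => (1 : ℝ))
          (place (uW τ (fun g => (z g).castSucc)) q.1 q.2)))) := by
      rw [av_prod]
      congr 1
      funext τ
      show av (fun q : (J → T) × (J × T → Fin (k + 1)) => av (fun z : Fin m' → Fin k =>
        (S (τ, q)).indicator (fun _ => (1 : ℝ)) z)) = _
      rw [← av_prod (fun p : ((J → T) × (J × T → Fin (k + 1))) × (Fin m' → Fin k) =>
        (S (τ, p.1)).indicator (fun _ => (1 : ℝ)) p.2), av_prod']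
      congr 1
    rw [e1]
    exact le_av fun τ => le_av fun z => hone _
  have hdens := corA_markov (X := Q) (fun q => dn_le_one (S q)) hmean (show 0 ≤ δ / 2 by positivity)
  obtain ⟨z, hz⟩ := corA_pigeon {q : Q | δ / 2 ≤ dn (S q)} (fun q => corA_z (S q))
  have hc : δ / 4 / (Fintype.card (Fin m' → Fin (k + 1)) : ℝ) ≤
      dn {q : Q | q ∈ {q : Q | δ / 2 ≤ dn (S q)} ∧ corA_z (S q) = z} := by
    refine le_trans ?_ hz
    exact div_le_div_of_nonneg_right (by linarith) (by positivity)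
  refine ⟨z, ?_, ?_⟩
  · have hpos : 0 < dn {q : Q | q ∈ {q : Q | δ / 2 ≤ dn (S q)} ∧ corA_z (S q) = z} :=
      lt_of_lt_of_le (by positivity) hc
    have hne : ∃ q : Q, q ∈ {q : Q | δ / 2 ≤ dn (S q)} ∧ corA_z (S q) = z := by
      by_contra hne
      push Not at hne
      have : {q : Q | q ∈ {q : Q | δ / 2 ≤ dn (S q)} ∧ corA_z (S q) = z} = ∅ := by
        ext q
        simp only [Set.mem_empty_iff_false, iff_false]
        exact fun hq => hne q hq.1 hq.2
      rw [this] at hpos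
      unfold dn av at hpos
      simp at hpos
    obtain ⟨q, hq, hzq⟩ := hne
    rw [← hzq]
    exact (corA_z_spec (hm' (S q) hq)).1
  · refine hc.trans (dn_mono ?_)
    rintro q ⟨hq, hzq⟩
    have h1 := (corA_z_spec (hm' (S q) hq)).2
    rw [hzq] at h1
    show ∀ i : Fin k, place (fun j => (lowW i (uW q.1 z) j).castSucc) q.2.1 q.2.2 ∈ A
    intro i
    have h2 : place (uW q.1 (fun g => (low i (z g)).castSucc)) q.2.1 q.2.2 ∈ A := h1 i
    convert h2 using 2
    funext j
    unfold lowW uW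
    rcases q.1 j with a | g
    · simp
    · simp

end GPR
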