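import Pool.Agent.GPR.CorA

/-!
# GPR/CorB: a line free set correlates with an intersection of insensitive sets

Proof.  `m'`, `c` are those of `exists_z`; write `S = Fin k ⊕ Fin m'`, `δ = dn A ≥ δ₀`.
Given `ε ≤ 1` and `m₂`: choose `N₂ ≥ 1` with `m₂ * sqrt ((k + m')/N₂) ≤ c/4`, `J = Fin m₂ × Fin N₂`, and
`N ≥ max(1, N₀(J))` with `m₂ N₂ sqrt ((k+1)/N) ≤ c ε/16`.  Let `A` be as in the statement and `z` the
word of `exists_z`, `z g₀ = last`.  For a letter `b : Fin (k+1)` let its type be `ty b : S`, `= inl b`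
for `b < k` and `= inr g₀` for `b = last`; so `uW (fun _ => ty b) z = b`.  For `w : Fin m₂ → Fin (k+1)`,
`t₂ : Fin m₂ → Fin N₂`, `τ : J → S` we have
   `uW (place (ty ∘ w) t₂ τ) z = place w t₂ (uW τ z)`.                                        (1)
For fixed `(t, x)` apply `place_av` with alphabet `S` to the indicator of `{τ | uW τ z ∈ DD A t x}`, and
`v = ty ∘ w`; average over `(t, x)`: for every `w`,
   `av_{(t₂,τ,t,x)} 1[place w t₂ (uW τ z) ∈ DD A t x] ≥ c - c/4 = 3c/4`.                       (2)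
For fixed `t₂, τ` apply `place_av` to the indicator of `A` and `v = place w t₂ (uW τ z)`:
   `av_{(t₂,τ,t,x)} 1[place (place w t₂ (uW τ z)) t x ∈ A] ≥ δ - c ε/16`.                      (3)
For `p = (t₂,τ,t,x)` let `V_p` be the `m₂`-dimensional subspace `w ↦ place (place w t₂ (uW τ z)) t x` of
`[k+1]^(J × Fin N)` (proper: coordinate `((e, t₂ e), t (e, t₂ e))` is the wildcard `e`),
`D_p = {w | place w t₂ (uW τ z) ∈ DD A t x} = ⋂_i D_{p,i}`,
`D_{p,i} = {w | place (castSucc ∘ lowW i (place w t₂ (uW τ z))) t x ∈ A}`, which is `i`-insensitive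
because `lowW i (place w t₂ u) = place (lowW i w) t₂ (lowW i u)`.
Let `a(p) = dn {w | V_p w ∈ A}`, `d(p) = dn D_p`.  By (2), (3) averaged over `w`:
`av d ≥ 3c/4`, `av a ≥ δ - cε/16`; so with `λ = 2/ε` there is `p` with
`d(p) + λ (a(p) - δ) ≥ 3c/4 - λ cε/16 = 3c/4 - c/8`.  As `a(p) ≤ δ + cε/16` by hypothesis,
`d(p) ≥ 3c/4 - c/8 - c/8 = c/2`; as `d(p) ≤ 1` and `c > 0`, `λ (a(p) - δ) ≥ -1`, so
`a(p) ≥ δ - ε/2 ≥ δ - ε`.
Last: let `w ∈ D_p` with `V_p w ∈ A` and suppose `w e = last` for some `e`.  Then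
`y = place w t₂ (uW τ z)` contains `last`, the words `y^(i) = castSucc ∘ lowW i y` (`i < k`) and `y`
itself, placed in `x` at `t`, form a line: the subspace of dimension one with `idxFun (j, s) = inr 0`
if `s = t j` and `y j = last`, and `inl` of the letter of `place y t x` otherwise.  All its points are in
`A`: the point of `i = castSucc i'` because `y ∈ DD A t x`, the point of `last` because
`V_p w ∈ A`.  Contradiction.
-/

namespace GPR

open Combinatorics

private theorem exists_big (a b η : ℝ) (ha : 0 ≤ a) (_ : 0 ≤ b) (hη : 0 < η) (M : ℕ) :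
    ∃ N : ℕ, 1 ≤ N ∧ M ≤ N ∧ a * Real.sqrt (b / (N : ℝ)) ≤ η := by
  obtain ⟨n, hn⟩ := exists_nat_ge (a ^ 2 * b / η ^ 2)
  refine ⟨max (max 1 M) n, le_trans (le_max_left _ _) (le_max_left _ _),
    le_trans (le_max_right _ _) (le_max_left _ _), ?_⟩
  set N := max (max 1 M) n with hN
  have hN1 : (1 : ℝ) ≤ (N : ℝ) := by
    have : 1 ≤ N := le_trans (le_max_left _ _) (le_max_left _ _)
    exact_mod_cast this
  have hNn : a ^ 2 * b / η ^ 2 ≤ (N : ℝ) := by
    refine hn.trans ?_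
    have : n ≤ N := le_max_right _ _
    exact_mod_cast this
  have hNpos : (0 : ℝ) < N := by linarith
  have h1 : a ^ 2 * (b / N) ≤ η ^ 2 := by
    rw [div_le_iff₀ (by positivity)] at hNn
    rw [← mul_div_assoc, div_le_iff₀ hNpos]
    linarith
  have h2 : a * Real.sqrt (b / N) = Real.sqrt (a ^ 2 * (b / N)) := by
    rw [Real.sqrt_mul (by positivity), Real.sqrt_sq ha]
  rw [h2]
  calc Real.sqrt (a ^ 2 * (b / N)) ≤ Real.sqrt (η ^ 2) := Real.sqrt_le_sqrt h1
    _ = η := Real.sqrt_sq hη.le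

private theorem uW_place {k m' m₂ N₂ : ℕ} (z : Fin m' → Fin (k + 1)) (ty : Fin (k + 1) → Fin k ⊕ Fin m')
    (hty : ∀ b, Sum.elim (fun a => Fin.castSucc a) z (ty b) = b)
    (w : Fin m₂ → Fin (k + 1)) (t₂ : Fin m₂ → Fin N₂) (τ : Fin m₂ × Fin N₂ → Fin k ⊕ Fin m') :
    uW (place (fun e => ty (w e)) t₂ τ) z = place w t₂ (uW τ z) := by
  funext j
  unfold uW place
  by_cases hj : j.2 = t₂ j.1
  · simp only [if_pos hj]
    exact hty _
  · simp only [if_neg hj]

private theorem lowW_place {k m₂ N₂ : ℕ} (i : Fin k) (w : Fin m₂ → Fin (k + 1))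
    (t₂ : Fin m₂ → Fin N₂) (u : Fin m₂ × Fin N₂ → Fin (k + 1)) :
    lowW i (place w t₂ u) = place (lowW i w) t₂ (lowW i u) := by
  funext j
  unfold lowW place
  by_cases hj : j.2 = t₂ j.1
  · simp only [if_pos hj]
  · simp only [if_neg hj]

/-- the subspace of the words `w` placed twice -/
private def VV {k m₂ N₂ N : ℕ} (t₂ : Fin m₂ → Fin N₂) (u : Fin m₂ × Fin N₂ → Fin (k + 1))
    (t : Fin m₂ × Fin N₂ → Fin N) (x : (Fin m₂ × Fin N₂) × Fin N → Fin (k + 1)) :
    Subspace (Fin m₂) (Fin (k + 1)) ((Fin m₂ × Fin N₂) × Fin N) where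
  idxFun p := if p.2 = t p.1 then (if p.1.2 = t₂ p.1.1 then Sum.inr p.1.1 else Sum.inl (u p.1))
    else Sum.inl (x p)
  proper e := ⟨((e, t₂ e), t (e, t₂ e)), by simp⟩

private theorem VV_apply {k m₂ N₂ N : ℕ} (t₂ : Fin m₂ → Fin N₂)
    (u : Fin m₂ × Fin N₂ → Fin (k + 1))
    (t : Fin m₂ × Fin N₂ → Fin N) (x : (Fin m₂ × Fin N₂) × Fin N → Fin (k + 1))
    (w : Fin m₂ → Fin (k + 1)) : VV t₂ u t x w = place (place w t₂ u) t x := by
  funext p
  rw [Subspace.coe_apply]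
  unfold VV place
  by_cases h1 : p.2 = t p.1
  · by_cases h2 : p.1.2 = t₂ p.1.1
    · simp [h1, h2]
    · simp [h1, h2]
  · simp [h1]

/-- the line of the small versions of a word `y` which contains the last letter -/
private theorem line_of {k : ℕ} {J T : Type} [DecidableEq T]
    (A : Set (J × T → Fin (k + 1))) (t : J → T) (x : J × T → Fin (k + 1))
    (y : J → Fin (k + 1)) (j₀ : J) (hj₀ : y j₀ = Fin.last k) (h1 : y ∈ DD A t x)
    (h2 : place y t x ∈ A) :
    ∃ L : Subspace (Fin 1) (Fin (k + 1)) (J × T), ∀ u, L u ∈ A := by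
  classical
  refine ⟨⟨fun p => if p.2 = t p.1 ∧ y p.1 = Fin.last k then Sum.inr 0
    else Sum.inl (place y t x p), ?_⟩, ?_⟩
  · intro e
    refine ⟨(j₀, t j₀), ?_⟩
    simp [hj₀, Subsingleton.elim e 0]
  · intro u
    rcases Fin.eq_castSucc_or_eq_last (u 0) with ⟨i, hi⟩ | hi
    · have := h1 i
      convert this using 1
      funext p
      rw [Subspace.coe_apply]
      by_cases hp : p.2 = t p.1
      · by_cases hy : y p.1 = Fin.last k
        · simp [hp, hy, place, hi, lowW]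
        · have hlow : (low i (y p.1)).castSucc = y p.1 := by
            rcases Fin.eq_castSucc_or_eq_last (y p.1) with ⟨a, ha⟩ | ha
            · rw [ha, low_castSucc]
            · exact absurd ha hy
          simp [hp, hy, place, lowW, hlow]
      · simp [hp, place]
    · convert h2 using 1
      funext p
      rw [Subspace.coe_apply]
      by_cases hp : p.2 = t p.1
      · by_cases hy : y p.1 = Fin.last k
        · simp [hp, hy, place, hi]
        · simp [hp, hy, place]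
      · simp [hp, place]

theorem exists_V {k : ℕ} (hk : 1 ≤ k) (h : DHJ k 1) (δ₀ : ℝ) (hδ : 0 < δ₀) :
    ∃ c : ℝ, 0 < c ∧ c ≤ 1 ∧ ∀ ε : ℝ, 0 < ε → ε ≤ 1 → ∀ m₂ : ℕ, ∃ N₂ N : ℕ,
      ∀ A : Set ((Fin m₂ × Fin N₂) × Fin N → Fin (k + 1)), δ₀ ≤ dn A →
        (¬ ∃ L : Subspace (Fin 1) (Fin (k + 1)) ((Fin m₂ × Fin N₂) × Fin N), ∀ x, L x ∈ A) →
        (∀ V : Subspace (Fin m₂) (Fin (k + 1)) ((Fin m₂ × Fin N₂) × Fin N),
          dn {w | V w ∈ A} ≤ dn A + c * ε / 16) →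
        ∃ (V : Subspace (Fin m₂) (Fin (k + 1)) ((Fin m₂ × Fin N₂) × Fin N))
          (D : Fin k → Set (Fin m₂ → Fin (k + 1))),
          (∀ i, Ins i (D i)) ∧ (∀ w, (∀ i, w ∈ D i) → V w ∈ A → ∀ e, w e ≠ Fin.last k) ∧
          c / 2 ≤ dn (⋂ i, D i) ∧ dn A - ε ≤ dn {w | V w ∈ A} := by
  obtain ⟨m', c, hc0, hc1, hz⟩ := exists_z hk h δ₀ hδ
  refine ⟨c, hc0, hc1, ?_⟩
  intro ε hε0 hε1 m₂
  obtain ⟨N₂, hN₂, -, hN₂b⟩ := exists_big (m₂ : ℝ) ((k + m' : ℕ) : ℝ) (c / 4) (by positivity)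
    (by positivity) (by positivity) 0
  obtain ⟨N₀, hN₀⟩ := hz (Fin m₂ × Fin N₂)
  obtain ⟨N, hN1, hNN₀, hNb⟩ := exists_big ((m₂ * N₂ : ℕ) : ℝ) ((k + 1 : ℕ) : ℝ) (c * ε / 16)
    (by positivity) (by positivity) (by positivity) N₀
  refine ⟨N₂, N, ?_⟩
  intro A hA hline hV
  obtain ⟨z, ⟨g₀, hg₀⟩, hzc⟩ := hN₀ (Fin N) (by simpa using hN1) (by simpa using hNN₀) A hA
  have hNe₂ : Nonempty (Fin N₂) := ⟨⟨0, hN₂⟩⟩
  have hNe : Nonempty (Fin N) := ⟨⟨0, hN1⟩⟩
  have hNS : Nonempty (Fin k ⊕ Fin m') := ⟨Sum.inl ⟨0, hk⟩⟩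
  -- the type of a letter
  obtain ⟨ty, hty⟩ : ∃ ty : Fin (k + 1) → Fin k ⊕ Fin m',
      ∀ b, Sum.elim (fun a => Fin.castSucc a) z (ty b) = b := by
    refine ⟨fun b => if hb : (b : ℕ) < k then Sum.inl ⟨b, hb⟩ else Sum.inr g₀, ?_⟩
    intro b
    by_cases hb : (b : ℕ) < k
    · simp only [dif_pos hb, Sum.elim_inl]
      rfl
    · simp only [dif_neg hb, Sum.elim_inr]
      rw [hg₀]
      apply Fin.ext
      have := b.isLt
      simp only [Fin.val_last]
      omega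
  -- the two averages
  let U := (Fin m₂ → Fin N₂) × (Fin m₂ × Fin N₂ → Fin k ⊕ Fin m')
  let W := (Fin m₂ × Fin N₂ → Fin N) × ((Fin m₂ × Fin N₂) × Fin N → Fin (k + 1))
  let Fd : (Fin m₂ → Fin (k + 1)) → U → W → ℝ := fun w u v =>
    Set.indicator {w | place w u.1 (uW u.2 z) ∈ DD A v.1 v.2} (fun _ => (1 : ℝ)) w
  let Fa : (Fin m₂ → Fin (k + 1)) → U → W → ℝ := fun w u v =>
    Set.indicator {w | place (place w u.1 (uW u.2 z)) v.1 v.2 ∈ A} (fun _ => (1 : ℝ)) w
  have hind : ∀ {X : Type} (B : Set X) (x : X), |B.indicator (fun _ => (1 : ℝ)) x| ≤ 1 := by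
    intro X B x
    by_cases hx : x ∈ B <;> simp [hx]
  have hd1 : ∀ w (v : W), av (fun τ : Fin m₂ × Fin N₂ → Fin k ⊕ Fin m' =>
      Set.indicator {τ | uW τ z ∈ DD A v.1 v.2} (fun _ => (1 : ℝ)) τ) - c / 4
        ≤ av (fun u : U => Fd w u v) := by
    intro w v
    have h1 := place_av (J := Fin m₂) (T := Fin N₂) (S := Fin k ⊕ Fin m') (fun e => ty (w e))
      (Set.indicator {τ | uW τ z ∈ DD A v.1 v.2} (fun _ => (1 : ℝ))) (fun x => hind _ x)
    have h2 : (fun q : (Fin m₂ → Fin N₂) × (Fin m₂ × Fin N₂ → Fin k ⊕ Fin m') =>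
        Set.indicator {τ | uW τ z ∈ DD A v.1 v.2} (fun _ => (1 : ℝ))
          (place (fun e => ty (w e)) q.1 q.2)) = fun u : U => Fd w u v := by
      funext q
      have hm : (place (fun e => ty (w e)) q.1 q.2 ∈ {τ | uW τ z ∈ DD A v.1 v.2}) ↔
          (w ∈ {w | place w q.1 (uW q.2 z) ∈ DD A v.1 v.2}) := by
        change uW (place (fun e => ty (w e)) q.1 q.2) z ∈ DD A v.1 v.2 ↔
          place w q.1 (uW q.2 z) ∈ DD A v.1 v.2
        rw [uW_place z ty hty]
      change Set.indicator {τ | uW τ z ∈ DD A v.1 v.2} (fun _ => (1 : ℝ))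
          (place (fun e => ty (w e)) q.1 q.2) =
        Set.indicator {w | place w q.1 (uW q.2 z) ∈ DD A v.1 v.2} (fun _ => (1 : ℝ)) w
      by_cases hw : w ∈ {w | place w q.1 (uW q.2 z) ∈ DD A v.1 v.2}
      · rw [Set.indicator_of_mem hw, Set.indicator_of_mem (hm.2 hw)]
      · rw [Set.indicator_of_notMem hw, Set.indicator_of_notMem (fun h => hw (hm.1 h))]
    rw [h2] at h1
    have h3 : (Fintype.card (Fin m₂) : ℝ) *
        Real.sqrt ((Fintype.card (Fin k ⊕ Fin m') : ℝ) / (Fintype.card (Fin N₂) : ℝ)) ≤ c / 4 := by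
      simpa using hN₂b
    have h4 := (abs_le.1 (h1.trans h3)).1
    have h5 : av (Set.indicator {τ | uW τ z ∈ DD A v.1 v.2} (fun _ => (1 : ℝ)))
      = av (fun τ : Fin m₂ × Fin N₂ → Fin k ⊕ Fin m' =>
      Set.indicator {τ | uW τ z ∈ DD A v.1 v.2} (fun _ => (1 : ℝ)) τ) := rfl
    linarith
  have ha1 : ∀ w (u : U), dn A - c * ε / 16 ≤ av (fun v : W => Fa w u v) := by
    intro w u
    have h1 := place_av (J := Fin m₂ × Fin N₂) (T := Fin N) (S := Fin (k + 1))
      (place w u.1 (uW u.2 z)) (A.indicator (fun _ => (1 : ℝ))) (fun x => hind _ x)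
    have h2 : (fun q : (Fin m₂ × Fin N₂ → Fin N) × ((Fin m₂ × Fin N₂) × Fin N → Fin (k + 1)) =>
        A.indicator (fun _ => (1 : ℝ)) (place (place w u.1 (uW u.2 z)) q.1 q.2))
        = fun v : W => Fa w u v := by
      funext q
      have hm : (place (place w u.1 (uW u.2 z)) q.1 q.2 ∈ A) ↔
          (w ∈ {w | place (place w u.1 (uW u.2 z)) q.1 q.2 ∈ A}) := Iff.rfl
      change Set.indicator A (fun _ => (1 : ℝ)) (place (place w u.1 (uW u.2 z)) q.1 q.2) =
        Set.indicator {w | place (place w u.1 (uW u.2 z)) q.1 q.2 ∈ A} (fun _ => (1 : ℝ)) w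
      by_cases hw : w ∈ {w | place (place w u.1 (uW u.2 z)) q.1 q.2 ∈ A}
      · rw [Set.indicator_of_mem hw, Set.indicator_of_mem (hm.2 hw)]
      · rw [Set.indicator_of_notMem hw, Set.indicator_of_notMem (fun h => hw (hm.1 h))]
    rw [h2] at h1
    have h3 : (Fintype.card (Fin m₂ × Fin N₂) : ℝ) *
        Real.sqrt ((Fintype.card (Fin (k + 1)) : ℝ) / (Fintype.card (Fin N) : ℝ))
          ≤ c * ε / 16 := by
      simpa using hNb
    have h4 := (abs_le.1 (h1.trans h3)).1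
    have h5 : dn A = av (A.indicator (fun _ => (1 : ℝ))) := rfl
    linarith
  let dd : U × W → ℝ := fun p => av (fun w => Fd w p.1 p.2)
  let aa : U × W → ℝ := fun p => av (fun w => Fa w p.1 p.2)
  have hdd : 3 * c / 4 ≤ av dd := by
    have e1 : av dd = av (fun w => av (fun p : U × W => Fd w p.1 p.2)) := by
      have h1 := av_prod (fun q : (U × W) × (Fin m₂ → Fin (k + 1)) => Fd q.2 q.1.1 q.1.2)
      have h2 := av_prod' (fun q : (U × W) × (Fin m₂ → Fin (k + 1)) => Fd q.2 q.1.1 q.1.2)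
      exact h1.symm.trans h2
    rw [e1]
    apply le_av
    intro w
    rw [av_prod']
    have h1 : av (fun v : W => av (fun τ : Fin m₂ × Fin N₂ → Fin k ⊕ Fin m' =>
        Set.indicator {τ | uW τ z ∈ DD A v.1 v.2} (fun _ => (1 : ℝ)) τ) - c / 4)
          ≤ av (fun v : W => av (fun u : U => Fd w u v)) := av_mono (fun v => hd1 w v)
    have h2 : dn {q : (Fin m₂ × Fin N₂ → Fin k ⊕ Fin m') × W | uW q.1 z ∈ DD A q.2.1 q.2.2}
        = av (fun v : W => av (fun τ : Fin m₂ × Fin N₂ → Fin k ⊕ Fin m' =>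
        Set.indicator {τ | uW τ z ∈ DD A v.1 v.2} (fun _ => (1 : ℝ)) τ)) := by
      unfold dn
      rw [av_prod']
      rfl
    rw [av_sub, av_const, ← h2] at h1
    have h3 : c ≤ dn {q : (Fin m₂ × Fin N₂ → Fin k ⊕ Fin m') × W |
      uW q.1 z ∈ DD A q.2.1 q.2.2} := hzc
    have h4 : av (fun v : W => av (fun u : U => Fd w u v)) =
      av (fun y : W => av (fun x : U => Fd w (x, y).1 (x, y).2)) := rfl
    linarith
  have haa : dn A - c * ε / 16 ≤ av aa := by
    have e1 : av aa = av (fun w => av (fun p : U × W => Fa w p.1 p.2)) := by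
      have h1 := av_prod (fun q : (U × W) × (Fin m₂ → Fin (k + 1)) => Fa q.2 q.1.1 q.1.2)
      have h2 := av_prod' (fun q : (U × W) × (Fin m₂ → Fin (k + 1)) => Fa q.2 q.1.1 q.1.2)
      exact h1.symm.trans h2
    rw [e1]
    apply le_av
    intro w
    rw [av_prod]
    apply le_av
    intro u
    exact ha1 w u
  -- the good point
  obtain ⟨⟨⟨t₂, τ⟩, ⟨t, x⟩⟩, hp⟩ : ∃ p : U × W, 3 * c / 4 - c / 8 ≤
      dd p + 2 / ε * (aa p - dn A) := by
    apply exists_le_of_av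
    have e1 : av (fun p : U × W => dd p + 2 / ε * (aa p - dn A)) =
        av dd + 2 / ε * (av aa - dn A) := by
      rw [av_add, av_mul_left, av_sub, av_const]
    rw [e1]
    have h1 : 2 / ε * (-(c * ε / 16)) ≤ 2 / ε * (av aa - dn A) :=
      mul_le_mul_of_nonneg_left (by linarith) (by positivity)
    have h2 : 2 / ε * (-(c * ε / 16)) = -(c / 8) := by
      field_simp
      ring
    linarith
  set y₀ := uW τ z with hy₀
  let D : Fin k → Set (Fin m₂ → Fin (k + 1)) := fun i =>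
    {w | place (fun j => (lowW i (place w t₂ y₀) j).castSucc) t x ∈ A}
  have hD : ∀ w, (∀ i, w ∈ D i) ↔ place w t₂ y₀ ∈ DD A t x := fun w => Iff.rfl
  have haV : aa ((t₂, τ), (t, x)) = dn {w | VV t₂ y₀ t x w ∈ A} := by
    simp only [aa, Fa, dn, VV_apply]
    rfl
  have hdD : dd ((t₂, τ), (t, x)) = dn (⋂ i, D i) := by
    have : (⋂ i, D i) = {w | place w t₂ y₀ ∈ DD A t x} := by
      ext w
      rw [Set.mem_iInter]
      exact hD w
    rw [this]
    rfl
  have h1 := hV (VV t₂ y₀ t x)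
  rw [← haV] at h1
  have hlam : 0 < 2 / ε := by positivity
  refine ⟨VV t₂ y₀ t x, D, ?_, ?_, ?_, ?_⟩
  · intro i w w' hww hw
    have : lowW i (place w t₂ y₀) = lowW i (place w' t₂ y₀) := by
      rw [lowW_place, lowW_place, hww]
    change place (fun j => (lowW i (place w' t₂ y₀) j).castSucc) t x ∈ A
    rw [← this]
    exact hw
  · intro w hw hwA e he
    apply hline
    rw [VV_apply] at hwA
    exact line_of A t x (place w t₂ y₀) (e, t₂ e) (by simp [place, he]) ((hD w).1 hw) hwA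
  · rw [← hdD]
    have h2 : 2 / ε * (aa ((t₂, τ), (t, x)) - dn A) ≤ 2 / ε * (c * ε / 16) :=
      mul_le_mul_of_nonneg_left (by linarith) hlam.le
    have h3 : 2 / ε * (c * ε / 16) = c / 8 := by
      field_simp
      ring
    linarith
  · rw [← haV]
    have h2 : dd ((t₂, τ), (t, x)) ≤ 1 := by
      rw [hdD]
      exact dn_le_one _
    by_contra hcon
    push Not at hcon
    have h3 : 2 / ε * (aa ((t₂, τ), (t, x)) - dn A) ≤ 2 / ε * (-ε) :=
      mul_le_mul_of_nonneg_left (by linarith) hlam.le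
    have h4 : 2 / ε * (-ε) = -2 := by
      field_simp
    linarith

end GPR
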