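import Pool.Agent.GPR.HDefs

/-!
# GPR/Cse: repeated Cauchy-Schwarz (elimination of functions which miss one variable each)

Proof by induction on the finset `A`, for all `P, F, H, M`.
`A = ∅`: `Om ∅` has the one element `ω = false`, `mix y0 y1 false = y0`, the right side is
`2 * |av F|` (the average over `y1` is trivial).
Step `A = insert a A'`.  Let `R p y = F p y * ∏_{i ∈ A'} H i p y` and
`Rb p y = av_s R p (update y a s)`.  As `H a p` does not depend on the coordinate `a`,
`E := av_{(p,y)} F ∏_{i∈A} H_i = av_{(p,y)} H a p y * Rb p y` (the average over `y` equals the average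
over `y` and `s` of the function at `update y a s`).  By Cauchy-Schwarz and `|H a| ≤ M a`:
  `E^2 ≤ (av_{(p,y)} M a) (av_{(p,y)} M a * Rb^2) ≤ 2 * E'`,
with `av M a ≤ 2` from `hC` (`i = a`, `A' = ∅`), and
  `E' = av_{(p,y)} M a * Rb^2 = av_{(p,s,s',y)} F' * ∏_{i ∈ A'} H'_i`, parameters `P' = P × X × X`,
  `F' (p,s,s') y = M a p y * F p (update y a s) * F p (update y a s')`,
  `H' i (p,s,s') y = H i p (update y a s) * H i p (update y a s')`, `M'` likewise from `M`.
`H' i`, `M' i` (`i ∈ A'`, `i ≠ a`) do not depend on the coordinate `i`, and `|H'| ≤ M'`.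
For a function `Φ` of `(p, s, s', y0, y1)` which does not depend on `y0 a`, `y1 a`:
  `av_{(p,s,s'),y0,y1} Φ(p,s,s',y0,y1) = av_{p,y0,y1} Φ(p, y0 a, y1 a, y0, y1)`.              (*)
For `ω ∈ Om A''`, `a ∉ A''`: `update (mix y0 y1 ω) a (y0 a) = mix y0 y1 ω`, and
`update (mix y0 y1 ω) a (y1 a) = mix y0 y1 (update ω a true)`; `Om (insert a A'')` is the disjoint union
of `Om A''` and its image under `ω ↦ update ω a true`.  By (*) the hypothesis `hC` for
`(P', F', H', M', A')` follows from `hC` for `insert a A''`, and the right side of the induction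
hypothesis is the right side of the claim:
`∏_{ω∈Om A'} F' = ∏_{ω∈Om A'} M a p (mix ω) * ∏_{ω ∈ Om A} F p (mix ω)`, and `(insert a A').erase a = A'`,
`∏_{ω ∈ Om (A'.erase i)} M' i = ∏_{ω ∈ Om (A.erase i)} M i`.
So `|E|^(2^|A|) = (E^2)^(2^|A'|) ≤ (2 |E'|)^(2^|A'|) ≤ 2^(2^|A'|) * 2^(2^|A'|) * |...|`.
-/

set_option linter.unusedSectionVars false

namespace GPR

section cse_tools

variable {ι X : Type} [Fintype ι] [DecidableEq ι] [Fintype X] [Nonempty X]

private theorem cse_av_congr {Y : Type*} [Fintype Y] {f g : Y → ℝ} (h : ∀ x, f x = g x) : av f = av g := by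
  rw [show f = g from funext h]

private theorem cse_av_comm {Y Z : Type*} [Fintype Y] [Fintype Z] (f : Y → Z → ℝ) :
    av (fun y => av (fun z => f y z)) = av (fun z => av (fun y => f y z)) := by
  rw [← av_prod (fun q : Y × Z => f q.1 q.2), ← av_prod' (fun q : Y × Z => f q.1 q.2)]

private theorem cse_av3 {Y Z W : Type*} [Fintype Y] [Fintype Z] [Fintype W] (f : Y → Z → W → ℝ) :
    av (fun q : Y × Z × W => f q.1 q.2.1 q.2.2) = av (fun y => av (fun z => av (fun w => f y z w))) := by
  rw [av_prod]
  exact cse_av_congr fun y => av_prod _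

/-- exchange of the coordinate `a` with a parameter -/
private def cse_sw (a : ι) : X × (ι → X) ≃ X × (ι → X) where
  toFun q := (q.2 a, Function.update q.2 a q.1)
  invFun q := (q.2 a, Function.update q.2 a q.1)
  left_inv q := by
    refine Prod.ext ?_ ?_
    · simp
    · simp
  right_inv q := by
    refine Prod.ext ?_ ?_
    · simp
    · simp

private theorem cse_av_one (a : ι) (f : X → (ι → X) → ℝ)
    (h : ∀ s y z, f s (Function.update y a z) = f s y) :
    av (fun s => av (fun y => f s y)) = av (fun y : ι → X => f (y a) y) := by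
  have h1 := av_equiv (cse_sw (X := X) a) (fun q : X × (ι → X) => f q.1 q.2)
  rw [← av_prod (fun q : X × (ι → X) => f q.1 q.2), ← h1, av_prod]
  have h2 : ∀ s : X, av (fun y : ι → X => f ((cse_sw a (s, y)).1) ((cse_sw a (s, y)).2)) =
      av (fun y : ι → X => f (y a) y) := fun s => cse_av_congr fun y => h _ _ _
  rw [cse_av_congr h2, av_const]

private theorem cse_av_upd (a : ι) (g : (ι → X) → ℝ) :
    av g = av (fun y => av (fun s => g (Function.update y a s))) := by
  rw [cse_av_comm]
  have h1 := av_equiv (cse_sw (X := X) a) (fun q : X × (ι → X) => g q.2)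
  rw [← av_prod (fun q : X × (ι → X) => g (Function.update q.2 a q.1))]
  have h2 : av (fun q : X × (ι → X) => g (Function.update q.2 a q.1)) =
      av (fun q : X × (ι → X) => g q.2) := h1
  rw [h2, av_prod]
  exact (av_const (X := X) (av g)).symm

private theorem cse_star (a : ι) (f : X → X → (ι → X) → (ι → X) → ℝ)
    (h0 : ∀ s s' y0 y1 z, f s s' (Function.update y0 a z) y1 = f s s' y0 y1)
    (h1 : ∀ s s' y0 y1 z, f s s' y0 (Function.update y1 a z) = f s s' y0 y1) :
    av (fun s => av (fun s' => av (fun y0 => av (fun y1 => f s s' y0 y1)))) =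
      av (fun y0 : ι → X => av (fun y1 : ι → X => f (y0 a) (y1 a) y0 y1)) := by
  have e1 : ∀ s, av (fun s' => av (fun y0 => av (fun y1 => f s s' y0 y1))) =
      av (fun y0 => av (fun y1 : ι → X => f s (y1 a) y0 y1)) := by
    intro s
    rw [cse_av_comm]
    exact cse_av_congr fun y0 => cse_av_one a (fun s' y1 => f s s' y0 y1) (fun s' y1 z => h1 s s' y0 y1 z)
  rw [cse_av_congr e1]
  exact cse_av_one a (fun s y0 => av (fun y1 : ι → X => f s (y1 a) y0 y1))
    (fun s y0 z => cse_av_congr fun y1 => h0 s (y1 a) y0 y1 z)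

private theorem cse_mix_upd0 (a : ι) (y0 y1 : ι → X) (ω : ι → Bool) (z s : X) :
    Function.update (mix (Function.update y0 a z) y1 ω) a s = Function.update (mix y0 y1 ω) a s := by
  funext l
  by_cases h : l = a
  · subst h; simp
  · rw [Function.update_of_ne h, Function.update_of_ne h]
    unfold mix
    rw [Function.update_of_ne h]

private theorem cse_mix_upd1 (a : ι) (y0 y1 : ι → X) (ω : ι → Bool) (z s : X) :
    Function.update (mix y0 (Function.update y1 a z) ω) a s = Function.update (mix y0 y1 ω) a s := by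
  funext l
  by_cases h : l = a
  · subst h; simp
  · rw [Function.update_of_ne h, Function.update_of_ne h]
    unfold mix
    rw [Function.update_of_ne h]

private theorem cse_mix_f (a : ι) (y0 y1 : ι → X) {ω : ι → Bool} (h : ω a = false) :
    Function.update (mix y0 y1 ω) a (y0 a) = mix y0 y1 ω := by
  funext l
  by_cases hl : l = a
  · subst hl
    rw [Function.update_self]
    unfold mix
    rw [h]
    simp
  · rw [Function.update_of_ne hl]

private theorem cse_mix_t (a : ι) (y0 y1 : ι → X) (ω : ι → Bool) :
    Function.update (mix y0 y1 ω) a (y1 a) = mix y0 y1 (Function.update ω a true) := by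
  funext l
  by_cases hl : l = a
  · subst hl
    rw [Function.update_self]
    unfold mix
    rw [Function.update_self]
    simp
  · rw [Function.update_of_ne hl]
    unfold mix
    rw [Function.update_of_ne hl]

private theorem cse_Om_f {A : Finset ι} {a : ι} (ha : a ∉ A) {ω : ι → Bool} (h : ω ∈ Om A) : ω a = false := by
  unfold Om at h
  exact (Finset.mem_filter.1 h).2 a ha

private theorem cse_Om_insert {A : Finset ι} {a : ι} (ha : a ∉ A) (g : (ι → Bool) → ℝ) :
    ∏ ω ∈ Om (insert a A), g ω = ∏ ω ∈ Om A, g ω * g (Function.update ω a true) := by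
  classical
  have hu : Om (insert a A) = Om A ∪ (Om A).image (fun ω => Function.update ω a true) := by
    ext ω
    unfold Om
    rw [Finset.mem_union, Finset.mem_image]
    simp only [Finset.mem_filter, Finset.mem_univ, true_and]
    constructor
    · intro h
      by_cases hω : ω a = true
      · right
        refine ⟨Function.update ω a false, fun l hl => ?_, ?_⟩
        · by_cases hla : l = a
          · subst hla; simp
          · rw [Function.update_of_ne hla]
            exact h l (fun hc => by
              rcases Finset.mem_insert.1 hc with h1 | h1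
              · exact hla h1
              · exact hl h1)
        · funext l
          by_cases hla : l = a
          · subst hla; simp [hω]
          · rw [Function.update_of_ne hla, Function.update_of_ne hla]
      · left
        intro l hl
        by_cases hla : l = a
        · subst hla; simpa using hω
        · exact h l (fun hc => by
            rcases Finset.mem_insert.1 hc with h1 | h1
            · exact hla h1
            · exact hl h1)
    · rintro (h | ⟨ω', h, rfl⟩) l hl
      · exact h l (fun hc => hl (Finset.mem_insert_of_mem hc))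
      · have hla : l ≠ a := fun hc => hl (hc ▸ Finset.mem_insert_self a A)
        rw [Function.update_of_ne hla]
        exact h l (fun hc => hl (Finset.mem_insert_of_mem hc))
  have hd : Disjoint (Om A) ((Om A).image (fun ω => Function.update ω a true)) := by
    rw [Finset.disjoint_left]
    intro ω h1 h2
    obtain ⟨ω', -, rfl⟩ := Finset.mem_image.1 h2
    have := cse_Om_f ha h1
    rw [Function.update_self] at this
    exact absurd this (by decide)
  rw [hu, Finset.prod_union hd, Finset.prod_image, ← Finset.prod_mul_distrib]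
  intro ω hω ω' hω' he
  funext l
  by_cases hla : l = a
  · subst hla
    rw [cse_Om_f ha hω, cse_Om_f ha hω']
  · have := congrFun he l
    simp only [Function.update_of_ne hla] at this
    exact this

private theorem cse_Om_empty : Om (∅ : Finset ι) = {fun _ => false} := by
  ext ω
  unfold Om
  simp only [Finset.mem_filter, Finset.mem_univ, true_and, Finset.notMem_empty, not_false_eq_true, forall_const,
    Finset.mem_singleton]
  constructor
  · intro h; funext l; exact h l
  · intro h l; rw [h]

private theorem cse_mix_false (y0 y1 : ι → X) : mix y0 y1 (fun _ => false) = y0 := by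
  funext l
  unfold mix
  simp

/-- Cauchy-Schwarz with a weight -/
private theorem cse_cs {Y : Type*} [Fintype Y] [Nonempty Y] {h m r : Y → ℝ} (hm : ∀ y, |h y| ≤ m y) :
    av (fun y => h y * r y) ^ 2 ≤ av m * av (fun y => m y * r y ^ 2) := by
  have hm0 : ∀ y, 0 ≤ m y := fun y => (abs_nonneg _).trans (hm y)
  have h1 : |av (fun y => h y * r y)| ≤ av (fun y => m y * |r y|) := by
    refine (abs_av_le _).trans (av_mono fun y => ?_)
    rw [abs_mul]
    exact mul_le_mul_of_nonneg_right (hm y) (abs_nonneg _)
  have h2 : av (fun y => m y * |r y|) ^ 2 ≤ av m * av (fun y => m y * r y ^ 2) := by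
    unfold av
    rw [div_pow, div_mul_div_comm, ← pow_two (Fintype.card Y : ℝ)]
    refine div_le_div_of_nonneg_right ?_ (by positivity)
    have h3 := Finset.sum_mul_sq_le_sq_mul_sq Finset.univ (fun y => Real.sqrt (m y))
      (fun y => Real.sqrt (m y) * |r y|)
    have e1 : ∀ y, Real.sqrt (m y) * (Real.sqrt (m y) * |r y|) = m y * |r y| := by
      intro y
      rw [← mul_assoc, Real.mul_self_sqrt (hm0 y)]
    have e2 : ∀ y, Real.sqrt (m y) ^ 2 = m y := fun y => Real.sq_sqrt (hm0 y)
    have e3 : ∀ y, (Real.sqrt (m y) * |r y|) ^ 2 = m y * r y ^ 2 := by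
      intro y
      rw [mul_pow, Real.sq_sqrt (hm0 y), sq_abs]
    simp only [e1, e2, e3] at h3
    exact h3
  calc av (fun y => h y * r y) ^ 2 = |av (fun y => h y * r y)| ^ 2 := (sq_abs _).symm
    _ ≤ av (fun y => m y * |r y|) ^ 2 := pow_le_pow_left₀ (abs_nonneg _) h1 2
    _ ≤ _ := h2

private theorem cse_ind_upd {i a : ι} (hia : i ≠ a) {f : (ι → X) → ℝ} (h : Ind1 i f) (s : X) :
    Ind1 i (fun y => f (Function.update y a s)) := by
  intro x y hxy
  refine h _ _ fun l hl => ?_
  by_cases hla : l = a
  · subst hla; simp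
  · rw [Function.update_of_ne hla, Function.update_of_ne hla]
    exact hxy l hl

private theorem cse_ind_mul {i : ι} {f g : (ι → X) → ℝ} (hf : Ind1 i f) (hg : Ind1 i g) :
    Ind1 i (fun y => f y * g y) := fun x y h => by
  show f x * g x = f y * g y
  rw [hf x y h, hg x y h]

private theorem cse_ind_mix0 {a : ι} {f : (ι → X) → ℝ} (h : Ind1 a f) (y0 y1 : ι → X) (ω : ι → Bool) (z : X) :
    f (mix (Function.update y0 a z) y1 ω) = f (mix y0 y1 ω) := by
  refine h _ _ fun l hl => ?_
  unfold mix
  rw [Function.update_of_ne hl]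

private theorem cse_ind_mix1 {a : ι} {f : (ι → X) → ℝ} (h : Ind1 a f) (y0 y1 : ι → X) (ω : ι → Bool) (z : X) :
    f (mix y0 (Function.update y1 a z) ω) = f (mix y0 y1 ω) := by
  refine h _ _ fun l hl => ?_
  unfold mix
  rw [Function.update_of_ne hl]

end cse_tools

theorem cse {ι X : Type} [Fintype ι] [DecidableEq ι] [Fintype X] [Nonempty X] (A : Finset ι) :
    ∀ (P : Type) [Fintype P] [Nonempty P] (F : P → (ι → X) → ℝ) (H M : ι → P → (ι → X) → ℝ),
      (∀ i ∈ A, ∀ p, Ind1 i (H i p)) → (∀ i ∈ A, ∀ p, Ind1 i (M i p)) →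
      (∀ i ∈ A, ∀ p x, |H i p x| ≤ M i p x) →
      (∀ i ∈ A, ∀ A' ⊆ A.erase i,
        av (fun q : P × (ι → X) × (ι → X) => ∏ ω ∈ Om A', M i q.1 (mix q.2.1 q.2.2 ω)) ≤ 2) →
      |av (fun q : P × (ι → X) => F q.1 q.2 * ∏ i ∈ A, H i q.1 q.2)| ^ (2 ^ A.card) ≤
        2 ^ (2 ^ A.card) * |av (fun q : P × (ι → X) × (ι → X) =>
          (∏ ω ∈ Om A, F q.1 (mix q.2.1 q.2.2 ω)) *
            ∏ i ∈ A, ∏ ω ∈ Om (A.erase i), M i q.1 (mix q.2.1 q.2.2 ω))| := by
  classical
  induction A using Finset.induction_on with
  | empty =>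
    intro P _ _ F H M _ _ _ _
    have e1 : av (fun q : P × (ι → X) × (ι → X) =>
        (∏ ω ∈ Om (∅ : Finset ι), F q.1 (mix q.2.1 q.2.2 ω)) *
          ∏ i ∈ (∅ : Finset ι), ∏ ω ∈ Om ((∅ : Finset ι).erase i), M i q.1 (mix q.2.1 q.2.2 ω)) =
        av (fun q : P × (ι → X) => F q.1 q.2 * ∏ i ∈ (∅ : Finset ι), H i q.1 q.2) := by
      have e2 : ∀ q : P × (ι → X) × (ι → X), (∏ ω ∈ Om (∅ : Finset ι), F q.1 (mix q.2.1 q.2.2 ω)) *
          ∏ i ∈ (∅ : Finset ι), ∏ ω ∈ Om ((∅ : Finset ι).erase i), M i q.1 (mix q.2.1 q.2.2 ω) = F q.1 q.2.1 := by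
        intro q
        rw [cse_Om_empty, Finset.prod_singleton, Finset.prod_empty, mul_one, cse_mix_false]
      rw [cse_av_congr e2, cse_av3 (fun p y _ => F p y), av_prod]
      refine cse_av_congr fun p => ?_
      refine cse_av_congr fun y => ?_
      rw [av_const, Finset.prod_empty, mul_one]
    rw [e1, Finset.card_empty, pow_zero, pow_one, pow_one]
    have := abs_nonneg (av (fun q : P × (ι → X) => F q.1 q.2 * ∏ i ∈ (∅ : Finset ι), H i q.1 q.2))
    linarith
  | insert a A ha ih =>
    intro P _ _ F H M hH hM hHM hC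
    -- the new data
    let P' : Type := P × X × X
    let F' : P' → (ι → X) → ℝ := fun q y =>
      M a q.1 y * (F q.1 (Function.update y a q.2.1) * F q.1 (Function.update y a q.2.2))
    let H' : ι → P' → (ι → X) → ℝ := fun i q y =>
      H i q.1 (Function.update y a q.2.1) * H i q.1 (Function.update y a q.2.2)
    let M' : ι → P' → (ι → X) → ℝ := fun i q y =>
      M i q.1 (Function.update y a q.2.1) * M i q.1 (Function.update y a q.2.2)
    have hne : ∀ i ∈ A, i ≠ a := fun i hi h => ha (h ▸ hi)
    have hmem : ∀ i ∈ A, i ∈ insert a A := fun i hi => Finset.mem_insert_of_mem hi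
    have hMa : ∀ p, Ind1 a (M a p) := fun p => hM a (Finset.mem_insert_self a A) p
    have hHa : ∀ p, Ind1 a (H a p) := fun p => hH a (Finset.mem_insert_self a A) p
    have hM0 : ∀ i ∈ insert a A, ∀ p x, 0 ≤ M i p x := fun i hi p x => (abs_nonneg _).trans (hHM i hi p x)
    -- passage from the new average to the old one
    have pass : ∀ G : P → X → X → (ι → X) → (ι → X) → ℝ,
        (∀ p s s' y0 y1 z, G p s s' (Function.update y0 a z) y1 = G p s s' y0 y1) →
        (∀ p s s' y0 y1 z, G p s s' y0 (Function.update y1 a z) = G p s s' y0 y1) →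
        av (fun q : P' × (ι → X) × (ι → X) => G q.1.1 q.1.2.1 q.1.2.2 q.2.1 q.2.2) =
          av (fun q : P × (ι → X) × (ι → X) => G q.1 (q.2.1 a) (q.2.2 a) q.2.1 q.2.2) := by
      intro G g0 g1
      rw [cse_av3 (fun (q : P') y0 y1 => G q.1 q.2.1 q.2.2 y0 y1),
        cse_av3 (fun p (y0 y1 : ι → X) => G p (y0 a) (y1 a) y0 y1),
        cse_av3 (fun p s s' => av (fun y0 => av (fun y1 => G p s s' y0 y1)))]
      exact cse_av_congr fun p => cse_star a (G p) (g0 p) (g1 p)
    -- induction hypothesis
    have h1 := ih P' F' H' M'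
      (fun i hi q => cse_ind_mul (cse_ind_upd (hne i hi) (hH i (hmem i hi) q.1) q.2.1)
        (cse_ind_upd (hne i hi) (hH i (hmem i hi) q.1) q.2.2))
      (fun i hi q => cse_ind_mul (cse_ind_upd (hne i hi) (hM i (hmem i hi) q.1) q.2.1)
        (cse_ind_upd (hne i hi) (hM i (hmem i hi) q.1) q.2.2))
      (fun i hi q x => by
        show |H i q.1 (Function.update x a q.2.1) * H i q.1 (Function.update x a q.2.2)| ≤ _
        rw [abs_mul]
        exact mul_le_mul (hHM i (hmem i hi) _ _) (hHM i (hmem i hi) _ _) (abs_nonneg _) (hM0 i (hmem i hi) _ _))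
      (fun i hi A' hA' => by
        have haA' : a ∉ A' := fun h => ha (Finset.mem_of_mem_erase (hA' h))
        have e1 := pass (fun p s s' y0 y1 => ∏ ω ∈ Om A', (M i p (Function.update (mix y0 y1 ω) a s) *
            M i p (Function.update (mix y0 y1 ω) a s')))
          (fun p s s' y0 y1 z => Finset.prod_congr rfl fun ω _ => by rw [cse_mix_upd0, cse_mix_upd0])
          (fun p s s' y0 y1 z => Finset.prod_congr rfl fun ω _ => by rw [cse_mix_upd1, cse_mix_upd1])
        have e2 : av (fun q : P' × (ι → X) × (ι → X) => ∏ ω ∈ Om A', M' i q.1 (mix q.2.1 q.2.2 ω)) =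
            av (fun q : P × (ι → X) × (ι → X) => ∏ ω ∈ Om (insert a A'), M i q.1 (mix q.2.1 q.2.2 ω)) := by
          refine e1.trans (cse_av_congr fun q => ?_)
          rw [cse_Om_insert haA']
          refine Finset.prod_congr rfl fun ω hω => ?_
          rw [cse_mix_f a _ _ (cse_Om_f haA' hω), cse_mix_t]
        rw [e2]
        refine hC i (hmem i hi) (insert a A') ?_
        intro l hl
        rw [Finset.mem_erase]
        rcases Finset.mem_insert.1 hl with h | h
        · rw [h]
          exact ⟨(hne i hi).symm, Finset.mem_insert_self a A⟩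
        · have := Finset.mem_erase.1 (hA' h)
          exact ⟨this.1, Finset.mem_insert_of_mem this.2⟩)
    -- the right sides agree
    have hR : av (fun q : P' × (ι → X) × (ι → X) => (∏ ω ∈ Om A, F' q.1 (mix q.2.1 q.2.2 ω)) *
        ∏ i ∈ A, ∏ ω ∈ Om (A.erase i), M' i q.1 (mix q.2.1 q.2.2 ω)) =
        av (fun q : P × (ι → X) × (ι → X) => (∏ ω ∈ Om (insert a A), F q.1 (mix q.2.1 q.2.2 ω)) *
          ∏ i ∈ insert a A, ∏ ω ∈ Om ((insert a A).erase i), M i q.1 (mix q.2.1 q.2.2 ω)) := by
      have e1 := pass (fun p s s' y0 y1 => (∏ ω ∈ Om A, (M a p (mix y0 y1 ω) *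
            (F p (Function.update (mix y0 y1 ω) a s) * F p (Function.update (mix y0 y1 ω) a s')))) *
          ∏ i ∈ A, ∏ ω ∈ Om (A.erase i), (M i p (Function.update (mix y0 y1 ω) a s) *
            M i p (Function.update (mix y0 y1 ω) a s')))
        (fun p s s' y0 y1 z => by
          simp only [cse_mix_upd0, cse_ind_mix0 (hMa p)])
        (fun p s s' y0 y1 z => by
          simp only [cse_mix_upd1, cse_ind_mix1 (hMa p)])
      refine e1.trans (cse_av_congr fun q => ?_)
      have e2 : ∀ ω ∈ Om A, M a q.1 (mix q.2.1 q.2.2 ω) * (F q.1 (Function.update (mix q.2.1 q.2.2 ω) a (q.2.1 a)) *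
          F q.1 (Function.update (mix q.2.1 q.2.2 ω) a (q.2.2 a))) =
          M a q.1 (mix q.2.1 q.2.2 ω) * (F q.1 (mix q.2.1 q.2.2 ω) *
            F q.1 (mix q.2.1 q.2.2 (Function.update ω a true))) := by
        intro ω hω
        rw [cse_mix_f a _ _ (cse_Om_f ha hω), cse_mix_t]
      have e3 : ∀ i ∈ A, ∏ ω ∈ Om (A.erase i), (M i q.1 (Function.update (mix q.2.1 q.2.2 ω) a (q.2.1 a)) *
          M i q.1 (Function.update (mix q.2.1 q.2.2 ω) a (q.2.2 a))) =
          ∏ ω ∈ Om ((insert a A).erase i), M i q.1 (mix q.2.1 q.2.2 ω) := by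
        intro i hi
        have hai : a ∉ A.erase i := fun h => ha (Finset.mem_of_mem_erase h)
        rw [Finset.erase_insert_of_ne (hne i hi).symm, cse_Om_insert hai]
        refine Finset.prod_congr rfl fun ω hω => ?_
        rw [cse_mix_f a _ _ (cse_Om_f hai hω), cse_mix_t]
      show (∏ ω ∈ Om A, _) * ∏ i ∈ A, _ = _
      rw [Finset.prod_congr rfl e2, Finset.prod_congr rfl e3, Finset.prod_insert ha, Finset.erase_insert ha,
        Finset.prod_mul_distrib, cse_Om_insert ha]
      ring
    -- the first Cauchy-Schwarz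
    set E : ℝ := av (fun q : P × (ι → X) => F q.1 q.2 * ∏ i ∈ insert a A, H i q.1 q.2) with hE
    set E' : ℝ := av (fun q : P' × (ι → X) => F' q.1 q.2 * ∏ i ∈ A, H' i q.1 q.2) with hE'
    have key : E ^ 2 ≤ 2 * |E'| := by
      let r : P → (ι → X) → ℝ := fun p y => F p y * ∏ i ∈ A, H i p y
      let rb : P → (ι → X) → ℝ := fun p y => av (fun s => r p (Function.update y a s))
      have a1 : E = av (fun q : P × (ι → X) => H a q.1 q.2 * rb q.1 q.2) := by
        rw [hE, av_prod, av_prod]
        refine cse_av_congr fun p => ?_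
        rw [cse_av_upd a]
        refine cse_av_congr fun y => ?_
        show av (fun s => F p (Function.update y a s) * ∏ i ∈ insert a A, H i p (Function.update y a s)) =
          H a p y * av (fun s => r p (Function.update y a s))
        rw [← av_mul_left]
        refine cse_av_congr fun s => ?_
        rw [Finset.prod_insert ha]
        have : H a p (Function.update y a s) = H a p y :=
          hHa p _ _ fun l hl => Function.update_of_ne hl _ _
        rw [this]
        show F p (Function.update y a s) * (H a p y * ∏ i ∈ A, H i p (Function.update y a s)) =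
          H a p y * (F p (Function.update y a s) * ∏ i ∈ A, H i p (Function.update y a s))
        ring
      have a2 := cse_cs (h := fun q : P × (ι → X) => H a q.1 q.2) (m := fun q : P × (ι → X) => M a q.1 q.2)
        (r := fun q : P × (ι → X) => rb q.1 q.2) (fun q => hHM a (Finset.mem_insert_self a A) q.1 q.2)
      have a3 : av (fun q : P × (ι → X) => M a q.1 q.2) ≤ 2 := by
        have h2 := hC a (Finset.mem_insert_self a A) ∅ (Finset.empty_subset _)
        have e2 : ∀ q : P × (ι → X) × (ι → X), ∏ ω ∈ Om (∅ : Finset ι), M a q.1 (mix q.2.1 q.2.2 ω) =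
            M a q.1 q.2.1 := by
          intro q
          rw [cse_Om_empty, Finset.prod_singleton, cse_mix_false]
        rw [cse_av_congr e2, cse_av3 (fun p y _ => M a p y)] at h2
        rw [av_prod]
        refine le_trans (le_of_eq ?_) h2
        refine cse_av_congr fun p => cse_av_congr fun y => ?_
        rw [av_const]
      have a4 : av (fun q : P × (ι → X) => M a q.1 q.2 * rb q.1 q.2 ^ 2) = E' := by
        rw [hE', av_prod, av_prod]
        rw [cse_av3 (fun p s s' => av (fun y => F' (p, s, s') y * ∏ i ∈ A, H' i (p, s, s') y))]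
        refine cse_av_congr fun p => ?_
        have b1 : ∀ y, M a p y * rb p y ^ 2 = av (fun s => av (fun s' => F' (p, s, s') y * ∏ i ∈ A, H' i (p, s, s') y)) := by
          intro y
          have b2 : ∀ s s', F' (p, s, s') y * ∏ i ∈ A, H' i (p, s, s') y =
              (M a p y * r p (Function.update y a s)) * r p (Function.update y a s') := by
            intro s s'
            show M a p y * (F p (Function.update y a s) * F p (Function.update y a s')) *
              ∏ i ∈ A, (H i p (Function.update y a s) * H i p (Function.update y a s')) =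
              (M a p y * (F p (Function.update y a s) * ∏ i ∈ A, H i p (Function.update y a s))) *
                (F p (Function.update y a s') * ∏ i ∈ A, H i p (Function.update y a s'))
            rw [Finset.prod_mul_distrib]
            ring
          have b3 : ∀ s, av (fun s' => F' (p, s, s') y * ∏ i ∈ A, H' i (p, s, s') y) =
              (M a p y * rb p y) * r p (Function.update y a s) := by
            intro s
            rw [cse_av_congr (b2 s), av_mul_left]
            show (M a p y * r p (Function.update y a s)) * rb p y = _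
            ring
          rw [cse_av_congr b3, av_mul_left]
          show M a p y * rb p y ^ 2 = (M a p y * rb p y) * rb p y
          ring
        rw [cse_av_congr b1, cse_av_comm]
        exact cse_av_congr fun s => cse_av_comm _
      rw [a1]
      refine a2.trans ?_
      rw [a4]
      have a5 : 0 ≤ av (fun q : P × (ι → X) => M a q.1 q.2) :=
        av_nonneg fun q => hM0 a (Finset.mem_insert_self a A) q.1 q.2
      calc av (fun q : P × (ι → X) => M a q.1 q.2) * E' ≤ av (fun q : P × (ι → X) => M a q.1 q.2) * |E'| :=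
            mul_le_mul_of_nonneg_left (le_abs_self _) a5
        _ ≤ 2 * |E'| := mul_le_mul_of_nonneg_right a3 (abs_nonneg _)
    rw [Finset.card_insert_of_notMem ha, pow_succ' 2 A.card, pow_mul, sq_abs]
    calc (E ^ 2) ^ 2 ^ A.card ≤ (2 * |E'|) ^ 2 ^ A.card := pow_le_pow_left₀ (sq_nonneg _) key _
      _ = 2 ^ 2 ^ A.card * |E'| ^ 2 ^ A.card := mul_pow _ _ _
      _ ≤ 2 ^ 2 ^ A.card * (2 ^ 2 ^ A.card * _) := mul_le_mul_of_nonneg_left h1 (by positivity)
      _ = _ := by rw [hR, ← mul_assoc, ← pow_add, ← two_mul]

end GPR
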