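import Mathlib

/-!
# GPR: averages, densities, cubes (definitions for the density Hales-Jewett part)

Words are functions `ι → Fin k` (`k` letters).  Combinatorial subspaces are Mathlib's
`Combinatorics.Subspace (Fin m) (Fin k) ι` (`m`-dimensional; `m = 1`: lines).
-/

namespace GPR

open Combinatorics

/-- average of a real function on a finite type -/
noncomputable def av {X : Type*} [Fintype X] (f : X → ℝ) : ℝ := (∑ x, f x) / (Fintype.card X : ℝ)

/-- density of a subset of a finite type -/
noncomputable def dn {X : Type*} [Fintype X] (A : Set X) : ℝ := av (A.indicator (fun _ => (1 : ℝ)))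

/-- the word `x`, with in each block `j` the letter at the position `t j` replaced by `v j` -/
def place {J T S : Type*} [DecidableEq T] (v : J → S) (t : J → T) (x : J × T → S) : J × T → S :=
  fun p => if p.2 = t p.1 then v p.1 else x p

/-- density Hales-Jewett for `k` letters and `m`-dimensional subspaces -/
def DHJ (k m : ℕ) : Prop :=
  ∀ δ : ℝ, 0 < δ → ∃ N : ℕ, ∀ A : Set (Fin N → Fin k), δ ≤ dn A →
    ∃ V : Subspace (Fin m) (Fin k) (Fin N), ∀ x, V x ∈ A

/-- replace the last letter `k` of the alphabet `0, ..., k` by the letter `r < k` -/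
def low {k : ℕ} (r : Fin k) (a : Fin (k + 1)) : Fin k :=
  if h : (a : ℕ) < k then ⟨a, h⟩ else r

/-- replace the last letter by `r` in a word -/
def lowW {k : ℕ} {ι : Type*} (r : Fin k) (x : ι → Fin (k + 1)) : ι → Fin k := fun i => low r (x i)

/-- `(r, last)`-insensitive sets of words -/
def Ins {k : ℕ} {ι : Type*} (r : Fin k) (E : Set (ι → Fin (k + 1))) : Prop :=
  ∀ x y : ι → Fin (k + 1), lowW r x = lowW r y → x ∈ E → y ∈ E

/-- functional form of: `E` is, up to density `β`, a disjoint union of `m`-dimensional subspaces -/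
def Til (m k : ℕ) {ι : Type*} [Fintype ι] [DecidableEq ι] (β : ℝ) (E : Set (ι → Fin k)) : Prop :=
  ∀ f : (ι → Fin k) → ℝ, (∀ x, |f x| ≤ 1) →
    (∀ V : Subspace (Fin m) (Fin k) ι, (∀ x, V x ∈ E) → av (fun x => f (V x)) ≤ 0) →
    av (E.indicator f) ≤ β

/-! ### basic facts -/

section basic

variable {X Y : Type*} [Fintype X] [Fintype Y]

theorem av_const [Nonempty X] (c : ℝ) : av (fun _ : X => c) = c := by
  unfold av
  rw [Finset.sum_const, Finset.card_univ, nsmul_eq_mul]
  have : (Fintype.card X : ℝ) ≠ 0 := by exact_mod_cast Fintype.card_ne_zero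
  field_simp

theorem av_add (f g : X → ℝ) : av (fun x => f x + g x) = av f + av g := by
  unfold av; rw [Finset.sum_add_distrib, add_div]

theorem av_sub (f g : X → ℝ) : av (fun x => f x - g x) = av f - av g := by
  unfold av; rw [Finset.sum_sub_distrib, sub_div]

theorem av_mul_left (c : ℝ) (f : X → ℝ) : av (fun x => c * f x) = c * av f := by
  unfold av; rw [← Finset.mul_sum, mul_div_assoc]

theorem av_mono {f g : X → ℝ} (h : ∀ x, f x ≤ g x) : av f ≤ av g := by
  unfold av
  exact div_le_div_of_nonneg_right (Finset.sum_le_sum fun x _ => h x) (by positivity)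

theorem av_nonneg {f : X → ℝ} (h : ∀ x, 0 ≤ f x) : 0 ≤ av f := by
  unfold av
  exact div_nonneg (Finset.sum_nonneg fun x _ => h x) (by positivity)

theorem av_le [Nonempty X] {f : X → ℝ} {c : ℝ} (h : ∀ x, f x ≤ c) : av f ≤ c := by
  have := av_mono (g := fun _ => c) h
  rwa [av_const] at this

theorem le_av [Nonempty X] {f : X → ℝ} {c : ℝ} (h : ∀ x, c ≤ f x) : c ≤ av f := by
  have := av_mono (f := fun _ => c) h
  rwa [av_const] at this

theorem exists_le_of_av [Nonempty X] {f : X → ℝ} {c : ℝ} (h : c ≤ av f) : ∃ x, c ≤ f x := by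
  by_contra hc
  push Not at hc
  have hlt : ∑ x, f x < ∑ _x : X, c :=
    Finset.sum_lt_sum_of_nonempty Finset.univ_nonempty (fun x _ => hc x)
  have hpos : (0 : ℝ) < Fintype.card X := by exact_mod_cast Fintype.card_pos
  have : av f < c := by
    unfold av
    rw [div_lt_iff₀ hpos]
    calc ∑ x, f x < ∑ _x : X, c := hlt
      _ = c * Fintype.card X := by rw [Finset.sum_const, Finset.card_univ, nsmul_eq_mul, mul_comm]
  linarith

theorem av_prod (f : X × Y → ℝ) : av f = av (fun x => av (fun y => f (x, y))) := by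
  unfold av
  rw [Fintype.sum_prod_type, Fintype.card_prod, ← Finset.sum_div, div_div]
  push_cast
  rw [mul_comm]

theorem av_prod' (f : X × Y → ℝ) : av f = av (fun y => av (fun x => f (x, y))) := by
  unfold av
  rw [Fintype.sum_prod_type_right, Fintype.card_prod, ← Finset.sum_div, div_div]
  push_cast
  rfl

theorem av_equiv (e : X ≃ Y) (f : Y → ℝ) : av (fun x => f (e x)) = av f := by
  unfold av
  rw [Fintype.card_congr e, Equiv.sum_comp e f]

theorem abs_av_le (f : X → ℝ) : |av f| ≤ av (fun x => |f x|) := by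
  unfold av
  rw [abs_div, Nat.abs_cast]
  exact div_le_div_of_nonneg_right (Finset.abs_sum_le_sum_abs _ _) (by positivity)

theorem dn_nonneg (A : Set X) : 0 ≤ dn A :=
  av_nonneg fun x => by by_cases h : x ∈ A <;> simp [h]

theorem dn_le_one (A : Set X) : dn A ≤ 1 := by
  rcases isEmpty_or_nonempty X with h | h
  · unfold dn av; simp
  · exact av_le fun x => by by_cases h : x ∈ A <;> simp [h]

theorem dn_mono {A B : Set X} (h : A ⊆ B) : dn A ≤ dn B :=
  av_mono fun x => Set.indicator_le_indicator_of_subset h (fun _ => zero_le_one) x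

theorem dn_eq_card (A : Set X) [DecidablePred (· ∈ A)] :
    dn A = ((Finset.univ.filter (· ∈ A)).card : ℝ) / Fintype.card X := by
  unfold dn av
  congr 1
  rw [Finset.card_filter]
  push_cast
  refine Finset.sum_congr rfl fun x _ => ?_
  by_cases h : x ∈ A <;> simp [h]

end basic

@[simp] theorem low_castSucc {k : ℕ} (r a : Fin k) : low r a.castSucc = a := by
  unfold low; simp

@[simp] theorem low_last {k : ℕ} (r : Fin k) : low r (Fin.last k) = r := by
  unfold low; simp

end GPR
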