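import Pool.Agent.GPR.Incr

/-!
# GPR/Dhj: the density Hales-Jewett theorem

Proof.  By induction on `k ≥ 1`: `∀ m, DHJ k m`.  `k = 1`: `dhj_one`.  Step: by `dhj_mult` it is enough
to prove `DHJ (k+1) 1`.  Let `δ₀ > 0`, `γ` from `incr`.  Claim, for every `j : ℕ`: there is `n` such that
every `A ⊆ [k+1]^n` with `dn A ≥ max δ₀ (1 + γ - j γ)` (say) contains a line.  `j = 0`: there is no such
`A` (`dn A ≤ 1`).  Step: let `n` be the number for `j` and `N` the number of `incr` for `m = n`; let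
`A ⊆ [k+1]^N` with `dn A ≥ max δ₀ (1 + γ - (j+1)γ)`.  If `A` contains no line there is `V` with
`dn {w | V w ∈ A} ≥ dn A + γ ≥ max δ₀ (1 + γ - jγ)`, so `{w | V w ∈ A}` contains a line `L`, and `V ∘ L`
is a line in `A`.  For `j` large `1 + γ - jγ ≤ δ₀`.
-/

namespace GPR

open Combinatorics

/-- Composition of subspaces. -/
private def cmpS {η η' α ι : Type*} (V : Subspace η α ι) (L : Subspace η' α η) : Subspace η' α ι where
  idxFun i := (V.idxFun i).elim Sum.inl L.idxFun
  proper e := by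
    obtain ⟨j, hj⟩ := L.proper e
    obtain ⟨i, hi⟩ := V.proper j
    refine ⟨i, ?_⟩
    rw [hi, Sum.elim_inr, hj]

private theorem cmpS_apply {η η' α ι : Type*} (V : Subspace η α ι) (L : Subspace η' α η) (x : η' → α) :
    cmpS V L x = V (L x) := by
  funext i
  rw [Subspace.coe_apply, Subspace.coe_apply]
  show ((V.idxFun i).elim Sum.inl L.idxFun).elim id x = (V.idxFun i).elim id (L x)
  cases h : V.idxFun i with
  | inl a => rfl
  | inr e => rfl

private theorem dhj_step {k : ℕ} (hk : 1 ≤ k) (h : ∀ m, DHJ k m) : DHJ (k + 1) 1 := by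
  intro δ₀ hδ
  obtain ⟨γ, hγ, H⟩ := incr hk h δ₀ hδ
  have claim : ∀ j : ℕ, ∃ n : ℕ, ∀ A : Set (Fin n → Fin (k + 1)), δ₀ ≤ dn A → 1 + γ - j * γ ≤ dn A →
      ∃ L : Subspace (Fin 1) (Fin (k + 1)) (Fin n), ∀ x, L x ∈ A := by
    intro j
    induction j with
    | zero =>
      refine ⟨0, fun A _ hA => ?_⟩
      have h1 := dn_le_one A
      rw [Nat.cast_zero, zero_mul, sub_zero] at hA
      linarith
    | succ j ih =>
      obtain ⟨n, hn⟩ := ih
      obtain ⟨N, hN⟩ := H n
      refine ⟨N, fun A h1 h2 => ?_⟩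
      by_contra hc
      obtain ⟨V, hV⟩ := hN A h1 hc
      push_cast at h2
      obtain ⟨L, hL⟩ := hn {w | V w ∈ A} (by linarith) (by linarith)
      refine hc ⟨cmpS V L, fun x => ?_⟩
      rw [cmpS_apply]
      exact hL x
  obtain ⟨j, hj⟩ := exists_nat_gt ((1 + γ) / γ)
  rw [div_lt_iff₀ hγ] at hj
  obtain ⟨n, hn⟩ := claim j
  exact ⟨n, fun A hA => hn A hA (by linarith)⟩

theorem dhj {k : ℕ} (hk : 1 ≤ k) (m : ℕ) : DHJ k m := by
  revert m
  induction k, hk using Nat.le_induction with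
  | base => exact dhj_one
  | succ k hk ih => exact fun m => dhj_mult (by omega) (dhj_step hk ih) m

end GPR
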