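import Pool.Agent.GPR.SDefs

/-!
# GPR/Dir: a direction which separates all the linear forms

Proof.  Let `b = 4k`, `v0 l = b^(2l)`, `v1 l = b^(2l+1)`.  For `p = (i, ω)` with `ω i = false`:
`psiZ i (mix v0 v1 ω) = ∑_l (i - l) b^(2l + [ω l])`: an expansion in base `b` with coefficients of
absolute value `< k`, the coefficient of `b^(2l+e)` (`e = 0, 1`) being `i - l` if `e = [ω l]` and `0`
otherwise.  A sum `∑_m c_m b^m` with integers `|c_m| < b/2` is `0` only if all `c_m = 0` (look at the
smallest nonzero `c_m`, divisible by `b`).  Nonzero: some `l ≠ i` exists (`k ≥ 2`).  Equal values for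
`p, p'`: the difference has coefficients of absolute value `< 2k = b/2`, so the coefficients agree; the
unique `l` for which both coefficients of `b^(2l), b^(2l+1)` vanish is `l = i`, so `i = i'`, and then
`ω l = ω' l` for `l ≠ i`, and `ω i = false = ω' i`.
`psi_cast`: clear (cast of the integer form).
`psi_unif`: for `N` prime, `N ≥ k ≥ 2`, `psi i (mix q.1 q.2 ω)` is uniform in `ZMod N`: it is a surjective
additive homomorphism of `q` (a coefficient `i - l`, `l ≠ i`, is invertible mod `N`).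
`psi_add`: additivity of `psi` and `mix`.
-/

namespace GPR

private theorem dir_digits (B : ℤ) (hB : 0 < B) (n : ℕ) : ∀ c : ℕ → ℤ, (∀ m < n, 2 * |c m| < B) →
    ∑ m ∈ Finset.range n, c m * B ^ m = 0 → ∀ m < n, c m = 0 := by
  induction n with
  | zero => intro c _ _ m hm; omega
  | succ n ih =>
    intro c hc hs m hm
    rw [Finset.sum_range_succ'] at hs
    have e : ∑ m ∈ Finset.range n, c (m + 1) * B ^ (m + 1) = B * ∑ m ∈ Finset.range n, c (m + 1) * B ^ m := by
      rw [Finset.mul_sum]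
      refine Finset.sum_congr rfl fun m _ => ?_
      ring
    rw [e, pow_zero, mul_one] at hs
    have h0 : c 0 = 0 := by
      have h1 : B ∣ c 0 := ⟨-∑ m ∈ Finset.range n, c (m + 1) * B ^ m, by linarith⟩
      by_contra hne
      have h2 := Int.le_of_dvd (abs_pos.2 hne) ((dvd_abs B (c 0)).2 h1)
      have h3 := hc 0 (Nat.succ_pos n)
      have h4 := abs_pos.2 hne
      linarith
    have h5 : ∑ m ∈ Finset.range n, c (m + 1) * B ^ m = 0 := by
      rw [h0, add_zero] at hs
      rcases mul_eq_zero.1 hs with h | h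
      · exact absurd h hB.ne'
      · exact h
    cases m with
    | zero => exact h0
    | succ m => exact ih (fun m => c (m + 1)) (fun m hm => hc (m + 1) (by omega)) h5 m (by omega)

private theorem dir_digits_fin {k : ℕ} (B : ℤ) (hB : 0 < B) (c : Fin k → ℤ) (hc : ∀ l, 2 * |c l| < B)
    (hs : ∑ l : Fin k, c l * B ^ (l : ℕ) = 0) (l : Fin k) : c l = 0 := by
  have h := dir_digits B hB k (fun m => if h : m < k then c ⟨m, h⟩ else 0) (fun m hm => by
    simp only [dif_pos hm]; exact hc _) (by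
    refine Eq.trans ?_ hs
    rw [← Fin.sum_univ_eq_sum_range (fun m => (if h : m < k then c ⟨m, h⟩ else 0) * B ^ m) k]
    refine Finset.sum_congr rfl fun l _ => ?_
    simp only [dif_pos l.2]) l l.2
  simp only [dif_pos l.2] at h
  exact h

private theorem dir_form {k : ℕ} (p : Fin k × (Fin k → Bool)) :
    psiZ p.1 (mix (fun l : Fin k => (4 * k : ℤ) ^ (2 * (l : ℕ))) (fun l : Fin k => (4 * k : ℤ) ^ (2 * (l : ℕ) + 1)) p.2)
      = ∑ l : Fin k, ((((p.1 : ℕ) : ℤ) - ((l : ℕ) : ℤ)) * (if p.2 l then (4 * k : ℤ) else 1)) *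
        ((4 * k : ℤ) ^ 2) ^ (l : ℕ) := by
  unfold psiZ mix
  refine Finset.sum_congr rfl fun l _ => ?_
  rw [← pow_mul]
  by_cases h : p.2 l
  · simp only [h, if_true]
    ring
  · simp [h]

theorem dir {k : ℕ} (hk : 2 ≤ k) : ∃ v0 v1 : Fin k → ℤ,
    (∀ p : Fin k × (Fin k → Bool), p.2 p.1 = false → psiZ p.1 (mix v0 v1 p.2) ≠ 0) ∧
    (∀ p p' : Fin k × (Fin k → Bool), p.2 p.1 = false → p'.2 p'.1 = false →
      psiZ p.1 (mix v0 v1 p.2) = psiZ p'.1 (mix v0 v1 p'.2) → p = p') := by
  have hk' : (2 : ℤ) ≤ k := by exact_mod_cast hk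
  have hb : (1 : ℤ) < 4 * k := by linarith
  have hB : (0 : ℤ) < (4 * k) ^ 2 := by positivity
  -- the size of a coefficient
  have hsz : ∀ (p : Fin k × (Fin k → Bool)) (l : Fin k),
      |(((p.1 : ℕ) : ℤ) - ((l : ℕ) : ℤ)) * (if p.2 l then (4 * k : ℤ) else 1)| ≤ (k - 1) * (4 * k) := by
    intro p l
    have h1 : |(((p.1 : ℕ) : ℤ) - ((l : ℕ) : ℤ))| ≤ k - 1 := by
      have := p.1.2
      have := l.2
      rw [abs_le]
      constructor <;> omega
    have h2 : |(if p.2 l then (4 * k : ℤ) else 1)| ≤ 4 * k := by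
      split_ifs
      · rw [abs_of_pos (by linarith)]
      · rw [abs_one]; linarith
    rw [abs_mul]
    exact mul_le_mul h1 h2 (abs_nonneg _) (by linarith)
  refine ⟨fun l => (4 * k : ℤ) ^ (2 * (l : ℕ)), fun l => (4 * k : ℤ) ^ (2 * (l : ℕ) + 1), ?_, ?_⟩
  · intro p _ h0
    rw [dir_form] at h0
    have h1 := dir_digits_fin _ hB _ (fun l => by
      have := hsz p l
      nlinarith) h0
    have h2 : ∀ l : Fin k, p.1 = l := by
      intro l
      rcases mul_eq_zero.1 (h1 l) with h | h
      · apply Fin.ext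
        omega
      · exfalso
        split_ifs at h <;> linarith
    have h3 := (h2 ⟨0, by omega⟩).symm.trans (h2 ⟨1, by omega⟩)
    rw [Fin.mk.injEq] at h3
    omega
  · intro p p' hp hp' he
    rw [dir_form, dir_form] at he
    have hs : ∑ l : Fin k, ((((p.1 : ℕ) : ℤ) - ((l : ℕ) : ℤ)) * (if p.2 l then (4 * k : ℤ) else 1) -
        (((p'.1 : ℕ) : ℤ) - ((l : ℕ) : ℤ)) * (if p'.2 l then (4 * k : ℤ) else 1)) * ((4 * k : ℤ) ^ 2) ^ (l : ℕ) = 0 := by
      rw [← sub_eq_zero, ← Finset.sum_sub_distrib] at he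
      rw [← he]
      refine Finset.sum_congr rfl fun l _ => ?_
      ring
    have h1 := dir_digits_fin _ hB _ (fun l => by
      have a1 := hsz p l
      have a2 := hsz p' l
      have a3 := abs_sub ((((p.1 : ℕ) : ℤ) - ((l : ℕ) : ℤ)) * (if p.2 l then (4 * k : ℤ) else 1))
        ((((p'.1 : ℕ) : ℤ) - ((l : ℕ) : ℤ)) * (if p'.2 l then (4 * k : ℤ) else 1))
      nlinarith) hs
    have h2 : p.1 = p'.1 := by
      have := h1 p.1
      rw [sub_self, zero_mul, zero_sub, neg_eq_zero] at this
      rcases mul_eq_zero.1 this with h | h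
      · apply Fin.ext
        omega
      · exfalso
        split_ifs at h <;> linarith
    have h3 : p.2 = p'.2 := by
      funext l
      by_cases hl : l = p.1
      · rw [hl, hp]
        rw [h2, hp']
      · have h4 := h1 l
        rw [← h2, ← mul_sub] at h4
        rcases mul_eq_zero.1 h4 with h | h
        · exfalso
          apply hl
          apply Fin.ext
          omega
        · cases hl1 : p.2 l <;> cases hl2 : p'.2 l <;> rw [hl1, hl2] at h <;> simp at h ⊢ <;> linarith
    exact Prod.ext h2 h3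

theorem psi_cast {k N : ℕ} (i : Fin k) (v : Fin k → ℤ) :
    psi (N := N) i (fun l => (v l : ZMod N)) = ((psiZ i v : ℤ) : ZMod N) := by
  unfold psi psiZ
  push_cast
  rfl

theorem psi_add {k N : ℕ} (i : Fin k) (x0 x1 z0 z1 : Fin k → ZMod N) (ω : Fin k → Bool) :
    psi i (mix (x0 + z0) (x1 + z1) ω) = psi i (mix x0 x1 ω) + psi i (mix z0 z1 ω) := by
  unfold psi mix
  rw [← Finset.sum_add_distrib]
  refine Finset.sum_congr rfl fun l _ => ?_
  by_cases h : ω l = true
  · rw [if_pos h, if_pos h, if_pos h, Pi.add_apply]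
    ring
  · rw [if_neg h, if_neg h, if_neg h, Pi.add_apply]
    ring

theorem psi_unif {k N : ℕ} (hk : 2 ≤ k) [Fact N.Prime] (hN : k ≤ N) (i : Fin k) (ω : Fin k → Bool)
    (f : ZMod N → ℝ) :
    av (fun q : (Fin k → ZMod N) × (Fin k → ZMod N) => f (psi i (mix q.1 q.2 ω))) = av f := by
  classical
  obtain ⟨l, hl⟩ : ∃ l : Fin k, l ≠ i := by
    by_cases h : i = ⟨0, by omega⟩
    · exact ⟨⟨1, by omega⟩, by rw [h]; intro h1; rw [Fin.mk.injEq] at h1; omega⟩
    · exact ⟨⟨0, by omega⟩, fun h1 => h h1.symm⟩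
  have hc : (((i : ℕ) : ZMod N) - ((l : ℕ) : ZMod N)) ≠ 0 := by
    intro h
    rw [sub_eq_zero] at h
    have h1 := (ZMod.natCast_eq_natCast_iff' _ _ _).1 h
    rw [Nat.mod_eq_of_lt (by omega), Nat.mod_eq_of_lt (by omega)] at h1
    exact hl (Fin.ext h1.symm)
  set c : ZMod N := ((i : ℕ) : ZMod N) - ((l : ℕ) : ZMod N) with hcd
  -- the shift
  set s : ZMod N → (Fin k → ZMod N) := fun t => Pi.single l (c⁻¹ * t) with hs
  have hst : ∀ t, psi i (mix (s t) (s t) ω) = t := by
    intro t
    unfold psi mix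
    rw [Finset.sum_eq_single l]
    · have e : (if ω l = true then s t l else s t l) = c⁻¹ * t := by
        rw [ite_self]
        show (Pi.single l (c⁻¹ * t) : Fin k → ZMod N) l = _
        rw [Pi.single_eq_same]
      simp only [e]
      rw [← hcd, ← mul_assoc, mul_inv_cancel₀ hc, one_mul]
    · intro l' _ hl'
      have e : (if ω l' = true then s t l' else s t l') = 0 := by
        rw [ite_self]
        show (Pi.single l (c⁻¹ * t) : Fin k → ZMod N) l' = _
        rw [Pi.single_eq_of_ne hl']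
      simp only [e, mul_zero]
    · intro h
      exact absurd (Finset.mem_univ _) h
  have h1 : ∀ t, av (fun q : (Fin k → ZMod N) × (Fin k → ZMod N) => f (psi i (mix q.1 q.2 ω) + t)) =
      av (fun q : (Fin k → ZMod N) × (Fin k → ZMod N) => f (psi i (mix q.1 q.2 ω))) := by
    intro t
    rw [← av_equiv (Equiv.addRight ((s t, s t) : (Fin k → ZMod N) × (Fin k → ZMod N)))
      (fun q : (Fin k → ZMod N) × (Fin k → ZMod N) => f (psi i (mix q.1 q.2 ω)))]
    congr 1
    funext q
    show _ = f (psi i (mix (q.1 + s t) (q.2 + s t) ω))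
    rw [psi_add, hst]
  have h2 : av (fun t : ZMod N => av (fun q : (Fin k → ZMod N) × (Fin k → ZMod N) =>
      f (psi i (mix q.1 q.2 ω) + t))) =
      av (fun q : (Fin k → ZMod N) × (Fin k → ZMod N) => f (psi i (mix q.1 q.2 ω))) := by
    simp only [h1]
    exact av_const _
  have h3 : av (fun t : ZMod N => av (fun q : (Fin k → ZMod N) × (Fin k → ZMod N) =>
      f (psi i (mix q.1 q.2 ω) + t))) = av (fun q : (Fin k → ZMod N) × (Fin k → ZMod N) =>
      av (fun t : ZMod N => f (psi i (mix q.1 q.2 ω) + t))) := by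
    rw [← av_prod (fun p : ZMod N × ((Fin k → ZMod N) × (Fin k → ZMod N)) => f (psi i (mix p.2.1 p.2.2 ω) + p.1)),
      av_prod']
  have h4 : ∀ x : ZMod N, av (fun t : ZMod N => f (x + t)) = av f := fun x => av_equiv (Equiv.addLeft x) f
  rw [← h2, h3]
  simp only [h4]
  exact av_const _

end GPR
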