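import Pool.Agent.GPR.HDefs

/-!
# GPR/Dmt: the dense model theorem, abstract form

Proof.  `ε ≤ 1` wlog.  By Weierstrass (`exists_polynomial_near_of_continuousOn` on `[-1,1]`, for
`x ↦ max x 0`) choose a polynomial `p` with `|p(x) - max x 0| ≤ ε/8` on `[-1,1]`; let `M` be its degree and
`C = ∑ |coeff| + 1`, `ε' = min 1 (ε/(8 C))`.
Write `⟨g, φ⟩ = av (g φ)`.  Let `K = {g : X → ℝ | ∀ x, 0 ≤ g x ≤ 1}` (compact, convex), and
`D = {g | ∀ φ ∈ Φ, |⟨g, φ⟩| ≤ ε}` (closed, convex, symmetric, contains a neighbourhood of `0` as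
`|φ| ≤ 1`).  If some `f̃ ∈ K` has `f - f̃ ∈ D` we are done.  Otherwise the compact convex set
`{f - g | g ∈ K}` and the closed convex set `D` are disjoint and are strictly separated
(`geometric_hahn_banach_compact_closed` or the closed-compact variant; `X → ℝ` finite dimensional):
there is `ψ : X → ℝ` and `u < v` with `⟨d, ψ⟩ ≤ u` for `d ∈ D` and `⟨f - g, ψ⟩ ≥ v` for `g ∈ K`
(a continuous linear functional on `X → ℝ` is `g ↦ ∑ g(x) a(x) = ⟨g, ψ⟩` with `ψ = card X * a`).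
Let `s = sup {⟨d, ψ⟩ | d ∈ D}`, `0 ≤ s ≤ u < v`, `s` finite.  `s > 0`: otherwise `⟨d, ψ⟩ ≤ 0` on a
neighbourhood of `0`, so `ψ = 0`, `v ≤ 0`, contradiction with `u ≥ 0`.  Replacing `ψ` by `(ε/s) ψ` we have
`sup_D ⟨d, ψ⟩ = ε` and `⟨f - g, ψ⟩ > ε` for all `g ∈ K` (as `v > s`).
CLAIM: `ψ ∈ closure (convexHull ℝ (Φ ∪ -Φ ∪ {0}))`.  If not, separate (point and closed convex set):
there is `g` with `⟨g, ψ⟩ > t ≥ ⟨g, φ⟩` for all `φ` in the hull; `t ≥ 0` and `|⟨g, φ⟩| ≤ t` for `φ ∈ Φ`.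
If `t > 0` then `(ε/t) g ∈ D` and `⟨(ε/t) g, ψ⟩ > ε`, contradiction.  If `t = 0` then `λ g ∈ D` for all
`λ > 0` and `⟨λ g, ψ⟩` is unbounded, contradiction.
So `|ψ| ≤ 1` and, for `0 ≤ m ≤ M`, `|⟨ν - 1, ψ^m⟩| ≤ ε'`: for `ψ` in the convex hull expand the power
(or: the set of the `(ψ_1, ..., ψ_m)` with `|⟨ν - 1, ψ_1 ⋯ ψ_m⟩| ≤ ε'` is closed under convex combinations
in each variable, contains `(±Φ ∪ 0)^m`; `ε' ≥ 0`), then pass to the closure by continuity.
So `|⟨ν - 1, p ∘ ψ⟩| ≤ C ε' ≤ ε/8`.  With `ψ₊ = max ψ 0`, and `g = 1_{ψ > 0} ∈ K`: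
`⟨1, ψ₊⟩ + ε = ⟨g, ψ⟩ + ε < ⟨f, ψ⟩ ≤ ⟨f, ψ₊⟩ ≤ ⟨ν, ψ₊⟩ ≤ ⟨ν, p∘ψ⟩ + (ε/8) ⟨ν, 1⟩
 ≤ ⟨1, p∘ψ⟩ + ε/8 + (ε/8)(1 + ε') ≤ ⟨1, ψ₊⟩ + ε/8 + ε/8 + ε/4 < ⟨1, ψ₊⟩ + ε`, contradiction
(`|⟨ν - 1, 1⟩| ≤ ε'` is the hypothesis with `m = 0`).
-/

namespace GPR

section dmt

variable {X : Type} [Fintype X] [Nonempty X]

omit [Nonempty X] in
theorem dm_cont (F : X → ℝ) : Continuous (fun ψ : X → ℝ => av (fun x => ψ x * F x)) := by
  unfold av
  fun_prop

theorem dm_hull (Φ : Set (X → ℝ)) (F : X → ℝ) (c : ℝ) (hc : 0 ≤ c)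
    (h : ∀ s ∈ Φ, |av (fun x => s x * F x)| ≤ c) (ψ : X → ℝ)
    (hψ : ψ ∈ closure (convexHull ℝ ({0} ∪ Φ ∪ (-Φ)))) :
    |av (fun x => ψ x * F x)| ≤ c := by
  have hK : IsClosed {ψ : X → ℝ | |av (fun x => ψ x * F x)| ≤ c} :=
    isClosed_le (dm_cont F).abs continuous_const
  have hconv : Convex ℝ {ψ : X → ℝ | |av (fun x => ψ x * F x)| ≤ c} := by
    intro a ha b hb s t hs ht hst
    have e : av (fun x => (s • a + t • b) x * F x) =
        s * av (fun x => a x * F x) + t * av (fun x => b x * F x) := by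
      rw [← av_mul_left, ← av_mul_left, ← av_add]
      congr 1
      funext x
      simp only [Pi.add_apply, Pi.smul_apply, smul_eq_mul]
      ring
    change |av (fun x => (s • a + t • b) x * F x)| ≤ c
    have ha' : |av (fun x => a x * F x)| ≤ c := ha
    have hb' : |av (fun x => b x * F x)| ≤ c := hb
    rw [e, abs_le]
    rw [abs_le] at ha' hb'
    constructor
    · nlinarith [mul_le_mul_of_nonneg_left ha'.1 hs, mul_le_mul_of_nonneg_left hb'.1 ht]
    · nlinarith [mul_le_mul_of_nonneg_left ha'.2 hs, mul_le_mul_of_nonneg_left hb'.2 ht]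
  have hsub : ({0} ∪ Φ ∪ (-Φ) : Set (X → ℝ)) ⊆ {ψ : X → ℝ | |av (fun x => ψ x * F x)| ≤ c} := by
    rintro s ((hs | hs) | hs)
    · have hs0 : s = 0 := hs
      subst hs0
      change |av (fun x => (0 : X → ℝ) x * F x)| ≤ c
      simp only [Pi.zero_apply, zero_mul]
      rw [av_const]
      simpa using hc
    · exact h s hs
    · have h2 := h (-s) hs
      change |av (fun x => s x * F x)| ≤ c
      have e : av (fun x => (-s) x * F x) = - av (fun x => s x * F x) := by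
        have := av_mul_left (-1) (fun x => s x * F x)
        rw [neg_one_mul] at this
        rw [← this]
        congr 1
        funext x
        simp only [Pi.neg_apply]
        ring
      rwa [e, abs_neg] at h2
  exact closure_minimal (convexHull_min hsub hconv) hK hψ

omit [Fintype X] [Nonempty X] in
theorem dm_bd (Φ : Set (X → ℝ)) (hΦ : ∀ φ ∈ Φ, ∀ x, |φ x| ≤ 1) :
    closure (convexHull ℝ ({0} ∪ Φ ∪ (-Φ))) ⊆ Set.Icc (-1 : X → ℝ) 1 := by
  refine closure_minimal (convexHull_min ?_ (convex_Icc _ _)) isClosed_Icc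
  rintro s ((hs | hs) | hs)
  · have hs0 : s = 0 := hs
    subst hs0
    exact ⟨fun x => by simp, fun x => by simp⟩
  · exact ⟨fun x => (abs_le.mp (hΦ s hs x)).1, fun x => (abs_le.mp (hΦ s hs x)).2⟩
  · have h1 := fun x => abs_le.mp (hΦ (-s) hs x)
    refine ⟨fun x => ?_, fun x => ?_⟩
    · have := (h1 x).2
      simp only [Pi.neg_apply, Pi.one_apply] at this ⊢
      linarith
    · have := (h1 x).1
      simp only [Pi.neg_apply, Pi.one_apply] at this ⊢
      linarith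

theorem dm_pow (Φ : Set (X → ℝ)) (w : X → ℝ) (c : ℝ) (hc : 0 ≤ c) (M : ℕ)
    (h : ∀ m ≤ M, ∀ φ : Fin m → X → ℝ, (∀ i, φ i ∈ Φ) →
      |av (fun x => w x * ∏ i, φ i x)| ≤ c)
    (ψ : X → ℝ) (hψ : ψ ∈ closure (convexHull ℝ ({0} ∪ Φ ∪ (-Φ)))) (j : ℕ) :
    ∀ m, m + j ≤ M → ∀ φ : Fin m → X → ℝ, (∀ i, φ i ∈ Φ) →
      |av (fun x => w x * (ψ x ^ j * ∏ i, φ i x))| ≤ c := by
  induction j with
  | zero =>
    intro m hm φ hφ
    simpa using h m (by simpa using hm) φ hφ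
  | succ j ih =>
    intro m hm φ hφ
    have h1 := dm_hull Φ (fun x => w x * (ψ x ^ j * ∏ i, φ i x)) c hc (fun s hs => ?_) ψ hψ
    · have e : (fun x => w x * (ψ x ^ (j + 1) * ∏ i, φ i x)) =
          (fun x => ψ x * (w x * (ψ x ^ j * ∏ i, φ i x))) := by
        funext x; ring
      rw [e]
      exact h1
    · have h2 := ih (m + 1) (by omega) (Fin.cons s φ) (fun i => by
        refine Fin.cases ?_ (fun i => ?_) i
        · simpa using hs
        · simpa using hφ i)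
      have e : (fun x => w x * (ψ x ^ j * ∏ i, (Fin.cons s φ : Fin (m + 1) → X → ℝ) i x)) =
          (fun x => s x * (w x * (ψ x ^ j * ∏ i, φ i x))) := by
        funext x
        rw [Fin.prod_univ_succ]
        simp only [Fin.cons_zero, Fin.cons_succ]
        ring
      rwa [e] at h2

theorem dm_poly (Φ : Set (X → ℝ)) (w : X → ℝ) (c : ℝ) (hc : 0 ≤ c) (p : Polynomial ℝ)
    (h : ∀ m ≤ p.natDegree, ∀ φ : Fin m → X → ℝ, (∀ i, φ i ∈ Φ) →
      |av (fun x => w x * ∏ i, φ i x)| ≤ c)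
    (ψ : X → ℝ) (hψ : ψ ∈ closure (convexHull ℝ ({0} ∪ Φ ∪ (-Φ)))) :
    |av (fun x => w x * p.eval (ψ x))| ≤
      (∑ i ∈ Finset.range (p.natDegree + 1), |p.coeff i|) * c := by
  have e : av (fun x => w x * p.eval (ψ x)) =
      ∑ i ∈ Finset.range (p.natDegree + 1), p.coeff i * av (fun x => w x * ψ x ^ i) := by
    unfold av
    simp_rw [Polynomial.eval_eq_sum_range, Finset.mul_sum, ← mul_div_assoc, Finset.mul_sum]
    rw [Finset.sum_comm, Finset.sum_div]
    refine Finset.sum_congr rfl fun i _ => ?_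
    congr 1
    refine Finset.sum_congr rfl fun x _ => ?_
    ring
  rw [e, Finset.sum_mul]
  refine (Finset.abs_sum_le_sum_abs _ _).trans (Finset.sum_le_sum fun i hi => ?_)
  rw [abs_mul]
  refine mul_le_mul_of_nonneg_left ?_ (abs_nonneg _)
  have := dm_pow Φ w c hc p.natDegree h ψ hψ i 0 (by
    have := Finset.mem_range.mp hi
    omega) (fun i => i.elim0) (fun i => i.elim0)
  simpa using this

omit [Nonempty X] in
theorem dm_sep (Φ : Set (X → ℝ)) (hΦ : ∀ φ ∈ Φ, ∀ x, |φ x| ≤ 1) (f : X → ℝ) (ε : ℝ)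
    (hno : ¬ ∃ g : X → ℝ, (∀ x, 0 ≤ g x) ∧ (∀ x, g x ≤ 1) ∧
      ∀ φ ∈ Φ, |av (fun x => (f x - g x) * φ x)| ≤ ε) :
    ∃ ψ ∈ closure (convexHull ℝ ({0} ∪ Φ ∪ (-Φ))), ∀ g : X → ℝ, (∀ x, 0 ≤ g x) → (∀ x, g x ≤ 1) →
      ε < av (fun x => (f x - g x) * ψ x) := by
  have hcv : ∀ a b g : X → ℝ, ∀ s t : ℝ, av (fun x => (f x - g x) * (s • a + t • b) x) =
      s * av (fun x => (f x - g x) * a x) + t * av (fun x => (f x - g x) * b x) := by
    intro a b g s t
    rw [← av_mul_left, ← av_mul_left, ← av_add]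
    congr 1
    funext x
    simp only [Pi.add_apply, Pi.smul_apply, smul_eq_mul]
    ring
  have hcv' : ∀ a b y : X → ℝ, ∀ s t : ℝ, s + t = 1 →
      av (fun x => (f x - (s • a + t • b) x) * y x) =
      s * av (fun x => (f x - a x) * y x) + t * av (fun x => (f x - b x) * y x) := by
    intro a b y s t hst
    rw [← av_mul_left, ← av_mul_left, ← av_add]
    congr 1
    funext x
    simp only [Pi.add_apply, Pi.smul_apply, smul_eq_mul]
    have : s = 1 - t := by linarith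
    rw [this]
    ring
  obtain ⟨a, ha, b, hb, hab⟩ := Sion.exists_isSaddlePointOn
    (X := Set.Icc (0 : X → ℝ) 1) (Y := closure (convexHull ℝ ({0} ∪ Φ ∪ (-Φ))))
    (f := fun g y => av (fun x => (f x - g x) * y x))
    ⟨0, by constructor <;> intro x <;> simp⟩ (convex_Icc _ _) isCompact_Icc
    (fun y _ => by
      refine Continuous.continuousOn ?_ |>.lowerSemicontinuousOn
      unfold av
      fun_prop)
    (fun y _ => by
      refine ConvexOn.quasiconvexOn ⟨convex_Icc _ _, fun u _ v _ s t _ _ hst => ?_⟩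
      simp only [smul_eq_mul]
      rw [hcv' u v y s t hst])
    (convex_convexHull ℝ _).closure
    ⟨0, subset_closure (subset_convexHull ℝ _ (by simp))⟩
    (isCompact_Icc.of_isClosed_subset isClosed_closure (dm_bd Φ hΦ))
    (fun g _ => by
      refine Continuous.continuousOn ?_ |>.upperSemicontinuousOn
      unfold av
      fun_prop)
    (fun g _ => by
      refine ConcaveOn.quasiconcaveOn ⟨(convex_convexHull ℝ _).closure,
        fun u _ v _ s t _ _ hst => ?_⟩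
      simp only [smul_eq_mul]
      rw [hcv u v g s t])
  refine ⟨b, hb, fun g hg0 hg1 => ?_⟩
  by_contra hcon
  push Not at hcon
  refine hno ⟨a, fun x => ha.1 x, fun x => ha.2 x, fun φ hφ => ?_⟩
  have hg : g ∈ Set.Icc (0 : X → ℝ) 1 := ⟨fun x => hg0 x, fun x => hg1 x⟩
  have h1 : av (fun x => (f x - a x) * φ x) ≤ av (fun x => (f x - g x) * b x) :=
    hab g hg φ (subset_closure (subset_convexHull ℝ _ (Or.inl (Or.inr hφ))))
  have h2 : av (fun x => (f x - a x) * (-φ) x) ≤ av (fun x => (f x - g x) * b x) :=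
    hab g hg (-φ) (subset_closure (subset_convexHull ℝ _ (Or.inr (by simpa using hφ))))
  have e : av (fun x => (f x - a x) * (-φ) x) = - av (fun x => (f x - a x) * φ x) := by
    have := av_mul_left (-1) (fun x => (f x - a x) * φ x)
    rw [neg_one_mul] at this
    rw [← this]
    congr 1
    funext x
    simp only [Pi.neg_apply]
    ring
  rw [e] at h2
  rw [abs_le]
  constructor <;> linarith

end dmt

theorem dense_model (ε : ℝ) (hε : 0 < ε) :
    ∃ (M : ℕ) (ε' : ℝ), 0 < ε' ∧ ∀ (X : Type) [Fintype X] [Nonempty X] (Φ : Set (X → ℝ)),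
      (∀ φ ∈ Φ, ∀ x, |φ x| ≤ 1) → ∀ ν f : X → ℝ, (∀ x, 0 ≤ f x) → (∀ x, f x ≤ ν x) →
      (∀ m ≤ M, ∀ φ : Fin m → X → ℝ, (∀ i, φ i ∈ Φ) →
        |av (fun x => (ν x - 1) * ∏ i, φ i x)| ≤ ε') →
      ∃ g : X → ℝ, (∀ x, 0 ≤ g x) ∧ (∀ x, g x ≤ 1) ∧
        ∀ φ ∈ Φ, |av (fun x => (f x - g x) * φ x)| ≤ ε := by
  obtain ⟨p, hp⟩ := exists_polynomial_near_of_continuousOn (-1) 1 (fun x : ℝ => max x 0)
    (by fun_prop) (ε / 8) (by positivity)
  have hCpos : 0 < (∑ i ∈ Finset.range (p.natDegree + 1), |p.coeff i|) + 1 := by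
    have : 0 ≤ ∑ i ∈ Finset.range (p.natDegree + 1), |p.coeff i| :=
      Finset.sum_nonneg fun i _ => abs_nonneg _
    linarith
  set C : ℝ := (∑ i ∈ Finset.range (p.natDegree + 1), |p.coeff i|) + 1 with hC
  have hε' : 0 < min 1 (ε / (8 * C)) := by positivity
  refine ⟨p.natDegree, min 1 (ε / (8 * C)), hε', ?_⟩
  intro X _ _ Φ hΦ ν f hf hfν hlf
  by_contra hno
  obtain ⟨ψ, hψ, hψg⟩ := dm_sep Φ hΦ f ε hno
  have hψb := dm_bd Φ hΦ hψ
  have hp' : ∀ x, |p.eval (ψ x) - max (ψ x) 0| ≤ ε / 8 := fun x =>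
    (hp (ψ x) ⟨hψb.1 x, hψb.2 x⟩).le
  have hν0 : ∀ x, 0 ≤ ν x := fun x => (hf x).trans (hfν x)
  -- the average of ν
  have hν1 : av ν ≤ 2 := by
    have h0 := hlf 0 (Nat.zero_le _) (fun i => i.elim0) (fun i => i.elim0)
    simp only [Finset.univ_eq_empty, Finset.prod_empty, mul_one] at h0
    rw [av_sub, av_const] at h0
    have := (abs_le.mp h0).2
    have h2 : min 1 (ε / (8 * C)) ≤ 1 := min_le_left _ _
    linarith
  -- polynomial
  have hpoly := dm_poly Φ (fun x => ν x - 1) (min 1 (ε / (8 * C))) hε'.le p hlf ψ hψ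
  have hCe : (∑ i ∈ Finset.range (p.natDegree + 1), |p.coeff i|) * min 1 (ε / (8 * C)) ≤
      ε / 8 := by
    calc (∑ i ∈ Finset.range (p.natDegree + 1), |p.coeff i|) * min 1 (ε / (8 * C))
        ≤ C * (ε / (8 * C)) := by
          refine mul_le_mul (by rw [hC]; linarith) (min_le_right _ _) hε'.le hCpos.le
      _ = ε / 8 := by field_simp
  have hpoly' := (abs_le.mp (hpoly.trans hCe)).2
  -- the indicator
  have hind := hψg (fun x => if 0 < ψ x then 1 else 0) (fun x => by split_ifs <;> norm_num)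
    (fun x => by split_ifs <;> norm_num)
  have e1 : av (fun x => (f x - (if 0 < ψ x then (1 : ℝ) else 0)) * ψ x) =
      av (fun x => f x * ψ x) - av (fun x => max (ψ x) 0) := by
    rw [← av_sub]
    congr 1
    funext x
    split_ifs with h
    · rw [max_eq_left h.le]; ring
    · rw [max_eq_right (not_lt.mp h)]; ring
  rw [e1] at hind
  have h1 : av (fun x => f x * ψ x) ≤ av (fun x => ν x * max (ψ x) 0) := av_mono fun x => by
    calc f x * ψ x ≤ f x * max (ψ x) 0 := mul_le_mul_of_nonneg_left (le_max_left _ _) (hf x)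
      _ ≤ ν x * max (ψ x) 0 := mul_le_mul_of_nonneg_right (hfν x) (le_max_right _ _)
  have h2 : av (fun x => ν x * max (ψ x) 0) ≤
      av (fun x => ν x * p.eval (ψ x)) + ε / 8 * av ν := by
    rw [← av_mul_left, ← av_add]
    refine av_mono fun x => ?_
    have := (abs_le.mp (hp' x)).1
    nlinarith [mul_le_mul_of_nonneg_left this (hν0 x)]
  have h3 : av (fun x => ν x * p.eval (ψ x)) =
      av (fun x => (ν x - 1) * p.eval (ψ x)) + av (fun x => p.eval (ψ x)) := by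
    rw [← av_add]
    congr 1
    funext x
    ring
  have h4 : av (fun x => p.eval (ψ x)) ≤ av (fun x => max (ψ x) 0) + ε / 8 := by
    have h40 : av (fun x => max (ψ x) 0 + ε / 8) = av (fun x => max (ψ x) 0) + ε / 8 := by
      rw [av_add, av_const]
    rw [← h40]
    refine av_mono fun x => ?_
    have := (abs_le.mp (hp' x)).2
    linarith
  have h5 : ε / 8 * av ν ≤ ε / 8 * 2 := mul_le_mul_of_nonneg_left hν1 (by positivity)
  linarith

end GPR
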