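import Pool.Agent.GPR.ExpInt
import Pool.Agent.SMC.EquiF

/-!
# GPR/EqLine: joint equidistribution of `(A_i e^{lam_i t/N} - s)/D_i`, `t < T`

Proof.  `SMC.equi_fejer r` on the interval `[0, T]` with the step functions
`f i t = (A i * exp(lam i * (⌊t⌋₊/N)) - s)/D i` (measurable): the volume of the set
`{t ∈ [0,T] | ∀ i, fract (f i t) < θ i}` is the number of the `t < T` of the statement (up to the null
set `{T}`), and for `h ≠ 0`, `|h i| ≤ n^2`,
`∫_0^T e(∑ h_i f i t) dt = ∑_{t<T} e(Φ(t))`, `Φ(t) = ∑ (h_i A_i/D_i) e^{lam_i t/N} - s ∑ h_i/D_i`.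
Sum versus integral: for real `t ∈ [t', t'+1]`, `|e(Φ(t)) - e(Φ(t'))| ≤ 2π sup |Φ'|`, with
`|Φ'| ≤ ∑ |h_i| B X |lam_i| e^{|lam_i| τ₀}/N ≤ C₁ n^2 X/N` (`D_i ≥ 1`).  The integral
`∫_0^T e(Φ(t)) dt = N ∫_0^{T/N} e(Φ(N t)) dt` is at most `N C (X/Q)^(-1/r)` by `exp_int` with
`a_i = h_i A_i/D_i`; some `h_i ≠ 0` has `|a_i| ≥ X/Q ≥ 1` (the constant `s ∑ h_i/D_i` only rotates).
So `ω = C₂ (N (X/Q)^(-1/r) + T n^2 X/N)` in `equi_fejer`; divide by `T`.
-/

namespace GPR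

open MeasureTheory SMC

/-! ### helpers -/

private theorem el_e_sub (x y : ℝ) : ‖EquiFAux.e x - EquiFAux.e y‖ ≤ 2 * Real.pi * |x - y| := by
  have h1 : EquiFAux.e x - EquiFAux.e y
      = EquiFAux.e y * (Complex.exp (Complex.I * ((2 * Real.pi * (x - y) : ℝ) : ℂ)) - 1) := by
    unfold EquiFAux.e
    rw [mul_sub, ← Complex.exp_add, mul_one]
    congr 2
    push_cast
    ring
  rw [h1, norm_mul, EquiFAux.e_norm, one_mul]
  refine Real.norm_exp_I_mul_ofReal_sub_one_le.trans ?_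
  rw [Real.norm_eq_abs, abs_mul, abs_of_pos (by positivity : (0 : ℝ) < 2 * Real.pi)]

private theorem el_exp_sub {u v M : ℝ} (hu : u ≤ M) (hv : v ≤ M) :
    |Real.exp u - Real.exp v| ≤ |u - v| * Real.exp M := by
  have key : ∀ {a b : ℝ}, a ≤ M → b ≤ a →
      Real.exp a - Real.exp b ≤ (a - b) * Real.exp M := by
    intro a b ha hb
    have h1 : Real.exp b = Real.exp a * Real.exp (b - a) := by
      rw [← Real.exp_add]
      congr 1
      ring
    have h2 := Real.add_one_le_exp (b - a)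
    have h3 : Real.exp a ≤ Real.exp M := Real.exp_le_exp.mpr ha
    have h4 := Real.exp_pos a
    rw [h1]
    nlinarith
  rcases le_total v u with h | h
  · rw [abs_of_nonneg (sub_nonneg.mpr (Real.exp_le_exp.mpr h)), abs_of_nonneg (sub_nonneg.mpr h)]
    exact key hu h
  · rw [abs_sub_comm, abs_sub_comm u v, abs_of_nonneg (sub_nonneg.mpr (Real.exp_le_exp.mpr h)),
      abs_of_nonneg (sub_nonneg.mpr h)]
    exact key hv h

/-- volume of a step set -/
private theorem el_vol (T : ℕ) (p : ℕ → Prop) [DecidablePred p] :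
    (volume {t : ℝ | t ∈ Set.Icc (0 : ℝ) T ∧ p ⌊t⌋₊}).toReal
      = (((Finset.range T).filter p).card : ℝ) := by
  have h1 : volume {t : ℝ | t ∈ Set.Icc (0 : ℝ) T ∧ p ⌊t⌋₊}
      = volume (⋃ j ∈ (Finset.range T).filter p, Set.Ico (j : ℝ) (j + 1)) := by
    rw [← measure_sdiff_null (s := {t : ℝ | t ∈ Set.Icc (0 : ℝ) T ∧ p ⌊t⌋₊})
      (measure_singleton (μ := volume) (T : ℝ))]
    congr 1
    ext t
    simp only [Set.mem_sdiff, Set.mem_ofPred_eq, Set.mem_Icc, Set.mem_singleton_iff,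
      Set.mem_iUnion, Finset.mem_filter, Finset.mem_range, Set.mem_Ico, exists_prop]
    constructor
    · rintro ⟨⟨⟨h0, hT⟩, hp⟩, hne⟩
      have hlt : t < T := lt_of_le_of_ne hT hne
      refine ⟨⌊t⌋₊, ⟨?_, hp⟩, Nat.floor_le h0, Nat.lt_floor_add_one t⟩
      rw [Nat.floor_lt h0]
      exact hlt
    · rintro ⟨j, ⟨hj, hp⟩, h1, h2⟩
      have h0 : (0 : ℝ) ≤ t := le_trans (Nat.cast_nonneg j) h1
      have hf : ⌊t⌋₊ = j := by
        rw [Nat.floor_eq_iff h0]
        exact ⟨h1, h2⟩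
      have hjT : (j : ℝ) + 1 ≤ T := by exact_mod_cast hj
      refine ⟨⟨⟨h0, by linarith⟩, by rw [hf]; exact hp⟩, by linarith [lt_of_lt_of_le h2 hjT] |> ne_of_lt⟩
  rw [h1, measure_biUnion_finset]
  · simp only [Real.volume_Ico, add_sub_cancel_left, ENNReal.ofReal_one, Finset.sum_const,
      nsmul_eq_mul, mul_one]
    simp
  · intro i _ j _ hij
    rw [Function.onFun, Set.disjoint_left]
    rintro t ⟨h1, h2⟩ ⟨h3, h4⟩
    apply hij
    have h5 : (i : ℝ) < j + 1 := lt_of_le_of_lt h1 h4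
    have h6 : (j : ℝ) < i + 1 := lt_of_le_of_lt h3 h2
    have h5' : i < j + 1 := by exact_mod_cast h5
    have h6' : j < i + 1 := by exact_mod_cast h6
    omega
  · intro j _
    exact measurableSet_Ico

/-- the phase at real `t` -/
private noncomputable def elPhi {r : ℕ} (lam A : Fin r → ℝ) (D : Fin r → ℕ) (s : ℝ) (N : ℕ)
    (h : Fin r → ℤ) (t : ℝ) : ℝ :=
  ∑ i, (h i : ℝ) * ((A i * Real.exp (lam i * (t / N)) - s) / D i)

private theorem elPhi_cont {r : ℕ} (lam A : Fin r → ℝ) (D : Fin r → ℕ) (s : ℝ) (N : ℕ)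
    (h : Fin r → ℤ) : Continuous (elPhi lam A D s N h) := by
  unfold elPhi
  fun_prop

private theorem elPhi_int {r : ℕ} (lam A : Fin r → ℝ) (D : Fin r → ℕ) (s : ℝ) (N T : ℕ)
    (hN : 1 ≤ N) (h : Fin r → ℤ) :
    ‖∫ t in (0 : ℝ)..T, EquiFAux.e (elPhi lam A D s N h t)‖ = N *
      ‖∫ t in (0 : ℝ)..((T : ℝ) / N), Complex.exp (2 * Real.pi * Complex.I *
        ((∑ i, ((h i : ℝ) * A i / D i) * Real.exp (lam i * t) : ℝ) : ℂ))‖ := by
  have hN0 : (N : ℝ) ≠ 0 := by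
    have : (1 : ℝ) ≤ N := by exact_mod_cast hN
    positivity
  have h1 : ∀ t : ℝ, EquiFAux.e (elPhi lam A D s N h t) =
      (fun u : ℝ => EquiFAux.e (∑ i, ((h i : ℝ) * A i / D i) * Real.exp (lam i * u)) *
        EquiFAux.e (-(∑ i, (h i : ℝ) * s / D i))) (t / N) := by
    intro t
    simp only
    rw [← EquiFAux.e_add]
    congr 1
    unfold elPhi
    rw [← Finset.sum_neg_distrib, ← Finset.sum_add_distrib]
    refine Finset.sum_congr rfl fun i _ => ?_
    ring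
  simp_rw [h1]
  rw [intervalIntegral.integral_mul_const, norm_mul, EquiFAux.e_norm, mul_one,
    intervalIntegral.integral_comp_div
      (fun u : ℝ => EquiFAux.e (∑ i, ((h i : ℝ) * A i / D i) * Real.exp (lam i * u))) hN0,
    zero_div, norm_smul, Real.norm_eq_abs, Nat.abs_cast]
  rfl

private theorem elPhi_lip {r : ℕ} (lam A : Fin r → ℝ) (D : Fin r → ℕ) (s : ℝ) (N T : ℕ)
    (hN : 1 ≤ N) (h : Fin r → ℤ) (τ X B H : ℝ) (hB : 0 ≤ B) (hX : 0 ≤ X)
    (hT : (T : ℝ) ≤ τ * N) (hA0 : ∀ i, 0 ≤ A i)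
    (hA : ∀ i, A i ≤ B * X) (hD : ∀ i, 1 ≤ D i) (hh : ∀ i, |(h i : ℝ)| ≤ H) {t u : ℝ}
    (ht0 : 0 ≤ t) (htT : t ≤ T) (hu0 : 0 ≤ u) (huT : u ≤ T) (htu : |t - u| ≤ 1) :
    |elPhi lam A D s N h t - elPhi lam A D s N h u| ≤
      (∑ i, |lam i| * Real.exp (|lam i| * τ)) * (H * (B * X) / N) := by
  have hN1 : (1 : ℝ) ≤ N := by exact_mod_cast hN
  have hN0 : (0 : ℝ) < N := by linarith
  unfold elPhi
  rw [← Finset.sum_sub_distrib, Finset.sum_mul]
  refine (Finset.abs_sum_le_sum_abs _ _).trans (Finset.sum_le_sum fun i _ => ?_)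
  have hDi : (1 : ℝ) ≤ D i := by exact_mod_cast hD i
  have hD0 : (0 : ℝ) < D i := by linarith
  have h1 : (h i : ℝ) * ((A i * Real.exp (lam i * (t / N)) - s) / D i) -
      (h i : ℝ) * ((A i * Real.exp (lam i * (u / N)) - s) / D i) =
      (h i : ℝ) * (A i / D i) * (Real.exp (lam i * (t / N)) - Real.exp (lam i * (u / N))) := by
    ring
  rw [h1, abs_mul, abs_mul, abs_of_nonneg (div_nonneg (hA0 i) hD0.le)]
  have hle : ∀ {v : ℝ}, 0 ≤ v → v ≤ T → lam i * (v / N) ≤ |lam i| * τ := by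
    intro v hv0 hvT
    have h2 : v / N ≤ τ := by
      rw [div_le_iff₀ hN0]
      linarith
    have h3 : 0 ≤ v / N := by positivity
    calc lam i * (v / N) ≤ |lam i| * (v / N) :=
          mul_le_mul_of_nonneg_right (le_abs_self _) h3
      _ ≤ |lam i| * τ := mul_le_mul_of_nonneg_left h2 (abs_nonneg _)
  have h2 := el_exp_sub (hle ht0 htT) (hle hu0 huT)
  have h3 : |lam i * (t / N) - lam i * (u / N)| ≤ |lam i| / N := by
    have : lam i * (t / N) - lam i * (u / N) = lam i * (t - u) / N := by ring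
    rw [this, abs_div, abs_mul, Nat.abs_cast]
    apply div_le_div_of_nonneg_right _ hN0.le
    calc |lam i| * |t - u| ≤ |lam i| * 1 := mul_le_mul_of_nonneg_left htu (abs_nonneg _)
      _ = |lam i| := mul_one _
  have hH : 0 ≤ H := le_trans (abs_nonneg _) (hh i)
  have h4 : A i / D i ≤ B * X := by
    rw [div_le_iff₀ hD0]
    have := hA i
    have h5 : 0 ≤ B * X := by positivity
    nlinarith
  have hE := Real.exp_pos (|lam i| * τ)
  calc |(h i : ℝ)| * (A i / D i) *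
        |Real.exp (lam i * (t / N)) - Real.exp (lam i * (u / N))|
      ≤ H * (B * X) * (|lam i| / N * Real.exp (|lam i| * τ)) := by
        apply mul_le_mul
        · exact mul_le_mul (hh i) h4 (div_nonneg (hA0 i) hD0.le) hH
        · exact h2.trans (mul_le_mul_of_nonneg_right h3 hE.le)
        · exact abs_nonneg _
        · positivity
    _ = |lam i| * Real.exp (|lam i| * τ) * (H * (B * X) / N) := by ring

theorem eq_line {r : ℕ} (hr : 1 ≤ r) (lam : Fin r → ℝ) (hinj : Function.Injective lam)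
    (h0 : ∀ i, lam i ≠ 0) (B : ℝ) (hB : 1 ≤ B) :
    ∃ C τ₀ : ℝ, 0 < C ∧ 0 < τ₀ ∧ ∀ (X Q s : ℝ) (N T n : ℕ) (A : Fin r → ℝ) (D : Fin r → ℕ)
      (θ : Fin r → ℝ), 1 ≤ n → 1 ≤ T → 1 ≤ N → 1 ≤ Q → Q ≤ X → (T : ℝ) ≤ τ₀ * N →
      (∀ i, X ≤ A i) → (∀ i, A i ≤ B * X) → (∀ i, 1 ≤ D i) → (∀ i, (D i : ℝ) ≤ Q) →
      (∀ i, 0 ≤ θ i) → (∀ i, θ i ≤ 1) →
      |(((Finset.range T).filter (fun t : ℕ => ∀ i,
          Int.fract ((A i * Real.exp (lam i * ((t : ℝ) / N)) - s) / D i) < θ i)).card : ℝ) / T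
        - ∏ i, θ i| ≤
        C * (1 / n + (n : ℝ) ^ (2 * r) * ((N : ℝ) / T * (X / Q) ^ (-(1 / (r : ℝ))) +
          (n : ℝ) ^ 2 * X / N)) := by
  classical
  obtain ⟨C1, τ₀, hC1, hτ₀, hexp⟩ := exp_int hr lam hinj h0
  obtain ⟨C2, hC2, hequi⟩ := equi_fejer r
  set S1 : ℝ := ∑ i, |lam i| * Real.exp (|lam i| * τ₀) with hS1
  have hS1' : 0 ≤ S1 := Finset.sum_nonneg fun i _ => by positivity
  set C3 : ℝ := 2 * Real.pi * (S1 * B) with hC3
  have hC3' : 0 ≤ C3 := by positivity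
  refine ⟨C2 * (1 + C1 + C3), τ₀, by positivity, hτ₀, ?_⟩
  intro X Q s N T n A D θ hn hT hN hQ hQX hTN hXA hAB hD hDQ hθ0 hθ1
  have hn1 : (1 : ℝ) ≤ n := by exact_mod_cast hn
  have hT1 : (1 : ℝ) ≤ T := by exact_mod_cast hT
  have hN1 : (1 : ℝ) ≤ N := by exact_mod_cast hN
  have hX1 : 1 ≤ X := hQ.trans hQX
  have hX0 : 0 ≤ X := by linarith
  have hTp : (0 : ℝ) < T := by linarith
  have hNp : (0 : ℝ) < N := by linarith
  have hQp : (0 : ℝ) < Q := by linarith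
  have hL1 : 1 ≤ X / Q := by rwa [le_div_iff₀ hQp, one_mul]
  have hA0 : ∀ i, 0 ≤ A i := fun i => hX0.trans (hXA i)
  set x : ℝ := (X / Q) ^ (-(1 / (r : ℝ))) with hx
  have hx0 : 0 ≤ x := Real.rpow_nonneg (by linarith) _
  set ω : ℝ := N * (C1 * x) + T * (C3 * ((n : ℝ) ^ 2 * X / N)) with hω
  have hω0 : 0 ≤ ω := by positivity
  let f : Fin r → ℝ → ℝ := fun i t => (A i * Real.exp (lam i * ((⌊t⌋₊ : ℝ) / N)) - s) / D i
  have hfm : ∀ i, Measurable (f i) := by
    intro i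
    have hfl : Measurable (fun t : ℝ => ((⌊t⌋₊ : ℕ) : ℝ)) :=
      measurable_from_nat.comp Nat.measurable_floor
    exact (((measurable_const.mul (Real.measurable_exp.comp
      (measurable_const.mul (hfl.div_const _)))).sub_const s).div_const _)
  have hE : ∀ h : Fin r → ℤ, h ≠ 0 → (∀ i, |(h i : ℝ)| ≤ (n : ℝ) ^ 2) →
      ‖∫ t in (0 : ℝ)..T, Complex.exp (2 * Real.pi * Complex.I *
        ((∑ i, (h i : ℝ) * f i t : ℝ) : ℂ))‖ ≤ ω := by
    intro h hh0 hhn
    have hstep : ∀ t : ℝ, Complex.exp (2 * Real.pi * Complex.I *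
        ((∑ i, (h i : ℝ) * f i t : ℝ) : ℂ)) = EquiFAux.e (elPhi lam A D s N h (⌊t⌋₊ : ℝ)) := by
      intro t
      rfl
    simp_rw [hstep]
    have hI1 : IntervalIntegrable (fun t : ℝ => EquiFAux.e (elPhi lam A D s N h (⌊t⌋₊ : ℝ)))
        volume 0 T := by
      apply EquiFAux.bdd_int (C := 1) _ (fun t => (EquiFAux.e_norm _).le)
      have hfl : Measurable (fun t : ℝ => ((⌊t⌋₊ : ℕ) : ℝ)) :=
        measurable_from_nat.comp Nat.measurable_floor
      exact ((EquiFAux.e_cont.comp (elPhi_cont lam A D s N h)).measurable.comp hfl).stronglyMeasurable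
    have hI2 : IntervalIntegrable (fun t : ℝ => EquiFAux.e (elPhi lam A D s N h t))
        volume 0 T := (EquiFAux.e_cont.comp (elPhi_cont lam A D s N h)).intervalIntegrable _ _
    have hsplit : (∫ t in (0 : ℝ)..T, EquiFAux.e (elPhi lam A D s N h (⌊t⌋₊ : ℝ))) =
        (∫ t in (0 : ℝ)..T, EquiFAux.e (elPhi lam A D s N h t)) +
        ∫ t in (0 : ℝ)..T, (EquiFAux.e (elPhi lam A D s N h (⌊t⌋₊ : ℝ)) -
          EquiFAux.e (elPhi lam A D s N h t)) := by
      rw [intervalIntegral.integral_sub hI1 hI2]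
      ring
    rw [hsplit]
    refine (norm_add_le _ _).trans (add_le_add ?_ ?_)
    · rw [elPhi_int lam A D s N T hN h]
      apply mul_le_mul_of_nonneg_left _ hNp.le
      refine hexp (fun i => (h i : ℝ) * A i / D i) (X / Q) ((T : ℝ) / N) hL1 ?_ (by positivity) ?_
      · obtain ⟨i, hi⟩ : ∃ i, h i ≠ 0 := by
          by_contra hc
          push Not at hc
          exact hh0 (funext hc)
        refine ⟨i, ?_⟩
        have hDi : (1 : ℝ) ≤ D i := by exact_mod_cast hD i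
        have hD0 : (0 : ℝ) < D i := by linarith
        have hh1 : (1 : ℝ) ≤ |(h i : ℝ)| := by
          have : (1 : ℤ) ≤ |h i| := Int.one_le_abs hi
          exact_mod_cast this
        rw [abs_div, abs_mul, abs_of_nonneg (hA0 i), Nat.abs_cast]
        rw [div_le_div_iff₀ hQp hD0]
        have hXA' := hXA i
        have hDQ' := hDQ i
        have e1 : X * (D i : ℝ) ≤ A i * Q := mul_le_mul hXA' hDQ' hD0.le (hA0 i)
        have e2 : A i * Q ≤ |(h i : ℝ)| * A i * Q := by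
          have : 0 ≤ A i * Q := mul_nonneg (hA0 i) hQp.le
          nlinarith
        exact e1.trans e2
      · rw [div_le_iff₀ hNp]
        exact hTN
    · have hbd : ∀ t ∈ Set.uIoc (0 : ℝ) T, ‖EquiFAux.e (elPhi lam A D s N h (⌊t⌋₊ : ℝ)) -
          EquiFAux.e (elPhi lam A D s N h t)‖ ≤ C3 * ((n : ℝ) ^ 2 * X / N) := by
        intro t ht
        rw [Set.uIoc_of_le hTp.le] at ht
        obtain ⟨ht0, htT⟩ := ht
        have hfl0 : (⌊t⌋₊ : ℝ) ≤ t := Nat.floor_le ht0.le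
        have hfl1 : t < ⌊t⌋₊ + 1 := Nat.lt_floor_add_one t
        have hlip := elPhi_lip lam A D s N T hN h τ₀ X B ((n : ℝ) ^ 2) (by linarith) hX0
          hTN hA0 hAB hD hhn (t := (⌊t⌋₊ : ℝ)) (u := t) (Nat.cast_nonneg _) (hfl0.trans htT)
          ht0.le htT (by rw [abs_le]; constructor <;> linarith)
        refine (el_e_sub _ _).trans ?_
        calc 2 * Real.pi * |elPhi lam A D s N h (⌊t⌋₊ : ℝ) - elPhi lam A D s N h t|
            ≤ 2 * Real.pi * (S1 * ((n : ℝ) ^ 2 * (B * X) / N)) :=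
              mul_le_mul_of_nonneg_left hlip (by positivity)
          _ = C3 * ((n : ℝ) ^ 2 * X / N) := by
              rw [hC3]
              ring
      have := intervalIntegral.norm_integral_le_of_norm_le_const hbd
      rw [sub_zero, abs_of_pos hTp] at this
      linarith
  have hmain := hequi n 0 T ω f θ hn hTp.le hω0 hfm hθ0 hθ1 hE
  have hvol : (volume {t : ℝ | t ∈ Set.Icc (0 : ℝ) T ∧ ∀ i, Int.fract (f i t) < θ i}).toReal =
      (((Finset.range T).filter (fun t : ℕ => ∀ i,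
          Int.fract ((A i * Real.exp (lam i * ((t : ℝ) / N)) - s) / D i) < θ i)).card : ℝ) := by
    rw [← el_vol]
  rw [hvol, sub_zero] at hmain
  set K : ℝ := (((Finset.range T).filter (fun t : ℕ => ∀ i,
          Int.fract ((A i * Real.exp (lam i * ((t : ℝ) / N)) - s) / D i) < θ i)).card : ℝ) with hK
  have h1 : |K / T - ∏ i, θ i| = |K - T * ∏ i, θ i| / T := by
    rw [← abs_of_pos hTp, ← abs_div, abs_of_pos hTp]
    congr 1
    field_simp
  rw [h1, div_le_iff₀ hTp]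
  refine hmain.trans ?_
  have hp : (0 : ℝ) ≤ (n : ℝ) ^ (2 * r) := by positivity
  have h2 : (T : ℝ) * (C2 * (1 + C1 + C3) * (1 / n + (n : ℝ) ^ (2 * r) *
      ((N : ℝ) / T * x + (n : ℝ) ^ 2 * X / N))) =
      C2 * ((1 + C1 + C3) * (T / n) + (n : ℝ) ^ (2 * r) * ((1 + C1 + C3) * (N * x) +
        (1 + C1 + C3) * (T * ((n : ℝ) ^ 2 * X / N)))) := by
    field_simp
  rw [mul_comm _ (T : ℝ), h2]
  apply mul_le_mul_of_nonneg_left _ (by linarith)
  have hTn : 0 ≤ (T : ℝ) / n := by positivity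
  have hNx : 0 ≤ (N : ℝ) * x := by positivity
  have hTX : 0 ≤ (T : ℝ) * ((n : ℝ) ^ 2 * X / N) := by positivity
  apply add_le_add
  · nlinarith
  · apply mul_le_mul_of_nonneg_left _ hp
    rw [hω]
    nlinarith

end GPR
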