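import Pool.Agent.GPR.EqLine
import Pool.Agent.GPR.Dir

/-!
# GPR/EqMain: joint equidistribution of all the linear forms in log scale

Let `R = k 2^k` (at least the number of pairs), `c₀ = 1/(32 R^2)`, `X = e^w`, `v = (v0, v1)` from `dir`,
`L_p = psiZ p.1 (mix v0 v1 p.2)`, `M ≥ 1` a bound for the `|L_p|`.
`S = ∅`: both sides are `1`.  Let `r = card S ≥ 1`, `r ≤ R`, and enumerate `S`.
1. For `t < T = ⌊N e^{-w/(8R)}⌋` replace `q` by `q + t v` (mod `N`): the average over `q` does not change.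
   So the average is `av_q (1/T) ∑_{t<T} ∏_{p∈S} 1[...](q + t v)`.
2. `psi p.1 (mix (q + t v)) = psi p.1 (mix q) + t L_p` in `ZMod N` (`psi_add`, `psi_cast`).  Let
   `ϑ = M e^{-w/(8R)}` and call `q` good if `ϑ ≤ uu (psi p.1 (mix q.1 q.2 p.2)) < 1 - ϑ` for all `p ∈ S`.  For good
   `q` and `t < T`: `uu (psi p.1 (mix (q + t v))) = u_p + t L_p/N`, `u_p = uu (psi p.1 (mix q))`, no wrap.
   The proportion of bad `q` is at most `r (2ϑ + 2/N)` (`psi_unif`).
3. For good `q`: `yy w θ s σ (J p.1) (u_p + t L_p/N) = A_p e^{lam_p t/N} - s` with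
   `A_p = exp(w + J θ + σ u_p) ∈ [X, B X]`, `B = e^{Kθ+1}`, `lam_p = σ L_p` distinct, nonzero.  `eq_line` with
   `Q = e^{c₀ w}`, `n = ⌈e^{w/(16R^2)}⌉`, `θ_p = ε/D_p`: the average over `t` is `∏ ε/D_p` up to
   `C (1/n + n^{2r} (2 e^{w/(8R)} (X/Q)^{-1/r} + n^2 X/N))`; exponents of `e^w`:
   `1/n`: `-1/(16R^2)`; `n^{2r} e^{w/(8R)} (X/Q)^{-1/r}`: `≤ 1/(8R) + 1/(8R) - 1/(2R) = -1/(4R)`
   (`(1-c₀)/r ≥ 1/(2R)`); `n^{2r+2} X/N ≤ e^{w(4R/(16R^2) - 1)}`: `≤ -3/4` (up to constants `2^{2R+2}` from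
   the rounding of `n`).
So the total error is `≤ C' e^{-w/(16R^2)} ≤ e^{-c₀ w}` for `w ≥ w₀`.
-/

namespace GPR

/-- the numerical estimates -/
private theorem em_num (R r : ℕ) (hr : 1 ≤ r) (hrR : r ≤ R) (C M τ₀ : ℝ) (hC : 0 < C) (hM : 1 ≤ M)
    (hτ : 0 < τ₀) :
    ∃ w₀ : ℝ, 0 ≤ w₀ ∧ ∀ w ≥ w₀, ∀ N : ℕ, Real.exp (2 * w) ≤ N → ∀ T n : ℕ,
      T = ⌊(N : ℝ) * Real.exp (-(w / (8 * R)))⌋₊ → n = ⌈Real.exp (w / (16 * (R : ℝ) ^ 2))⌉₊ →
      1 ≤ T ∧ 1 ≤ n ∧ (T : ℝ) ≤ τ₀ * N ∧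
      C * (1 / n + (n : ℝ) ^ (2 * r) * ((N : ℝ) / T *
        (Real.exp w / Real.exp (w / (32 * (R : ℝ) ^ 2))) ^ (-(1 / (r : ℝ))) +
          (n : ℝ) ^ 2 * Real.exp w / N)) + r * (2 * (M * Real.exp (-(w / (8 * R)))) + 2 / N) ≤
        Real.exp (-(w / (32 * (R : ℝ) ^ 2))) := by
  have hr1 : (1 : ℝ) ≤ r := by exact_mod_cast hr
  have hrR' : (r : ℝ) ≤ R := by exact_mod_cast hrR
  have hR1 : (1 : ℝ) ≤ R := hr1.trans hrR'
  have hR0 : (0 : ℝ) < R := by linarith
  have hRsq : (R : ℝ) ≤ (R : ℝ) ^ 2 := by nlinarith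
  set C' : ℝ := C * (1 + (2 ^ (2 * R + 1) + 2 ^ (2 * R + 2))) + R * (2 * M + 2) with hC'
  have hC'0 : 0 < C' := by positivity
  refine ⟨1 + 8 * R / τ₀ + 32 * (R : ℝ) ^ 2 * C', by positivity, ?_⟩
  intro w hw N hN T n hT hn
  have hw1 : 1 ≤ w := by
    have h1 : 0 ≤ 8 * R / τ₀ := by positivity
    have h2 : 0 ≤ 32 * (R : ℝ) ^ 2 * C' := by positivity
    linarith
  have hw0 : 0 ≤ w := by linarith
  have hwτ : 8 * R / τ₀ ≤ w := by
    have h2 : 0 ≤ 32 * (R : ℝ) ^ 2 * C' := by positivity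
    linarith
  have hwC : 32 * (R : ℝ) ^ 2 * C' ≤ w := by
    have h1 : 0 ≤ 8 * R / τ₀ := by positivity
    linarith
  have hN0 : (0 : ℝ) < N := lt_of_lt_of_le (Real.exp_pos _) hN
  set y : ℝ := w / (8 * R) with hy
  set x1 : ℝ := w / (16 * (R : ℝ) ^ 2) with hx1
  have hy0 : 0 ≤ y := by positivity
  have hx10 : 0 ≤ x1 := by positivity
  have hyw : y ≤ w / 8 := by
    rw [hy]
    apply div_le_div_of_nonneg_left hw0 (by norm_num)
    linarith
  have hx1y : x1 ≤ y / 2 := by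
    rw [hx1, hy, div_div]
    apply div_le_div_of_nonneg_left hw0 (by positivity)
    nlinarith
  -- T
  have hNe : 2 ≤ (N : ℝ) * Real.exp (-y) := by
    have h1 : Real.exp (2 * w) * Real.exp (-y) ≤ N * Real.exp (-y) :=
      mul_le_mul_of_nonneg_right hN (Real.exp_pos _).le
    rw [← Real.exp_add] at h1
    have h2 := Real.add_one_le_exp (2 * w + -y)
    linarith
  have hTle : (T : ℝ) ≤ N * Real.exp (-y) := by
    rw [hT]
    exact Nat.floor_le (by positivity)
  have hTge : N * Real.exp (-y) / 2 ≤ (T : ℝ) := by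
    have h1 := Nat.lt_floor_add_one ((N : ℝ) * Real.exp (-y))
    rw [← hT] at h1
    linarith
  have hT1 : (1 : ℝ) ≤ T := by linarith
  have hT0 : (0 : ℝ) < T := by linarith
  -- n
  have hex1 : 1 ≤ Real.exp x1 := Real.one_le_exp hx10
  have hnge : Real.exp x1 ≤ n := by
    rw [hn]
    exact Nat.le_ceil _
  have hnle : (n : ℝ) ≤ 2 * Real.exp x1 := by
    have h1 := Nat.ceil_lt_add_one (Real.exp_pos x1).le
    rw [← hn] at h1
    linarith
  have hn1 : (1 : ℝ) ≤ n := hex1.trans hnge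
  have hn0 : (0 : ℝ) < n := by linarith
  refine ⟨by exact_mod_cast hT1, by exact_mod_cast hn1, ?_, ?_⟩
  · refine hTle.trans ?_
    rw [mul_comm]
    apply mul_le_mul_of_nonneg_right _ hN0.le
    rw [Real.exp_neg]
    have h1 : 1 / τ₀ ≤ y := by
      rw [hy, div_le_div_iff₀ hτ (by positivity)]
      rw [div_le_iff₀ hτ] at hwτ
      linarith
    have h2 := Real.add_one_le_exp y
    have h3 : 1 / τ₀ ≤ Real.exp y := by linarith
    rw [one_div] at h3
    rw [inv_le_comm₀ (Real.exp_pos _) hτ]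
    exact h3
  · set ρ : ℝ := Real.exp (-x1) with hρ
    have hρ0 : 0 < ρ := Real.exp_pos _
    have h1n : 1 / (n : ℝ) ≤ ρ := by
      rw [hρ, Real.exp_neg, one_div]
      exact inv_anti₀ (Real.exp_pos _) hnge
    have h2e : 1 ≤ 2 * Real.exp x1 := by linarith
    have hnp : (n : ℝ) ^ (2 * r) ≤ 2 ^ (2 * R) * Real.exp y := by
      calc (n : ℝ) ^ (2 * r) ≤ (2 * Real.exp x1) ^ (2 * r) := pow_le_pow_left₀ hn0.le hnle _
        _ ≤ (2 * Real.exp x1) ^ (2 * R) := pow_le_pow_right₀ h2e (by omega)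
        _ = 2 ^ (2 * R) * Real.exp y := by
          rw [mul_pow, ← Real.exp_nat_mul]
          congr 2
          rw [hx1, hy]
          push_cast
          field_simp
          norm_num
    have hnp2 : (n : ℝ) ^ (2 * r) * (n : ℝ) ^ 2 ≤ 2 ^ (2 * R + 2) * Real.exp (w / 4) := by
      rw [← pow_add]
      calc (n : ℝ) ^ (2 * r + 2) ≤ (2 * Real.exp x1) ^ (2 * r + 2) := pow_le_pow_left₀ hn0.le hnle _
        _ ≤ (2 * Real.exp x1) ^ (2 * R + 2) := pow_le_pow_right₀ h2e (by omega)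
        _ = 2 ^ (2 * R + 2) * Real.exp ((2 * R + 2 : ℕ) * x1) := by
          rw [mul_pow, ← Real.exp_nat_mul]
        _ ≤ 2 ^ (2 * R + 2) * Real.exp (w / 4) := by
          apply mul_le_mul_of_nonneg_left _ (by positivity)
          apply Real.exp_le_exp.mpr
          push_cast
          rw [hx1, ← mul_div_assoc, div_le_div_iff₀ (by positivity) (by norm_num)]
          have : (2 * (R : ℝ) + 2) * 4 ≤ 16 * (R : ℝ) ^ 2 := by nlinarith
          nlinarith
    have hNT : (N : ℝ) / T ≤ 2 * Real.exp y := by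
      rw [div_le_iff₀ hT0]
      have h1 : 2 * Real.exp y * (N * Real.exp (-y) / 2) ≤ 2 * Real.exp y * T :=
        mul_le_mul_of_nonneg_left hTge (by positivity)
      have h2 : 2 * Real.exp y * (N * Real.exp (-y) / 2) = N := by
        rw [Real.exp_neg]
        field_simp
      linarith
    have hXQ : (Real.exp w / Real.exp (w / (32 * (R : ℝ) ^ 2))) ^ (-(1 / (r : ℝ))) ≤
        Real.exp (-(w / (2 * R))) := by
      rw [← Real.exp_sub, ← Real.exp_mul]
      apply Real.exp_le_exp.mpr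
      have h1 : w / (32 * (R : ℝ) ^ 2) ≤ w / 2 := by
        apply div_le_div_of_nonneg_left hw0 (by norm_num)
        nlinarith
      have h2 : w / 2 ≤ w - w / (32 * (R : ℝ) ^ 2) := by linarith
      have h3 : 1 / (R : ℝ) ≤ 1 / r := one_div_le_one_div_of_le (by linarith) hrR'
      have h4 : w / 2 * (1 / R) ≤ (w - w / (32 * (R : ℝ) ^ 2)) * (1 / r) :=
        mul_le_mul h2 h3 (by positivity) (by linarith)
      have h5 : w / 2 * (1 / R) = w / (2 * R) := by
        field_simp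
      rw [h5] at h4
      linarith
    have ht2 : (n : ℝ) ^ (2 * r) * ((N : ℝ) / T *
        (Real.exp w / Real.exp (w / (32 * (R : ℝ) ^ 2))) ^ (-(1 / (r : ℝ)))) ≤
        2 ^ (2 * R + 1) * ρ := by
      calc (n : ℝ) ^ (2 * r) * ((N : ℝ) / T *
            (Real.exp w / Real.exp (w / (32 * (R : ℝ) ^ 2))) ^ (-(1 / (r : ℝ))))
          ≤ (2 ^ (2 * R) * Real.exp y) * ((2 * Real.exp y) * Real.exp (-(w / (2 * R)))) := by
            apply mul_le_mul hnp _ (by positivity) (by positivity)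
            exact mul_le_mul hNT hXQ (by positivity) (by positivity)
        _ = 2 ^ (2 * R + 1) * Real.exp (y + y + -(w / (2 * R))) := by
            rw [Real.exp_add, Real.exp_add, pow_succ]
            ring
        _ ≤ 2 ^ (2 * R + 1) * ρ := by
            apply mul_le_mul_of_nonneg_left _ (by positivity)
            apply Real.exp_le_exp.mpr
            have h1 : w / (2 * R) = 4 * y := by
              rw [hy]
              field_simp
              norm_num
            rw [h1]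
            linarith
    have ht3 : (n : ℝ) ^ (2 * r) * ((n : ℝ) ^ 2 * Real.exp w / N) ≤ 2 ^ (2 * R + 2) * ρ := by
      have hXN : Real.exp w / N ≤ Real.exp (-w) := by
        rw [div_le_iff₀ hN0]
        have h1 : Real.exp (-w) * Real.exp (2 * w) ≤ Real.exp (-w) * N :=
          mul_le_mul_of_nonneg_left hN (Real.exp_pos _).le
        rw [← Real.exp_add] at h1
        have h2 : -w + 2 * w = w := by ring
        rw [h2] at h1
        exact h1
      calc (n : ℝ) ^ (2 * r) * ((n : ℝ) ^ 2 * Real.exp w / N)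
          = ((n : ℝ) ^ (2 * r) * (n : ℝ) ^ 2) * (Real.exp w / N) := by ring
        _ ≤ (2 ^ (2 * R + 2) * Real.exp (w / 4)) * Real.exp (-w) :=
            mul_le_mul hnp2 hXN (by positivity) (by positivity)
        _ = 2 ^ (2 * R + 2) * Real.exp (w / 4 + -w) := by
            rw [Real.exp_add]
            ring
        _ ≤ 2 ^ (2 * R + 2) * ρ := by
            apply mul_le_mul_of_nonneg_left _ (by positivity)
            apply Real.exp_le_exp.mpr
            linarith
    have ht4 : Real.exp (-y) ≤ ρ := by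
      apply Real.exp_le_exp.mpr
      linarith
    have ht5 : 1 / (N : ℝ) ≤ ρ := by
      rw [hρ, Real.exp_neg, one_div]
      apply inv_anti₀ (Real.exp_pos _)
      refine le_trans (Real.exp_le_exp.mpr ?_) hN
      linarith
    have ht6 : (r : ℝ) * (2 * (M * Real.exp (-y)) + 2 / N) ≤ R * (2 * M + 2) * ρ := by
      have h1 : 2 * (M * Real.exp (-y)) + 2 / N ≤ (2 * M + 2) * ρ := by
        have h2 : M * Real.exp (-y) ≤ M * ρ := mul_le_mul_of_nonneg_left ht4 (by linarith)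
        have h3 : 2 / (N : ℝ) = 2 * (1 / N) := by ring
        rw [h3]
        linarith
      calc (r : ℝ) * (2 * (M * Real.exp (-y)) + 2 / N) ≤ R * ((2 * M + 2) * ρ) :=
            mul_le_mul hrR' h1 (by positivity) (by linarith)
        _ = _ := by ring
    have htot : C * (1 / n + (n : ℝ) ^ (2 * r) * ((N : ℝ) / T *
        (Real.exp w / Real.exp (w / (32 * (R : ℝ) ^ 2))) ^ (-(1 / (r : ℝ))) +
          (n : ℝ) ^ 2 * Real.exp w / N)) + r * (2 * (M * Real.exp (-y)) + 2 / N) ≤ C' * ρ := by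
      have h1 : 1 / (n : ℝ) + (n : ℝ) ^ (2 * r) * ((N : ℝ) / T *
        (Real.exp w / Real.exp (w / (32 * (R : ℝ) ^ 2))) ^ (-(1 / (r : ℝ))) +
          (n : ℝ) ^ 2 * Real.exp w / N) ≤ (1 + (2 ^ (2 * R + 1) + 2 ^ (2 * R + 2))) * ρ := by
        rw [mul_add]
        linarith
      have h2 := mul_le_mul_of_nonneg_left h1 hC.le
      rw [hC']
      linarith
    refine htot.trans ?_
    have h1 : C' ≤ Real.exp (w / (32 * (R : ℝ) ^ 2)) := by
      have h2 := Real.add_one_le_exp (w / (32 * (R : ℝ) ^ 2))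
      have h3 : C' ≤ w / (32 * (R : ℝ) ^ 2) := by
        rw [le_div_iff₀ (by positivity)]
        linarith
      linarith
    calc C' * ρ ≤ Real.exp (w / (32 * (R : ℝ) ^ 2)) * ρ := mul_le_mul_of_nonneg_right h1 hρ0.le
      _ = Real.exp (-(w / (32 * (R : ℝ) ^ 2))) := by
        rw [hρ, ← Real.exp_add]
        congr 1
        rw [hx1]
        field_simp
        norm_num

private theorem em_av_sum {X ι : Type*} [Fintype X] (s : Finset ι) (f : ι → X → ℝ) :
    av (fun x => ∑ t ∈ s, f t x) = ∑ t ∈ s, av (f t) := by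
  unfold av
  rw [Finset.sum_comm, Finset.sum_div]

/-- value of a shifted residue without wrap -/
private theorem em_uu {N : ℕ} [NeZero N] (x : ZMod N) (a : ℤ) (h0 : 0 ≤ (x.val : ℤ) + a)
    (h1 : (x.val : ℤ) + a < N) : uu (x + (a : ZMod N)) = uu x + a / N := by
  have e : ((x + (a : ZMod N)).val : ℤ) = x.val + a := by
    have h2 : x + (a : ZMod N) = (((x.val : ℤ) + a : ℤ) : ZMod N) := by
      push_cast
      rw [ZMod.natCast_zmod_val]
    rw [h2, ZMod.val_intCast, Int.emod_eq_of_lt h0 h1]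
  unfold uu
  have e' : ((x + (a : ZMod N)).val : ℝ) = x.val + a := by exact_mod_cast e
  rw [e', add_div]

/-- the proportion of the residues near the ends -/
private theorem em_bad {N : ℕ} [NeZero N] (ϑ : ℝ) (h0 : 0 ≤ ϑ) :
    av (fun x : ZMod N => if uu x < ϑ ∨ 1 - ϑ ≤ uu x then (1 : ℝ) else 0) ≤ 2 * ϑ + 2 / N := by
  have hN0 : (0 : ℝ) < N := by exact_mod_cast Nat.pos_of_ne_zero (NeZero.ne N)
  unfold av
  rw [ZMod.card, div_le_iff₀ hN0, ← Finset.sum_filter, Finset.sum_const, nsmul_eq_mul, mul_one]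
  have h1 : (Finset.univ.filter (fun x : ZMod N => uu x < ϑ ∨ 1 - ϑ ≤ uu x)).card ≤
      (Finset.range ⌈ϑ * N⌉₊ ∪ Finset.Ico ⌈(1 - ϑ) * N⌉₊ N).card := by
    apply Finset.card_le_card_of_injOn (fun x : ZMod N => x.val)
    · intro x hx
      rw [Finset.mem_coe, Finset.mem_filter] at hx
      rw [Finset.mem_coe, Finset.mem_union, Finset.mem_range, Finset.mem_Ico]
      rcases hx.2 with h | h
      · left
        unfold uu at h
        rw [div_lt_iff₀ hN0] at h
        exact Nat.lt_ceil.mpr h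
      · right
        unfold uu at h
        rw [le_div_iff₀ hN0] at h
        exact ⟨Nat.ceil_le.mpr h, ZMod.val_lt x⟩
    · intro x _ y _ hxy
      exact ZMod.val_injective N hxy
  have h2 := h1.trans (Finset.card_union_le _ _)
  rw [Finset.card_range, Nat.card_Ico] at h2
  have h3 : ((Finset.univ.filter (fun x : ZMod N => uu x < ϑ ∨ 1 - ϑ ≤ uu x)).card : ℝ) ≤
      (⌈ϑ * N⌉₊ : ℝ) + ((N - ⌈(1 - ϑ) * N⌉₊ : ℕ) : ℝ) := by exact_mod_cast h2
  have h4 : (⌈ϑ * N⌉₊ : ℝ) < ϑ * N + 1 := Nat.ceil_lt_add_one (by positivity)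
  have h5 : ((N - ⌈(1 - ϑ) * N⌉₊ : ℕ) : ℝ) ≤ ϑ * N := by
    rcases le_total ⌈(1 - ϑ) * N⌉₊ N with h | h
    · rw [Nat.cast_sub h]
      have := Nat.le_ceil ((1 - ϑ) * N)
      linarith
    · rw [Nat.sub_eq_zero_of_le h]
      simp only [Nat.cast_zero]
      positivity
  have h6 : (2 * ϑ + 2 / N) * N = 2 * (ϑ * N) + 2 := by
    field_simp
  rw [h6]
  linarith

/-- equidistribution for forms on a finite abelian group -/
private theorem em_core (R r : ℕ) (hr : 1 ≤ r) (hrR : r ≤ R) (L : Fin r → ℤ) (hL0 : ∀ i, L i ≠ 0)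
    (hinj : Function.Injective L) (θ s σ ε : ℝ) (K : ℕ) (hθ : 0 ≤ θ) (hσ : 0 < σ) (hσ1 : σ ≤ 1)
    (hε : 0 < ε) (hε1 : ε ≤ 1) :
    ∃ w₀ : ℝ, 0 ≤ w₀ ∧ ∀ w ≥ w₀, ∀ (N : ℕ) [Fact N.Prime], Real.exp (2 * w) ≤ N →
    ∀ (G : Type) [Fintype G] [AddCommGroup G] (g : Fin r → G → ZMod N) (z : G),
      (∀ (i : Fin r) (q : G) (t : ℕ), g i (q + t • z) = g i q + (((t : ℤ) * L i : ℤ) : ZMod N)) →
      (∀ (i : Fin r) (f : ZMod N → ℝ), av (fun q => f (g i q)) = av f) →
      ∀ (J : Fin r → ℕ), (∀ i, J i ≤ K) → ∀ D : Fin r → ℕ, (∀ i, 1 ≤ D i) →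
      (∀ i, (D i : ℝ) ≤ Real.exp (w / (32 * (R : ℝ) ^ 2))) →
      |av (fun q : G => ∏ i, (if Int.fract (yy w θ s σ (J i) (uu (g i q)) / D i) < ε / D i
            then (1 : ℝ) else 0)) - ∏ i, ε / (D i : ℝ)| ≤ Real.exp (-(w / (32 * (R : ℝ) ^ 2))) := by
  classical
  have hr1 : (1 : ℝ) ≤ r := by exact_mod_cast hr
  have hrR' : (r : ℝ) ≤ R := by exact_mod_cast hrR
  have hR1 : (1 : ℝ) ≤ R := hr1.trans hrR'
  have hB : 1 ≤ Real.exp (K * θ + 1) := Real.one_le_exp (by positivity)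
  obtain ⟨C, τ₀, hC, hτ₀, hline⟩ := eq_line hr (fun i => σ * (L i : ℝ))
    (fun i j hij => hinj (by
      have h1 := mul_left_cancel₀ hσ.ne' hij
      exact_mod_cast h1))
    (fun i => mul_ne_zero hσ.ne' (by exact_mod_cast hL0 i)) (Real.exp (K * θ + 1)) hB
  set M : ℝ := 1 + ∑ i, |(L i : ℝ)| with hM
  have hM1 : 1 ≤ M := by
    have : 0 ≤ ∑ i, |(L i : ℝ)| := Finset.sum_nonneg fun i _ => abs_nonneg _
    linarith
  have hLM : ∀ i, |(L i : ℝ)| ≤ M := by
    intro i
    have := Finset.single_le_sum (f := fun i => |(L i : ℝ)|) (fun i _ => abs_nonneg _) (Finset.mem_univ i)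
    linarith
  obtain ⟨w₀, hw₀, hnum⟩ := em_num R r hr hrR C M τ₀ hC hM1 hτ₀
  refine ⟨w₀, hw₀, ?_⟩
  intro w hw N _ hN G _ _ g z hg hunif J hJ D hD hDQ
  have hw0 : 0 ≤ w := hw₀.trans hw
  have hN0 : (0 : ℝ) < N := lt_of_lt_of_le (Real.exp_pos _) hN
  have hNnat : 1 ≤ N := by
    have : (0 : ℝ) < N := hN0
    exact_mod_cast this
  have : NeZero N := ⟨by omega⟩
  set T : ℕ := ⌊(N : ℝ) * Real.exp (-(w / (8 * R)))⌋₊ with hT
  set n : ℕ := ⌈Real.exp (w / (16 * (R : ℝ) ^ 2))⌉₊ with hn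
  obtain ⟨hT1, hn1, hTτ, hfin⟩ := hnum w hw N hN T n hT hn
  have hTp : (0 : ℝ) < T := by exact_mod_cast hT1
  have hTle : (T : ℝ) ≤ N * Real.exp (-(w / (8 * R))) := Nat.floor_le (by positivity)
  set ϑ : ℝ := M * Real.exp (-(w / (8 * R))) with hϑ
  have hϑ0 : 0 ≤ ϑ := by positivity
  set Q : ℝ := Real.exp (w / (32 * (R : ℝ) ^ 2)) with hQ
  have hQ1 : 1 ≤ Q := Real.one_le_exp (by positivity)
  have hQX : Q ≤ Real.exp w := by
    apply Real.exp_le_exp.mpr
    apply div_le_self hw0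
    nlinarith
  set E : ℝ := C * (1 / n + (n : ℝ) ^ (2 * r) * ((N : ℝ) / T *
        (Real.exp w / Q) ^ (-(1 / (r : ℝ))) + (n : ℝ) ^ 2 * Real.exp w / N)) with hE
  have hE0 : 0 ≤ E := by positivity
  set F : G → ℝ := fun q => ∏ i, (if Int.fract (yy w θ s σ (J i) (uu (g i q)) / D i) < ε / D i
            then (1 : ℝ) else 0) with hF
  set P : ℝ := ∏ i, ε / (D i : ℝ) with hP
  have hD0 : ∀ i, (1 : ℝ) ≤ D i := fun i => by exact_mod_cast hD i
  have hεD0 : ∀ i, 0 ≤ ε / (D i : ℝ) := fun i => div_nonneg hε.le (by linarith [hD0 i])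
  have hεD1 : ∀ i, ε / (D i : ℝ) ≤ 1 := fun i => by
    rw [div_le_one (by linarith [hD0 i])]
    linarith [hD0 i]
  have hP0 : 0 ≤ P := Finset.prod_nonneg fun i _ => hεD0 i
  have hP1 : P ≤ 1 := Finset.prod_le_one (fun i _ => hεD0 i) (fun i _ => hεD1 i)
  have hF0 : ∀ q, 0 ≤ F q := fun q => Finset.prod_nonneg fun i _ => by split_ifs <;> norm_num
  have hF1 : ∀ q, F q ≤ 1 := fun q => Finset.prod_le_one (fun i _ => by split_ifs <;> norm_num)
    (fun i _ => by split_ifs <;> norm_num)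
  -- the average over the line
  have hav : av (fun q => (∑ t ∈ Finset.range T, F (q + t • z)) / T) = av F := by
    have h1 : (fun q => (∑ t ∈ Finset.range T, F (q + t • z)) / T) =
        fun q => (1 / (T : ℝ)) * ∑ t ∈ Finset.range T, F (q + t • z) := by
      funext q
      ring
    rw [h1, av_mul_left, em_av_sum]
    have h2 : ∀ t ∈ Finset.range T, av (fun q => F (q + t • z)) = av F :=
      fun t _ => av_equiv (Equiv.addRight (t • z)) F
    rw [Finset.sum_congr rfl h2, Finset.sum_const, Finset.card_range, nsmul_eq_mul]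
    field_simp
  have hpt : ∀ q : G, |(∑ t ∈ Finset.range T, F (q + t • z)) / T - P| ≤
      E + ∑ i, (if uu (g i q) < ϑ ∨ 1 - ϑ ≤ uu (g i q) then (1 : ℝ) else 0) := by
    intro q
    by_cases hgood : ∀ i, ¬ (uu (g i q) < ϑ ∨ 1 - ϑ ≤ uu (g i q))
    · have h0 : ∑ i, (if uu (g i q) < ϑ ∨ 1 - ϑ ≤ uu (g i q) then (1 : ℝ) else 0) = 0 :=
        Finset.sum_eq_zero fun i _ => if_neg (hgood i)
      rw [h0, add_zero]
      have hmain := hline (Real.exp w) Q s N T n
        (fun i => Real.exp (w + J i * θ + σ * uu (g i q))) D (fun i => ε / D i) hn1 hT1 hNnat hQ1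
        hQX hTτ ?_ ?_ hD hDQ hεD0 hεD1
      · have hsum : ∑ t ∈ Finset.range T, F (q + t • z) =
            (((Finset.range T).filter (fun t : ℕ => ∀ i,
          Int.fract ((Real.exp (w + J i * θ + σ * uu (g i q)) *
            Real.exp (σ * (L i : ℝ) * ((t : ℝ) / N)) - s) / D i) < ε / D i)).card : ℝ) := by
          rw [Finset.card_filter]
          push_cast
          refine Finset.sum_congr rfl fun t ht => ?_
          rw [Finset.mem_range] at ht
          have hyy : ∀ i, yy w θ s σ (J i) (uu (g i (q + t • z))) =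
              Real.exp (w + J i * θ + σ * uu (g i q)) *
                Real.exp (σ * (L i : ℝ) * ((t : ℝ) / N)) - s := by
            intro i
            have hgi := hgood i
            rw [not_or, not_lt, not_le] at hgi
            have htT : (t : ℝ) ≤ T := by exact_mod_cast ht.le
            have hbd : |(t : ℝ) * (L i : ℝ)| ≤ ϑ * N := by
              rw [abs_mul, Nat.abs_cast]
              calc (t : ℝ) * |(L i : ℝ)| ≤ (N * Real.exp (-(w / (8 * R)))) * M :=
                    mul_le_mul (htT.trans hTle) (hLM i) (abs_nonneg _) (by positivity)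
                _ = ϑ * N := by rw [hϑ]; ring
            rw [abs_le] at hbd
            have hval : uu (g i q) * N = ((g i q).val : ℝ) := by
              unfold uu
              field_simp
            have e1 : (0 : ℝ) ≤ ((g i q).val : ℝ) + (t : ℝ) * (L i : ℝ) := by
              have := mul_le_mul_of_nonneg_right hgi.1 hN0.le
              linarith [hbd.1]
            have e2 : ((g i q).val : ℝ) + (t : ℝ) * (L i : ℝ) < N := by
              have := mul_lt_mul_of_pos_right hgi.2 hN0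
              have h3 : (1 - ϑ) * N = N - ϑ * N := by ring
              linarith [hbd.2]
            rw [hg, em_uu (g i q) ((t : ℤ) * L i) (by exact_mod_cast e1) (by exact_mod_cast e2)]
            unfold yy
            rw [← Real.exp_add]
            congr 2
            push_cast
            ring
          simp only [hF, hyy]
          rw [Finset.prod_ite_zero]
          simp only [Finset.mem_univ, true_implies, Finset.prod_const_one]
        rw [hsum]
        exact hmain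
      · intro i
        apply Real.exp_le_exp.mpr
        have h1 : 0 ≤ (J i : ℝ) * θ := by positivity
        have h2 : 0 ≤ uu (g i q) := by unfold uu; positivity
        have h3 : 0 ≤ σ * uu (g i q) := by positivity
        linarith
      · intro i
        rw [← Real.exp_add]
        apply Real.exp_le_exp.mpr
        have h1 : (J i : ℝ) * θ ≤ K * θ := mul_le_mul_of_nonneg_right (by exact_mod_cast hJ i) hθ
        have h2 : 0 ≤ uu (g i q) := by unfold uu; positivity
        have h4 : uu (g i q) ≤ 1 := by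
          unfold uu
          rw [div_le_one hN0]
          exact_mod_cast (ZMod.val_lt (g i q)).le
        have h3 : σ * uu (g i q) ≤ 1 := by nlinarith
        linarith
    · push Not at hgood
      obtain ⟨i, hi⟩ := hgood
      have h1 : (1 : ℝ) ≤ ∑ i, (if uu (g i q) < ϑ ∨ 1 - ϑ ≤ uu (g i q) then (1 : ℝ) else 0) := by
        have h2 := Finset.single_le_sum
          (f := fun i => (if uu (g i q) < ϑ ∨ 1 - ϑ ≤ uu (g i q) then (1 : ℝ) else 0))
          (fun i _ => by split_ifs <;> norm_num) (Finset.mem_univ i)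
        simp only [if_pos hi] at h2
        exact h2
      have h3 : 0 ≤ (∑ t ∈ Finset.range T, F (q + t • z)) / T :=
        div_nonneg (Finset.sum_nonneg fun t _ => hF0 _) hTp.le
      have h4 : (∑ t ∈ Finset.range T, F (q + t • z)) / T ≤ 1 := by
        rw [div_le_one hTp]
        calc ∑ t ∈ Finset.range T, F (q + t • z) ≤ ∑ _t ∈ Finset.range T, (1 : ℝ) :=
              Finset.sum_le_sum fun t _ => hF1 _
          _ = T := by simp
      rw [abs_le]
      constructor <;> linarith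
  have hfinal : |av F - P| ≤ E + r * (2 * ϑ + 2 / N) := by
    have h1 : av F - P = av (fun q => (∑ t ∈ Finset.range T, F (q + t • z)) / T - P) := by
      rw [av_sub, hav, av_const]
    rw [h1]
    refine (abs_av_le _).trans ((av_mono hpt).trans ?_)
    rw [av_add, av_const, em_av_sum]
    have h2 : ∀ i ∈ (Finset.univ : Finset (Fin r)),
        av (fun q => (if uu (g i q) < ϑ ∨ 1 - ϑ ≤ uu (g i q) then (1 : ℝ) else 0)) ≤
          2 * ϑ + 2 / N := by
      intro i _
      rw [hunif i (fun x => if uu x < ϑ ∨ 1 - ϑ ≤ uu x then (1 : ℝ) else 0)]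
      exact em_bad ϑ hϑ0
    have h3 := Finset.sum_le_sum h2
    rw [Finset.sum_const, Finset.card_univ, Fintype.card_fin, nsmul_eq_mul] at h3
    linarith
  exact hfinal.trans hfin

theorem eq_main {k : ℕ} (hk : 2 ≤ k) : ∃ c₀ : ℝ, 0 < c₀ ∧ ∀ (θ s σ ε : ℝ) (K : ℕ), 0 ≤ θ → 0 < σ →
    σ ≤ 1 → 0 < ε → ε ≤ 1 → ∃ w₀ : ℝ, ∀ w ≥ w₀, ∀ (N : ℕ) [Fact N.Prime], Real.exp (2 * w) ≤ N →
    ∀ J : Fin k → ℕ, (∀ i, J i ≤ K) → ∀ S : Finset (Fin k × (Fin k → Bool)),
      (∀ p ∈ S, p.2 p.1 = false) → ∀ D : Fin k × (Fin k → Bool) → ℕ, (∀ p, 1 ≤ D p) →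
      (∀ p, (D p : ℝ) ≤ Real.exp (c₀ * w)) →
      |av (fun q : (Fin k → ZMod N) × (Fin k → ZMod N) => ∏ p ∈ S,
          (if Int.fract (yy w θ s σ (J p.1) (uu (psi p.1 (mix q.1 q.2 p.2))) / D p) < ε / D p
            then (1 : ℝ) else 0)) - ∏ p ∈ S, ε / (D p : ℝ)| ≤ Real.exp (-(c₀ * w)) := by
  classical
  set R : ℕ := Fintype.card (Fin k × (Fin k → Bool)) with hR
  have hRpos : 1 ≤ R := by
    have : 0 < R := by
      rw [hR, Fintype.card_pos_iff]
      exact ⟨(⟨0, by omega⟩, fun _ => false)⟩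
    omega
  have hR0 : (0 : ℝ) < R := by exact_mod_cast hRpos
  refine ⟨1 / (32 * (R : ℝ) ^ 2), by positivity, ?_⟩
  intro θ s σ ε K hθ hσ hσ1 hε hε1
  have hc : ∀ w : ℝ, 1 / (32 * (R : ℝ) ^ 2) * w = w / (32 * (R : ℝ) ^ 2) := fun w => by ring
  simp only [hc]
  obtain ⟨v0, v1, hv0, hvinj⟩ := dir hk
  have key : ∀ S : Finset (Fin k × (Fin k → Bool)), ∃ w₀ : ℝ, 0 ≤ w₀ ∧ ∀ w ≥ w₀, ∀ (N : ℕ)
      [Fact N.Prime], Real.exp (2 * w) ≤ N → ∀ J : Fin k → ℕ, (∀ i, J i ≤ K) →
      (∀ p ∈ S, p.2 p.1 = false) → ∀ D : Fin k × (Fin k → Bool) → ℕ, (∀ p, 1 ≤ D p) →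
      (∀ p, (D p : ℝ) ≤ Real.exp (w / (32 * (R : ℝ) ^ 2))) →
      |av (fun q : (Fin k → ZMod N) × (Fin k → ZMod N) => ∏ p ∈ S,
          (if Int.fract (yy w θ s σ (J p.1) (uu (psi p.1 (mix q.1 q.2 p.2))) / D p) < ε / D p
            then (1 : ℝ) else 0)) - ∏ p ∈ S, ε / (D p : ℝ)| ≤
        Real.exp (-(w / (32 * (R : ℝ) ^ 2))) := by
    intro S
    by_cases hS : S = ∅
    · refine ⟨0, le_rfl, ?_⟩
      intro w hw N _ hN J hJ _ D hD hDQ
      have hN0 : NeZero N := ⟨(Fact.out : N.Prime).ne_zero⟩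
      rw [hS]
      simp only [Finset.prod_empty]
      rw [av_const, sub_self, abs_zero]
      exact (Real.exp_pos _).le
    by_cases hSf : ∀ p ∈ S, p.2 p.1 = false
    · have hcard : 1 ≤ S.card := Finset.card_pos.mpr (Finset.nonempty_iff_ne_empty.mpr hS)
      have hcardR : S.card ≤ R := Finset.card_le_univ S
      set e : S ≃ Fin S.card := S.equivFin with he
      obtain ⟨w₀, hw₀, hcore⟩ := em_core R S.card hcard hcardR
        (fun i => psiZ (e.symm i).1.1 (mix v0 v1 (e.symm i).1.2))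
        (fun i => hv0 _ (hSf _ (e.symm i).2))
        (fun i j hij => e.symm.injective (Subtype.ext
          (hvinj _ _ (hSf _ (e.symm i).2) (hSf _ (e.symm j).2) hij)))
        θ s σ ε K hθ hσ hσ1 hε hε1
      refine ⟨max w₀ k, le_max_of_le_left hw₀, ?_⟩
      intro w hw N _ hN J hJ _ D hD hDQ
      have hN0 : NeZero N := ⟨(Fact.out : N.Prime).ne_zero⟩
      have hwk : (k : ℝ) ≤ w := (le_max_right _ _).trans hw
      have hkN : k ≤ N := by
        have h1 : (k : ℝ) ≤ N := by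
          have h2 := Real.add_one_le_exp (2 * w)
          have h3 : (0 : ℝ) ≤ k := Nat.cast_nonneg k
          linarith
        exact_mod_cast h1
      have hmain := hcore w ((le_max_left _ _).trans hw) N hN
        ((Fin k → ZMod N) × (Fin k → ZMod N))
        (fun i q => psi (e.symm i).1.1 (mix q.1 q.2 (e.symm i).1.2))
        ((fun l => (v0 l : ZMod N)), (fun l => (v1 l : ZMod N))) ?_
        (fun i f => psi_unif hk hkN _ _ f)
        (fun i => J (e.symm i).1.1) (fun i => hJ _) (fun i => D (e.symm i).1) (fun i => hD _)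
        (fun i => hDQ _)
      · have hprod : ∀ f : Fin k × (Fin k → Bool) → ℝ, ∏ p ∈ S, f p = ∏ i, f (e.symm i).1 := by
          intro f
          rw [← Finset.prod_coe_sort S f]
          exact (Equiv.prod_comp e.symm (fun p : S => f p.1)).symm
        simp only [hprod]
        exact hmain
      · intro i q t
        have h1 : q + t • (((fun l => (v0 l : ZMod N)), (fun l => (v1 l : ZMod N))) :
            (Fin k → ZMod N) × (Fin k → ZMod N)) =
            (q.1 + (fun l => (t : ZMod N) * (v0 l : ZMod N)),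
              q.2 + (fun l => (t : ZMod N) * (v1 l : ZMod N))) := by
          ext l <;> simp
        simp only [h1]
        rw [psi_add]
        congr 1
        have h2 : mix (fun l => (t : ZMod N) * (v0 l : ZMod N)) (fun l => (t : ZMod N) * (v1 l : ZMod N))
            (e.symm i).1.2 = fun l => (((fun l => (t : ℤ) * mix v0 v1 (e.symm i).1.2 l) l : ℤ) : ZMod N) := by
          funext l
          unfold mix
          by_cases hl : (e.symm i).1.2 l = true
          · simp [hl]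
          · simp [hl]
        rw [h2, psi_cast]
        congr 1
        unfold psiZ
        rw [Finset.mul_sum]
        refine Finset.sum_congr rfl fun l _ => ?_
        ring
    · refine ⟨0, le_rfl, ?_⟩
      intro w hw N _ hN J hJ hcontra
      exact absurd hcontra hSf
  choose W hW0 hW using key
  refine ⟨∑ S, W S, ?_⟩
  intro w hw N _ hN J hJ S hS D hD hDQ
  refine hW S w (le_trans ?_ hw) N hN J hJ hS D hD hDQ
  exact Finset.single_le_sum (f := fun S => W S) (fun S _ => hW0 S) (Finset.mem_univ S)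

/-- the case of one function (mean over `ZMod N`) -/
theorem eq_single : ∃ c₀ : ℝ, 0 < c₀ ∧ ∀ (θ s σ ε : ℝ) (K : ℕ), 0 ≤ θ → 0 < σ →
    σ ≤ 1 → 0 < ε → ε ≤ 1 → ∃ w₀ : ℝ, ∀ w ≥ w₀, ∀ (N : ℕ) [Fact N.Prime], Real.exp (2 * w) ≤ N →
    ∀ j ≤ K, ∀ D : ℕ, 1 ≤ D → (D : ℝ) ≤ Real.exp (c₀ * w) →
      |av (fun x : ZMod N => (if Int.fract (yy w θ s σ j (uu x) / D) < ε / D
            then (1 : ℝ) else 0)) - ε / (D : ℝ)| ≤ Real.exp (-(c₀ * w)) := by
  refine ⟨1 / (32 * ((1 : ℕ) : ℝ) ^ 2), by positivity, ?_⟩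
  intro θ s σ ε K hθ hσ hσ1 hε hε1
  have hc : ∀ w : ℝ, 1 / (32 * ((1 : ℕ) : ℝ) ^ 2) * w = w / (32 * ((1 : ℕ) : ℝ) ^ 2) := fun w => by
    ring
  simp only [hc]
  obtain ⟨w₀, _, hcore⟩ := em_core 1 1 le_rfl le_rfl (fun _ => 1) (fun _ => one_ne_zero)
    (fun i j _ => Subsingleton.elim i j) θ s σ ε K hθ hσ hσ1 hε hε1
  refine ⟨w₀, ?_⟩
  intro w hw N _ hN j hj D hD hDQ
  have hN0 : NeZero N := ⟨(Fact.out : N.Prime).ne_zero⟩
  have hmain := hcore w hw N hN (ZMod N) (fun _ q => q) 1 (fun i q t => by simp)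
    (fun i f => rfl) (fun _ => j) (fun _ => hj) (fun _ => D) (fun _ => hD) (fun _ => hDQ)
  simp only [Fin.prod_univ_one] at hmain
  exact hmain

end GPR
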