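import Pool.Agent.GPR.VdcInt

/-!
# GPR/ExpInt: oscillatory integrals of exponential polynomials

`vand`: the matrix `(lam_i^n)_{1 ≤ n ≤ r, i < r}` is invertible (`∏ lam_i` times a Vandermonde
determinant), so `a = M⁻¹ b`, `b_n = ∑ a_i lam_i^n`, and `max |a_i| ≤ C max |b_n|`.  (Or: compactness.)

`exp_int`: `Φ t = ∑ a_i exp(lam_i t)`, `Φ^(n) t = ∑ a_i lam_i^n exp(lam_i t)`.  Let `Λ = max |a_i| ≥ Lam`.  By
`vand` there is `1 ≤ n ≤ r` with `|Φ^(n) 0| ≥ c Λ`.  With `m = max(1, |lam_i|)`, for `0 ≤ t ≤ τ₀ ≤ 1`: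
`|Φ^(n) t - Φ^(n) 0| ≤ t * r Λ m^(r+1) e^m ≤ c Λ/2` if `τ₀` is small.  So `|Φ^(n)| ≥ cΛ/2` on `[0, τ]`:
for `n ≥ 2` `vdc_n` gives `C_n (cΛ/2)^(-1/n) ≤ C' Λ^(-1/r) ≤ C' Lam^(-1/r)` as `Λ ≥ Lam ≥ 1`; for `n = 1` `vdc_one` with
`B = r Λ m^2 e^m` gives `(2/(cΛ)) (1 + 2 r m^2 e^m / c) ≤ C' Lam^(-1/r)`.
-/

namespace GPR

open MeasureTheory

theorem vand {r : ℕ} (hr : 1 ≤ r) (lam : Fin r → ℝ) (hinj : Function.Injective lam)
    (h0 : ∀ i, lam i ≠ 0) : ∃ c : ℝ, 0 < c ∧ ∀ a : Fin r → ℝ, ∃ n : ℕ, 1 ≤ n ∧ n ≤ r ∧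
      ∀ i, c * |a i| ≤ |∑ i, a i * lam i ^ n| := by
  classical
  have : Nonempty (Fin r) := ⟨⟨0, hr⟩⟩
  have hdet : (Matrix.vandermonde lam).det ≠ 0 := Matrix.det_vandermonde_ne_zero_iff.mpr hinj
  have hunit : IsUnit (Matrix.vandermonde lam).det := isUnit_iff_ne_zero.mpr hdet
  set K : ℝ := 1 + ∑ j, ∑ n, |(Matrix.vandermonde lam)⁻¹ n j| / |lam j| with hKdef
  have hK : 0 < K := by
    have : 0 ≤ ∑ j, ∑ n, |(Matrix.vandermonde lam)⁻¹ n j| / |lam j| := by positivity
    linarith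
  refine ⟨1 / K, by positivity, fun a => ?_⟩
  set b : Fin r → ℝ := fun n => ∑ i, a i * lam i ^ ((n : ℕ) + 1) with hb
  obtain ⟨n0, hn0⟩ := Finite.exists_max (fun n => |b n|)
  refine ⟨n0 + 1, by omega, by have := n0.2; omega, fun i => ?_⟩
  have hvec : Matrix.vecMul (fun i => a i * lam i) (Matrix.vandermonde lam) = b := by
    funext n
    simp only [Matrix.vecMul, dotProduct, Matrix.vandermonde_apply, hb]
    refine Finset.sum_congr rfl fun k _ => ?_
    ring
  have key : ∀ j, a j * lam j = ∑ n, b n * (Matrix.vandermonde lam)⁻¹ n j := by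
    intro j
    have h1 : Matrix.vecMul b (Matrix.vandermonde lam)⁻¹ = fun i => a i * lam i := by
      rw [← hvec, Matrix.vecMul_vecMul, Matrix.mul_nonsing_inv _ hunit, Matrix.vecMul_one]
    have h2 := congrFun h1 j
    simp only [Matrix.vecMul, dotProduct] at h2
    exact h2.symm
  have hl : 0 < |lam i| := abs_pos.mpr (h0 i)
  have hb0 : (∑ i, a i * lam i ^ ((n0 : ℕ) + 1)) = b n0 := rfl
  rw [hb0]
  have h3 : |a i| * |lam i| ≤ ∑ n, |b n0| * |(Matrix.vandermonde lam)⁻¹ n i| := by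
    rw [← abs_mul, key i]
    refine (Finset.abs_sum_le_sum_abs _ _).trans (Finset.sum_le_sum fun n _ => ?_)
    rw [abs_mul]
    exact mul_le_mul_of_nonneg_right (hn0 n) (abs_nonneg _)
  have h4 : |a i| ≤ |b n0| * K := by
    have h5 : |a i| ≤ |b n0| * ∑ n, |(Matrix.vandermonde lam)⁻¹ n i| / |lam i| := by
      rw [← Finset.mul_sum] at h3
      rw [← Finset.sum_div, ← mul_div_assoc, le_div_iff₀ hl]
      exact h3
    have h6 : ∑ n, |(Matrix.vandermonde lam)⁻¹ n i| / |lam i| ≤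
        ∑ j, ∑ n, |(Matrix.vandermonde lam)⁻¹ n j| / |lam j| :=
      Finset.single_le_sum (f := fun j => ∑ n, |(Matrix.vandermonde lam)⁻¹ n j| / |lam j|)
        (fun j _ => by positivity) (Finset.mem_univ i)
    refine h5.trans (mul_le_mul_of_nonneg_left ?_ (abs_nonneg _))
    rw [hKdef]
    linarith
  rw [one_div, inv_mul_le_iff₀ hK]
  linarith [mul_comm K |b n0|]

private theorem hasDerivAt_es {r : ℕ} (lam a : Fin r → ℝ) (n : ℕ) (t : ℝ) :
    HasDerivAt (fun t : ℝ => ∑ i, a i * lam i ^ n * Real.exp (lam i * t))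
      (∑ i, a i * lam i ^ (n + 1) * Real.exp (lam i * t)) t := by
  have h : ∀ i ∈ (Finset.univ : Finset (Fin r)),
      HasDerivAt (fun t : ℝ => a i * lam i ^ n * Real.exp (lam i * t))
      (a i * lam i ^ (n + 1) * Real.exp (lam i * t)) t := by
    intro i _
    have h1 : HasDerivAt (fun t : ℝ => lam i * t) (lam i) t := by
      simpa using (hasDerivAt_id t).const_mul (lam i)
    have h2 := (h1.exp).const_mul (a i * lam i ^ n)
    have e : a i * lam i ^ (n + 1) * Real.exp (lam i * t) =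
        a i * lam i ^ n * (Real.exp (lam i * t) * lam i) := by ring
    rw [e]
    exact h2
  exact HasDerivAt.fun_sum h

private theorem iteratedDeriv_es {r : ℕ} (lam a : Fin r → ℝ) (n : ℕ) :
    iteratedDeriv n (fun t : ℝ => ∑ i, a i * Real.exp (lam i * t)) =
      fun t : ℝ => ∑ i, a i * lam i ^ n * Real.exp (lam i * t) := by
  induction n with
  | zero => simp
  | succ n ih =>
    rw [iteratedDeriv_succ, ih]
    funext t
    exact (hasDerivAt_es lam a n t).deriv

private theorem contDiff_es {r : ℕ} (lam a : Fin r → ℝ) (n : ℕ) :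
    ContDiff ℝ n (fun t : ℝ => ∑ i, a i * Real.exp (lam i * t)) := by
  refine ContDiff.sum fun i _ => ?_
  exact contDiff_const.mul (Real.contDiff_exp.comp (contDiff_const.mul contDiff_id))

theorem exp_int {r : ℕ} (hr : 1 ≤ r) (lam : Fin r → ℝ) (hinj : Function.Injective lam)
    (h0 : ∀ i, lam i ≠ 0) : ∃ C τ₀ : ℝ, 0 < C ∧ 0 < τ₀ ∧ ∀ (a : Fin r → ℝ) (Lam τ : ℝ), 1 ≤ Lam →
      (∃ i, Lam ≤ |a i|) → 0 ≤ τ → τ ≤ τ₀ →
      ‖∫ t in (0 : ℝ)..τ, Complex.exp (2 * Real.pi * Complex.I *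
        ((∑ i, a i * Real.exp (lam i * t) : ℝ) : ℂ))‖ ≤ C * Lam ^ (-(1 / (r : ℝ))) := by
  classical
  have : Nonempty (Fin r) := ⟨⟨0, hr⟩⟩
  obtain ⟨c, hc, hvand⟩ := vand hr lam hinj h0
  choose Cn hCn0 hCn using vdc_n
  set m : ℝ := 1 + ∑ i, |lam i| with hm
  have hsum0 : 0 ≤ ∑ i, |lam i| := Finset.sum_nonneg fun i _ => abs_nonneg _
  have hm1 : 1 ≤ m := by rw [hm]; linarith
  have hm0 : 0 < m := by linarith
  have hlm : ∀ i, |lam i| ≤ m := by
    intro i
    have := Finset.single_le_sum (f := fun i => |lam i|) (fun j _ => abs_nonneg _)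
      (Finset.mem_univ i)
    rw [hm]; linarith
  have hr0 : (0 : ℝ) < r := by exact_mod_cast hr
  have hr1 : (1 : ℝ) ≤ r := by exact_mod_cast hr
  set D : ℕ → ℝ := fun n => if h : 2 ≤ n then Cn n h * (c / 2) ^ (-(1 / (n : ℝ))) else 0 with hD
  have hD0 : ∀ n, 0 ≤ D n := by
    intro n
    simp only [hD]
    split_ifs with h
    · have := hCn0 n h
      positivity
    · exact le_rfl
  set C1 : ℝ := 2 / c * (1 + 6 * r * m ^ 2 / c) with hC1
  have hC1pos : 0 < C1 := by rw [hC1]; positivity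
  set τ₀ : ℝ := min (1 / m) (c / (4 * r * m ^ (r + 1))) with hτ₀
  have hτ₀pos : 0 < τ₀ := by rw [hτ₀]; exact lt_min (by positivity) (by positivity)
  refine ⟨C1 + ∑ n ∈ Finset.range (r + 1), D n, τ₀, ?_, hτ₀pos, ?_⟩
  · have : 0 ≤ ∑ n ∈ Finset.range (r + 1), D n := Finset.sum_nonneg fun n _ => hD0 n
    linarith
  intro a Lam τ hLam hexi hτ hττ₀
  obtain ⟨i1, hi1⟩ := hexi
  obtain ⟨i0, hi0⟩ := Finite.exists_max (fun i => |a i|)
  set L : ℝ := |a i0| with hL
  have hLL : Lam ≤ L := hi1.trans (hi0 i1)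
  have hL1 : 1 ≤ L := hLam.trans hLL
  have hL0 : 0 < L := by linarith
  have hLam0 : 0 < Lam := by linarith
  obtain ⟨n, hn1, hnr, hn⟩ := hvand a
  have hn0 := hn i0
  -- bounds for the exponentials
  have hτm : τ ≤ 1 / m := hττ₀.trans (min_le_left _ _)
  have hτc : τ ≤ c / (4 * r * m ^ (r + 1)) := hττ₀.trans (min_le_right _ _)
  have hτ1 : τ ≤ 1 := hτm.trans (by rw [div_le_one hm0]; exact hm1)
  have hx : ∀ t ∈ Set.Icc (0 : ℝ) τ, ∀ i, |lam i * t| ≤ 1 := by
    intro t ht i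
    rw [abs_mul, abs_of_nonneg ht.1]
    calc |lam i| * t ≤ m * (1 / m) :=
          mul_le_mul (hlm i) (ht.2.trans hτm) ht.1 hm0.le
      _ = 1 := by field_simp
  have hlower : ∀ t ∈ Set.Icc (0 : ℝ) τ, c * L / 2 ≤
      |∑ i, a i * lam i ^ n * Real.exp (lam i * t)| := by
    intro t ht
    have h1 : |(∑ i, a i * lam i ^ n * Real.exp (lam i * t)) - ∑ i, a i * lam i ^ n| ≤ c * L / 2 := by
      rw [← Finset.sum_sub_distrib]
      have h2 : ∀ i ∈ (Finset.univ : Finset (Fin r)),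
          |a i * lam i ^ n * Real.exp (lam i * t) - a i * lam i ^ n| ≤ L * m ^ r * (2 * (m * τ)) := by
        intro i _
        have e1 : a i * lam i ^ n * Real.exp (lam i * t) - a i * lam i ^ n =
            a i * lam i ^ n * (Real.exp (lam i * t) - 1) := by ring
        rw [e1, abs_mul, abs_mul, abs_pow]
        have e2 : |lam i| ^ n ≤ m ^ r :=
          (pow_le_pow_left₀ (abs_nonneg _) (hlm i) n).trans (pow_le_pow_right₀ hm1 hnr)
        have e3 : |Real.exp (lam i * t) - 1| ≤ 2 * (m * τ) := by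
          refine (Real.abs_exp_sub_one_le (hx t ht i)).trans ?_
          have : |lam i * t| ≤ m * τ := by
            rw [abs_mul, abs_of_nonneg ht.1]
            exact mul_le_mul (hlm i) ht.2 ht.1 hm0.le
          linarith
        have e4 : |a i| * |lam i| ^ n ≤ L * m ^ r :=
          mul_le_mul (hi0 i) e2 (by positivity) hL0.le
        exact mul_le_mul e4 e3 (abs_nonneg _) (by positivity)
      refine (Finset.abs_sum_le_sum_abs _ _).trans ((Finset.sum_le_sum h2).trans ?_)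
      rw [Finset.sum_const, Finset.card_univ, Fintype.card_fin, nsmul_eq_mul]
      have h3 : (4 * r * m ^ (r + 1)) * τ ≤ c := by
        rw [le_div_iff₀ (by positivity)] at hτc
        linarith
      have h4 : (r : ℝ) * (L * m ^ r * (2 * (m * τ))) = L / 2 * ((4 * r * m ^ (r + 1)) * τ) := by
        rw [pow_succ]; ring
      rw [h4]
      calc L / 2 * ((4 * r * m ^ (r + 1)) * τ) ≤ L / 2 * c :=
            mul_le_mul_of_nonneg_left h3 (by positivity)
        _ = c * L / 2 := by ring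
    have h5 : |∑ i, a i * lam i ^ n| ≤
        |∑ i, a i * lam i ^ n * Real.exp (lam i * t)| +
        |(∑ i, a i * lam i ^ n * Real.exp (lam i * t)) - ∑ i, a i * lam i ^ n| := by
      have := abs_sub (∑ i, a i * lam i ^ n * Real.exp (lam i * t))
        ((∑ i, a i * lam i ^ n * Real.exp (lam i * t)) - ∑ i, a i * lam i ^ n)
      simpa using this
    linarith
  have hpow : Lam ^ (-(1 : ℝ)) ≤ Lam ^ (-(1 / (r : ℝ))) := by
    refine Real.rpow_le_rpow_of_exponent_le hLam ?_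
    have : 1 / (r : ℝ) ≤ 1 := by rw [div_le_one hr0]; exact hr1
    linarith
  have hΦ : (fun t : ℝ => Complex.exp (2 * Real.pi * Complex.I *
      ((∑ i, a i * Real.exp (lam i * t) : ℝ) : ℂ))) = fun t : ℝ =>
      Complex.exp (2 * Real.pi * Complex.I *
        (((fun t : ℝ => ∑ i, a i * Real.exp (lam i * t)) t : ℝ) : ℂ)) := rfl
  have hcL : 0 < c * L / 2 := by positivity
  rcases Nat.lt_or_ge n 2 with hn2 | hn2
  · -- n = 1
    have hn' : n = 1 := by omega
    subst hn'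
    have hB : ∀ t ∈ Set.Icc (0 : ℝ) τ,
        |iteratedDeriv 2 (fun t : ℝ => ∑ i, a i * Real.exp (lam i * t)) t| ≤ r * (L * m ^ 2 * 3) := by
      intro t ht
      rw [iteratedDeriv_es]
      refine (Finset.abs_sum_le_sum_abs _ _).trans ?_
      have h2 : ∀ i ∈ (Finset.univ : Finset (Fin r)),
          |a i * lam i ^ 2 * Real.exp (lam i * t)| ≤ L * m ^ 2 * 3 := by
        intro i _
        rw [abs_mul, abs_mul, abs_pow, abs_of_pos (Real.exp_pos _)]
        have e2 : |lam i| ^ 2 ≤ m ^ 2 := pow_le_pow_left₀ (abs_nonneg _) (hlm i) 2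
        have e3 : Real.exp (lam i * t) ≤ 3 := by
          have h7 : lam i * t ≤ 1 := (le_abs_self _).trans (hx t ht i)
          have h8 := Real.exp_le_exp.mpr h7
          have h9 := Real.exp_one_lt_d9
          linarith
        exact mul_le_mul (mul_le_mul (hi0 i) e2 (by positivity) hL0.le) e3
          (Real.exp_pos _).le (by positivity)
      refine (Finset.sum_le_sum h2).trans ?_
      rw [Finset.sum_const, Finset.card_univ, Fintype.card_fin, nsmul_eq_mul]
    have hd : ∀ t ∈ Set.Icc (0 : ℝ) τ,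
        c * L / 2 ≤ |deriv (fun t : ℝ => ∑ i, a i * Real.exp (lam i * t)) t| := by
      intro t ht
      rw [← iteratedDeriv_one, iteratedDeriv_es]
      exact hlower t ht
    have hv := vdc_one (fun t : ℝ => ∑ i, a i * Real.exp (lam i * t)) 0 τ (c * L / 2)
      (r * (L * m ^ 2 * 3)) hτ hcL (by exact_mod_cast contDiff_es lam a 2) hd hB
    rw [hΦ]
    refine hv.trans ?_
    have h10 : 1 / (c * L / 2) * (1 + r * (L * m ^ 2 * 3) * (τ - 0) / (c * L / 2)) ≤ C1 * (1 / L) := by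
      have h11 : r * (L * m ^ 2 * 3) * (τ - 0) / (c * L / 2) = 6 * r * m ^ 2 / c * τ := by
        field_simp
        ring
      rw [h11]
      have h12 : 1 / (c * L / 2) = 2 / c * (1 / L) := by field_simp
      rw [h12, hC1]
      have h13 : 6 * r * m ^ 2 / c * τ ≤ 6 * r * m ^ 2 / c * 1 :=
        mul_le_mul_of_nonneg_left hτ1 (by positivity)
      calc 2 / c * (1 / L) * (1 + 6 * r * m ^ 2 / c * τ)
          ≤ 2 / c * (1 / L) * (1 + 6 * r * m ^ 2 / c * 1) :=
            mul_le_mul_of_nonneg_left (by linarith) (by positivity)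
        _ = 2 / c * (1 + 6 * r * m ^ 2 / c) * (1 / L) := by ring
    refine h10.trans ?_
    have h14 : 1 / L ≤ Lam ^ (-(1 / (r : ℝ))) := by
      have : 1 / L ≤ 1 / Lam := one_div_le_one_div_of_le hLam0 hLL
      have h15 : 1 / Lam = Lam ^ (-(1 : ℝ)) := by rw [Real.rpow_neg_one, one_div]
      rw [h15] at this
      exact this.trans hpow
    have h16 : 0 ≤ ∑ n ∈ Finset.range (r + 1), D n := Finset.sum_nonneg fun n _ => hD0 n
    calc C1 * (1 / L) ≤ C1 * Lam ^ (-(1 / (r : ℝ))) :=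
          mul_le_mul_of_nonneg_left h14 hC1pos.le
      _ ≤ (C1 + ∑ n ∈ Finset.range (r + 1), D n) * Lam ^ (-(1 / (r : ℝ))) :=
          mul_le_mul_of_nonneg_right (by linarith) (by positivity)
  · -- n ≥ 2
    have hv := hCn n hn2 (fun t : ℝ => ∑ i, a i * Real.exp (lam i * t)) 0 τ (c * L / 2) hτ hcL
      (contDiff_es lam a n) (by
        intro t ht
        rw [iteratedDeriv_es]
        exact hlower t ht)
    rw [hΦ]
    refine hv.trans ?_
    have hn0' : (0 : ℝ) < n := by exact_mod_cast (by omega : 0 < n)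
    have h1 : (c * L / 2) ^ (-(1 / (n : ℝ))) ≤ (c / 2) ^ (-(1 / (n : ℝ))) * Lam ^ (-(1 / (r : ℝ))) := by
      have e1 : c * L / 2 = c / 2 * L := by ring
      rw [e1, Real.mul_rpow (by positivity) hL0.le]
      refine mul_le_mul_of_nonneg_left ?_ (by positivity)
      have e2 : L ^ (-(1 / (n : ℝ))) ≤ Lam ^ (-(1 / (n : ℝ))) :=
        Real.rpow_le_rpow_of_nonpos hLam0 hLL (by
          have : 0 ≤ 1 / (n : ℝ) := by positivity
          linarith)
      refine e2.trans (Real.rpow_le_rpow_of_exponent_le hLam ?_)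
      have e3 : 1 / (r : ℝ) ≤ 1 / (n : ℝ) :=
        one_div_le_one_div_of_le hn0' (by exact_mod_cast hnr)
      linarith
    have h2 : D n = Cn n hn2 * (c / 2) ^ (-(1 / (n : ℝ))) := by
      simp only [hD]
      rw [dif_pos hn2]
    have h3 : D n ≤ C1 + ∑ n ∈ Finset.range (r + 1), D n := by
      have := Finset.single_le_sum (f := D) (fun k _ => hD0 k)
        (Finset.mem_range.mpr (by omega : n < r + 1))
      linarith
    calc Cn n hn2 * (c * L / 2) ^ (-(1 / (n : ℝ)))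
        ≤ Cn n hn2 * ((c / 2) ^ (-(1 / (n : ℝ))) * Lam ^ (-(1 / (r : ℝ)))) :=
          mul_le_mul_of_nonneg_left h1 (hCn0 n hn2).le
      _ = D n * Lam ^ (-(1 / (r : ℝ))) := by rw [h2]; ring
      _ ≤ (C1 + ∑ n ∈ Finset.range (r + 1), D n) * Lam ^ (-(1 / (r : ℝ))) :=
          mul_le_mul_of_nonneg_right h3 (by positivity)

end GPR
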