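import Pool.Agent.GPR.Defs

/-!
# GPR: definitions for the relative Szemeredi part (Conlon, Fox, Zhao)
-/

namespace GPR

/-- `F` does not depend on the coordinate `i` -/
def Ind1 {ι X : Type*} (i : ι) (F : (ι → X) → ℝ) : Prop :=
  ∀ x y : ι → X, (∀ l, l ≠ i → x l = y l) → F x = F y

/-- the point with coordinates of `x1` where `ω` is true, of `x0` elsewhere -/
def mix {ι X : Type*} (x0 x1 : ι → X) (ω : ι → Bool) : ι → X :=
  fun l => if ω l = true then x1 l else x0 l

/-- the `ω` which are false outside `A` -/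
def Om {ι : Type*} [Fintype ι] [DecidableEq ι] (A : Finset ι) : Finset (ι → Bool) :=
  Finset.univ.filter (fun ω => ∀ l, l ∉ A → ω l = false)

/-- linear forms condition with error `η`, for the functions `ν i` (`ν i` does not depend on the
coordinate `i`) on `X^k` -/
def LFC (k : ℕ) {X : Type*} [Fintype X] (ν : Fin k → (Fin k → X) → ℝ) (η : ℝ) : Prop :=
  ∀ S : Finset (Fin k × (Fin k → Bool)), (∀ p ∈ S, p.2 p.1 = false) →
    |av (fun q : (Fin k → X) × (Fin k → X) => ∏ p ∈ S, ν p.1 (mix q.1 q.2 p.2)) - 1| ≤ η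

/-- cut norm at most `ε`, for a function `F` which does not depend on the coordinate `i` -/
def CutH {k : ℕ} {X : Type*} [Fintype X] (i : Fin k) (F : (Fin k → X) → ℝ) (ε : ℝ) : Prop :=
  ∀ U : Fin k → (Fin k → X) → ℝ, (∀ l x, |U l x| ≤ 1) → (∀ l, Ind1 l (U l)) → (∀ l, Ind1 i (U l)) →
    |av (fun x => F x * ∏ l ∈ Finset.univ.erase i, U l x)| ≤ ε

/-- cut norm at most `ε` for a function on a finite abelian group (`r` variables) -/
def CutG (r : ℕ) {G : Type*} [Fintype G] [AddCommGroup G] (f : G → ℝ) (ε : ℝ) : Prop :=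
  ∀ U : Fin r → (Fin r → G) → ℝ, (∀ l x, |U l x| ≤ 1) → (∀ l, Ind1 l (U l)) →
    |av (fun x : Fin r → G => f (∑ l, x l) * ∏ l, U l x)| ≤ ε

/-- the majorants: `1` for the positions in `B`, `ν i` for the others -/
noncomputable def MB {k : ℕ} {X : Type*} (ν : Fin k → (Fin k → X) → ℝ) (B : Finset (Fin k))
    (i : Fin k) (x : Fin k → X) : ℝ := if i ∈ B then 1 else ν i x

/-- the linear forms of `k`-term progressions: `psi i x = ∑ l, (i - l) x_l` -/
def psi {k N : ℕ} (i : Fin k) (x : Fin k → ZMod N) : ZMod N :=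
  ∑ l : Fin k, (((i : ℕ) : ZMod N) - ((l : ℕ) : ZMod N)) * x l

end GPR
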