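import Pool.Agent.GPR.TilOne

/-!
# GPR/TilInt: intersections of insensitive sets, one for each letter, are tiled by subspaces

Proof.  Induction on `l ≤ k` for the intersections of `E r`, `r < l` (or on a finset of letters `r`):
for all `m`, `β > 0` there is `N` with: for `card ι ≥ N` the intersection is `Til m (k+1) β`.
`l = 0`: `E = univ`: it is tiled by the `m`-dimensional subspaces which vary a fixed set of `m`
coordinates, `card ι ≥ m` (average over the words on the other coordinates; `av (univ.indicator f)` is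
the average over these words `y` of `av (f ∘ V_y) ≤ 0`).
Step: let `E₁` be the intersection over `r < l`, `E₂ = E l`.  Let `m₁` be the number `N` of `til_one`
for `m`, `β/3` (wlog `β ≤ 1`), and let `N` be the number of the induction hypothesis for `m₁`, `β/3`.
Let `f`, `|f| ≤ 1`, with `av (f ∘ V) ≤ 0` for all `m`-dimensional `V` in `E₁ ∩ E₂`.  For an
`m₁`-dimensional `W` in `E₁`: the pull back `{w | W w ∈ E₂}` is insensitive for the letter `l`
(`lowW` of `W w` depends only on `lowW w`), and for an `m`-dimensional subspace `V` in it, `W ∘ V` is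
an `m`-dimensional subspace in `E₁ ∩ E₂`.  By `til_one` applied to the index type `Fin m₁`:
`av_w ((E₂.indicator f) (W w)) ≤ β/3`.  So `g = (E₂.indicator f - β/3) / (1 + β/3)` has `|g| ≤ 1` and
`av (g ∘ W) ≤ 0` for all `m₁`-dimensional `W` in `E₁`, so `av (E₁.indicator g) ≤ β/3`, and
`av ((E₁ ∩ E₂).indicator f) ≤ β/3 + (1 + β/3) β/3 ≤ β`.
-/

namespace GPR

open Combinatorics

section words

variable {κ ι S : Type*}

/-- exchange of the coordinates in the range of an injection -/
private noncomputable def tilSwp (e : κ → ι) (he : Function.Injective e) :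
    ((κ → S) × (ι → S)) ≃ ((κ → S) × (ι → S)) where
  toFun q := (fun j => q.2 (e j), Function.extend e q.1 q.2)
  invFun q := (fun j => q.2 (e j), Function.extend e q.1 q.2)
  left_inv := by
    rintro ⟨y, z⟩
    refine Prod.ext ?_ ?_
    · funext j
      exact he.extend_apply y z j
    · funext i
      show Function.extend e (fun j => z (e j)) (Function.extend e y z) i = z i
      by_cases h : ∃ j, e j = i
      · obtain ⟨j, rfl⟩ := h
        rw [he.extend_apply]
      · rw [Function.extend_apply' _ _ _ h, Function.extend_apply' _ _ _ h]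
  right_inv := by
    rintro ⟨y, z⟩
    refine Prod.ext ?_ ?_
    · funext j
      exact he.extend_apply y z j
    · funext i
      show Function.extend e (fun j => z (e j)) (Function.extend e y z) i = z i
      by_cases h : ∃ j, e j = i
      · obtain ⟨j, rfl⟩ := h
        rw [he.extend_apply]
      · rw [Function.extend_apply' _ _ _ h, Function.extend_apply' _ _ _ h]

/-- the average over all words is the average over the subspaces which vary a fixed set of coordinates -/
private theorem til_av [Fintype κ] [Fintype ι] [Fintype S] [DecidableEq κ] [DecidableEq ι] [Nonempty S]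
    (e : κ → ι) (he : Function.Injective e) (f : (ι → S) → ℝ) :
    av f = av (fun z : ι → S => av (fun y : κ → S => f (Function.extend e y z))) := by
  have h1 : av (fun q : (κ → S) × (ι → S) => f (Function.extend e q.1 q.2)) = av f := by
    have h2 := av_equiv (tilSwp (S := S) e he) (fun q : (κ → S) × (ι → S) => f q.2)
    have h3 : av (fun q : (κ → S) × (ι → S) => f q.2) = av f := by
      rw [av_prod]
      show av (fun _ : κ → S => av f) = av f
      exact av_const _
    rw [← h3, ← h2]
    rfl
  rw [← h1, av_prod']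

end words

/-- the set of all words is tiled -/
private theorem til_univ {m k : ℕ} {ι : Type} [Fintype ι] [DecidableEq ι] (hm : m ≤ Fintype.card ι) {β : ℝ}
    (hβ : 0 ≤ β) : Til m (k + 1) β (Set.univ : Set (ι → Fin (k + 1))) := by
  intro f _ hV
  have hemb : Nonempty (Fin m ↪ ι) := by
    refine Function.Embedding.nonempty_of_card_le ?_
    rw [Fintype.card_fin]
    exact hm
  obtain ⟨⟨e, he⟩⟩ := hemb
  rw [Set.indicator_univ, til_av e he f]
  refine (av_le (c := 0) fun z => ?_).trans hβ
  have h1 := hV ⟨Function.extend e Sum.inr (fun i => Sum.inl (z i)), fun j => ⟨e j, he.extend_apply _ _ _⟩⟩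
    (fun _ => Set.mem_univ _)
  refine le_trans (le_of_eq ?_) h1
  congr 1
  funext y
  congr 1
  funext i
  rw [Subspace.coe_apply]
  show _ = (Function.extend e Sum.inr (fun i => Sum.inl (z i)) i).elim id y
  by_cases hi : ∃ p, e p = i
  · obtain ⟨p, rfl⟩ := hi
    rw [he.extend_apply, he.extend_apply]
    rfl
  · rw [Function.extend_apply' _ _ _ hi, Function.extend_apply' _ _ _ hi]
    rfl

private theorem til_mono {m k : ℕ} {ι : Type} [Fintype ι] [DecidableEq ι] {β β' : ℝ} (h : β ≤ β')
    {E : Set (ι → Fin k)} (hE : Til m k β E) : Til m k β' E :=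
  fun f h1 h2 => (hE f h1 h2).trans h

/-- the composition of two subspaces -/
private def tilComp {m n k : ℕ} {ι : Type} (W : Subspace (Fin n) (Fin k) ι) (V : Subspace (Fin m) (Fin k) (Fin n)) :
    Subspace (Fin m) (Fin k) ι where
  idxFun i := (W.idxFun i).elim Sum.inl V.idxFun
  proper := by
    intro a
    obtain ⟨j, hj⟩ := V.proper a
    obtain ⟨i, hi⟩ := W.proper j
    refine ⟨i, ?_⟩
    rw [hi]
    exact hj

private theorem tilComp_apply {m n k : ℕ} {ι : Type} (W : Subspace (Fin n) (Fin k) ι)
    (V : Subspace (Fin m) (Fin k) (Fin n)) (x : Fin m → Fin k) : tilComp W V x = W (V x) := by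
  funext i
  rw [Subspace.coe_apply, Subspace.coe_apply]
  show ((W.idxFun i).elim Sum.inl V.idxFun).elim id x = _
  rcases W.idxFun i with a | j
  · rfl
  · show (V.idxFun j).elim id x = V x j
    rw [Subspace.coe_apply]

/-- the pull back of an insensitive set is insensitive -/
private theorem til_pull {n k : ℕ} {ι : Type} {r : Fin k} {E : Set (ι → Fin (k + 1))} (hE : Ins r E)
    (W : Subspace (Fin n) (Fin (k + 1)) ι) : Ins r {w | W w ∈ E} := by
  intro x y hxy hx
  refine hE _ _ ?_ hx
  funext i
  unfold lowW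
  rw [Subspace.coe_apply, Subspace.coe_apply]
  rcases W.idxFun i with a | j
  · rfl
  · exact congrFun hxy j

private theorem til_fin {k : ℕ} (hk : 1 ≤ k) (h : ∀ m, DHJ k m) (s : Finset (Fin k)) :
    ∀ (m : ℕ) (β : ℝ), 0 < β → ∃ N : ℕ, ∀ (ι : Type) [Fintype ι] [DecidableEq ι], N ≤ Fintype.card ι →
      ∀ (E : Fin k → Set (ι → Fin (k + 1))), (∀ r, Ins r (E r)) → Til m (k + 1) β (⋂ r ∈ s, E r) := by
  classical
  induction s using Finset.induction_on with
  | empty =>
    intro m β hβ
    refine ⟨m, ?_⟩
    intro ι _ _ hcard E _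
    have h1 : (⋂ r ∈ (∅ : Finset (Fin k)), E r) = Set.univ := by simp
    rw [h1]
    exact til_univ hcard hβ.le
  | insert l s _ ih =>
    intro m β hβ
    obtain ⟨γ, hγ⟩ : ∃ γ : ℝ, γ = min β 1 := ⟨_, rfl⟩
    have hγ0 : 0 < γ := by rw [hγ]; exact lt_min hβ one_pos
    have hγ1 : γ ≤ 1 := by rw [hγ]; exact min_le_right _ _
    have hγβ : γ ≤ β := by rw [hγ]; exact min_le_left _ _
    obtain ⟨m₁, hm₁⟩ := til_one hk (h m) (γ / 3) (by positivity)
    obtain ⟨N, hN⟩ := ih m₁ (γ / 3) (by positivity)
    refine ⟨N, ?_⟩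
    intro ι _ _ hcard E hE
    have hset : (⋂ r ∈ insert l s, E r) = E l ∩ ⋂ r ∈ s, E r := Finset.set_biInter_insert l s E
    rw [hset]
    refine til_mono hγβ ?_
    obtain ⟨E₁, hE₁⟩ : ∃ E₁ : Set (ι → Fin (k + 1)), E₁ = ⋂ r ∈ s, E r := ⟨_, rfl⟩
    have hT := hN ι hcard E hE
    rw [← hE₁] at hT ⊢
    intro f hf hV
    have hind : ∀ x, |(E l).indicator f x| ≤ 1 := by
      intro x
      by_cases hx : x ∈ E l
      · rw [Set.indicator_of_mem hx]
        exact hf x
      · rw [Set.indicator_of_notMem hx, abs_zero]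
        exact zero_le_one
    -- the average over a subspace in `E₁`
    have hW : ∀ W : Subspace (Fin m₁) (Fin (k + 1)) ι, (∀ x, W x ∈ E₁) →
        av (fun x => (E l).indicator f (W x)) ≤ γ / 3 := by
      intro W hW1
      have h1 := hm₁ (Fin m₁) (by rw [Fintype.card_fin]) l {w | W w ∈ E l} (til_pull (hE l) W)
        (fun w => f (W w)) (fun w => hf _) (fun V hV1 => by
          have h2 := hV (tilComp W V) (fun x => by
            rw [tilComp_apply]
            exact ⟨hV1 x, hW1 _⟩)
          refine le_trans (le_of_eq ?_) h2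
          congr 1
          funext x
          rw [tilComp_apply])
      refine le_trans (le_of_eq ?_) h1
      congr 1
    -- the auxiliary function
    have hg := hT (fun x => (1 + γ / 3)⁻¹ * ((E l).indicator f x - γ / 3)) (fun x => by
        have h1 := abs_le.1 (hind x)
        have h2 : 0 < 1 + γ / 3 := by positivity
        rw [abs_mul, abs_of_pos (inv_pos.2 h2), inv_mul_le_iff₀ h2, mul_one, abs_le]
        constructor
        · linarith [h1.1]
        · linarith [h1.2])
      (fun W hW1 => by
        have h2 : 0 < 1 + γ / 3 := by positivity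
        rw [av_mul_left, av_sub (fun x => (E l).indicator f (W x)) (fun _ => γ / 3), av_const]
        have h3 := hW W hW1
        exact mul_nonpos_of_nonneg_of_nonpos (inv_pos.2 h2).le (by linarith))
    have h2 : 0 < 1 + γ / 3 := by positivity
    have hpt : ∀ x, (E l ∩ E₁).indicator f x ≤
        (1 + γ / 3) * E₁.indicator (fun x => (1 + γ / 3)⁻¹ * ((E l).indicator f x - γ / 3)) x + γ / 3 := by
      intro x
      by_cases hx : x ∈ E₁
      · rw [Set.indicator_of_mem hx, ← mul_assoc, mul_inv_cancel₀ h2.ne', one_mul]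
        by_cases hx2 : x ∈ E l
        · rw [Set.indicator_of_mem (show x ∈ E l ∩ E₁ from ⟨hx2, hx⟩), Set.indicator_of_mem hx2]
          linarith
        · rw [Set.indicator_of_notMem (fun hc => hx2 hc.1), Set.indicator_of_notMem hx2]
          linarith
      · rw [Set.indicator_of_notMem hx, Set.indicator_of_notMem (fun hc => hx hc.2)]
        linarith
    refine (av_mono hpt).trans ?_
    rw [av_add (fun x => (1 + γ / 3) * E₁.indicator (fun x => (1 + γ / 3)⁻¹ * ((E l).indicator f x - γ / 3)) x)
      (fun _ => γ / 3), av_mul_left, av_const]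
    have h3 := mul_le_mul_of_nonneg_left hg h2.le
    nlinarith

theorem til_int {k : ℕ} (hk : 1 ≤ k) (h : ∀ m, DHJ k m) (m : ℕ) (β : ℝ) (hβ : 0 < β) :
    ∃ N : ℕ, ∀ (ι : Type) [Fintype ι] [DecidableEq ι], N ≤ Fintype.card ι →
      ∀ (E : Fin k → Set (ι → Fin (k + 1))), (∀ r, Ins r (E r)) →
        Til m (k + 1) β (⋂ r, E r) := by
  obtain ⟨N, hN⟩ := til_fin hk h Finset.univ m β hβ
  refine ⟨N, ?_⟩
  intro ι _ _ hcard E hE
  have h1 := hN ι hcard E hE
  have h2 : (⋂ r ∈ (Finset.univ : Finset (Fin k)), E r) = ⋂ r, E r := by simp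
  rwa [h2] at h1

end GPR
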