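import Pool.Agent.GPR.CorB
import Pool.Agent.GPR.TilInt

/-!
# GPR/Incr: density increment for line free sets

Proof.  Let `c` be the constant of `exists_V` for `δ₀ ≤ 1` (if `δ₀ > 1` there is nothing to prove, as
`dn A ≤ 1`).  Let `ε = c δ₀/8`, `γ₁ = c δ₀/8`, `γ = min (c ε/16) γ₁ = c ε / 16`, `β = c δ₀/(32 k)`.
Given `m`, let `m₂ ≥ m` be at least the number `N` of `til_int` for `m, β`, and such that
`(k/(k+1))^{m₂} ≤ c δ₀/8`.  Let `N₂, N'` be the numbers of `exists_V` for `m₂`, and take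
`N = card ((Fin m₂ × Fin N₂) × Fin N')`; transport along an equivalence of index types
(`Subspace.reindex`, `av_equiv`).  Let `A` be line free, `δ = dn A ≥ δ₀`, and suppose that no
`m`-dimensional subspace has density of `A` at least `δ + γ`.
1. No `m₂`-dimensional subspace `V` has `dn {w | V w ∈ A} ≥ δ + γ` (partition `[k+1]^{m₂}` into the
   `m`-dimensional subspaces varying the first `m` coordinates, average; compose with `V`).
   So `exists_V` applies: `V, D`.
2. In `[k+1]^{m₂}` let `B = {w | V w ∈ A}`, `D = ⋂ D i`.  `dn B ≥ δ - ε`, `dn D ≥ c/2`, and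
   `B ∩ D` is contained in the set of words without the letter `last`, so
   `dn (B ∩ D) ≤ (k/(k+1))^{m₂} ≤ cδ₀/8`.  Let `E_i = (⋂_{j<i} D_j) ∩ (D_i)ᶜ`, `i < k`: a partition of
   `Dᶜ`, and `E_i = ⋂_r E_{i,r}` with `E_{i,r} = D_r (r<i), (D_i)ᶜ (r = i), univ (r > i)` all
   `r`-insensitive.
3. `∑_i [dn (B ∩ E_i) - (δ + γ₁) dn E_i] = dn (B ∩ Dᶜ) - (δ+γ₁) dn Dᶜ
   ≥ δ - ε - cδ₀/8 - (δ + γ₁)(1 - c/2) ≥ δ - ε - cδ₀/8 - δ - γ₁ + cδ₀/2 = cδ₀/8`.
   So for some `i`: `dn (B ∩ E_i) - (δ+γ₁) dn E_i ≥ cδ₀/(8k)`.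
4. Let `f = (1_B - δ - γ₁)/2`, `|f| ≤ 1` (`δ ≤ 1, γ₁ ≤ 1`).  `av (E_i.indicator f) ≥ cδ₀/(16 k) > β`.
   As `E_i` is `Til m (k+1) β`, some `m`-dimensional `U` in `E_i` has `av (f ∘ U) > 0`, i.e.
   `dn {x | V (U x) ∈ A} > δ + γ₁ ≥ δ + γ`; `V ∘ U` is an `m`-dimensional subspace: contradiction.
-/

namespace GPR

open Combinatorics

private def incr_comp {m n : ℕ} {S ι : Type} (V : Subspace (Fin n) S ι)
    (U : Subspace (Fin m) S (Fin n)) : Subspace (Fin m) S ι where
  idxFun i := Sum.elim Sum.inl (fun j => U.idxFun j) (V.idxFun i)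
  proper e := by
    obtain ⟨j, hj⟩ := U.proper e
    obtain ⟨i, hi⟩ := V.proper j
    exact ⟨i, by rw [hi]; exact hj⟩

private theorem incr_comp_apply {m n : ℕ} {S ι : Type} (V : Subspace (Fin n) S ι)
    (U : Subspace (Fin m) S (Fin n)) (x : Fin m → S) : incr_comp V U x = V (U x) := by
  funext i
  rw [Subspace.coe_apply, Subspace.coe_apply]
  have e : (incr_comp V U).idxFun i = Sum.elim Sum.inl (fun j => U.idxFun j) (V.idxFun i) := rfl
  rw [e]
  cases V.idxFun i with
  | inl a => rfl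
  | inr j => rfl

/-- the subspace varying the first coordinates -/
private def incr_first {m d : ℕ} {S : Type} (y : Fin d → S) : Subspace (Fin m) S (Fin (m + d)) where
  idxFun i := Fin.addCases (fun j => Sum.inr j) (fun j => Sum.inl (y j)) i
  proper e := ⟨Fin.castAdd d e, by rw [Fin.addCases_left]⟩

private theorem incr_first_apply {m d : ℕ} {S : Type} (y : Fin d → S) (x : Fin m → S) :
    incr_first y x = Fin.append x y := by
  funext i
  rw [Subspace.coe_apply]
  have e : (incr_first (m := m) y).idxFun i =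
      Fin.addCases (fun j => Sum.inr j) (fun j => Sum.inl (y j)) i := rfl
  rw [e]
  induction i using Fin.addCases with
  | left j => rw [Fin.addCases_left, Fin.append_left]; rfl
  | right j => rw [Fin.addCases_right, Fin.append_right]; rfl

private theorem incr_av {m n : ℕ} (hmn : m ≤ n) {S : Type} [Fintype S] [Nonempty S]
    (f : (Fin n → S) → ℝ) (b : ℝ)
    (h : ∀ U : Subspace (Fin m) S (Fin n), av (fun x => f (U x)) ≤ b) : av f ≤ b := by
  obtain ⟨d, rfl⟩ := Nat.exists_eq_add_of_le hmn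
  rw [← av_equiv (Fin.appendEquiv m d) f, av_prod']
  refine av_le fun y => ?_
  refine le_trans (le_of_eq ?_) (h (incr_first y))
  congr 1
  funext x
  rw [incr_first_apply]
  rfl

private theorem incr_av_sum {X I : Type} [Fintype X] [Fintype I] (g : I → X → ℝ) :
    av (fun x => ∑ i, g i x) = ∑ i, av (g i) := by
  unfold av
  rw [Finset.sum_comm, Finset.sum_div]

private theorem incr_split {X : Type} [Fintype X] (B E : Set X) :
    dn (B ∩ E) + dn (B ∩ Eᶜ) = dn B := by
  unfold dn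
  rw [← av_add]
  congr 1
  funext x
  by_cases h1 : x ∈ B <;> by_cases h2 : x ∈ E <;> simp [h1, h2]

private theorem incr_compl {X : Type} [Fintype X] [Nonempty X] (E : Set X) :
    dn Eᶜ = 1 - dn E := by
  have h := incr_split (Set.univ : Set X) E
  have h1 : dn (Set.univ : Set X) = 1 := by
    unfold dn
    rw [Set.indicator_univ, av_const]
  rw [Set.univ_inter, Set.univ_inter, h1] at h
  linarith

private theorem incr_last (k n : ℕ) :
    dn {w : Fin n → Fin (k + 1) | ∀ e, w e ≠ Fin.last k} = ((k : ℝ) / (k + 1)) ^ n := by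
  classical
  rw [dn_eq_card]
  have e : (Finset.univ.filter (· ∈ {w : Fin n → Fin (k + 1) | ∀ e, w e ≠ Fin.last k})) =
      Fintype.piFinset (fun _ : Fin n => Finset.univ.erase (Fin.last k)) := by
    ext w
    simp
  rw [e, Fintype.card_piFinset]
  simp only [Finset.card_erase_of_mem (Finset.mem_univ _), Finset.card_univ, Fintype.card_fin,
    Finset.prod_const, Fintype.card_fun, Nat.add_sub_cancel]
  push_cast
  rw [div_pow]

private theorem incr_sum {X : Type} {k : ℕ} (D : Fin k → Set X) (f : X → ℝ) (w : X) :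
    ∑ i : Fin k, (⋂ r : Fin k, (if r < i then D r else if r = i then (D i)ᶜ else Set.univ)).indicator
      f w = (⋂ i, D i)ᶜ.indicator f w := by
  classical
  have hmem : ∀ i : Fin k, (w ∈ ⋂ r : Fin k, (if r < i then D r else if r = i then (D i)ᶜ else
      Set.univ)) ↔ (∀ r < i, w ∈ D r) ∧ w ∉ D i := by
    intro i
    rw [Set.mem_iInter]
    constructor
    · intro h
      refine ⟨fun r hr => ?_, ?_⟩
      · have := h r
        rwa [if_pos hr] at this
      · have := h i
        rwa [if_neg (lt_irrefl i), if_pos rfl] at this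
    · rintro ⟨h1, h2⟩ r
      split_ifs with h3 h4
      · exact h1 r h3
      · exact h2
      · exact Set.mem_univ w
  by_cases hw : ∃ i, w ∉ D i
  · have hS : ({i : Fin k | w ∉ D i}).Nonempty := hw
    set i0 := (wellFounded_lt (α := Fin k)).min {i : Fin k | w ∉ D i} hS with hi0
    have h0 : w ∉ D i0 := (wellFounded_lt (α := Fin k)).min_mem _ hS
    have h1 : ∀ r < i0, w ∈ D r := by
      intro r hr
      by_contra hc
      exact (wellFounded_lt (α := Fin k)).not_lt_min {i : Fin k | w ∉ D i} hc hr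
    rw [Finset.sum_eq_single i0]
    · rw [Set.indicator_of_mem ((hmem i0).2 ⟨h1, h0⟩), Set.indicator_of_mem]
      rw [Set.mem_compl_iff, Set.mem_iInter]
      exact fun h => h0 (h i0)
    · intro i _ hi
      rw [Set.indicator_of_notMem]
      intro h
      obtain ⟨h2, h3⟩ := (hmem i).1 h
      rcases lt_trichotomy i i0 with h4 | h4 | h4
      · exact h3 (h1 i h4)
      · exact hi h4
      · exact h0 (h2 i0 h4)
    · intro h
      exact absurd (Finset.mem_univ _) h
  · push Not at hw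
    rw [Finset.sum_eq_zero, Set.indicator_of_notMem]
    · rw [Set.mem_compl_iff, not_not, Set.mem_iInter]
      exact hw
    · intro i _
      rw [Set.indicator_of_notMem]
      intro h
      exact ((hmem i).1 h).2 (hw i)

private theorem incr_core {k : ℕ} (hk : 1 ≤ k) {δ₀ c : ℝ} (hδ : 0 < δ₀) (hδ1 : δ₀ ≤ 1)
    (hc : 0 < c) (hc1 : c ≤ 1) {m m₂ : ℕ} {ι : Type} [Fintype ι] [DecidableEq ι]
    (hpow : ((k : ℝ) / (k + 1)) ^ m₂ ≤ c * δ₀ / 8)
    (htil : ∀ E : Fin k → Set (Fin m₂ → Fin (k + 1)), (∀ r, Ins r (E r)) →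
      Til m (k + 1) (c * δ₀ / (32 * k)) (⋂ r, E r))
    (A : Set (ι → Fin (k + 1))) (hA : δ₀ ≤ dn A)
    (hno : ∀ V : Subspace (Fin m) (Fin (k + 1)) ι,
      dn {w | V w ∈ A} < dn A + c * (c * δ₀ / 8) / 16)
    (V : Subspace (Fin m₂) (Fin (k + 1)) ι) (D : Fin k → Set (Fin m₂ → Fin (k + 1)))
    (hD : ∀ i, Ins i (D i))
    (hDl : ∀ w, (∀ i, w ∈ D i) → V w ∈ A → ∀ e, w e ≠ Fin.last k)
    (hDc : c / 2 ≤ dn (⋂ i, D i)) (hB : dn A - c * δ₀ / 8 ≤ dn {w | V w ∈ A}) : False := by
  classical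
  have hδle : dn A ≤ 1 := dn_le_one A
  have hcd : 0 < c * δ₀ := mul_pos hc hδ
  have hcd1 : c * δ₀ ≤ 1 := by nlinarith
  have hk0 : (0 : ℝ) < k := by exact_mod_cast hk
  set δ := dn A with hδdef
  set B : Set (Fin m₂ → Fin (k + 1)) := {w | V w ∈ A} with hBdef
  set DI : Set (Fin m₂ → Fin (k + 1)) := ⋂ i, D i with hDI
  set f : (Fin m₂ → Fin (k + 1)) → ℝ :=
    fun w => (B.indicator (fun _ => (1 : ℝ)) w - (δ + c * δ₀ / 8)) / 2 with hf
  have hind : ∀ w, B.indicator (fun _ => (1 : ℝ)) w = 0 ∨ B.indicator (fun _ => (1 : ℝ)) w = 1 := by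
    intro w
    by_cases h : w ∈ B <;> simp [h]
  have hf1 : ∀ w, |f w| ≤ 1 := by
    intro w
    simp only [hf]
    rw [abs_le]
    rcases hind w with h | h <;> rw [h] <;> constructor <;> linarith
  -- average of `f` on a set
  have hav : ∀ E : Set (Fin m₂ → Fin (k + 1)), av (E.indicator f) =
      (dn (B ∩ E) - (δ + c * δ₀ / 8) * dn E) / 2 := by
    intro E
    have e : E.indicator f = fun w => (1 / 2 : ℝ) * ((B ∩ E).indicator (fun _ => (1 : ℝ)) w -
        (δ + c * δ₀ / 8) * E.indicator (fun _ => (1 : ℝ)) w) := by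
      funext w
      by_cases h1 : w ∈ E
      · rw [Set.indicator_of_mem h1, Set.indicator_of_mem h1]
        by_cases h2 : w ∈ B
        · rw [Set.indicator_of_mem (Set.mem_inter h2 h1)]
          simp only [hf]
          rw [Set.indicator_of_mem h2]
          ring
        · rw [Set.indicator_of_notMem (fun h => h2 h.1)]
          simp only [hf]
          rw [Set.indicator_of_notMem h2]
          ring
      · rw [Set.indicator_of_notMem h1, Set.indicator_of_notMem h1,
          Set.indicator_of_notMem (fun h => h1 h.2)]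
        ring
    rw [e, av_mul_left, av_sub, av_mul_left]
    unfold dn
    ring
  -- the average over the complement of `DI`
  have h1 : dn (B ∩ DI) ≤ c * δ₀ / 8 := by
    refine le_trans (dn_mono ?_) ((incr_last k m₂).le.trans hpow)
    rintro w ⟨hw1, hw2⟩
    exact hDl w (fun i => Set.mem_iInter.1 hw2 i) hw1
  have h2 : c * δ₀ / 16 ≤ av (DIᶜ.indicator f) := by
    rw [hav, incr_compl]
    have h3 := incr_split B DI
    have h4 : (δ + c * δ₀ / 8) * (1 - dn DI) ≤ (δ + c * δ₀ / 8) * (1 - c / 2) :=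
      mul_le_mul_of_nonneg_left (by linarith) (by linarith)
    have h5 : c * δ₀ ≤ c * δ := mul_le_mul_of_nonneg_left hA hc.le
    have h6 : 0 ≤ c * (c * δ₀) := by positivity
    nlinarith
  -- the pieces
  have h3 : ∀ i : Fin k, av ((⋂ r : Fin k, (if r < i then D r else if r = i then (D i)ᶜ else
      Set.univ)).indicator f) ≤ c * δ₀ / (32 * k) := by
    intro i
    refine htil (fun r => if r < i then D r else if r = i then (D i)ᶜ else Set.univ) ?_ f hf1 ?_
    · intro r
      intro x y hxy hx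
      split_ifs at hx ⊢ with h4 h5
      · exact hD r x y hxy hx
      · subst h5
        exact fun hy => hx (hD r y x hxy.symm hy)
      · exact Set.mem_univ y
    · intro U _
      have h4 := hno (incr_comp V U)
      have e : av (fun x => f (U x)) = (dn {w | incr_comp V U w ∈ A} - (δ + c * δ₀ / 8)) / 2 := by
        have e1 : (fun x => f (U x)) = fun x => (1 / 2 : ℝ) *
            (({w | incr_comp V U w ∈ A} : Set (Fin m → Fin (k + 1))).indicator
              (fun _ => (1 : ℝ)) x - (δ + c * δ₀ / 8)) := by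
          funext x
          simp only [hf]
          have e2 : B.indicator (fun _ => (1 : ℝ)) (U x) =
              ({w | incr_comp V U w ∈ A} : Set (Fin m → Fin (k + 1))).indicator
                (fun _ => (1 : ℝ)) x := by
            simp only [Set.indicator, hBdef, Set.mem_setOf_eq, incr_comp_apply]
          rw [e2]
          ring
        rw [e1, av_mul_left, av_sub, av_const]
        unfold dn
        ring
      rw [e]
      have h6 : c * (c * δ₀ / 8) / 16 ≤ c * δ₀ / 8 := by nlinarith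
      linarith
  have h4 : av (DIᶜ.indicator f) ≤ c * δ₀ / 32 := by
    have e : DIᶜ.indicator f = fun w => ∑ i : Fin k, (⋂ r : Fin k, (if r < i then D r else
        if r = i then (D i)ᶜ else Set.univ)).indicator f w := by
      funext w
      exact (incr_sum D f w).symm
    rw [e, incr_av_sum]
    refine (Finset.sum_le_sum fun i _ => h3 i).trans (le_of_eq ?_)
    rw [Finset.sum_const, Finset.card_univ, Fintype.card_fin, nsmul_eq_mul]
    field_simp
  linarith

theorem incr {k : ℕ} (hk : 1 ≤ k) (h : ∀ m, DHJ k m) (δ₀ : ℝ) (hδ : 0 < δ₀) :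
    ∃ γ : ℝ, 0 < γ ∧ ∀ m : ℕ, ∃ N : ℕ, ∀ A : Set (Fin N → Fin (k + 1)), δ₀ ≤ dn A →
      (¬ ∃ L : Subspace (Fin 1) (Fin (k + 1)) (Fin N), ∀ x, L x ∈ A) →
      ∃ V : Subspace (Fin m) (Fin (k + 1)) (Fin N), dn A + γ ≤ dn {w | V w ∈ A} := by
  classical
  rcases lt_or_ge 1 δ₀ with hδ1 | hδ1
  · refine ⟨1, one_pos, fun m => ⟨0, fun A hA _ => ?_⟩⟩
    exact absurd (hA.trans (dn_le_one A)) (not_le.2 hδ1)
  obtain ⟨c, hc, hc1, hV⟩ := exists_V hk (h 1) δ₀ hδ
  have hcd : 0 < c * δ₀ := mul_pos hc hδ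
  have hk0 : (0 : ℝ) < k := by exact_mod_cast hk
  refine ⟨c * (c * δ₀ / 8) / 16, by positivity, fun m => ?_⟩
  obtain ⟨N1, hN1⟩ := til_int hk h m (c * δ₀ / (32 * k)) (by positivity)
  obtain ⟨n2, hn2⟩ := exists_pow_lt_of_lt_one (show 0 < c * δ₀ / 8 by positivity)
    (show (k : ℝ) / (k + 1) < 1 by rw [div_lt_one (by positivity)]; linarith)
  set m₂ := max m (max N1 n2) with hm₂
  have hm : m ≤ m₂ := le_max_left _ _
  have hN : N1 ≤ m₂ := (le_max_left _ _).trans (le_max_right _ _)
  have hn : n2 ≤ m₂ := (le_max_right _ _).trans (le_max_right _ _)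
  have hpow : ((k : ℝ) / (k + 1)) ^ m₂ ≤ c * δ₀ / 8 := by
    refine le_trans (pow_le_pow_of_le_one (by positivity) ?_ hn) hn2.le
    rw [div_le_one (by positivity)]
    linarith
  obtain ⟨N₂, N', hN'⟩ := hV (c * δ₀ / 8) (by positivity) (by nlinarith) m₂
  let e : ((Fin m₂ × Fin N₂) × Fin N') ≃ Fin (Fintype.card ((Fin m₂ × Fin N₂) × Fin N')) :=
    Fintype.equivFin _
  refine ⟨Fintype.card ((Fin m₂ × Fin N₂) × Fin N'), fun A hA hline => ?_⟩
  -- transport to the index type `(Fin m₂ × Fin N₂) × Fin N'`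
  set A' : Set ((Fin m₂ × Fin N₂) × Fin N' → Fin (k + 1)) := {y | y ∘ e.symm ∈ A} with hA'
  have hdn : dn A' = dn A := by
    unfold dn
    rw [← av_equiv (Equiv.arrowCongr e (Equiv.refl (Fin (k + 1))))]
    rfl
  have hre : ∀ {d : ℕ} (L : Subspace (Fin d) (Fin (k + 1)) ((Fin m₂ × Fin N₂) × Fin N'))
      (x : Fin d → Fin (k + 1)),
      (L.reindex (Equiv.refl _) (Equiv.refl _) e) x = L x ∘ e.symm := by
    intro d L x
    funext i
    rw [Subspace.reindex_apply]
    rfl
  by_contra hcon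
  push Not at hcon
  have hno : ∀ W : Subspace (Fin m) (Fin (k + 1)) ((Fin m₂ × Fin N₂) × Fin N'),
      dn {w | W w ∈ A'} < dn A' + c * (c * δ₀ / 8) / 16 := by
    intro W
    have h1 := hcon (W.reindex (Equiv.refl _) (Equiv.refl _) e)
    rw [hdn]
    refine lt_of_eq_of_lt ?_ h1
    congr 1
    ext w
    simp only [Set.mem_setOf_eq, hA', hre]
  have hline' : ¬ ∃ L : Subspace (Fin 1) (Fin (k + 1)) ((Fin m₂ × Fin N₂) × Fin N'),
      ∀ x, L x ∈ A' := by
    rintro ⟨L, hL⟩
    refine hline ⟨L.reindex (Equiv.refl _) (Equiv.refl _) e, fun x => ?_⟩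
    rw [hre]
    exact hL x
  have hmax : ∀ V : Subspace (Fin m₂) (Fin (k + 1)) ((Fin m₂ × Fin N₂) × Fin N'),
      dn {w | V w ∈ A'} ≤ dn A' + c * (c * δ₀ / 8) / 16 := by
    intro V
    refine incr_av hm _ _ fun U => ?_
    refine le_trans (le_of_eq ?_) (hno (incr_comp V U)).le
    unfold dn
    congr 1
    funext x
    simp only [Set.indicator, Set.mem_setOf_eq, incr_comp_apply]
  obtain ⟨V, D, hD, hDl, hDc, hB⟩ := hN' A' (by rw [hdn]; exact hA) hline' hmax
  exact incr_core hk hδ hδ1 hc hc1 hpow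
    (fun E hE => hN1 (Fin m₂) (by rw [Fintype.card_fin]; exact hN) E hE) A' (by rw [hdn]; exact hA)
    hno V D hD hDl hDc hB

end GPR
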