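import Pool.Agent.GPR.Tv
import Pool.Agent.GPR.Md

/-!
# GPR/InsSub: a dense insensitive set contains a subspace over the bigger alphabet

`E ⊆ [k+1]^ι`, letters `0..k` (`Fin (k+1)`, last letter `k`), insensitive for `r` and `last`, dense:
then `E` contains an `m`-dimensional subspace over `Fin (k+1)`, for `card ι ≥ N(k, m, β)`.

Proof.  Let `m₃` be the dimension of `DHJ k m` for the density `β/2` and `N₃` such that
`m₃ * sqrt ((k+1)/N₃) ≤ β/2`; `N = m₃ * N₃`.
1. Reduce to `ι = Fin m₃ × Fin N₃` (some section of `E` over the other coordinates has density `≥ β`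
   and is again insensitive; a subspace of the section extends).  (An injection
   `Fin m₃ × Fin N₃ → ι`.)
2. For a word `v : Fin m₃ → Fin k`, seen over `Fin (k+1)` by `castSucc`, `place_av` applied to the
   indicator of `E` gives `av_{(t,x)} 1_E(place v t x) ≥ dn E - β/2 ≥ β/2`.  Averaging over `v` and
   exchanging (`av_prod`) there is a pair `(t, x)` such that
   `A = {v : Fin m₃ → Fin k | place (castSucc ∘ v) t x ∈ E}` has density `≥ β/2`
   (`exists_le_of_av`).
3. `DHJ k m`: a subspace `W` of `[k]^{m₃}` inside `A`.  Let `V` be the subspace of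
   `[k+1]^{Fin m₃ × Fin N₃}` with `idxFun (j, s) = (W.idxFun j).map castSucc id` if `s = t j`, and
   `= inl (x (j, s))` otherwise.  It is proper, and for `z : Fin m → Fin (k+1)`:
   `lowW r (V z) = lowW r (V (castSucc ∘ (lowW r z)))`, while
   `V (castSucc ∘ u) = place (castSucc ∘ (W u)) t x ∈ E` for `u : Fin m → Fin k`.
   So `V z ∈ E` by insensitivity.
-/

namespace GPR

open Combinatorics

section sect

variable {κ ι S : Type*}

/-- exchange of the coordinates in the range of an injection -/
private noncomputable def swp (e : κ → ι) (he : Function.Injective e) :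
    ((κ → S) × (ι → S)) ≃ ((κ → S) × (ι → S)) where
  toFun q := (fun j => q.2 (e j), Function.extend e q.1 q.2)
  invFun q := (fun j => q.2 (e j), Function.extend e q.1 q.2)
  left_inv := by
    rintro ⟨y, z⟩
    refine Prod.ext ?_ ?_
    · funext j
      exact he.extend_apply y z j
    · funext i
      show Function.extend e (fun j => z (e j)) (Function.extend e y z) i = z i
      by_cases h : ∃ j, e j = i
      · obtain ⟨j, rfl⟩ := h
        rw [he.extend_apply]
      · rw [Function.extend_apply' _ _ _ h, Function.extend_apply' _ _ _ h]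
  right_inv := by
    rintro ⟨y, z⟩
    refine Prod.ext ?_ ?_
    · funext j
      exact he.extend_apply y z j
    · funext i
      show Function.extend e (fun j => z (e j)) (Function.extend e y z) i = z i
      by_cases h : ∃ j, e j = i
      · obtain ⟨j, rfl⟩ := h
        rw [he.extend_apply]
      · rw [Function.extend_apply' _ _ _ h, Function.extend_apply' _ _ _ h]

/-- some section is at least as dense as the set -/
private theorem sect_dn [Fintype κ] [Fintype ι] [Fintype S] [DecidableEq κ] [DecidableEq ι] [Nonempty S]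
    (e : κ → ι) (he : Function.Injective e) (A : Set (ι → S)) :
    ∃ z : ι → S, dn A ≤ dn {y : κ → S | Function.extend e y z ∈ A} := by
  have h1 : av (fun q : (κ → S) × (ι → S) => A.indicator (fun _ => (1 : ℝ)) (Function.extend e q.1 q.2)) = dn A := by
    have h2 := av_equiv (swp (S := S) e he) (fun q : (κ → S) × (ι → S) => A.indicator (fun _ => (1 : ℝ)) q.2)
    have h3 : av (fun q : (κ → S) × (ι → S) => A.indicator (fun _ => (1 : ℝ)) q.2) = dn A := by
      rw [av_prod]
      show av (fun _ : κ → S => dn A) = dn A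
      exact av_const _
    rw [← h3, ← h2]
    rfl
  rw [av_prod'] at h1
  obtain ⟨z, hz⟩ := exists_le_of_av h1.ge
  refine ⟨z, hz.trans (le_of_eq ?_)⟩
  unfold dn
  congr 1

end sect

/-- a number of positions which makes the error small -/
private theorem exists_pos_count (a b c : ℝ) (hb : 0 < b) :
    ∃ n : ℕ, a * Real.sqrt (c / ((n + 1 : ℕ) : ℝ)) ≤ b := by
  have h1 : Filter.Tendsto (fun n : ℕ => c / ((n + 1 : ℕ) : ℝ)) Filter.atTop (nhds 0) := by
    have := (tendsto_const_div_atTop_nhds_zero_nat c).comp (Filter.tendsto_add_atTop_nat 1)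
    simpa [Function.comp_def] using this
  have h2 : Filter.Tendsto (fun n : ℕ => a * Real.sqrt (c / ((n + 1 : ℕ) : ℝ))) Filter.atTop (nhds 0) := by
    have h3 := (Real.continuous_sqrt.tendsto 0).comp h1
    rw [Real.sqrt_zero] at h3
    have h4 := h3.const_mul a
    rw [mul_zero] at h4
    exact h4
  obtain ⟨n, hn⟩ := (h2.eventually (gt_mem_nhds hb)).exists
  exact ⟨n, hn.le⟩

theorem ins_sub {k m : ℕ} (hk : 1 ≤ k) (h : DHJ k m) (β : ℝ) (hβ : 0 < β) :
    ∃ N : ℕ, ∀ (ι : Type) [Fintype ι] [DecidableEq ι], N ≤ Fintype.card ι →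
      ∀ (r : Fin k) (E : Set (ι → Fin (k + 1))), Ins r E → β ≤ dn E →
        ∃ V : Subspace (Fin m) (Fin (k + 1)) ι, ∀ x, V x ∈ E := by
  classical
  obtain ⟨m₃, hm₃⟩ := h (β / 2) (half_pos hβ)
  obtain ⟨n, hn⟩ := exists_pos_count (m₃ : ℝ) (β / 2) ((k + 1 : ℕ) : ℝ) (half_pos hβ)
  refine ⟨m₃ * (n + 1), ?_⟩
  intro ι _ _ hcard r E hE hdn
  have : Nonempty (Fin k) := ⟨⟨0, hk⟩⟩
  -- the injection
  have hemb : Nonempty ((Fin m₃ × Fin (n + 1)) ↪ ι) := by
    refine Function.Embedding.nonempty_of_card_le ?_
    rw [Fintype.card_prod, Fintype.card_fin, Fintype.card_fin]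
    exact hcard
  obtain ⟨⟨e, he⟩⟩ := hemb
  obtain ⟨z, hz⟩ := sect_dn (S := Fin (k + 1)) e he E
  set E' : Set (Fin m₃ × Fin (n + 1) → Fin (k + 1)) := {y | Function.extend e y z ∈ E} with hE'
  have hdn' : β ≤ dn E' := hdn.trans hz
  have hins : Ins r E' := by
    intro x y hxy hx
    refine hE _ _ ?_ hx
    funext i
    unfold lowW
    by_cases hi : ∃ p, e p = i
    · obtain ⟨p, rfl⟩ := hi
      rw [he.extend_apply, he.extend_apply]
      exact congrFun hxy p
    · rw [Function.extend_apply' _ _ _ hi, Function.extend_apply' _ _ _ hi]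
  -- step 2
  have h2 : ∀ v : Fin m₃ → Fin k, β / 2 ≤ av (fun q : (Fin m₃ → Fin (n + 1)) × (Fin m₃ × Fin (n + 1) → Fin (k + 1)) =>
      E'.indicator (fun _ => (1 : ℝ)) (place (fun j => (v j).castSucc) q.1 q.2)) := by
    intro v
    have h3 := place_av (J := Fin m₃) (T := Fin (n + 1)) (S := Fin (k + 1)) (fun j => (v j).castSucc)
      (E'.indicator (fun _ => (1 : ℝ))) (fun x => by
        by_cases hx : x ∈ E'
        · rw [Set.indicator_of_mem hx]; simp
        · rw [Set.indicator_of_notMem hx]; simp)
    rw [Fintype.card_fin, Fintype.card_fin, Fintype.card_fin] at h3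
    have h4 := (abs_le.1 h3).1
    have h5 : av (E'.indicator (fun _ => (1 : ℝ))) = dn E' := rfl
    rw [h5] at h4
    linarith
  have h3 : β / 2 ≤ av (fun v : Fin m₃ → Fin k =>
      av (fun q : (Fin m₃ → Fin (n + 1)) × (Fin m₃ × Fin (n + 1) → Fin (k + 1)) =>
      E'.indicator (fun _ => (1 : ℝ)) (place (fun j => (v j).castSucc) q.1 q.2))) := le_av h2
  have h4 := av_prod (fun p : (Fin m₃ → Fin k) × ((Fin m₃ → Fin (n + 1)) × (Fin m₃ × Fin (n + 1) → Fin (k + 1))) =>
      E'.indicator (fun _ => (1 : ℝ)) (place (fun j => (p.1 j).castSucc) p.2.1 p.2.2))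
  have h5 := av_prod' (fun p : (Fin m₃ → Fin k) × ((Fin m₃ → Fin (n + 1)) × (Fin m₃ × Fin (n + 1) → Fin (k + 1))) =>
      E'.indicator (fun _ => (1 : ℝ)) (place (fun j => (p.1 j).castSucc) p.2.1 p.2.2))
  rw [h4] at h5
  obtain ⟨⟨t, x⟩, htx⟩ := exists_le_of_av (h5 ▸ h3)
  obtain ⟨W, hW⟩ := hm₃ {v | place (fun j => (v j).castSucc) t x ∈ E'} htx
  -- the subspace of the section
  set V' : Subspace (Fin m) (Fin (k + 1)) (Fin m₃ × Fin (n + 1)) :=
    { idxFun := fun p => if p.2 = t p.1 then (W.idxFun p.1).map Fin.castSucc id else Sum.inl (x p)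
      proper := by
        intro i
        obtain ⟨j, hj⟩ := W.proper i
        refine ⟨(j, t j), ?_⟩
        rw [if_pos rfl, hj]
        rfl } with hV'
  have hV'mem : ∀ y, V' y ∈ E' := by
    intro y
    have h6 : V' (fun i => (lowW r y i).castSucc) ∈ E' := by
      have h7 : V' (fun i => (lowW r y i).castSucc) = place (fun j => (W (lowW r y) j).castSucc) t x := by
        funext p
        rw [Subspace.coe_apply, hV']
        unfold place
        show ((if p.2 = t p.1 then (W.idxFun p.1).map Fin.castSucc id else Sum.inl (x p)).elim id _) = _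
        by_cases hp : p.2 = t p.1
        · rw [if_pos hp, if_pos hp]
          show Sum.elim id (fun i => (lowW r y i).castSucc) (Sum.map Fin.castSucc id (W.idxFun p.1)) =
            ((W.idxFun p.1).elim id (lowW r y)).castSucc
          rcases W.idxFun p.1 with a | i <;> rfl
        · rw [if_neg hp, if_neg hp]
          rfl
      rw [h7]
      exact hW (lowW r y)
    refine hins _ _ ?_ h6
    funext p
    unfold lowW
    rw [Subspace.coe_apply, Subspace.coe_apply, hV']
    show low r ((if p.2 = t p.1 then (W.idxFun p.1).map Fin.castSucc id else Sum.inl (x p)).elim id _) =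
      low r ((if p.2 = t p.1 then (W.idxFun p.1).map Fin.castSucc id else Sum.inl (x p)).elim id _)
    by_cases hp : p.2 = t p.1
    · rw [if_pos hp]
      rcases W.idxFun p.1 with a | i
      · rfl
      · exact low_castSucc r _
    · rw [if_neg hp]
      rfl
  refine ⟨⟨Function.extend e V'.idxFun (fun i => Sum.inl (z i)), ?_⟩, ?_⟩
  · intro i
    obtain ⟨p, hp⟩ := V'.proper i
    refine ⟨e p, ?_⟩
    rw [he.extend_apply, hp]
  · intro y
    have h8 : (⟨Function.extend e V'.idxFun (fun i => Sum.inl (z i)), by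
        intro i
        obtain ⟨p, hp⟩ := V'.proper i
        refine ⟨e p, ?_⟩
        rw [he.extend_apply, hp]⟩ : Subspace (Fin m) (Fin (k + 1)) ι) y = Function.extend e (V' y) z := by
      funext i
      rw [Subspace.coe_apply]
      show ((Function.extend e V'.idxFun (fun i => Sum.inl (z i)) i).elim id y) = _
      by_cases hi : ∃ p, e p = i
      · obtain ⟨p, rfl⟩ := hi
        rw [he.extend_apply, he.extend_apply]
        rfl
      · rw [Function.extend_apply' _ _ _ hi, Function.extend_apply' _ _ _ hi]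
        rfl
    rw [h8]
    exact hV'mem y

end GPR
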