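import Pool.Agent.GPR.Cse

/-!
# GPR/Lfc: consequences of the linear forms condition

`lfc_cut`: `ν i₀ - 1` has small cut norm.
Proof.  `cse` with `P = Unit`, `A = univ.erase i₀`, `F = ν i₀ - 1`, `H = U`, `M = 1`:
`|av (F ∏ U)|^(2^(k-1)) ≤ 2^(2^(k-1)) |av_{y0,y1} ∏_{ω ∈ Om A} (ν i₀ (mix ω) - 1)|`; expand
(`Finset.prod_sub` or `prod_add`) into `2^(2^(k-1))` terms `± av ∏_{ω ∈ T} ν i₀ (mix ω) = ±(1 + O(η))`
(`LFC` with `S = {(i₀, ω) : ω ∈ T}`, `ω i₀ = false`), the sum of the signs is `0` (for every `k ≥ 1`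
the set `Om A` is nonempty), so the last average is at most `2^(2^(k-1)) η`.

`strong_lfc`: the majorant at the position `i₀` can be replaced by `1`.
Proof.  `cse` with `P = X × X`, `p = (t, t')`, `A = univ.erase i₀`, `F p y = ν i₀ y - 1`,
`H i p y = h i (update y i₀ t) * h' i (update y i₀ t')`,
`M i p y = MB ν B i (update y i₀ t) * MB ν B' i (update y i₀ t')`.  For `ω ∈ Om A'`, `A' ⊆ A`, and after
the substitution `t = y0 i₀`, `t' = y1 i₀` (allowed inside averages over `(t, t'), y0, y1` of functions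
which do not depend on `y0 i₀, y1 i₀`): `update (mix y0 y1 ω) i₀ (y0 i₀) = mix y0 y1 ω`,
`update (mix y0 y1 ω) i₀ (y1 i₀) = mix y0 y1 (update ω i₀ true)`.  Then
`av ∏_{ω∈Om A'} M i = av ∏_{p ∈ S} ν p.1 (mix p.2) ≤ 1 + η ≤ 2`, with
`S = {(i, ω) : ω ∈ Om A', i ∉ B} ∪ {(i, update ω i₀ true) : ω ∈ Om A', i ∉ B'}`, and the right side of
`cse` is `2^(2^(k-1)) |av_{y0,y1} ∏_{ω ∈ Om A} (ν i₀ (mix ω) - 1) * ∏_{p∈S'} ν p.1 (mix p.2)|`, with a
fixed set `S'` of pairs `(i, ω)`, `i ≠ i₀`, `ω i = false`; expand the first product: at most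
`2^(2^(k-1)) η` as before.

`lfc_sq`: `av (ν' - 1)^2 ≤ 3 η`, `ν' x = av_t ∏_{i ≠ i₀} MB ν B i (update x i₀ t)`: expand the square,
`av ν'^2 = 1 + O(η)` and `av ν' = 1 + O(η)` by `LFC` in the same way (`S` with `ω ∈ {0, e_{i₀}}`).
-/

namespace GPR

private theorem lfc_sum {Y I : Type*} [Fintype Y] (P : Finset I) (g : I → Y → ℝ) :
    av (fun x => ∑ T ∈ P, g T x) = ∑ T ∈ P, av (g T) := by
  unfold av
  rw [Finset.sum_comm, Finset.sum_div]

private theorem lfc_star {k : ℕ} {X : Type} [Fintype X] [Nonempty X] (i₀ : Fin k)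
    (Φ : X × X → (Fin k → X) → (Fin k → X) → ℝ)
    (h : ∀ p y0 y1 s s', Φ p (Function.update y0 i₀ s) (Function.update y1 i₀ s') = Φ p y0 y1) :
    av (fun q : (X × X) × (Fin k → X) × (Fin k → X) => Φ q.1 q.2.1 q.2.2) =
      av (fun q : (Fin k → X) × (Fin k → X) => Φ (q.1 i₀, q.2 i₀) q.1 q.2) := by
  let g : (X × X) × (Fin k → X) × (Fin k → X) → (X × X) × (Fin k → X) × (Fin k → X) :=
    fun q => ((q.2.1 i₀, q.2.2 i₀), (Function.update q.2.1 i₀ q.1.1, Function.update q.2.2 i₀ q.1.2))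
  have hg : ∀ q, g (g q) = q := by
    rintro ⟨⟨t, t'⟩, y0, y1⟩
    simp only [g, Function.update_self, Function.update_idem, Function.update_eq_self]
  let e : (X × X) × (Fin k → X) × (Fin k → X) ≃ (X × X) × (Fin k → X) × (Fin k → X) :=
    ⟨g, g, hg, hg⟩
  rw [← av_equiv e (fun q : (X × X) × (Fin k → X) × (Fin k → X) => Φ q.1 q.2.1 q.2.2)]
  have e1 : (fun q : (X × X) × (Fin k → X) × (Fin k → X) => Φ (e q).1 (e q).2.1 (e q).2.2) =
      fun q => Φ (q.2.1 i₀, q.2.2 i₀) q.2.1 q.2.2 := by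
    funext q
    show Φ (q.2.1 i₀, q.2.2 i₀) (Function.update q.2.1 i₀ q.1.1) (Function.update q.2.2 i₀ q.1.2) = _
    rw [h]
  rw [e1, av_prod]
  exact av_const (X := X × X) (av (fun q : (Fin k → X) × (Fin k → X) => Φ (q.1 i₀, q.2 i₀) q.1 q.2))

private theorem lfc_Om {ι : Type*} [Fintype ι] [DecidableEq ι] {A : Finset ι} {ω : ι → Bool}
    (h : ω ∈ Om A) : ∀ l, l ∉ A → ω l = false := (Finset.mem_filter.1 h).2

private theorem lfc_mixt {k : ℕ} {X : Type} (i₀ : Fin k) (y0 y1 : Fin k → X) (ω : Fin k → Bool) :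
    Function.update (mix y0 y1 ω) i₀ (y1 i₀) = mix y0 y1 (Function.update ω i₀ true) := by
  funext l
  by_cases hl : l = i₀
  · subst hl
    simp [mix]
  · simp [mix, Function.update_of_ne hl]

private theorem lfc_mixf {k : ℕ} {X : Type} (i₀ : Fin k) (y0 y1 : Fin k → X) (ω : Fin k → Bool)
    (h : ω i₀ = false) : Function.update (mix y0 y1 ω) i₀ (y0 i₀) = mix y0 y1 ω := by
  funext l
  by_cases hl : l = i₀
  · subst hl
    simp [mix, h]
  · simp [Function.update_of_ne hl]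

private theorem lfc_mixu {k : ℕ} {X : Type} (i₀ : Fin k) (y0 y1 : Fin k → X) (ω : Fin k → Bool) (s s' t : X) :
    Function.update (mix (Function.update y0 i₀ s) (Function.update y1 i₀ s') ω) i₀ t =
      Function.update (mix y0 y1 ω) i₀ t := by
  funext l
  by_cases hl : l = i₀
  · subst hl
    simp
  · simp [mix, Function.update_of_ne hl]

private theorem lfc_ind {k : ℕ} {X : Type} {i₀ : Fin k} {F : (Fin k → X) → ℝ} (hF : Ind1 i₀ F)
    (y0 y1 : Fin k → X) (ω : Fin k → Bool) (s s' : X) :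
    F (mix (Function.update y0 i₀ s) (Function.update y1 i₀ s') ω) = F (mix y0 y1 ω) := by
  refine hF _ _ fun l hl => ?_
  simp [mix, Function.update_of_ne hl]

/-- the indices with `ω i₀ = false` and `ω i₀ = true` -/
private def lfcS {k : ℕ} (i₀ : Fin k) (B B' : Finset (Fin k)) (D : Finset (Fin k × (Fin k → Bool))) :
    Finset (Fin k × (Fin k → Bool)) :=
  D.filter (fun p => p.1 ∉ B) ∪
    (D.filter (fun p => p.1 ∉ B')).image (fun p => (p.1, Function.update p.2 i₀ true))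

private theorem lfcS_prod {k : ℕ} {X : Type} (ν : Fin k → (Fin k → X) → ℝ) (i₀ : Fin k)
    (B B' : Finset (Fin k)) (D : Finset (Fin k × (Fin k → Bool))) (hD : ∀ p ∈ D, p.2 i₀ = false)
    (y0 y1 : Fin k → X) :
    ∏ p ∈ D, (MB ν B p.1 (Function.update (mix y0 y1 p.2) i₀ (y0 i₀)) *
      MB ν B' p.1 (Function.update (mix y0 y1 p.2) i₀ (y1 i₀))) =
    ∏ p ∈ lfcS i₀ B B' D, ν p.1 (mix y0 y1 p.2) := by
  have hdis : Disjoint (D.filter (fun p => p.1 ∉ B))
      ((D.filter (fun p => p.1 ∉ B')).image (fun p => (p.1, Function.update p.2 i₀ true))) := by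
    rw [Finset.disjoint_left]
    intro p hp hp'
    obtain ⟨q, hq, rfl⟩ := Finset.mem_image.1 hp'
    have h1 := hD _ (Finset.mem_filter.1 hp).1
    simp at h1
  have hinj : Set.InjOn (fun p : Fin k × (Fin k → Bool) => (p.1, Function.update p.2 i₀ true))
      (D.filter (fun p => p.1 ∉ B') : Finset (Fin k × (Fin k → Bool))) := by
    rintro ⟨i, ω⟩ h1 ⟨i', ω'⟩ h2 h3
    rw [Finset.mem_coe, Finset.mem_filter] at h1 h2
    have a1 := hD _ h1.1
    have a2 := hD _ h2.1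
    simp only [Prod.mk.injEq] at h3
    refine Prod.ext h3.1 ?_
    funext l
    by_cases hl : l = i₀
    · subst hl
      exact a1.trans a2.symm
    · have := congrFun h3.2 l
      rwa [Function.update_of_ne hl, Function.update_of_ne hl] at this
  unfold lfcS
  rw [Finset.prod_union hdis, Finset.prod_image hinj, Finset.prod_filter, Finset.prod_filter,
    ← Finset.prod_mul_distrib]
  refine Finset.prod_congr rfl fun p hp => ?_
  rw [lfc_mixf i₀ y0 y1 p.2 (hD p hp), lfc_mixt]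
  unfold MB
  congr 1
  · by_cases h : p.1 ∈ B
    · simp [h]
    · simp [h]
  · by_cases h : p.1 ∈ B'
    · simp [h]
    · simp [h]

private theorem lfcS_mem {k : ℕ} {i₀ : Fin k} {B B' : Finset (Fin k)} {D : Finset (Fin k × (Fin k → Bool))}
    (hD : ∀ p ∈ D, p.1 ≠ i₀ ∧ p.2 p.1 = false) : ∀ p ∈ lfcS i₀ B B' D, p.1 ≠ i₀ ∧ p.2 p.1 = false := by
  intro p hp
  rcases Finset.mem_union.1 hp with h | h
  · exact hD p (Finset.mem_filter.1 h).1
  · obtain ⟨q, hq, rfl⟩ := Finset.mem_image.1 h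
    obtain ⟨h1, h2⟩ := hD q (Finset.mem_filter.1 hq).1
    exact ⟨h1, by simp only [Function.update_of_ne h1, h2]⟩

/-- expansion of the product of the `ν i₀ - 1` -/
private theorem lfc_exp {k : ℕ} {X : Type} [Fintype X] [Nonempty X] (ν : Fin k → (Fin k → X) → ℝ) {η : ℝ}
    (hη : 0 ≤ η) (hL : LFC k ν η) (i₀ : Fin k) (S' : Finset (Fin k × (Fin k → Bool)))
    (h : ∀ p ∈ S', p.1 ≠ i₀ ∧ p.2 p.1 = false) :
    |av (fun q : (Fin k → X) × (Fin k → X) =>
      (∏ ω ∈ Om (Finset.univ.erase i₀), (ν i₀ (mix q.1 q.2 ω) - 1)) *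
        ∏ p ∈ S', ν p.1 (mix q.1 q.2 p.2))| ≤ 2 ^ (2 ^ k) * η := by
  classical
  set s : Finset (Fin k → Bool) := Om (Finset.univ.erase i₀) with hs
  set c : Finset (Fin k → Bool) → ℝ := fun T => ∏ _ω ∈ s \ T, (-1 : ℝ) with hc
  have hc1 : ∀ T, |c T| ≤ 1 := by
    intro T
    simp only [hc, Finset.abs_prod, abs_neg, abs_one, Finset.prod_const_one, le_refl]
  have hs0 : s.Nonempty := ⟨fun _ => false, by simp [hs, Om]⟩
  have hsf : ∀ ω ∈ s, ω i₀ = false := by
    intro ω hω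
    exact lfc_Om hω i₀ (by simp)
  have hsum0 : ∑ T ∈ s.powerset, c T = 0 := by
    have e := Finset.prod_add (fun _ : Fin k → Bool => (1 : ℝ)) (fun _ => (-1 : ℝ)) s
    simp only [Finset.prod_const_one, one_mul, add_neg_cancel] at e
    rw [Finset.prod_const, zero_pow (Finset.card_ne_zero.2 hs0)] at e
    exact e.symm
  set S : Finset (Fin k → Bool) → Finset (Fin k × (Fin k → Bool)) :=
    fun T => T.image (fun ω => (i₀, ω)) ∪ S' with hS
  have hSp : ∀ T, ∀ q : (Fin k → X) × (Fin k → X), ∏ p ∈ S T, ν p.1 (mix q.1 q.2 p.2) =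
      (∏ ω ∈ T, ν i₀ (mix q.1 q.2 ω)) * ∏ p ∈ S', ν p.1 (mix q.1 q.2 p.2) := by
    intro T q
    have hdis : Disjoint (T.image (fun ω => (i₀, ω))) S' := by
      rw [Finset.disjoint_left]
      intro p hp hp'
      obtain ⟨ω, _, rfl⟩ := Finset.mem_image.1 hp
      exact (h _ hp').1 rfl
    simp only [hS]
    rw [Finset.prod_union hdis, Finset.prod_image]
    intro a _ b _ hab
    exact (Prod.ext_iff.1 hab).2
  have e1 : (fun q : (Fin k → X) × (Fin k → X) => (∏ ω ∈ s, (ν i₀ (mix q.1 q.2 ω) - 1)) *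
      ∏ p ∈ S', ν p.1 (mix q.1 q.2 p.2)) =
      fun q => ∑ T ∈ s.powerset, c T * ∏ p ∈ S T, ν p.1 (mix q.1 q.2 p.2) := by
    funext q
    have e2 : ∏ ω ∈ s, (ν i₀ (mix q.1 q.2 ω) - 1) =
        ∑ T ∈ s.powerset, (∏ ω ∈ T, ν i₀ (mix q.1 q.2 ω)) * c T := by
      simp only [sub_eq_add_neg]
      exact Finset.prod_add _ _ s
    rw [e2, Finset.sum_mul]
    refine Finset.sum_congr rfl fun T _ => ?_
    rw [hSp]
    ring
  rw [e1, lfc_sum]
  have e3 : ∑ T ∈ s.powerset, av (fun q : (Fin k → X) × (Fin k → X) =>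
      c T * ∏ p ∈ S T, ν p.1 (mix q.1 q.2 p.2)) =
      ∑ T ∈ s.powerset, c T * (av (fun q : (Fin k → X) × (Fin k → X) =>
        ∏ p ∈ S T, ν p.1 (mix q.1 q.2 p.2)) - 1) := by
    simp only [mul_sub, mul_one, Finset.sum_sub_distrib, hsum0, sub_zero, av_mul_left]
  rw [e3]
  calc |∑ T ∈ s.powerset, c T * (av (fun q : (Fin k → X) × (Fin k → X) =>
        ∏ p ∈ S T, ν p.1 (mix q.1 q.2 p.2)) - 1)|
      ≤ ∑ T ∈ s.powerset, |c T * (av (fun q : (Fin k → X) × (Fin k → X) =>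
        ∏ p ∈ S T, ν p.1 (mix q.1 q.2 p.2)) - 1)| := Finset.abs_sum_le_sum_abs _ _
    _ ≤ ∑ T ∈ s.powerset, η := by
        refine Finset.sum_le_sum fun T hT => ?_
        rw [abs_mul]
        have hb := hL (S T) (by
          intro p hp
          rcases Finset.mem_union.1 hp with hp | hp
          · obtain ⟨ω, hω, rfl⟩ := Finset.mem_image.1 hp
            exact hsf ω (Finset.mem_powerset.1 hT hω)
          · exact (h p hp).2)
        calc |c T| * |_| ≤ 1 * η := mul_le_mul (hc1 T) hb (abs_nonneg _) zero_le_one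
          _ = η := one_mul η
    _ = (2 : ℝ) ^ s.card * η := by
        rw [Finset.sum_const, Finset.card_powerset, nsmul_eq_mul]
        push_cast
        ring
    _ ≤ 2 ^ (2 ^ k) * η := by
        refine mul_le_mul_of_nonneg_right ?_ hη
        refine pow_le_pow_right₀ (by norm_num) ?_
        refine (Finset.card_le_univ s).trans ?_
        simp

private theorem lfc_fin {k : ℕ} {v ε : ℝ} (hε : 0 < ε) {w : ℝ} (n : ℕ)
    (h : |v| ^ (2 ^ n) ≤ 2 ^ (2 ^ n) * w)
    (hw : w ≤ 2 ^ (2 ^ k) * (ε ^ (2 ^ n) / (2 ^ (2 ^ n) * 2 ^ (2 ^ k)))) : |v| ≤ ε := by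
  have h1 : |v| ^ (2 ^ n) ≤ ε ^ (2 ^ n) := by
    refine h.trans ?_
    calc (2 : ℝ) ^ (2 ^ n) * w ≤ 2 ^ (2 ^ n) * (2 ^ (2 ^ k) * (ε ^ (2 ^ n) / (2 ^ (2 ^ n) * 2 ^ (2 ^ k)))) :=
          mul_le_mul_of_nonneg_left hw (by positivity)
      _ = ε ^ (2 ^ n) := by field_simp
  exact (pow_le_pow_iff_left₀ (abs_nonneg _) hε.le (by positivity)).1 h1

theorem lfc_cut {k : ℕ} (hk : 1 ≤ k) (ε : ℝ) (hε : 0 < ε) :
    ∃ η : ℝ, 0 < η ∧ ∀ (X : Type) [Fintype X] [Nonempty X] (ν : Fin k → (Fin k → X) → ℝ),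
      (∀ i, Ind1 i (ν i)) → LFC k ν η → ∀ i₀ : Fin k, CutH i₀ (fun x => ν i₀ x - 1) ε := by
  obtain ⟨n, hn⟩ : ∃ n, n = k - 1 := ⟨_, rfl⟩
  have hη : 0 < ε ^ (2 ^ n) / (2 ^ (2 ^ n) * 2 ^ (2 ^ k)) := by positivity
  refine ⟨ε ^ (2 ^ n) / (2 ^ (2 ^ n) * 2 ^ (2 ^ k)), hη, ?_⟩
  intro X _ _ ν hν hL i₀ U hU1 hU2 _
  have hcard : (Finset.univ.erase i₀ : Finset (Fin k)).card = n := by
    rw [Finset.card_erase_of_mem (Finset.mem_univ _), Finset.card_univ, Fintype.card_fin, hn]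
  have h1 := cse (X := X) (Finset.univ.erase i₀ : Finset (Fin k)) Unit (fun _ y => ν i₀ y - 1)
    (fun i _ y => U i y) (fun _ _ _ => 1) (fun i _ _ => hU2 i) (fun _ _ _ _ _ _ => rfl)
    (fun i _ _ x => hU1 i x) (fun i _ A' _ => by
      simp only [Finset.prod_const_one]
      rw [av_const (X := Unit × (Fin k → X) × (Fin k → X))]
      norm_num)
  rw [hcard] at h1
  have e1 : av (fun q : Unit × (Fin k → X) => (ν i₀ q.2 - 1) * ∏ i ∈ Finset.univ.erase i₀, U i q.2) =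
      av (fun x => (ν i₀ x - 1) * ∏ i ∈ Finset.univ.erase i₀, U i x) := by
    rw [av_prod]
    exact av_const (X := Unit) _
  have e2 : av (fun q : Unit × (Fin k → X) × (Fin k → X) =>
      (∏ ω ∈ Om (Finset.univ.erase i₀), (ν i₀ (mix q.2.1 q.2.2 ω) - 1)) *
        ∏ i ∈ Finset.univ.erase i₀, ∏ ω ∈ Om ((Finset.univ.erase i₀).erase i), (1 : ℝ)) =
      av (fun q : (Fin k → X) × (Fin k → X) =>
        (∏ ω ∈ Om (Finset.univ.erase i₀), (ν i₀ (mix q.1 q.2 ω) - 1)) *
          ∏ p ∈ (∅ : Finset (Fin k × (Fin k → Bool))), ν p.1 (mix q.1 q.2 p.2)) := by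
    simp only [Finset.prod_const_one, Finset.prod_empty]
    rw [av_prod (X := Unit)]
    exact av_const (X := Unit) _
  rw [e1, e2] at h1
  exact lfc_fin hε n h1 (lfc_exp ν hη.le hL i₀ ∅ (by simp))

private theorem lfc_MB0 {k : ℕ} {X : Type} {ν : Fin k → (Fin k → X) → ℝ} (h0 : ∀ i x, 0 ≤ ν i x)
    (B : Finset (Fin k)) (i : Fin k) (x : Fin k → X) : 0 ≤ MB ν B i x := by
  unfold MB
  split_ifs
  · exact zero_le_one
  · exact h0 i x

private theorem lfc_MBi {k : ℕ} {X : Type} {ν : Fin k → (Fin k → X) → ℝ} (h0 : ∀ i, Ind1 i (ν i))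
    (B : Finset (Fin k)) (i : Fin k) : Ind1 i (MB ν B i) := by
  intro x y hxy
  unfold MB
  split_ifs
  · rfl
  · exact h0 i x y hxy

private theorem lfc_upd {k : ℕ} {X : Type} {i i₀ : Fin k} {F : (Fin k → X) → ℝ} (hF : Ind1 i F) (t : X) :
    Ind1 i (fun y => F (Function.update y i₀ t)) := by
  intro x y hxy
  refine hF _ _ fun l hl => ?_
  by_cases h : l = i₀
  · subst h
    simp
  · simp only [Function.update_of_ne h, hxy l hl]

theorem strong_lfc {k : ℕ} (hk : 1 ≤ k) (ε : ℝ) (hε : 0 < ε) :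
    ∃ η : ℝ, 0 < η ∧ ∀ (X : Type) [Fintype X] [Nonempty X] (ν : Fin k → (Fin k → X) → ℝ),
      (∀ i, Ind1 i (ν i)) → (∀ i x, 0 ≤ ν i x) → LFC k ν η →
      ∀ (i₀ : Fin k) (B B' : Finset (Fin k)) (h h' : Fin k → (Fin k → X) → ℝ),
        (∀ i, Ind1 i (h i)) → (∀ i, Ind1 i (h' i)) →
        (∀ i x, |h i x| ≤ MB ν B i x) → (∀ i x, |h' i x| ≤ MB ν B' i x) →
        |av (fun q : (X × X) × (Fin k → X) => (ν i₀ q.2 - 1) *
          ∏ i ∈ Finset.univ.erase i₀, (h i (Function.update q.2 i₀ q.1.1) *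
            h' i (Function.update q.2 i₀ q.1.2)))| ≤ ε := by
  classical
  obtain ⟨n, hn⟩ : ∃ n, n = k - 1 := ⟨_, rfl⟩
  have hη0 : 0 < ε ^ (2 ^ n) / (2 ^ (2 ^ n) * 2 ^ (2 ^ k)) := by positivity
  set η : ℝ := min 1 (ε ^ (2 ^ n) / (2 ^ (2 ^ n) * 2 ^ (2 ^ k))) with hηdef
  have hη : 0 < η := lt_min one_pos hη0
  refine ⟨η, hη, ?_⟩
  intro X _ _ ν hν hν0 hL i₀ B B' h h' hh hh' hb hb'
  have hcard : (Finset.univ.erase i₀ : Finset (Fin k)).card = n := by
    rw [Finset.card_erase_of_mem (Finset.mem_univ _), Finset.card_univ, Fintype.card_fin, hn]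
  have hOm : ∀ (A' : Finset (Fin k)), i₀ ∉ A' → ∀ ω ∈ Om A', ω i₀ = false := fun A' hA' ω hω =>
    lfc_Om hω i₀ hA'
  have h1 := cse (X := X) (Finset.univ.erase i₀ : Finset (Fin k)) (X × X) (fun _ y => ν i₀ y - 1)
    (fun i p y => h i (Function.update y i₀ p.1) * h' i (Function.update y i₀ p.2))
    (fun i p y => MB ν B i (Function.update y i₀ p.1) * MB ν B' i (Function.update y i₀ p.2))
    (fun i _ p x y hxy => by
      have a1 := lfc_upd (i₀ := i₀) (hh i) p.1 x y hxy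
      have a2 := lfc_upd (i₀ := i₀) (hh' i) p.2 x y hxy
      simp only at a1 a2
      simp only [a1, a2])
    (fun i _ p x y hxy => by
      have a1 := lfc_upd (i₀ := i₀) (lfc_MBi hν B i) p.1 x y hxy
      have a2 := lfc_upd (i₀ := i₀) (lfc_MBi hν B' i) p.2 x y hxy
      simp only at a1 a2
      simp only [a1, a2])
    (fun i _ p x => by
      rw [abs_mul]
      exact mul_le_mul (hb i _) (hb' i _) (abs_nonneg _) (lfc_MB0 hν0 B i _))
    (fun i hi A' hA' => by
      have hi0 : i ≠ i₀ := (Finset.mem_erase.1 hi).1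
      have hA0 : i₀ ∉ A' := fun hm => (Finset.mem_erase.1 (Finset.mem_erase.1 (hA' hm)).2).1 rfl
      have hAi : i ∉ A' := fun hm => (Finset.mem_erase.1 (hA' hm)).1 rfl
      rw [lfc_star i₀ (fun p y0 y1 => ∏ ω ∈ Om A', (MB ν B i (Function.update (mix y0 y1 ω) i₀ p.1) *
        MB ν B' i (Function.update (mix y0 y1 ω) i₀ p.2))) (fun p y0 y1 s s' => by
          simp only [lfc_mixu])]
      have e : (fun q : (Fin k → X) × (Fin k → X) => ∏ ω ∈ Om A',
          (MB ν B i (Function.update (mix q.1 q.2 ω) i₀ (q.1 i₀)) *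
            MB ν B' i (Function.update (mix q.1 q.2 ω) i₀ (q.2 i₀)))) =
          fun q => ∏ p ∈ lfcS i₀ B B' ((Om A').image (fun ω => (i, ω))), ν p.1 (mix q.1 q.2 p.2) := by
        funext q
        rw [← lfcS_prod ν i₀ B B' _ (by
          intro p hp
          obtain ⟨ω, hω, rfl⟩ := Finset.mem_image.1 hp
          exact hOm A' hA0 ω hω) q.1 q.2, Finset.prod_image]
        intro a _ b _ hab
        exact (Prod.ext_iff.1 hab).2
      simp only at e ⊢
      rw [e]
      have h2 := hL (lfcS i₀ B B' ((Om A').image (fun ω => (i, ω)))) (fun p hp =>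
        (lfcS_mem (by
          intro p hp
          obtain ⟨ω, hω, rfl⟩ := Finset.mem_image.1 hp
          exact ⟨hi0, lfc_Om hω i hAi⟩) p hp).2)
      have h3 := (abs_le.1 h2).2
      have h4 : η ≤ 1 := min_le_left _ _
      linarith)
  rw [hcard] at h1
  refine lfc_fin (k := k) hε n h1 ?_
  set D : Finset (Fin k × (Fin k → Bool)) := (Finset.univ.erase i₀ ×ˢ Finset.univ).filter
    (fun p => p.2 ∈ Om ((Finset.univ.erase i₀).erase p.1)) with hD
  have hDm : ∀ p ∈ D, p.1 ≠ i₀ ∧ p.2 p.1 = false := by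
    intro p hp
    obtain ⟨a1, a2⟩ := Finset.mem_filter.1 hp
    refine ⟨(Finset.mem_erase.1 (Finset.mem_product.1 a1).1).1, ?_⟩
    exact lfc_Om a2 p.1 (by simp)
  have hD0 : ∀ p ∈ D, p.2 i₀ = false := by
    intro p hp
    obtain ⟨a1, a2⟩ := Finset.mem_filter.1 hp
    exact lfc_Om a2 i₀ (by simp)
  have hprod : ∀ g : Fin k → (Fin k → Bool) → ℝ, ∏ i ∈ Finset.univ.erase i₀,
      ∏ ω ∈ Om ((Finset.univ.erase i₀).erase i), g i ω = ∏ p ∈ D, g p.1 p.2 := by
    intro g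
    rw [hD, Finset.prod_filter, Finset.prod_product]
    refine Finset.prod_congr rfl fun i _ => ?_
    rw [← Finset.prod_filter]
    refine Finset.prod_congr ?_ fun _ _ => rfl
    ext ω
    simp
  have e : av (fun q : (X × X) × (Fin k → X) × (Fin k → X) =>
      (∏ ω ∈ Om (Finset.univ.erase i₀), (ν i₀ (mix q.2.1 q.2.2 ω) - 1)) *
        ∏ i ∈ Finset.univ.erase i₀, ∏ ω ∈ Om ((Finset.univ.erase i₀).erase i),
          (MB ν B i (Function.update (mix q.2.1 q.2.2 ω) i₀ q.1.1) *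
            MB ν B' i (Function.update (mix q.2.1 q.2.2 ω) i₀ q.1.2))) =
      av (fun q : (Fin k → X) × (Fin k → X) =>
        (∏ ω ∈ Om (Finset.univ.erase i₀), (ν i₀ (mix q.1 q.2 ω) - 1)) *
          ∏ p ∈ lfcS i₀ B B' D, ν p.1 (mix q.1 q.2 p.2)) := by
    rw [lfc_star i₀ (fun p y0 y1 => (∏ ω ∈ Om (Finset.univ.erase i₀), (ν i₀ (mix y0 y1 ω) - 1)) *
        ∏ i ∈ Finset.univ.erase i₀, ∏ ω ∈ Om ((Finset.univ.erase i₀).erase i),
          (MB ν B i (Function.update (mix y0 y1 ω) i₀ p.1) *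
            MB ν B' i (Function.update (mix y0 y1 ω) i₀ p.2))) (fun p y0 y1 s s' => by
          simp only [lfc_mixu, lfc_ind (hν i₀)])]
    congr 1
    funext q
    simp only
    rw [hprod (fun i ω => MB ν B i (Function.update (mix q.1 q.2 ω) i₀ (q.1 i₀)) *
            MB ν B' i (Function.update (mix q.1 q.2 ω) i₀ (q.2 i₀))), lfcS_prod ν i₀ B B' D hD0 q.1 q.2]
  rw [e]
  refine (lfc_exp ν hη.le hL i₀ _ (lfcS_mem hDm)).trans ?_
  exact mul_le_mul_of_nonneg_left (min_le_right _ _) (by positivity)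

theorem lfc_sq {k : ℕ} (hk : 1 ≤ k) {X : Type} [Fintype X] [Nonempty X]
    (ν : Fin k → (Fin k → X) → ℝ) (hi : ∀ i, Ind1 i (ν i)) (η : ℝ) (hL : LFC k ν η) (i₀ : Fin k)
    (B : Finset (Fin k)) :
    av (fun x : Fin k → X =>
      (av (fun t : X => ∏ i ∈ Finset.univ.erase i₀, MB ν B i (Function.update x i₀ t)) - 1) ^ 2)
        ≤ 3 * η := by
  classical
  set G : (Fin k → X) → X → ℝ := fun x t => ∏ i ∈ Finset.univ.erase i₀, MB ν B i (Function.update x i₀ t)
    with hG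
  set D : Finset (Fin k × (Fin k → Bool)) := (Finset.univ.erase i₀).image (fun i => (i, fun _ => false))
    with hD
  have hDm : ∀ p ∈ D, p.1 ≠ i₀ ∧ p.2 p.1 = false := by
    intro p hp
    obtain ⟨i, hi, rfl⟩ := Finset.mem_image.1 hp
    exact ⟨(Finset.mem_erase.1 hi).1, rfl⟩
  have hD0 : ∀ p ∈ D, p.2 i₀ = false := by
    intro p hp
    obtain ⟨i, hi, rfl⟩ := Finset.mem_image.1 hp
    rfl
  have hmix0 : ∀ y0 y1 : Fin k → X, mix y0 y1 (fun _ => false) = y0 := by
    intro y0 y1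
    funext l
    simp [mix]
  have hGu : ∀ (y : Fin k → X) (s t : X), G (Function.update y i₀ s) t = G y t := by
    intro y s t
    simp only [hG, Function.update_idem]
  -- the second moment
  have h2 : |av (fun x => (av (G x)) ^ 2) - 1| ≤ η := by
    have e1 : av (fun x => (av (G x)) ^ 2) =
        av (fun q : (X × X) × (Fin k → X) × (Fin k → X) => G q.2.1 q.1.1 * G q.2.1 q.1.2) := by
      rw [av_prod']
      have a1 : (fun y : (Fin k → X) × (Fin k → X) => av (fun p : X × X => G y.1 p.1 * G y.1 p.2)) =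
          fun y => (av (G y.1)) ^ 2 := by
        funext y
        rw [av_prod]
        simp only [av_mul_left]
        rw [sq]
        have a2 : (fun x : X => G y.1 x * av (fun y_1 => G y.1 y_1)) =
            fun x => av (fun y_1 => G y.1 y_1) * G y.1 x := by
          funext x
          ring
        rw [a2, av_mul_left]
      rw [a1, av_prod]
      congr 1
      funext x
      exact (av_const (X := Fin k → X) _).symm
    rw [e1, lfc_star i₀ (fun p y0 _ => G y0 p.1 * G y0 p.2) (fun p y0 y1 s s' => by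
      simp only [hGu])]
    have e2 : (fun q : (Fin k → X) × (Fin k → X) => G q.1 (q.1 i₀) * G q.1 (q.2 i₀)) =
        fun q => ∏ p ∈ lfcS i₀ B B D, ν p.1 (mix q.1 q.2 p.2) := by
      funext q
      rw [← lfcS_prod ν i₀ B B D hD0 q.1 q.2, hD, Finset.prod_image (by
        intro a _ b _ hab
        exact (Prod.ext_iff.1 hab).1)]
      simp only [hmix0, hG, Finset.prod_mul_distrib]
    simp only at e2 ⊢
    rw [e2]
    exact hL _ fun p hp => (lfcS_mem hDm p hp).2
  -- the first moment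
  have h1 : |av (fun x => av (G x)) - 1| ≤ η := by
    have e1 : av (fun x => av (G x)) =
        av (fun q : (X × X) × (Fin k → X) × (Fin k → X) => G q.2.1 q.1.1) := by
      rw [av_prod']
      have a1 : (fun y : (Fin k → X) × (Fin k → X) => av (fun p : X × X => G y.1 p.1)) =
          fun y => av (G y.1) := by
        funext y
        rw [av_prod]
        congr 1
        funext x
        exact av_const (X := X) (G y.1 x)
      rw [a1, av_prod]
      congr 1
      funext x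
      exact (av_const (X := Fin k → X) _).symm
    rw [e1, lfc_star i₀ (fun p y0 _ => G y0 p.1) (fun p y0 y1 s s' => by
      simp only [hGu])]
    have e2 : (fun q : (Fin k → X) × (Fin k → X) => G q.1 (q.1 i₀)) =
        fun q => ∏ p ∈ lfcS i₀ B Finset.univ D, ν p.1 (mix q.1 q.2 p.2) := by
      funext q
      rw [← lfcS_prod ν i₀ B Finset.univ D hD0 q.1 q.2, hD, Finset.prod_image (by
        intro a _ b _ hab
        exact (Prod.ext_iff.1 hab).1)]
      simp only [hmix0, hG]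
      refine Finset.prod_congr rfl fun i _ => ?_
      simp [MB]
    simp only at e2 ⊢
    rw [e2]
    exact hL _ fun p hp => (lfcS_mem hDm p hp).2
  have e3 : av (fun x => (av (G x) - 1) ^ 2) =
      (av (fun x => (av (G x)) ^ 2) - 1) - 2 * (av (fun x => av (G x)) - 1) := by
    have a1 : (fun x => (av (G x) - 1) ^ 2) = fun x => ((av (G x)) ^ 2 - 2 * av (G x)) + 1 := by
      funext x
      ring
    rw [a1, av_add, av_sub, av_mul_left, av_const]
    ring
  show av (fun x => (av (G x) - 1) ^ 2) ≤ 3 * η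
  rw [e3]
  have b1 := (abs_le.1 h1).1
  have b2 := (abs_le.1 h2).2
  linarith

end GPR
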