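import Pool.Agent.GPR.EqMain

/-!
# GPR/LfcSel: the Selberg majorants satisfy the linear forms condition

Proof of `lfc_sel`.  `c₀` from `eq_main`, `R = k 2^k`, `c₁ = c₀/(12 R)` (`≤ c₀/2`).  For `y ≥ 0` and `d ≥ 1`:
`fract y < ε` and `d ∣ ⌊y⌋₊` iff `fract (y/d) < ε/d`  (`ε ≤ 1`; write `⌊y⌋₊ = a d + b`, `0 ≤ b < d`, then
`fract (y/d) = (b + fract y)/d`, which is `< ε/d ≤ 1/d` iff `b = 0` and `fract y < ε`)   (helper `fract_dvd`).
All the `yy` are `≥ 0` for `w ≥ w₀`.  So for a set `S` of pairs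
`∏_{p∈S} nu0 ... = ∑_{(d_p)} ∏ l(d_p) ∏ 1[fract(y_p/d_p) < ε/d_p]` (`Finset.prod_sum` or
`Finset.prod_univ_sum`), `1 ≤ d_p ≤ D^2 ≤ e^{2 c₁ w} ≤ e^{c₀ w}`.  By `eq_main` the average is
`∑ ∏ l(d_p) (∏ ε/d_p + O(e^{-c₀ w})) = (ε VV)^|S| + O((∑ |l d|)^|S| e^{-c₀ w})`,
`∑_{d ≤ D^2} |l d| ≤ D^2 D^4 = D^6 ≤ e^{6 c₁ w}` and `6 c₁ |S| ≤ c₀/2`.  Divide by `(ε VV)^|S|`, where
`VV ≥ 1/w^2`: the error is `≤ (w^2/ε)^R e^{-c₀ w/2} ≤ η` for `w ≥ w₀`.
`mean_sel`: the mean of one majorant is `ε VV + O(e^{-c w})`, same proof with `eq_single`.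
-/

namespace GPR

theorem fract_dvd {y ε : ℝ} (hy : 0 ≤ y) (hε : ε ≤ 1) {d : ℕ} (hd : 1 ≤ d) :
    (Int.fract (y / d) < ε / d) ↔ (Int.fract y < ε ∧ d ∣ ⌊y⌋₊) := by
  have hd0 : (0 : ℝ) < d := by exact_mod_cast hd
  set m : ℕ := ⌊y⌋₊ with hm
  have hyf : y = m + Int.fract y := by
    have h1 : ((⌊y⌋₊ : ℕ) : ℝ) = ((⌊y⌋ : ℤ) : ℝ) := by
      exact_mod_cast natCast_floor_eq_intCast_floor hy
    rw [hm, h1]
    exact (Int.floor_add_fract y).symm
  have hf0 := Int.fract_nonneg y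
  have hf1 := Int.fract_lt_one y
  have hmd : (m : ℝ) = d * (m / d : ℕ) + (m % d : ℕ) := by
    exact_mod_cast (Nat.div_add_mod m d).symm
  have hb : m % d < d := Nat.mod_lt _ hd
  have hb' : ((m % d : ℕ) : ℝ) + 1 ≤ d := by exact_mod_cast hb
  have hfr : Int.fract (y / d) = ((m % d : ℕ) + Int.fract y) / d := by
    rw [Int.fract_eq_iff]
    refine ⟨by positivity, ?_, ((m / d : ℕ) : ℤ), ?_⟩
    · rw [div_lt_one hd0]
      linarith
    · rw [Int.cast_natCast, ← sub_div, div_eq_iff hd0.ne']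
      have e1 : y - ((m % d : ℕ) + Int.fract y) = m - (m % d : ℕ) := by
        linarith [hyf]
      linarith
  rw [hfr, div_lt_div_iff_of_pos_right hd0]
  constructor
  · intro h
    have h0 : m % d = 0 := by
      by_contra hne
      have h1 : 1 ≤ m % d := Nat.one_le_iff_ne_zero.mpr hne
      have h2 : (1 : ℝ) ≤ ((m % d : ℕ) : ℝ) := by exact_mod_cast h1
      linarith
    refine ⟨?_, Nat.dvd_of_mod_eq_zero h0⟩
    rw [h0] at h
    simpa using h
  · rintro ⟨h1, h2⟩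
    rw [Nat.mod_eq_zero_of_dvd h2]
    simpa using h1

private theorem ls_yy_nonneg {w θ s σ u : ℝ} (hw : |s| ≤ w) (hθ : 0 ≤ θ) (hσ : 0 < σ) (hu : 0 ≤ u)
    (j : ℕ) : 0 ≤ yy w θ s σ j u := by
  unfold yy
  have h1 : w + j * θ + σ * u + 1 ≤ Real.exp (w + j * θ + σ * u) := Real.add_one_le_exp _
  have h2 : 0 ≤ (j : ℝ) * θ := by positivity
  have h3 : 0 ≤ σ * u := by positivity
  have h4 := le_abs_self s
  linarith

private theorem ls_uu_nonneg {N : ℕ} (x : ZMod N) : 0 ≤ uu x := by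
  unfold uu
  positivity

private noncomputable def ls_ind (w θ s σ ε : ℝ) (j d : ℕ) (u : ℝ) : ℝ :=
  if Int.fract (yy w θ s σ j u / d) < ε / d then 1 else 0

private theorem ls_nu0 {N : ℕ} {w θ s σ ε : ℝ} (hw : |s| ≤ w) (hθ : 0 ≤ θ) (hσ : 0 < σ) (hε : ε ≤ 1)
    (l : ℕ → ℝ) (D j : ℕ) (x : ZMod N) :
    nu0 w θ s σ ε l D j x = ∑ d ∈ Finset.Icc 1 (D ^ 2), l d * ls_ind w θ s σ ε j d (uu x) := by
  have hy := ls_yy_nonneg (s := s) hw hθ hσ (ls_uu_nonneg x) j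
  unfold nu0 wt
  by_cases h : Int.fract (yy w θ s σ j (uu x)) < ε
  · rw [if_pos h, Finset.sum_filter]
    refine Finset.sum_congr rfl fun d hd => ?_
    have hd1 : 1 ≤ d := (Finset.mem_Icc.mp hd).1
    unfold ls_ind
    by_cases h2 : d ∣ ⌊yy w θ s σ j (uu x)⌋₊
    · rw [if_pos h2, if_pos ((fract_dvd hy hε hd1).mpr ⟨h, h2⟩), mul_one]
    · rw [if_neg h2, if_neg (fun h3 => h2 ((fract_dvd hy hε hd1).mp h3).2), mul_zero]
  · rw [if_neg h]
    refine (Finset.sum_eq_zero fun d hd => ?_).symm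
    have hd1 : 1 ≤ d := (Finset.mem_Icc.mp hd).1
    unfold ls_ind
    rw [if_neg (fun h3 => h ((fract_dvd hy hε hd1).mp h3).1), mul_zero]

private theorem ls_av_congr {X : Type*} [Fintype X] {f g : X → ℝ} (h : ∀ x, f x = g x) : av f = av g := by
  rw [show f = g from funext h]

private theorem ls_av_sum {X ι : Type*} [Fintype X] (S : Finset ι) (f : ι → X → ℝ) :
    av (fun x => ∑ i ∈ S, f i x) = ∑ i ∈ S, av (f i) := by
  unfold av
  rw [Finset.sum_comm, Finset.sum_div]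

private theorem ls_suml {l : ℕ → ℝ} (hl : ∀ d, |l d| ≤ (d : ℝ) ^ 2) (D : ℕ) :
    ∑ d ∈ Finset.Icc 1 (D ^ 2), |l d| ≤ (D : ℝ) ^ 6 := by
  calc ∑ d ∈ Finset.Icc 1 (D ^ 2), |l d| ≤ ∑ _d ∈ Finset.Icc 1 (D ^ 2), (D : ℝ) ^ 4 := by
        refine Finset.sum_le_sum fun d hd => (hl d).trans ?_
        have h1 : (d : ℝ) ≤ (D : ℝ) ^ 2 := by exact_mod_cast (Finset.mem_Icc.mp hd).2
        calc (d : ℝ) ^ 2 ≤ ((D : ℝ) ^ 2) ^ 2 := pow_le_pow_left₀ (by positivity) h1 2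
          _ = (D : ℝ) ^ 4 := by ring
    _ = (D : ℝ) ^ 6 := by
        rw [Finset.sum_const, Nat.card_Icc, nsmul_eq_mul, Nat.add_sub_cancel]
        push_cast
        ring

/-- expansion of a product of sums over the pairs in `S` -/
private theorem ls_expand {P : Type*} [Fintype P] [DecidableEq P] (S : Finset P) (I : Finset ℕ)
    (f : P → ℕ → ℝ) :
    ∏ p ∈ S, ∑ d ∈ I, f p d =
      ∑ g ∈ Fintype.piFinset (fun p => if p ∈ S then I else {1}), ∏ p ∈ S, f p (g p) := by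
  have h := Finset.prod_univ_sum (fun p => if p ∈ S then I else {1})
    (fun p d => if p ∈ S then f p d else 1)
  have e1 : ∏ p ∈ S, ∑ d ∈ I, f p d =
      ∏ p, ∑ d ∈ (if p ∈ S then I else {1}), (if p ∈ S then f p d else 1) := by
    rw [← Finset.prod_subset (Finset.subset_univ S)]
    · refine Finset.prod_congr rfl fun p hp => ?_
      simp [hp]
    · intro p _ hp
      simp [hp]
  rw [e1, h]
  refine Finset.sum_congr rfl fun g _ => ?_
  rw [← Finset.prod_subset (Finset.subset_univ S)]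
  · refine Finset.prod_congr rfl fun p hp => ?_
    simp [hp]
  · intro p _ hp
    simp [hp]

private theorem ls_abs_sum {P Q : Type*} [Fintype P] [DecidableEq P] [Fintype Q] (S : Finset P)
    (I : Finset ℕ) (l : ℕ → ℝ) (ind : P → ℕ → Q → ℝ) (ε E : ℝ)
    (h : ∀ g ∈ Fintype.piFinset (fun p => if p ∈ S then I else {1}),
      |av (fun q => ∏ p ∈ S, ind p (g p) q) - ∏ p ∈ S, ε / (g p : ℝ)| ≤ E) :
    |av (fun q => ∏ p ∈ S, ∑ d ∈ I, l d * ind p d q) - (ε * ∑ d ∈ I, l d / d) ^ S.card| ≤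
      (∑ d ∈ I, |l d|) ^ S.card * E := by
  have e1 : av (fun q => ∏ p ∈ S, ∑ d ∈ I, l d * ind p d q) =
      ∑ g ∈ Fintype.piFinset (fun p => if p ∈ S then I else {1}),
        (∏ p ∈ S, l (g p)) * av (fun q => ∏ p ∈ S, ind p (g p) q) := by
    rw [ls_av_congr (fun q => ls_expand S I (fun p d => l d * ind p d q)), ls_av_sum]
    refine Finset.sum_congr rfl fun g _ => ?_
    rw [← av_mul_left]
    exact ls_av_congr fun q => Finset.prod_mul_distrib
  have e2 : (ε * ∑ d ∈ I, l d / d) ^ S.card =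
      ∑ g ∈ Fintype.piFinset (fun p => if p ∈ S then I else {1}),
        (∏ p ∈ S, l (g p)) * ∏ p ∈ S, ε / (g p : ℝ) := by
    rw [← Finset.prod_const]
    have e3 : ε * ∑ d ∈ I, l d / d = ∑ d ∈ I, l d * (ε / d) := by
      rw [Finset.mul_sum]
      exact Finset.sum_congr rfl fun d _ => by ring
    rw [e3, ls_expand S I (fun _ d => l d * (ε / d))]
    refine Finset.sum_congr rfl fun g _ => ?_
    exact Finset.prod_mul_distrib
  have e4 : (∑ d ∈ I, |l d|) ^ S.card * E =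
      ∑ g ∈ Fintype.piFinset (fun p => if p ∈ S then I else {1}), (∏ p ∈ S, |l (g p)|) * E := by
    rw [← Finset.prod_const, ls_expand S I (fun _ d => |l d|), Finset.sum_mul]
  rw [e1, e2, e4, ← Finset.sum_sub_distrib]
  refine (Finset.abs_sum_le_sum_abs _ _).trans (Finset.sum_le_sum fun g hg => ?_)
  rw [← mul_sub, abs_mul, Finset.abs_prod]
  exact mul_le_mul_of_nonneg_left (h g hg) (Finset.prod_nonneg fun p _ => abs_nonneg _)

private theorem ls_tendsto (R : ℕ) {c ε η : ℝ} (hc : 0 < c) (hε : 0 < ε) (hη : 0 < η) :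
    ∃ w₀ : ℝ, ∀ w ≥ w₀, (w ^ 2 / ε) ^ R * Real.exp (-(c * w)) ≤ η := by
  have h1 := Real.tendsto_pow_mul_exp_neg_atTop_nhds_zero (2 * R)
  have h2 : Filter.Tendsto (fun w : ℝ => c * w) Filter.atTop Filter.atTop :=
    Filter.tendsto_id.const_mul_atTop hc
  have h3 := (h1.comp h2).const_mul ((c ^ (2 * R))⁻¹ * (ε ^ R)⁻¹)
  rw [mul_zero] at h3
  have h4 := h3.eventually (gt_mem_nhds hη)
  obtain ⟨w₀, hw⟩ := Filter.eventually_atTop.mp h4
  refine ⟨w₀, fun w hw' => ?_⟩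
  have h5 := (hw w hw').le
  simp only [Function.comp] at h5
  refine le_trans (le_of_eq ?_) h5
  rw [div_pow, ← pow_mul, mul_pow]
  have hc0 : c ^ (2 * R) ≠ 0 := pow_ne_zero _ hc.ne'
  have he0 : ε ^ R ≠ 0 := pow_ne_zero _ hε.ne'
  field_simp

theorem lfc_sel {k : ℕ} (hk : 2 ≤ k) : ∃ c₁ : ℝ, 0 < c₁ ∧ ∀ (θ s σ ε : ℝ) (K : ℕ) (η : ℝ), 0 ≤ θ →
    0 < σ → σ ≤ 1 → 0 < ε → ε ≤ 1 → 0 < η → ∃ w₀ : ℝ, ∀ w ≥ w₀, ∀ (N : ℕ) [Fact N.Prime],
    Real.exp (2 * w) ≤ N → ∀ (D : ℕ) (l : ℕ → ℝ), 1 ≤ D → (D : ℝ) ≤ Real.exp (c₁ * w) →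
      (∀ d, |l d| ≤ (d : ℝ) ^ 2) → 1 / w ^ 2 ≤ VV l D →
      ∀ J : Fin k → ℕ, (∀ i, J i ≤ K) →
        LFC k (fun i (x : Fin k → ZMod N) =>
          nu0 w θ s σ ε l D (J i) (psi i x) / (ε * VV l D)) η := by
  obtain ⟨c₀, hc₀, hmain⟩ := eq_main hk
  set R : ℕ := k * 2 ^ k with hR
  have hR1 : 1 ≤ R := by
    have : 0 < k := by omega
    exact Nat.one_le_iff_ne_zero.mpr (Nat.mul_ne_zero this.ne' (pow_ne_zero _ (by norm_num)))
  have hR1' : (1 : ℝ) ≤ R := by exact_mod_cast hR1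
  have hcardP : Fintype.card (Fin k × (Fin k → Bool)) = R := by
    simp [hR]
  refine ⟨c₀ / (12 * R), by positivity, ?_⟩
  set c₁ : ℝ := c₀ / (12 * R) with hc₁
  have hc₁0 : 0 < c₁ := by positivity
  have hc₁R : 12 * c₁ * R = c₀ := by
    rw [hc₁]
    field_simp
  have hc₁2 : 2 * c₁ ≤ c₀ := by nlinarith
  intro θ s σ ε K η hθ hσ hσ1 hε hε1 hη
  obtain ⟨w₁, hw₁⟩ := hmain θ s σ ε K hθ hσ hσ1 hε hε1
  obtain ⟨w₂, hw₂⟩ := ls_tendsto R (half_pos hc₀) hε hη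
  refine ⟨max (max w₁ w₂) (max |s| 1), ?_⟩
  intro w hw N _ hN D l hD1 hD hl hVV J hJ S hS
  have hww1 : w₁ ≤ w := ((le_max_left _ _).trans (le_max_left _ _)).trans hw
  have hww2 : w₂ ≤ w := ((le_max_right _ _).trans (le_max_left _ _)).trans hw
  have hws : |s| ≤ w := ((le_max_left _ _).trans (le_max_right _ _)).trans hw
  have hw1 : 1 ≤ w := ((le_max_right _ _).trans (le_max_right _ _)).trans hw
  have hw0 : 0 < w := by linarith
  have hVV0 : 0 < VV l D := lt_of_lt_of_le (by positivity) hVV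
  have hb := ls_abs_sum (Q := (Fin k → ZMod N) × (Fin k → ZMod N)) S (Finset.Icc 1 (D ^ 2)) l
    (fun p d q => ls_ind w θ s σ ε (J p.1) d (uu (psi p.1 (mix q.1 q.2 p.2)))) ε
    (Real.exp (-(c₀ * w))) (by
      intro g hg
      rw [Fintype.mem_piFinset] at hg
      have hg1 : ∀ p, 1 ≤ g p ∧ (g p : ℝ) ≤ Real.exp (c₀ * w) := by
        intro p
        have h1 := hg p
        by_cases hp : p ∈ S
        · rw [if_pos hp, Finset.mem_Icc] at h1
          refine ⟨h1.1, ?_⟩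
          have h2 : (g p : ℝ) ≤ (D : ℝ) ^ 2 := by exact_mod_cast h1.2
          calc (g p : ℝ) ≤ (D : ℝ) ^ 2 := h2
            _ ≤ (Real.exp (c₁ * w)) ^ 2 := pow_le_pow_left₀ (by positivity) hD 2
            _ = Real.exp (2 * c₁ * w) := by
                rw [← Real.exp_nat_mul]
                congr 1
                push_cast
                ring
            _ ≤ Real.exp (c₀ * w) := Real.exp_le_exp.mpr (mul_le_mul_of_nonneg_right hc₁2 hw0.le)
        · rw [if_neg hp, Finset.mem_singleton] at h1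
          rw [h1]
          refine ⟨le_refl _, ?_⟩
          push_cast
          exact Real.one_le_exp (by positivity)
      have h3 := hw₁ w hww1 N hN J hJ S hS g (fun p => (hg1 p).1) (fun p => (hg1 p).2)
      exact h3)
  have hB : (∑ d ∈ Finset.Icc 1 (D ^ 2), |l d|) ^ S.card * Real.exp (-(c₀ * w)) ≤
      Real.exp (-(c₀ / 2 * w)) := by
    have hcard : S.card ≤ R := by
      rw [← hcardP]
      exact Finset.card_le_univ S
    have h1 : ∑ d ∈ Finset.Icc 1 (D ^ 2), |l d| ≤ Real.exp (6 * c₁ * w) := by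
      refine (ls_suml hl D).trans ?_
      calc (D : ℝ) ^ 6 ≤ (Real.exp (c₁ * w)) ^ 6 := pow_le_pow_left₀ (by positivity) hD 6
        _ = Real.exp (6 * c₁ * w) := by
            rw [← Real.exp_nat_mul]
            congr 1
            push_cast
            ring
    have h2 : (∑ d ∈ Finset.Icc 1 (D ^ 2), |l d|) ^ S.card ≤ Real.exp (c₀ / 2 * w) := by
      calc (∑ d ∈ Finset.Icc 1 (D ^ 2), |l d|) ^ S.card ≤ (Real.exp (6 * c₁ * w)) ^ S.card :=
            pow_le_pow_left₀ (Finset.sum_nonneg fun d _ => abs_nonneg _) h1 _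
        _ ≤ (Real.exp (6 * c₁ * w)) ^ R :=
            pow_le_pow_right₀ (Real.one_le_exp (by positivity)) hcard
        _ = Real.exp (c₀ / 2 * w) := by
            rw [← Real.exp_nat_mul]
            congr 1
            rw [← hc₁R]
            ring
    calc (∑ d ∈ Finset.Icc 1 (D ^ 2), |l d|) ^ S.card * Real.exp (-(c₀ * w)) ≤
          Real.exp (c₀ / 2 * w) * Real.exp (-(c₀ * w)) :=
          mul_le_mul_of_nonneg_right h2 (Real.exp_pos _).le
      _ = Real.exp (-(c₀ / 2 * w)) := by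
          rw [← Real.exp_add]
          congr 1
          ring
  have hav : av (fun q : (Fin k → ZMod N) × (Fin k → ZMod N) => ∏ p ∈ S,
      nu0 w θ s σ ε l D (J p.1) (psi p.1 (mix q.1 q.2 p.2)) / (ε * VV l D)) =
      ((ε * VV l D) ^ S.card)⁻¹ * av (fun q : (Fin k → ZMod N) × (Fin k → ZMod N) => ∏ p ∈ S,
        ∑ d ∈ Finset.Icc 1 (D ^ 2),
          l d * ls_ind w θ s σ ε (J p.1) d (uu (psi p.1 (mix q.1 q.2 p.2)))) := by
    rw [← av_mul_left]
    refine ls_av_congr fun q => ?_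
    rw [Finset.prod_div_distrib, Finset.prod_const, div_eq_inv_mul]
    congr 1
    exact Finset.prod_congr rfl fun p _ => ls_nu0 hws hθ hσ hε1 l D (J p.1) _
  show |av (fun q : (Fin k → ZMod N) × (Fin k → ZMod N) => ∏ p ∈ S,
      nu0 w θ s σ ε l D (J p.1) (psi p.1 (mix q.1 q.2 p.2)) / (ε * VV l D)) - 1| ≤ η
  rw [hav]
  have hpos : 0 < (ε * VV l D) ^ S.card := by positivity
  have hfac : ∀ A : ℝ, ((ε * VV l D) ^ S.card)⁻¹ * A - 1 =
      ((ε * VV l D) ^ S.card)⁻¹ * (A - (ε * VV l D) ^ S.card) := by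
    intro A
    rw [mul_sub, inv_mul_cancel₀ hpos.ne']
  rw [hfac, abs_mul, abs_of_pos (inv_pos.mpr hpos)]
  have hb2 := hb.trans hB
  have hinv : ((ε * VV l D) ^ S.card)⁻¹ ≤ (w ^ 2 / ε) ^ R := by
    have hcard : S.card ≤ R := by
      rw [← hcardP]
      exact Finset.card_le_univ S
    have h1 : (ε * VV l D)⁻¹ ≤ w ^ 2 / ε := by
      rw [inv_le_comm₀ (by positivity) (by positivity), inv_div]
      calc ε / w ^ 2 = ε * (1 / w ^ 2) := by ring
        _ ≤ ε * VV l D := mul_le_mul_of_nonneg_left hVV hε.le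
    have h2 : 1 ≤ w ^ 2 / ε := by
      rw [le_div_iff₀ hε]
      nlinarith
    calc ((ε * VV l D) ^ S.card)⁻¹ = ((ε * VV l D)⁻¹) ^ S.card := (inv_pow _ _).symm
      _ ≤ (w ^ 2 / ε) ^ S.card := pow_le_pow_left₀ (by positivity) h1 _
      _ ≤ (w ^ 2 / ε) ^ R := pow_le_pow_right₀ h2 hcard
  calc ((ε * VV l D) ^ S.card)⁻¹ * _ ≤ (w ^ 2 / ε) ^ R * Real.exp (-(c₀ / 2 * w)) :=
        mul_le_mul hinv hb2 (abs_nonneg _) (by positivity)
    _ ≤ η := hw₂ w hww2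

theorem mean_sel : ∃ c₁ : ℝ, 0 < c₁ ∧ ∀ (θ s σ ε : ℝ) (K : ℕ), 0 ≤ θ → 0 < σ → σ ≤ 1 → 0 < ε →
    ε ≤ 1 → ∃ w₀ : ℝ, ∀ w ≥ w₀, ∀ (N : ℕ) [Fact N.Prime], Real.exp (2 * w) ≤ N →
    ∀ (D : ℕ) (l : ℕ → ℝ), 1 ≤ D → (D : ℝ) ≤ Real.exp (c₁ * w) → (∀ d, |l d| ≤ (d : ℝ) ^ 2) →
      ∀ j ≤ K, |av (fun x : ZMod N => nu0 w θ s σ ε l D j x) - ε * VV l D| ≤
        Real.exp (-(c₁ * w)) := by
  obtain ⟨c₀, hc₀, hmain⟩ := eq_single
  refine ⟨c₀ / 12, by positivity, ?_⟩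
  intro θ s σ ε K hθ hσ hσ1 hε hε1
  obtain ⟨w₁, hw₁⟩ := hmain θ s σ ε K hθ hσ hσ1 hε hε1
  refine ⟨max w₁ (max |s| 1), ?_⟩
  intro w hw N _ hN D l hD1 hD hl j hj
  have hww1 : w₁ ≤ w := (le_max_left _ _).trans hw
  have hws : |s| ≤ w := ((le_max_left _ _).trans (le_max_right _ _)).trans hw
  have hw1 : 1 ≤ w := ((le_max_right _ _).trans (le_max_right _ _)).trans hw
  have hw0 : 0 < w := by linarith
  have e1 : av (fun x : ZMod N => nu0 w θ s σ ε l D j x) =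
      ∑ d ∈ Finset.Icc 1 (D ^ 2), l d * av (fun x : ZMod N => ls_ind w θ s σ ε j d (uu x)) := by
    rw [ls_av_congr (fun x => ls_nu0 (N := N) hws hθ hσ hε1 l D j x), ls_av_sum]
    exact Finset.sum_congr rfl fun d _ => av_mul_left _ _
  have e2 : ε * VV l D = ∑ d ∈ Finset.Icc 1 (D ^ 2), l d * (ε / d) := by
    unfold VV
    rw [Finset.mul_sum]
    exact Finset.sum_congr rfl fun d _ => by ring
  rw [e1, e2, ← Finset.sum_sub_distrib]
  calc |∑ d ∈ Finset.Icc 1 (D ^ 2), (l d * av (fun x : ZMod N => ls_ind w θ s σ ε j d (uu x)) -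
          l d * (ε / d))| ≤ ∑ d ∈ Finset.Icc 1 (D ^ 2), |l d| * Real.exp (-(c₀ * w)) := by
        refine (Finset.abs_sum_le_sum_abs _ _).trans (Finset.sum_le_sum fun d hd => ?_)
        rw [← mul_sub, abs_mul]
        refine mul_le_mul_of_nonneg_left ?_ (abs_nonneg _)
        have h1 := Finset.mem_Icc.mp hd
        have h2 : (d : ℝ) ≤ (D : ℝ) ^ 2 := by exact_mod_cast h1.2
        have h3 : (d : ℝ) ≤ Real.exp (c₀ * w) := by
          calc (d : ℝ) ≤ (D : ℝ) ^ 2 := h2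
            _ ≤ (Real.exp (c₀ / 12 * w)) ^ 2 := pow_le_pow_left₀ (by positivity) hD 2
            _ = Real.exp (2 * (c₀ / 12 * w)) := by
                rw [← Real.exp_nat_mul]
                congr 1
            _ ≤ Real.exp (c₀ * w) := Real.exp_le_exp.mpr (by nlinarith [mul_pos hc₀ hw0])
        exact hw₁ w hww1 N hN j hj d h1.1 h3
    _ = (∑ d ∈ Finset.Icc 1 (D ^ 2), |l d|) * Real.exp (-(c₀ * w)) := by rw [Finset.sum_mul]
    _ ≤ Real.exp (c₀ / 2 * w) * Real.exp (-(c₀ * w)) := by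
        refine mul_le_mul_of_nonneg_right ?_ (Real.exp_pos _).le
        refine (ls_suml hl D).trans ?_
        calc (D : ℝ) ^ 6 ≤ (Real.exp (c₀ / 12 * w)) ^ 6 := pow_le_pow_left₀ (by positivity) hD 6
          _ = Real.exp (c₀ / 2 * w) := by
              rw [← Real.exp_nat_mul]
              congr 1
              push_cast
              ring
    _ = Real.exp (-(c₀ / 2 * w)) := by
        rw [← Real.exp_add]
        congr 1
        ring
    _ ≤ Real.exp (-(c₀ / 12 * w)) := Real.exp_le_exp.mpr (by nlinarith [mul_pos hc₀ hw0])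

end GPR
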