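import Pool.Agent.GPR.Lfc

/-!
# GPR/RelCount: relative counting lemma (Conlon, Fox, Zhao)

`rel_count_aux`: by induction on the number of positions outside `B` (the positions with an
unbounded majorant).  For `B` write `M_i = MB ν B i`.

Base `B = univ`: all functions in `[0,1]`; telescope, replacing `g_i` by `g'_i` one at a time: each
difference is `av ((g_i - g'_i)(x) ∏_{l≠i} u_l x)` with `u_l` in `[0,1]`, `u_l` independent of the
coordinate `l`.  Averaging over the coordinate `i` separately: for each fixed value `t` of the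
coordinate `i`, `U_l x = u_l (update x i t)` satisfies the conditions of `CutH i`, and `g_i - g'_i` does not
depend on the coordinate `i`.  So each difference is `≤ η` and the total is `≤ k η`.

Step: choose `i₀ ∉ B`.  Let `G x = av_t ∏_{i≠i₀} g i (update x i₀ t)`, `G'` likewise from `g'`, and
`N' x = av_t ∏_{i≠i₀} M_i (update x i₀ t)`; they do not depend on the coordinate `i₀`; `0 ≤ G ≤ N'`,
`0 ≤ G' ≤ 1`.  `av ∏ g - av ∏ g' = av (g i₀ * (G - G')) + av ((g i₀ - g' i₀) * G')`.
Second term: `≤ η` by `CutH i₀` as in the base case.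
First term: by Cauchy-Schwarz and `0 ≤ g i₀ ≤ ν i₀`:
`(av (g i₀ (G-G')))^2 ≤ av (ν i₀) * av (ν i₀ (G-G')^2) ≤ (1+η) (av ((ν i₀ - 1)(G-G')^2) + av (G-G')^2)`.
(a) `(G-G')^2 = av_{t,t'} [∏ g(t) - ∏ g'(t)] [∏ g(t') - ∏ g'(t')]`: four terms, each estimated by
`strong_lfc` (sets `B` or `univ`, as `|g' i| ≤ 1 = MB ν univ i`): `av ((ν i₀ - 1)(G-G')^2) ≤ 4 ε'`.
(b) `(G-G')^2 = (G-G')(G - min G 1) + (G-G')(min G 1 - G')`.  `0 ≤ G - min G 1 ≤ |N' - 1|` and
`|G - G'| ≤ N' + 1 ≤ |N'-1| + 2`, so the first part has average
`≤ av (N'-1)^2 + 2 av |N'-1| ≤ 3η + 2 sqrt(3η)` by `lfc_sq`.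
The second part: with `h = min G 1` and `h' = G'` (both in `[0,1]`, not depending on the coordinate `i₀`)
`av ((G-G') (h - h')) = [av (G h) - av (G' h)] - [av (G h') - av (G' h')]`, and
`av (G h) = av ∏ (update g i₀ h)`, etc.  So the first bracket is the difference of the counts of
`update g i₀ h` and `update g' i₀ h`: induction hypothesis for `insert i₀ B` (`CutH i₀ (h - h) = CutH i₀ 0`
trivial); the same for the second bracket.
So everything is small if `η` is small.
-/

namespace GPR

section rc

variable {k : ℕ} {X : Type} [Fintype X] [Nonempty X]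

omit [Fintype X] [Nonempty X] in
private theorem rc_ind {i₀ : Fin k} {F : (Fin k → X) → ℝ} (hF : Ind1 i₀ F) (x : Fin k → X) (t : X) :
    F (Function.update x i₀ t) = F x :=
  hF _ _ fun l hl => Function.update_of_ne hl _ _

private theorem rc_upd (i₀ : Fin k) (Φ : (Fin k → X) → ℝ) :
    av Φ = av (fun x => av (fun t : X => Φ (Function.update x i₀ t))) := by
  let g : X × (Fin k → X) → X × (Fin k → X) :=
    fun q => (q.2 i₀, Function.update q.2 i₀ q.1)
  have hg : ∀ q, g (g q) = q := by
    rintro ⟨t, y⟩
    simp only [g, Function.update_self, Function.update_idem, Function.update_eq_self]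
  let e : X × (Fin k → X) ≃ X × (Fin k → X) := ⟨g, g, hg, hg⟩
  have h1 : av (fun q : X × (Fin k → X) => Φ (Function.update q.2 i₀ q.1)) =
      av (fun q : X × (Fin k → X) => Φ q.2) := by
    rw [← av_equiv e (fun q : X × (Fin k → X) => Φ q.2)]
    rfl
  have h2 : av (fun q : X × (Fin k → X) => Φ q.2) = av Φ := by
    rw [av_prod]
    exact av_const (X := X) (av Φ)
  rw [← h2, ← h1]
  exact av_prod' _

private theorem rc_pull {i₀ : Fin k} {f : (Fin k → X) → ℝ} (hf : Ind1 i₀ f) (Ψ : (Fin k → X) → ℝ) :
    av (fun x => f x * av (fun t : X => Ψ (Function.update x i₀ t))) = av (fun x => f x * Ψ x) := by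
  rw [rc_upd i₀ (fun x => f x * Ψ x)]
  congr 1
  funext x
  rw [← av_mul_left]
  congr 1
  funext t
  rw [rc_ind hf]

omit [Fintype X] [Nonempty X] in
private theorem rc_updInd {i i₀ : Fin k} {F : (Fin k → X) → ℝ} (hF : Ind1 i F) (t : X) :
    Ind1 i (fun y => F (Function.update y i₀ t)) := by
  intro x y hxy
  refine hF _ _ fun l hl => ?_
  by_cases h : l = i₀
  · subst h
    simp
  · simp only [Function.update_of_ne h, hxy l hl]

omit [Fintype X] [Nonempty X] in
private theorem rc_updInd0 {i₀ : Fin k} (F : (Fin k → X) → ℝ) (t : X) :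
    Ind1 i₀ (fun y => F (Function.update y i₀ t)) := by
  intro x y hxy
  have h : Function.update x i₀ t = Function.update y i₀ t := by
    funext l
    by_cases h : l = i₀
    · subst h
      simp
    · simp only [Function.update_of_ne h, hxy l h]
  show F _ = F _
  rw [h]

private theorem rc_cut {i₀ : Fin k} {F : (Fin k → X) → ℝ} {η : ℝ} (hF : Ind1 i₀ F) (hc : CutH i₀ F η)
    (u : Fin k → (Fin k → X) → ℝ) (hu : ∀ l x, |u l x| ≤ 1) (hi : ∀ l, Ind1 l (u l)) :
    |av (fun x => F x * ∏ l ∈ Finset.univ.erase i₀, u l x)| ≤ η := by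
  have h1 : av (fun x => F x * ∏ l ∈ Finset.univ.erase i₀, u l x) =
      av (fun t : X => av (fun x : Fin k → X => F x * ∏ l ∈ Finset.univ.erase i₀,
        u l (Function.update x i₀ t))) := by
    rw [rc_upd i₀ (fun x => F x * ∏ l ∈ Finset.univ.erase i₀, u l x)]
    have h2 : av (fun q : (Fin k → X) × X => F (Function.update q.1 i₀ q.2) *
        ∏ l ∈ Finset.univ.erase i₀, u l (Function.update q.1 i₀ q.2)) =
        av (fun t : X => av (fun x : Fin k → X => F x * ∏ l ∈ Finset.univ.erase i₀,
        u l (Function.update x i₀ t))) := by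
      rw [av_prod']
      congr 1
      funext t
      congr 1
      funext x
      show F (Function.update x i₀ t) * _ = _
      rw [rc_ind hF]
    rw [← h2]
    exact (av_prod (fun q : (Fin k → X) × X => F (Function.update q.1 i₀ q.2) *
        ∏ l ∈ Finset.univ.erase i₀, u l (Function.update q.1 i₀ q.2))).symm
  rw [h1]
  refine (abs_av_le _).trans (av_le fun t => ?_)
  exact hc (fun l x => u l (Function.update x i₀ t)) (fun l x => hu l _)
    (fun l => rc_updInd (hi l) t) (fun l => rc_updInd0 (u l) t)

private theorem rc_cs {Y : Type*} [Fintype Y] {w f : Y → ℝ} (hw : ∀ y, 0 ≤ w y) :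
    (av (fun y => w y * f y)) ^ 2 ≤ av w * av (fun y => w y * f y ^ 2) := by
  have h1 := Finset.sum_mul_sq_le_sq_mul_sq (Finset.univ : Finset Y) (fun y => Real.sqrt (w y))
    (fun y => Real.sqrt (w y) * f y)
  have h2 : ∀ y, Real.sqrt (w y) * (Real.sqrt (w y) * f y) = w y * f y := fun y => by
    rw [← mul_assoc, Real.mul_self_sqrt (hw y)]
  have h3 : ∀ y, Real.sqrt (w y) ^ 2 = w y := fun y => Real.sq_sqrt (hw y)
  have h4 : ∀ y, (Real.sqrt (w y) * f y) ^ 2 = w y * f y ^ 2 := fun y => by
    rw [mul_pow, h3]
  simp only [h2, h3, h4] at h1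
  unfold av
  rw [div_pow, div_mul_div_comm, ← sq]
  exact div_le_div_of_nonneg_right h1 (by positivity)

private theorem rc_l1 {Y : Type*} [Fintype Y] [Nonempty Y] (f : Y → ℝ) :
    av (fun y => |f y|) ≤ Real.sqrt (av (fun y => f y ^ 2)) := by
  have h1 := rc_cs (w := fun _ : Y => (1 : ℝ)) (f := fun y => |f y|) (fun _ => zero_le_one)
  simp only [one_mul, sq_abs] at h1
  rw [av_const, one_mul] at h1
  exact Real.le_sqrt_of_sq_le h1

omit [Nonempty X] in
private theorem rc_LFC {ν : Fin k → (Fin k → X) → ℝ} {η η' : ℝ} (h : LFC k ν η) (h' : η ≤ η') :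
    LFC k ν η' := fun S hS => (h S hS).trans h'

omit [Nonempty X] in
private theorem rc_CutH {i : Fin k} {F : (Fin k → X) → ℝ} {η η' : ℝ} (h : CutH i F η) (h' : η ≤ η') :
    CutH i F η' := fun U h1 h2 h3 => (h U h1 h2 h3).trans h'

private theorem rc_one {ν : Fin k → (Fin k → X) → ℝ} {η : ℝ} (h : LFC k ν η) (i : Fin k) :
    av (ν i) ≤ 1 + η := by
  have h1 := h {(i, fun _ => false)} (by
    intro p hp
    rw [Finset.mem_singleton] at hp
    rw [hp])
  simp only [Finset.prod_singleton] at h1
  have h2 : av (fun q : (Fin k → X) × (Fin k → X) => ν i (mix q.1 q.2 fun _ => false)) = av (ν i) := by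
    have e : (fun q : (Fin k → X) × (Fin k → X) => ν i (mix q.1 q.2 fun _ => false)) =
        fun q => ν i q.1 := by
      funext q
      congr 1
    rw [e, av_prod']
    exact av_const (X := Fin k → X) (av (ν i))
  rw [h2] at h1
  have := (abs_le.1 h1).2
  linarith

/-- telescoping for bounded functions -/
private theorem rc_base {η : ℝ} (g g' : Fin k → (Fin k → X) → ℝ)
    (hg : ∀ i, Ind1 i (g i)) (hg' : ∀ i, Ind1 i (g' i))
    (h1 : ∀ i x, |g i x| ≤ 1) (h1' : ∀ i x, |g' i x| ≤ 1)
    (hc : ∀ i, CutH i (fun x => g i x - g' i x) η) :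
    |av (fun x => ∏ i, g i x) - av (fun x => ∏ i, g' i x)| ≤ k * η := by
  have key : ∀ s : Finset (Fin k),
      |av (fun x => ∏ i, g i x) - av (fun x => ∏ i, (if i ∈ s then g' i x else g i x))| ≤
        s.card * η := by
    intro s
    induction s using Finset.induction_on with
    | empty => simp
    | insert j s hj ih =>
      have h2 : av (fun x => ∏ i, (if i ∈ s then g' i x else g i x)) -
          av (fun x => ∏ i, (if i ∈ insert j s then g' i x else g i x)) =
          av (fun x => (g j x - g' j x) * ∏ l ∈ Finset.univ.erase j,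
            (if l ∈ s then g' l x else g l x)) := by
        rw [← av_sub]
        congr 1
        funext x
        rw [← Finset.mul_prod_erase Finset.univ (fun i => if i ∈ s then g' i x else g i x)
          (Finset.mem_univ j), ← Finset.mul_prod_erase Finset.univ
          (fun i => if i ∈ insert j s then g' i x else g i x) (Finset.mem_univ j)]
        have h3 : ∏ l ∈ Finset.univ.erase j, (if l ∈ insert j s then g' l x else g l x) =
            ∏ l ∈ Finset.univ.erase j, (if l ∈ s then g' l x else g l x) := by
          refine Finset.prod_congr rfl fun l hl => ?_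
          have h4 : l ≠ j := (Finset.mem_erase.1 hl).1
          simp only [Finset.mem_insert, h4, false_or]
        rw [h3]
        simp only [hj, if_false, Finset.mem_insert_self, if_true]
        ring
      have h5 : |av (fun x => (g j x - g' j x) * ∏ l ∈ Finset.univ.erase j,
            (if l ∈ s then g' l x else g l x))| ≤ η := by
        refine rc_cut (F := fun x => g j x - g' j x) ?_ (hc j)
          (fun l x => if l ∈ s then g' l x else g l x) ?_ ?_
        · intro x y hxy
          show g j x - g' j x = g j y - g' j y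
          rw [hg j x y hxy, hg' j x y hxy]
        · intro l x
          show |if l ∈ s then g' l x else g l x| ≤ 1
          split_ifs
          · exact h1' l x
          · exact h1 l x
        · intro l x y hxy
          show (if l ∈ s then g' l x else g l x) = if l ∈ s then g' l y else g l y
          rw [hg l x y hxy, hg' l x y hxy]
      rw [← h2] at h5
      rw [Finset.card_insert_of_notMem hj]
      push_cast
      have h6 := abs_sub_le (av (fun x => ∏ i, g i x))
        (av (fun x => ∏ i, (if i ∈ s then g' i x else g i x)))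
        (av (fun x => ∏ i, (if i ∈ insert j s then g' i x else g i x)))
      linarith
  have h := key Finset.univ
  simpa using h

end rc

theorem rel_count_aux {k : ℕ} (hk : 1 ≤ k) (u : ℕ) : ∀ ε : ℝ, 0 < ε →
    ∃ η : ℝ, 0 < η ∧ ∀ (X : Type) [Fintype X] [Nonempty X] (ν : Fin k → (Fin k → X) → ℝ),
      (∀ i, Ind1 i (ν i)) → (∀ i x, 0 ≤ ν i x) → LFC k ν η →
      ∀ (B : Finset (Fin k)), Bᶜ.card = u → ∀ (g g' : Fin k → (Fin k → X) → ℝ),
        (∀ i, Ind1 i (g i)) → (∀ i, Ind1 i (g' i)) →
        (∀ i x, 0 ≤ g i x) → (∀ i x, g i x ≤ MB ν B i x) →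
        (∀ i x, 0 ≤ g' i x) → (∀ i x, g' i x ≤ 1) →
        (∀ i, CutH i (fun x => g i x - g' i x) η) →
        |av (fun x => ∏ i, g i x) - av (fun x => ∏ i, g' i x)| ≤ ε := by
  induction u with
  | zero =>
    intro ε hε
    have hk' : (0 : ℝ) < k := by exact_mod_cast hk
    refine ⟨ε / k, by positivity, ?_⟩
    intro X _ _ ν hν hν0 hL B hB g g' hg hg' hg0 hgM hg'0 hg'1 hc
    have hBu : B = Finset.univ := by
      rw [Finset.card_eq_zero, Finset.compl_eq_empty_iff] at hB
      exact hB
    have h1 : ∀ i x, |g i x| ≤ 1 := by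
      intro i x
      rw [abs_of_nonneg (hg0 i x)]
      have := hgM i x
      rw [hBu] at this
      unfold MB at this
      rwa [if_pos (Finset.mem_univ i)] at this
    have h2 : ∀ i x, |g' i x| ≤ 1 := by
      intro i x
      rw [abs_of_nonneg (hg'0 i x)]
      exact hg'1 i x
    have h3 := rc_base g g' hg hg' h1 h2 hc
    rwa [mul_div_cancel₀ _ hk'.ne'] at h3
  | succ u ih =>
    intro ε hε
    obtain ⟨η1, hη1, H1⟩ := ih (ε ^ 2 / 64) (by positivity)
    obtain ⟨η2, hη2, H2⟩ := strong_lfc hk (ε ^ 2 / 128) (by positivity)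
    refine ⟨min (min η1 η2) (min (min 1 (ε / 2)) (min (ε ^ 2 / 96) (ε ^ 4 / 12288))), by positivity, ?_⟩
    intro X _ _ ν hν hν0 hL B hB g g' hg hg' hg0 hgM hg'0 hg'1 hc
    set η : ℝ := min (min η1 η2) (min (min 1 (ε / 2)) (min (ε ^ 2 / 96) (ε ^ 4 / 12288))) with hη
    have hηpos : 0 < η := by positivity
    have e1 : η ≤ η1 := (min_le_left _ _).trans (min_le_left _ _)
    have e2 : η ≤ η2 := (min_le_left _ _).trans (min_le_right _ _)
    have e3 : η ≤ 1 := (min_le_right _ _).trans ((min_le_left _ _).trans (min_le_left _ _))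
    have e4 : η ≤ ε / 2 := (min_le_right _ _).trans ((min_le_left _ _).trans (min_le_right _ _))
    have e5 : η ≤ ε ^ 2 / 96 := (min_le_right _ _).trans ((min_le_right _ _).trans (min_le_left _ _))
    have e6 : η ≤ ε ^ 4 / 12288 :=
      (min_le_right _ _).trans ((min_le_right _ _).trans (min_le_right _ _))
    clear_value η
    -- the position
    obtain ⟨i₀, hi₀⟩ : ∃ i₀, i₀ ∉ B := by
      have h1 : Bᶜ.Nonempty := by
        rw [← Finset.card_pos, hB]
        exact Nat.succ_pos _
      obtain ⟨i₀, h2⟩ := h1
      exact ⟨i₀, Finset.mem_compl.1 h2⟩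
    set A : Finset (Fin k) := Finset.univ.erase i₀ with hA
    set G : (Fin k → X) → ℝ := fun x => av (fun t : X => ∏ i ∈ A, g i (Function.update x i₀ t)) with hG
    set G' : (Fin k → X) → ℝ := fun x => av (fun t : X => ∏ i ∈ A, g' i (Function.update x i₀ t)) with hG'
    set N : (Fin k → X) → ℝ :=
      fun x => av (fun t : X => ∏ i ∈ A, MB ν B i (Function.update x i₀ t)) with hN
    have hGi : Ind1 i₀ G := by
      intro x y hxy
      show av _ = av _
      congr 1
      funext t
      refine Finset.prod_congr rfl fun i _ => ?_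
      exact rc_updInd0 (g i) t x y hxy
    have hG'i : Ind1 i₀ G' := by
      intro x y hxy
      show av _ = av _
      congr 1
      funext t
      refine Finset.prod_congr rfl fun i _ => ?_
      exact rc_updInd0 (g' i) t x y hxy
    have hG0 : ∀ x, 0 ≤ G x := fun x => av_nonneg fun t => Finset.prod_nonneg fun i _ => hg0 i _
    have hG'0 : ∀ x, 0 ≤ G' x := fun x => av_nonneg fun t => Finset.prod_nonneg fun i _ => hg'0 i _
    have hG'1 : ∀ x, G' x ≤ 1 := fun x => av_le fun t =>
      Finset.prod_le_one (fun i _ => hg'0 i _) (fun i _ => hg'1 i _)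
    have hGN : ∀ x, G x ≤ N x := fun x => av_mono fun t =>
      Finset.prod_le_prod (fun i _ => hg0 i _) (fun i _ => hgM i _)
    -- the counts
    have hcnt : ∀ (f : (Fin k → X) → ℝ), Ind1 i₀ f → ∀ w : Fin k → (Fin k → X) → ℝ,
        av (fun x => f x * av (fun t : X => ∏ i ∈ A, w i (Function.update x i₀ t))) =
          av (fun x => f x * ∏ i ∈ A, w i x) := fun f hf w =>
      rc_pull hf (fun x => ∏ i ∈ A, w i x)
    have hsplit : ∀ (w : Fin k → (Fin k → X) → ℝ),
        av (fun x => ∏ i, w i x) = av (fun x => w i₀ x * ∏ i ∈ A, w i x) := by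
      intro w
      congr 1
      funext x
      exact (Finset.mul_prod_erase Finset.univ (fun i => w i x) (Finset.mem_univ i₀)).symm
    have hgG : av (fun x => ∏ i, g i x) = av (fun x => g i₀ x * G x) := by
      rw [hsplit, hcnt _ (hg i₀)]
    have hg'G : av (fun x => ∏ i, g' i x) = av (fun x => g' i₀ x * G' x) := by
      rw [hsplit, hcnt _ (hg' i₀)]
    -- second term
    have hsec : |av (fun x => (g i₀ x - g' i₀ x) * G' x)| ≤ η := by
      have hi : Ind1 i₀ (fun x => g i₀ x - g' i₀ x) := by
        intro x y hxy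
        show g i₀ x - g' i₀ x = g i₀ y - g' i₀ y
        rw [hg i₀ x y hxy, hg' i₀ x y hxy]
      rw [hcnt _ hi]
      exact rc_cut hi (hc i₀) g' (fun l x => by rw [abs_of_nonneg (hg'0 l x)]; exact hg'1 l x) hg'
    -- first term
    have hfirst : (av (fun x => g i₀ x * (G x - G' x))) ^ 2 ≤
        (1 + η) * av (fun x => ν i₀ x * (G x - G' x) ^ 2) := by
      have h1 := rc_cs (w := g i₀) (f := fun x => G x - G' x) (hg0 i₀)
      have h2 : ∀ x, g i₀ x ≤ ν i₀ x := by
        intro x
        have := hgM i₀ x
        unfold MB at this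
        rwa [if_neg hi₀] at this
      have h3 : av (g i₀) ≤ 1 + η := (av_mono h2).trans (rc_one hL i₀)
      have h4 : av (fun x => g i₀ x * (G x - G' x) ^ 2) ≤ av (fun x => ν i₀ x * (G x - G' x) ^ 2) :=
        av_mono fun x => mul_le_mul_of_nonneg_right (h2 x) (sq_nonneg _)
      have h5 : 0 ≤ av (fun x => g i₀ x * (G x - G' x) ^ 2) :=
        av_nonneg fun x => mul_nonneg (hg0 i₀ x) (sq_nonneg _)
      exact h1.trans (mul_le_mul h3 h4 h5 (by linarith))
    -- part (a)
    have hpa : ∀ (B1 B2 : Finset (Fin k)) (h h' : Fin k → (Fin k → X) → ℝ),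
        (∀ i, Ind1 i (h i)) → (∀ i, Ind1 i (h' i)) →
        (∀ i x, |h i x| ≤ MB ν B1 i x) → (∀ i x, |h' i x| ≤ MB ν B2 i x) →
        |av (fun x : Fin k → X => (ν i₀ x - 1) *
          (av (fun t : X => ∏ i ∈ A, h i (Function.update x i₀ t)) *
            av (fun t : X => ∏ i ∈ A, h' i (Function.update x i₀ t))))| ≤ ε ^ 2 / 128 := by
      intro B1 B2 h h' a1 a2 a3 a4
      have h1 := H2 X ν hν hν0 (rc_LFC hL e2) i₀ B1 B2 h h' a1 a2 a3 a4
      have h2 : av (fun q : (X × X) × (Fin k → X) => (ν i₀ q.2 - 1) *
          ∏ i ∈ Finset.univ.erase i₀, (h i (Function.update q.2 i₀ q.1.1) *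
            h' i (Function.update q.2 i₀ q.1.2))) =
          av (fun x : Fin k → X => (ν i₀ x - 1) *
          (av (fun t : X => ∏ i ∈ A, h i (Function.update x i₀ t)) *
            av (fun t : X => ∏ i ∈ A, h' i (Function.update x i₀ t)))) := by
        rw [av_prod']
        congr 1
        funext x
        show av (fun p : X × X => (ν i₀ x - 1) *
          ∏ i ∈ Finset.univ.erase i₀, (h i (Function.update x i₀ p.1) *
            h' i (Function.update x i₀ p.2))) = _
        rw [av_mul_left, av_prod]
        congr 1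
        have h3 : ∀ t : X, av (fun t' : X => ∏ i ∈ Finset.univ.erase i₀,
            (h i (Function.update x i₀ t) * h' i (Function.update x i₀ t'))) =
            av (fun t' : X => ∏ i ∈ A, h' i (Function.update x i₀ t')) *
              ∏ i ∈ A, h i (Function.update x i₀ t) := by
          intro t
          have h4 : (fun t' : X => ∏ i ∈ Finset.univ.erase i₀,
            (h i (Function.update x i₀ t) * h' i (Function.update x i₀ t'))) =
              fun t' => (∏ i ∈ A, h i (Function.update x i₀ t)) *
                ∏ i ∈ A, h' i (Function.update x i₀ t') := by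
            funext t'
            rw [Finset.prod_mul_distrib]
          rw [h4, av_mul_left, mul_comm]
        show av (fun t : X => av (fun t' : X => ∏ i ∈ Finset.univ.erase i₀,
            (h i (Function.update x i₀ t) * h' i (Function.update x i₀ t')))) = _
        simp only [h3]
        rw [av_mul_left, mul_comm]
      rwa [h2] at h1
    have hgabs : ∀ i x, |g i x| ≤ MB ν B i x := fun i x => by
      rw [abs_of_nonneg (hg0 i x)]
      exact hgM i x
    have hg'abs : ∀ i x, |g' i x| ≤ MB ν Finset.univ i x := fun i x => by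
      rw [abs_of_nonneg (hg'0 i x)]
      unfold MB
      rw [if_pos (Finset.mem_univ i)]
      exact hg'1 i x
    have hA1 : |av (fun x => (ν i₀ x - 1) * (G x - G' x) ^ 2)| ≤ ε ^ 2 / 32 := by
      have q1 := hpa B B g g hg hg hgabs hgabs
      have q2 := hpa B Finset.univ g g' hg hg' hgabs hg'abs
      have q3 := hpa Finset.univ B g' g hg' hg hg'abs hgabs
      have q4 := hpa Finset.univ Finset.univ g' g' hg' hg' hg'abs hg'abs
      have h1 : av (fun x => (ν i₀ x - 1) * (G x - G' x) ^ 2) =
          av (fun x => (ν i₀ x - 1) * (G x * G x)) - av (fun x => (ν i₀ x - 1) * (G x * G' x)) -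
          av (fun x => (ν i₀ x - 1) * (G' x * G x)) + av (fun x => (ν i₀ x - 1) * (G' x * G' x)) := by
        rw [← av_sub, ← av_sub, ← av_add]
        congr 1
        funext x
        ring
      rw [h1]
      have r1 := abs_le.1 q1
      have r2 := abs_le.1 q2
      have r3 := abs_le.1 q3
      have r4 := abs_le.1 q4
      rw [abs_le]
      constructor
      · linarith [r1.1, r2.2, r3.2, r4.1]
      · linarith [r1.2, r2.1, r3.1, r4.2]
    -- part (b)
    set h : (Fin k → X) → ℝ := fun x => min (G x) 1 with hh
    have hhi : Ind1 i₀ h := by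
      intro x y hxy
      show min (G x) 1 = min (G y) 1
      rw [hGi x y hxy]
    have hh0 : ∀ x, 0 ≤ h x := fun x => le_min (hG0 x) zero_le_one
    have hh1 : ∀ x, h x ≤ 1 := fun x => min_le_right _ _
    have hIH : ∀ f : (Fin k → X) → ℝ, Ind1 i₀ f → (∀ x, 0 ≤ f x) → (∀ x, f x ≤ 1) →
        |av (fun x => f x * G x) - av (fun x => f x * G' x)| ≤ ε ^ 2 / 64 := by
      intro f hf hf0 hf1
      have hcard : (insert i₀ B)ᶜ.card = u := by
        have h1 : (insert i₀ B)ᶜ = Bᶜ.erase i₀ := by
          ext j
          simp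
        rw [h1, Finset.card_erase_of_mem (Finset.mem_compl.2 hi₀), hB]
        rfl
      have h1 := H1 X ν hν hν0 (rc_LFC hL e1) (insert i₀ B) hcard
        (Function.update g i₀ f) (Function.update g' i₀ f) ?_ ?_ ?_ ?_ ?_ ?_ ?_
      · have c1 : ∀ w : Fin k → (Fin k → X) → ℝ,
            av (fun x => ∏ i, Function.update w i₀ f i x) =
            av (fun x => f x * av (fun t : X => ∏ i ∈ A, w i (Function.update x i₀ t))) := by
          intro w
          rw [hcnt f hf w, hsplit (Function.update w i₀ f)]
          congr 1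
          funext x
          rw [Function.update_self]
          congr 1
          refine Finset.prod_congr rfl fun i hi => ?_
          rw [Function.update_of_ne (Finset.mem_erase.1 hi).1]
        rw [c1 g, c1 g'] at h1
        exact h1
      · intro i
        by_cases hi : i = i₀
        · subst hi
          rw [Function.update_self]
          exact hf
        · rw [Function.update_of_ne hi]
          exact hg i
      · intro i
        by_cases hi : i = i₀
        · subst hi
          rw [Function.update_self]
          exact hf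
        · rw [Function.update_of_ne hi]
          exact hg' i
      · intro i x
        by_cases hi : i = i₀
        · subst hi
          rw [Function.update_self]
          exact hf0 x
        · rw [Function.update_of_ne hi]
          exact hg0 i x
      · intro i x
        by_cases hi : i = i₀
        · subst hi
          rw [Function.update_self]
          unfold MB
          rw [if_pos (Finset.mem_insert_self _ _)]
          exact hf1 x
        · rw [Function.update_of_ne hi]
          have h2 := hgM i x
          unfold MB at h2 ⊢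
          simp only [Finset.mem_insert, hi, false_or]
          exact h2
      · intro i x
        by_cases hi : i = i₀
        · subst hi
          rw [Function.update_self]
          exact hf0 x
        · rw [Function.update_of_ne hi]
          exact hg'0 i x
      · intro i x
        by_cases hi : i = i₀
        · subst hi
          rw [Function.update_self]
          exact hf1 x
        · rw [Function.update_of_ne hi]
          exact hg'1 i x
      · intro i
        by_cases hi : i = i₀
        · subst hi
          rw [Function.update_self, Function.update_self]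
          intro U _ _ _
          have e : (fun x : Fin k → X => (f x - f x) * ∏ l ∈ Finset.univ.erase i, U l x) =
              fun _ => (0 : ℝ) := by
            funext x
            ring
          rw [e, av_const, abs_zero]
          exact hη1.le
        · rw [Function.update_of_ne hi, Function.update_of_ne hi]
          exact rc_CutH (hc i) e1
    have hsq : av (fun x => (N x - 1) ^ 2) ≤ 3 * η := lfc_sq hk ν hν η hL i₀ B
    have hl1 : av (fun x => |N x - 1|) ≤ ε ^ 2 / 64 := by
      refine (rc_l1 _).trans ((Real.sqrt_le_sqrt hsq).trans ?_)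
      rw [show ε ^ 2 / 64 = Real.sqrt ((ε ^ 2 / 64) ^ 2) from (Real.sqrt_sq (by positivity)).symm]
      refine Real.sqrt_le_sqrt ?_
      have : (ε ^ 2 / 64) ^ 2 = ε ^ 4 / 4096 := by ring
      rw [this]
      linarith
    have hB1 : av (fun x => (G x - G' x) * (G x - h x)) ≤ ε ^ 2 / 16 := by
      have h1 : ∀ x, (G x - G' x) * (G x - h x) ≤ (N x - 1) ^ 2 + 2 * |N x - 1| := by
        intro x
        have a1 := hG0 x
        have a2 := hG'0 x
        have a3 := hG'1 x
        have a4 := hGN x
        have a5 : 0 ≤ G x - h x := sub_nonneg.2 (min_le_left _ _)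
        have a6 : G x - h x ≤ |N x - 1| := by
          show G x - min (G x) 1 ≤ _
          rcases le_total (G x) 1 with b | b
          · rw [min_eq_left b, sub_self]
            exact abs_nonneg _
          · rw [min_eq_right b]
            exact (sub_le_sub_right a4 1).trans (le_abs_self _)
        have a7 : G x - G' x ≤ |N x - 1| + 2 := by
          have := le_abs_self (N x - 1)
          linarith
        calc (G x - G' x) * (G x - h x) ≤ (|N x - 1| + 2) * (G x - h x) :=
              mul_le_mul_of_nonneg_right a7 a5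
          _ ≤ (|N x - 1| + 2) * |N x - 1| :=
              mul_le_mul_of_nonneg_left a6 (by positivity)
          _ = (N x - 1) ^ 2 + 2 * |N x - 1| := by
              rw [add_mul, abs_mul_abs_self, sq]
      have h2 := av_mono h1
      rw [av_add, av_mul_left] at h2
      linarith
    have hB2 : av (fun x => (G x - G' x) * (h x - G' x)) ≤ ε ^ 2 / 32 := by
      have b1 := abs_le.1 (hIH h hhi hh0 hh1)
      have b2 := abs_le.1 (hIH G' hG'i hG'0 hG'1)
      have h1 : av (fun x => (G x - G' x) * (h x - G' x)) =
          (av (fun x => h x * G x) - av (fun x => h x * G' x)) -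
          (av (fun x => G' x * G x) - av (fun x => G' x * G' x)) := by
        rw [← av_sub, ← av_sub, ← av_sub]
        congr 1
        funext x
        ring
      rw [h1]
      linarith [b1.2, b2.1]
    have hB : av (fun x => (G x - G' x) ^ 2) ≤ 3 * ε ^ 2 / 32 := by
      have h1 : av (fun x => (G x - G' x) ^ 2) = av (fun x => (G x - G' x) * (G x - h x)) +
          av (fun x => (G x - G' x) * (h x - G' x)) := by
        rw [← av_add]
        congr 1
        funext x
        ring
      rw [h1]
      linarith
    have hνG : av (fun x => ν i₀ x * (G x - G' x) ^ 2) ≤ ε ^ 2 / 8 := by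
      have h1 : av (fun x => ν i₀ x * (G x - G' x) ^ 2) =
          av (fun x => (ν i₀ x - 1) * (G x - G' x) ^ 2) + av (fun x => (G x - G' x) ^ 2) := by
        rw [← av_add]
        congr 1
        funext x
        ring
      rw [h1]
      linarith [(abs_le.1 hA1).2]
    have hfin : |av (fun x => g i₀ x * (G x - G' x))| ≤ ε / 2 := by
      have h1 : (av (fun x => g i₀ x * (G x - G' x))) ^ 2 ≤ (ε / 2) ^ 2 := by
        refine hfirst.trans ?_
        have h2 : 0 ≤ av (fun x => ν i₀ x * (G x - G' x) ^ 2) :=
          av_nonneg fun x => mul_nonneg (hν0 i₀ x) (sq_nonneg _)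
        have h3 : (1 + η) * av (fun x => ν i₀ x * (G x - G' x) ^ 2) ≤ 2 * (ε ^ 2 / 8) :=
          mul_le_mul (by linarith) hνG h2 (by norm_num)
        refine h3.trans (le_of_eq ?_)
        ring
      exact abs_le_of_sq_le_sq h1 (by positivity)
    have htot : av (fun x => ∏ i, g i x) - av (fun x => ∏ i, g' i x) =
        av (fun x => g i₀ x * (G x - G' x)) + av (fun x => (g i₀ x - g' i₀ x) * G' x) := by
      rw [hgG, hg'G, ← av_sub, ← av_add]
      congr 1
      funext x
      ring
    rw [htot]
    refine (abs_add_le _ _).trans ?_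
    linarith

theorem rel_count {k : ℕ} (hk : 1 ≤ k) (ε : ℝ) (hε : 0 < ε) :
    ∃ η : ℝ, 0 < η ∧ ∀ (X : Type) [Fintype X] [Nonempty X] (ν : Fin k → (Fin k → X) → ℝ),
      (∀ i, Ind1 i (ν i)) → (∀ i x, 0 ≤ ν i x) → LFC k ν η →
      ∀ (g g' : Fin k → (Fin k → X) → ℝ),
        (∀ i, Ind1 i (g i)) → (∀ i, Ind1 i (g' i)) →
        (∀ i x, 0 ≤ g i x) → (∀ i x, g i x ≤ ν i x) →
        (∀ i x, 0 ≤ g' i x) → (∀ i x, g' i x ≤ 1) →
        (∀ i, CutH i (fun x => g i x - g' i x) η) →
        |av (fun x => ∏ i, g i x) - av (fun x => ∏ i, g' i x)| ≤ ε := by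
  obtain ⟨η, hη, H⟩ := rel_count_aux hk k ε hε
  refine ⟨η, hη, ?_⟩
  intro X _ _ ν hν hν0 hL g g' hg hg' hg0 hgM hg'0 hg'1 hc
  refine H X ν hν hν0 hL ∅ ?_ g g' hg hg' hg0 ?_ hg'0 hg'1 hc
  · rw [Finset.compl_empty, Finset.card_univ, Fintype.card_fin]
  · intro i x
    unfold MB
    rw [if_neg (Finset.notMem_empty i)]
    exact hgM i x

end GPR
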