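import Pool.Agent.GPR.HDefs

/-!
# GPR: definitions for part III (Selberg majorant in log scale)
-/

namespace GPR

/-- the point of `[0,1)` of a residue -/
noncomputable def uu {N : ℕ} (x : ZMod N) : ℝ := (x.val : ℝ) / N

/-- position `u` of the window `j` -/
noncomputable def yy (w θ s σ : ℝ) (j : ℕ) (u : ℝ) : ℝ := Real.exp (w + j * θ + σ * u) - s

/-- integer version of `psi` -/
def psiZ {k : ℕ} (i : Fin k) (x : Fin k → ℤ) : ℤ := ∑ l : Fin k, (((i : ℕ) : ℤ) - ((l : ℕ) : ℤ)) * x l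

/-- the sieve weight of `m` -/
noncomputable def wt (l : ℕ → ℝ) (D : ℕ) (m : ℕ) : ℝ :=
  ∑ d ∈ (Finset.Icc 1 (D ^ 2)).filter (· ∣ m), l d

/-- the mean of the sieve weight -/
noncomputable def VV (l : ℕ → ℝ) (D : ℕ) : ℝ := ∑ d ∈ Finset.Icc 1 (D ^ 2), l d / d

/-- the majorant of the window `j` (unnormalised: divide by `ε * VV l D`) -/
noncomputable def nu0 {N : ℕ} (w θ s σ ε : ℝ) (l : ℕ → ℝ) (D : ℕ) (j : ℕ) (x : ZMod N) : ℝ :=
  if Int.fract (yy w θ s σ j (uu x)) < ε then wt l D ⌊yy w θ s σ j (uu x)⌋₊ else 0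

/-- `x` is in the arc `[0, 1/4)`, its position in the window `j` is at most `ε` above a prime `> D` -/
def GG {N : ℕ} (w θ s σ ε : ℝ) (D : ℕ) (j : ℕ) (x : ZMod N) : Prop :=
  uu x < 1 / 4 ∧ Int.fract (yy w θ s σ j (uu x)) < ε ∧ Nat.Prime ⌊yy w θ s σ j (uu x)⌋₊ ∧
    D < ⌊yy w θ s σ j (uu x)⌋₊

end GPR
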