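import Pool.Agent.GPR.InsSub

/-!
# GPR/TilOne: one insensitive set is tiled by subspaces up to density β (functional form)

Proof.  Let `m₁ ≥ 1` be the number `N` of `ins_sub` for `m, β/2` (`β ≤ 1` wlog), and
`c₀ = (k+1)^(-m₁)`, the reciprocal of the number of words of length `m₁`.
CLAIM(R), by induction on `R`, for all index types `ι` with `card ι = R * m₁ + s` (`s` arbitrary), all
`r`, all `E` with `Ins r E` and all `f` with `|f| ≤ 1` and `av (f ∘ V) ≤ 0` for every
`m`-dimensional subspace `V` in `E`:
   `av (E.indicator f) ≤ β/2 + (1 - c₀)^R * (dn E - β/2)`.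
`R = 0`: `av (E.indicator f) ≤ dn E`.
Step: split `ι ≃ Fin m₁ ⊕ ι'` with `card ι' = (R-1) m₁ + s`.  For `y : ι' → Fin (k+1)` let
`E_y = {x : Fin m₁ → Fin (k+1) | (x, y) ∈ E}`; it is `r`-insensitive and depends only on `lowW r y`.
If `dn E_y ≥ β/2` choose an `m`-dimensional subspace `V_y` in `E_y`, as a function of `lowW r y` only
(choice applied to the set `E_y`, which depends only on `lowW r y`; e.g. a choice function on the
dense insensitive sets of words).  Let `E'` be `E` minus all the `V_y(z), y)` with `dn E_y ≥ β/2`.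
(a) For fixed `y` dense, `z ↦ (V_y z, y)` is an `m`-dimensional subspace in `E`, injective, so
`∑_z f(V_y z, y) ≤ 0`; it is injective because the subspace is proper.  So
`av (E.indicator f) ≤ av (E'.indicator f)`.
(b) for every fixed `x`, `E'_x = {y | (x, y) ∈ E'}` is `r`-insensitive in `y`, and a subspace of
`E'_x` extends by the fixed `x` to a subspace in `E' ⊆ E`.  By CLAIM(R-1):
`av_y (E'_x.indicator f(x, ·)) ≤ β/2 + (1-c₀)^(R-1) (dn E'_x - β/2)`; average over `x`:
`av (E'.indicator f) ≤ β/2 + (1-c₀)^(R-1) (dn E' - β/2)`.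
(c) `dn E' ≤ (1-c₀) dn E + c₀ β/2`: for each `y`, `dn E'_y ≤ dn E_y - c₀ ≤ (1-c₀) dn E_y` if `y` is
dense (at least one word was removed, `dn E_y ≤ 1`), and `dn E'_y = dn E_y ≤ (1-c₀) dn E_y + c₀ β/2`
if not.  So `dn E' - β/2 ≤ (1-c₀)(dn E - β/2)`.
Finally take `R` with `(1-c₀)^R ≤ β/2` and `N = R * m₁`.
(If it is simpler: prove the claim for index types `ι` with `R * m₁ ≤ card ι`.)
-/

namespace GPR

open Combinatorics

/-! ### helpers -/

private def wordEquivT {ι κ τ : Type*} (E : ι ⊕ κ ≃ τ) (α : Type*) :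
    (ι → α) × (κ → α) ≃ (τ → α) :=
  (Equiv.sumArrowEquivProdArrow ι κ α).symm.trans (Equiv.arrowCongr E (Equiv.refl α))

private theorem wordEquivT_apply {ι κ τ : Type*} (E : ι ⊕ κ ≃ τ) (α : Type*)
    (x : ι → α) (y : κ → α) : wordEquivT E α (x, y) = fun t => Sum.elim x y (E.symm t) := by
  ext t
  simp [wordEquivT, Equiv.sumArrowEquivProdArrow, Equiv.arrowCongr]

/-- a subspace extended by a fixed word on the right -/
private def extR {η α ι κ τ : Type*} (E : ι ⊕ κ ≃ τ) (V : Subspace η α ι) (y : κ → α) :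
    Subspace η α τ where
  idxFun t := Sum.elim V.idxFun (fun c => Sum.inl (y c)) (E.symm t)
  proper e := by
    obtain ⟨i, hi⟩ := V.proper e
    exact ⟨E (Sum.inl i), by simp [hi]⟩

private theorem extR_apply {η α ι κ τ : Type*} (E : ι ⊕ κ ≃ τ) (V : Subspace η α ι)
    (y : κ → α) (x : η → α) : extR E V y x = wordEquivT E α (V x, y) := by
  rw [wordEquivT_apply]
  ext t
  rw [Subspace.coe_apply]
  unfold extR
  simp only
  rcases h : E.symm t with i | c
  · simp only [Sum.elim_inl]
    rw [Subspace.coe_apply]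
  · simp only [Sum.elim_inr, Sum.elim_inl, id]

/-- a subspace extended by a fixed word on the left -/
private def extL {η α ι κ τ : Type*} (E : ι ⊕ κ ≃ τ) (V : Subspace η α κ) (x : ι → α) :
    Subspace η α τ where
  idxFun t := Sum.elim (fun c => Sum.inl (x c)) V.idxFun (E.symm t)
  proper e := by
    obtain ⟨i, hi⟩ := V.proper e
    exact ⟨E (Sum.inr i), by simp [hi]⟩

private theorem extL_apply {η α ι κ τ : Type*} (E : ι ⊕ κ ≃ τ) (V : Subspace η α κ)
    (x : ι → α) (z : η → α) : extL E V x z = wordEquivT E α (x, V z) := by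
  rw [wordEquivT_apply]
  ext t
  rw [Subspace.coe_apply]
  unfold extL
  simp only
  rcases h : E.symm t with i | c
  · simp only [Sum.elim_inl, id]
  · simp only [Sum.elim_inr]
    rw [Subspace.coe_apply]

private theorem lowW_word {k : ℕ} {ι κ τ : Type*} (E : ι ⊕ κ ≃ τ) (r : Fin k)
    {x x' : ι → Fin (k + 1)} {y y' : κ → Fin (k + 1)} (hx : lowW r x = lowW r x')
    (hy : lowW r y = lowW r y') :
    lowW r (wordEquivT E (Fin (k + 1)) (x, y)) = lowW r (wordEquivT E (Fin (k + 1)) (x', y')) := by
  rw [wordEquivT_apply, wordEquivT_apply]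
  funext t
  unfold lowW
  simp only
  rcases h : E.symm t with i | c
  · exact congrFun hx i
  · exact congrFun hy c

private theorem sub_inj {η α ι : Type*} (V : Subspace η α ι) :
    Function.Injective (fun z : η → α => V z) := by
  intro z z' h
  funext e
  obtain ⟨i, hi⟩ := V.proper e
  have := congrFun h i
  simp only [Subspace.coe_apply, hi, Sum.elim_inr] at this
  exact this

private theorem dn_nonempty {X : Type*} [Fintype X] {G : Set X} (h : G.Nonempty) :
    1 / (Fintype.card X : ℝ) ≤ dn G := by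
  obtain ⟨x, hx⟩ := h
  unfold dn av
  refine div_le_div_of_nonneg_right ?_ (by positivity)
  have h1 : G.indicator (fun _ => (1 : ℝ)) x ≤ ∑ x, G.indicator (fun _ => (1 : ℝ)) x :=
    Finset.single_le_sum (f := fun x => G.indicator (fun _ => (1 : ℝ)) x)
      (fun w _ => Set.indicator_nonneg (fun _ _ => zero_le_one) w) (Finset.mem_univ x)
  rw [Set.indicator_of_mem hx] at h1
  exact h1

private theorem ind_sdiff {X : Type*} {A G : Set X} (h : G ⊆ A) (g : X → ℝ) (x : X) :
    A.indicator g x = (A \ G).indicator g x + G.indicator g x := by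
  by_cases hG : x ∈ G
  · rw [Set.indicator_of_mem (h hG), Set.indicator_of_mem hG,
      Set.indicator_of_notMem (fun hh => hh.2 hG), zero_add]
  · by_cases hA : x ∈ A
    · rw [Set.indicator_of_mem hA, Set.indicator_of_notMem hG,
        Set.indicator_of_mem (show x ∈ A \ G from ⟨hA, hG⟩), add_zero]
    · rw [Set.indicator_of_notMem hA, Set.indicator_of_notMem hG,
        Set.indicator_of_notMem (fun hh => hA hh.1), add_zero]

private theorem dn_sdiff {X : Type*} [Fintype X] {A G : Set X} (h : G ⊆ A) :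
    dn (A \ G) = dn A - dn G := by
  have : dn A = dn (A \ G) + dn G := by
    unfold dn
    rw [← av_add]
    congr 1
    funext x
    exact ind_sdiff h _ x
  linarith

private theorem av_range {X Z : Type*} [Fintype X] [Fintype Z] (V : Z → X)
    (hV : Function.Injective V) (g : X → ℝ) (h : av (fun z => g (V z)) ≤ 0) :
    av ((Set.range V).indicator g) ≤ 0 := by
  have h1 : ∑ x, (Set.range V).indicator g x = ∑ z, g (V z) :=
    (Fintype.sum_of_injective V hV (fun z => g (V z)) ((Set.range V).indicator g)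
      (fun i hi => Set.indicator_of_notMem hi _)
      (fun i => (Set.indicator_of_mem (Set.mem_range_self i) _).symm)).symm
  have h2 : ∑ z, g (V z) ≤ 0 := by
    rcases isEmpty_or_nonempty Z with hZ | hZ
    · simp
    · have hpos : (0 : ℝ) < Fintype.card Z := by exact_mod_cast Fintype.card_pos
      unfold av at h
      by_contra hc
      push Not at hc
      exact absurd h (not_le.2 (div_pos hc hpos))
  unfold av
  rw [h1]
  exact div_nonpos_of_nonpos_of_nonneg h2 (by positivity)

/-! ### the induction -/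

private theorem til_step {k m m₁ : ℕ} (β : ℝ) (hβ : 0 < β)
    (hm₁ : ∀ (r : Fin k) (F : Set (Fin m₁ → Fin (k + 1))), Ins r F → β / 2 ≤ dn F →
      ∃ V : Subspace (Fin m) (Fin (k + 1)) (Fin m₁), ∀ x, V x ∈ F) (R : ℕ) :
    ∀ (ι : Type) [Fintype ι] [DecidableEq ι], R * m₁ ≤ Fintype.card ι →
      ∀ (r : Fin k) (E : Set (ι → Fin (k + 1))), Ins r E →
      ∀ f : (ι → Fin (k + 1)) → ℝ, (∀ x, |f x| ≤ 1) →
      (∀ V : Subspace (Fin m) (Fin (k + 1)) ι, (∀ x, V x ∈ E) → av (fun x => f (V x)) ≤ 0) →
      av (E.indicator f) ≤ β / 2 +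
        (1 - 1 / (Fintype.card (Fin m₁ → Fin (k + 1)) : ℝ)) ^ R * (dn E - β / 2) := by
  classical
  induction R with
  | zero =>
    intro ι _ _ _ r E _ f hf _
    rw [pow_zero, one_mul]
    have : av (E.indicator f) ≤ dn E := by
      unfold dn
      refine av_mono fun x => ?_
      by_cases hx : x ∈ E
      · rw [Set.indicator_of_mem hx, Set.indicator_of_mem hx]
        exact (abs_le.1 (hf x)).2
      · rw [Set.indicator_of_notMem hx, Set.indicator_of_notMem hx]
    linarith
  | succ R ih =>
    intro ι _ _ hcard r E hE f hf hV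
    set c : ℝ := 1 / (Fintype.card (Fin m₁ → Fin (k + 1)) : ℝ) with hc
    have hcardpos : (0 : ℝ) < (Fintype.card (Fin m₁ → Fin (k + 1)) : ℝ) := by
      exact_mod_cast Fintype.card_pos
    have hc0 : 0 ≤ c := by rw [hc]; positivity
    have hc1 : c ≤ 1 := by
      rw [hc, div_le_one hcardpos]
      exact_mod_cast Fintype.card_pos
    have hm : m₁ ≤ Fintype.card ι := le_trans (by rw [Nat.succ_mul]; exact Nat.le_add_left _ _) hcard
    have hc' : Fintype.card (Fin m₁) ≤ Fintype.card ι := by simpa using hm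
    obtain ⟨e⟩ := Function.Embedding.nonempty_of_card_le hc'
    let Q : Fin m₁ ⊕ ↥(Set.range e)ᶜ ≃ ι :=
      (Equiv.sumCongr (Equiv.ofInjective e e.injective) (Equiv.refl _)).trans
        (Equiv.Set.sumCompl (Set.range e))
    have hcard' : R * m₁ ≤ Fintype.card ↥(Set.range e)ᶜ := by
      have h1 : Fintype.card (Fin m₁ ⊕ ↥(Set.range e)ᶜ) = Fintype.card ι := Fintype.card_congr Q
      rw [Fintype.card_sum, Fintype.card_fin] at h1
      rw [Nat.succ_mul] at hcard
      omega
    -- sections
    let W : (Fin m₁ → Fin (k + 1)) × (↥(Set.range e)ᶜ → Fin (k + 1)) ≃ (ι → Fin (k + 1)) :=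
      wordEquivT Q (Fin (k + 1))
    let S : (↥(Set.range e)ᶜ → Fin (k + 1)) → Set (Fin m₁ → Fin (k + 1)) := fun y =>
      {x | W (x, y) ∈ E}
    have hSins : ∀ y, Ins r (S y) := fun y x x' hxx hx =>
      hE _ _ (lowW_word Q r hxx rfl) hx
    have hSlow : ∀ y y', lowW r y = lowW r y' → S y = S y' := by
      intro y y' hyy
      ext x
      exact ⟨fun hx => hE _ _ (lowW_word Q r rfl hyy) hx,
        fun hx => hE _ _ (lowW_word Q r rfl hyy.symm) hx⟩
    -- the removed sets
    have hG : ∀ F : Set (Fin m₁ → Fin (k + 1)), ∃ G : Set (Fin m₁ → Fin (k + 1)),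
        (Ins r F → β / 2 ≤ dn F → ∃ V : Subspace (Fin m) (Fin (k + 1)) (Fin m₁),
          (∀ x, V x ∈ F) ∧ G = Set.range (fun z => V z)) ∧ (¬ (Ins r F ∧ β / 2 ≤ dn F) → G = ∅) := by
      intro F
      by_cases hF : Ins r F ∧ β / 2 ≤ dn F
      · obtain ⟨V, hV⟩ := hm₁ r F hF.1 hF.2
        exact ⟨Set.range (fun z => V z), fun _ _ => ⟨V, hV, rfl⟩, fun h => absurd hF h⟩
      · exact ⟨∅, fun h1 h2 => absurd ⟨h1, h2⟩ hF, fun _ => rfl⟩
    choose G hG1 hG2 using hG
    have hGsub : ∀ y, G (S y) ⊆ S y := by
      intro y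
      by_cases hd : β / 2 ≤ dn (S y)
      · obtain ⟨V, hVm, hVr⟩ := hG1 (S y) (hSins y) hd
        rw [hVr]
        rintro _ ⟨z, rfl⟩
        exact hVm z
      · rw [hG2 (S y) (fun h => hd h.2)]
        exact Set.empty_subset _
    -- (a)
    have ha : av (E.indicator f) ≤
        av (fun y => av ((S y \ G (S y)).indicator (fun x => f (W (x, y))))) := by
      rw [← av_equiv W, av_prod']
      refine av_mono fun y => ?_
      have h1 : av (fun x => E.indicator f (W (x, y))) =
          av ((S y \ G (S y)).indicator (fun x => f (W (x, y)))) +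
          av ((G (S y)).indicator (fun x => f (W (x, y)))) := by
        rw [← av_add]
        congr 1
        funext x
        rw [← ind_sdiff (hGsub y)]
        by_cases hx : x ∈ S y
        · rw [Set.indicator_of_mem hx, Set.indicator_of_mem (show W (x, y) ∈ E from hx)]
        · rw [Set.indicator_of_notMem hx, Set.indicator_of_notMem (show W (x, y) ∉ E from hx)]
      rw [h1]
      have h2 : av ((G (S y)).indicator (fun x => f (W (x, y)))) ≤ 0 := by
        by_cases hd : β / 2 ≤ dn (S y)
        · obtain ⟨V, hVm, hVr⟩ := hG1 (S y) (hSins y) hd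
          rw [hVr]
          refine av_range _ (sub_inj V) _ ?_
          have h3 := hV (extR Q V y) (fun z => by rw [extR_apply]; exact hVm z)
          have h4 : (fun z : Fin m → Fin (k + 1) => f (extR Q V y z)) = fun z => f (W (V z, y)) := by
            funext z
            rw [extR_apply]
          rw [h4] at h3
          exact h3
        · rw [hG2 (S y) (fun h => hd h.2)]
          have : (∅ : Set (Fin m₁ → Fin (k + 1))).indicator (fun x => f (W (x, y))) = fun _ => 0 := by
            funext x
            exact Set.indicator_of_notMem (Set.notMem_empty x) _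
          rw [this]
          unfold av
          simp
      linarith
    -- the sections of the remaining set in the other direction
    let T : (Fin m₁ → Fin (k + 1)) → Set (↥(Set.range e)ᶜ → Fin (k + 1)) := fun x =>
      {y | x ∈ S y \ G (S y)}
    have hTins : ∀ x, Ins r (T x) := by
      intro x y y' hyy hy
      have h1 := hSlow y y' hyy
      show x ∈ S y' \ G (S y')
      rw [← h1]
      exact hy
    have hb : ∀ x, av ((T x).indicator (fun y => f (W (x, y)))) ≤
        β / 2 + (1 - c) ^ R * (dn (T x) - β / 2) := by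
      intro x
      refine ih _ hcard' r (T x) (hTins x) (fun y => f (W (x, y))) (fun y => hf _) ?_
      intro V hVT
      have h3 := hV (extL Q V x) (fun z => by rw [extL_apply]; exact (hVT z).1)
      have h4 : (fun z : Fin m → Fin (k + 1) => f (extL Q V x z)) = fun z => f (W (x, V z)) := by
        funext z
        rw [extL_apply]
      rw [h4] at h3
      exact h3
    have hexch : ∀ g : (Fin m₁ → Fin (k + 1)) × (↥(Set.range e)ᶜ → Fin (k + 1)) → ℝ,
        av (fun y => av ((S y \ G (S y)).indicator (fun x => g (x, y)))) =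
        av (fun x => av ((T x).indicator (fun y => g (x, y)))) := by
      intro g
      have h1 : ∀ x y, (S y \ G (S y)).indicator (fun x => g (x, y)) x =
          (T x).indicator (fun y => g (x, y)) y := by
        intro x y
        by_cases hx : x ∈ S y \ G (S y)
        · rw [Set.indicator_of_mem hx, Set.indicator_of_mem (show y ∈ T x from hx)]
        · rw [Set.indicator_of_notMem hx, Set.indicator_of_notMem (show y ∉ T x from hx)]
      have h2 := av_prod (fun p : (Fin m₁ → Fin (k + 1)) × (↥(Set.range e)ᶜ → Fin (k + 1)) =>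
        (T p.1).indicator (fun y => g (p.1, y)) p.2)
      have h3 := av_prod' (fun p : (Fin m₁ → Fin (k + 1)) × (↥(Set.range e)ᶜ → Fin (k + 1)) =>
        (T p.1).indicator (fun y => g (p.1, y)) p.2)
      have h4 : av (fun y => av ((S y \ G (S y)).indicator (fun x => g (x, y)))) =
          av (fun y => av (fun x => (T x).indicator (fun y => g (x, y)) y)) :=
        congrArg av (funext fun y => congrArg av (funext fun x => h1 x y))
      rw [h4]
      exact h3.symm.trans h2
    have hpow : 0 ≤ (1 - c) ^ R := pow_nonneg (by linarith) _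
    -- (b)
    have hbb : av (fun x => av ((T x).indicator (fun y => f (W (x, y))))) ≤
        β / 2 + (1 - c) ^ R * (av (fun x => dn (T x)) - β / 2) := by
      refine (av_mono hb).trans (le_of_eq ?_)
      have h1 : (fun x => β / 2 + (1 - c) ^ R * (dn (T x) - β / 2)) =
          fun x => (β / 2 - (1 - c) ^ R * (β / 2)) + (1 - c) ^ R * dn (T x) := by
        funext x
        ring
      rw [h1, av_add, av_const, av_mul_left]
      ring
    -- (c)
    have hcc : av (fun x => dn (T x)) ≤ (1 - c) * dn E + c * (β / 2) := by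
      have h1 : av (fun x => dn (T x)) = av (fun y => dn (S y \ G (S y))) :=
        (hexch (fun _ => 1)).symm
      have h2 : dn E = av (fun y => dn (S y)) := by
        unfold dn
        rw [← av_equiv W, av_prod']
        rfl
      rw [h1, h2]
      have h3 : (1 - c) * av (fun y => dn (S y)) + c * (β / 2) =
          av (fun y => (1 - c) * dn (S y) + c * (β / 2)) := by
        rw [av_add, av_mul_left, av_const]
      rw [h3]
      refine av_mono fun y => ?_
      rw [dn_sdiff (hGsub y)]
      have hd1 := dn_le_one (S y)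
      have hg0 := dn_nonneg (G (S y))
      by_cases hd : β / 2 ≤ dn (S y)
      · have h4 : c ≤ dn (G (S y)) := by
          obtain ⟨V, hVm, hVr⟩ := hG1 (S y) (hSins y) hd
          rw [hVr]
          exact dn_nonempty ⟨_, ⟨fun _ => 0, rfl⟩⟩
        nlinarith [mul_nonneg hc0 (sub_nonneg.2 hd1), mul_nonneg hc0 hβ.le]
      · push Not at hd
        nlinarith [mul_nonneg hc0 (sub_nonneg.2 hd.le)]
    calc av (E.indicator f) ≤ _ := ha
      _ = _ := hexch (fun p => f (W p))
      _ ≤ _ := hbb
      _ ≤ β / 2 + (1 - c) ^ (R + 1) * (dn E - β / 2) := by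
          have h1 := mul_le_mul_of_nonneg_left hcc hpow
          rw [pow_succ]
          nlinarith [h1]

theorem til_one {k m : ℕ} (hk : 1 ≤ k) (h : DHJ k m) (β : ℝ) (hβ : 0 < β) :
    ∃ N : ℕ, ∀ (ι : Type) [Fintype ι] [DecidableEq ι], N ≤ Fintype.card ι →
      ∀ (r : Fin k) (E : Set (ι → Fin (k + 1))), Ins r E → Til m (k + 1) β E := by
  classical
  obtain ⟨m₁, hm₁⟩ := ins_sub hk h (β / 2) (half_pos hβ)
  have hcardpos : (0 : ℝ) < (Fintype.card (Fin m₁ → Fin (k + 1)) : ℝ) := by
    exact_mod_cast Fintype.card_pos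
  have hc1 : 1 / (Fintype.card (Fin m₁ → Fin (k + 1)) : ℝ) ≤ 1 := by
    rw [div_le_one hcardpos]
    exact_mod_cast Fintype.card_pos
  have hc0 : 0 < 1 / (Fintype.card (Fin m₁ → Fin (k + 1)) : ℝ) := by positivity
  obtain ⟨R, hR⟩ := exists_pow_lt_of_lt_one (half_pos hβ)
    (show 1 - 1 / (Fintype.card (Fin m₁ → Fin (k + 1)) : ℝ) < 1 by linarith)
  refine ⟨R * m₁, ?_⟩
  intro ι _ _ hcard r E hE f hf hV
  have h1 := til_step β hβ (fun r F hF hd => hm₁ (Fin m₁) (by simp) r F hF hd) R ι hcard r E hE f hf hV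
  have hpow : 0 ≤ (1 - 1 / (Fintype.card (Fin m₁ → Fin (k + 1)) : ℝ)) ^ R :=
    pow_nonneg (by linarith) _
  have hd := dn_le_one E
  nlinarith [mul_le_mul_of_nonneg_left hd hpow, mul_nonneg hpow hβ.le]

end GPR
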