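import Pool.Agent.GPR.Defs

/-!
# GPR/Tv: placing fixed letters at random positions hardly changes the uniform measure

Proof.  Fix `v`.  Write `m = card J`, `N = card T`, `s = card S`.  For fixed `y : J × T → S` the
number of pairs `(t, x)` with `place v t x = y` is `∏_j (s * #{a : T | y (j, a) = v j})`
(choose `t`: `t j` must be a position with `y (j, t j) = v j`; then `x` is determined except for the
`m` letters `x (j, t j)`, which are free, `s` choices each).  So, with
`F_j(y) = (s / N) * #{a : T | y (j, a) = v j}`,
  `av (fun (t, x) => f (place v t x)) = av (fun y => f y * ∏_j F_j y)`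
(for fixed `t` the map `x ↦ place v t x` is `s^m` to one onto `{y | ∀ j, y (j, t j) = v j}`; sum over
`t` and use `∑_t ∏_j 1[y (j, t j) = v j] = ∏_j ∑_a 1[y (j, a) = v j]`).
The `F_j` are independent (they depend on different blocks of `y`), `F_j ≥ 0`, `av F_j = 1` and
`av (F_j - 1)^2 = (s^2/N^2) * N * (1/s) * (1 - 1/s) ≤ s / N`.
Telescoping `∏ F_j - 1 = ∑_j (∏_{i<j} F_i) (F_j - 1)`, so
`av |∏ F_j - 1| ≤ ∑_j (∏_{i<j} av F_i) * av |F_j - 1| ≤ m * sqrt (s / N)`.

An alternative route (maybe simpler in this formal setting): a hybrid argument, replacing the blocks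
one at a time, which only needs the case of one block (`J = Unit`), with the other blocks frozen.
-/

namespace GPR

section tvaux

variable {J X : Type} [Fintype J] [Fintype X] [DecidableEq J]

/-- resampling one coordinate, as an involution -/
private def tvE (j : J) : (J → X) × X ≃ (J → X) × X where
  toFun p := (Function.update p.1 j p.2, p.1 j)
  invFun p := (Function.update p.1 j p.2, p.1 j)
  left_inv p := by simp
  right_inv p := by simp

private theorem tv_res [Nonempty X] (j : J) (h : (J → X) → ℝ) :
    av h = av (fun q : J → X => av (fun z : X => h (Function.update q j z))) := by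
  have h1 := av_equiv (tvE (X := X) j) (fun p : (J → X) × X => h p.1)
  have h2 : av (fun p : (J → X) × X => h p.1) = av h := by
    rw [av_prod]
    simp only [av_const]
  have h3 : av (fun x : (J → X) × X => h (tvE j x).1) =
      av (fun q : J → X => av fun z : X => h (Function.update q j z)) := av_prod _
  rw [← h2, ← h1, h3]

private theorem tv_cs (u : X → ℝ) : av (fun x => |u x|) ≤ Real.sqrt (av (fun x => u x ^ 2)) := by
  apply Real.le_sqrt_of_sq_le
  rcases isEmpty_or_nonempty X with h | h
  · unfold av; simp
  have hc : (0 : ℝ) < Fintype.card X := by exact_mod_cast Fintype.card_pos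
  have h1 := sq_sum_le_card_mul_sum_sq (s := (Finset.univ : Finset X)) (f := fun x => |u x|)
  simp only [sq_abs, Finset.card_univ] at h1
  unfold av
  rw [div_pow, div_le_div_iff₀ (by positivity) hc]
  nlinarith [h1]

end tvaux

section one

variable {T S : Type} [Fintype T] [Fintype S] [DecidableEq T] [DecidableEq S] [Nonempty T] [Nonempty S]

/-- the centred weight -/
private noncomputable def tvp (c z : S) : ℝ := (Fintype.card S : ℝ) * (if z = c then 1 else 0) - 1

private theorem tv_ind (c : S) (g : S → ℝ) :
    av (fun z : S => (Fintype.card S : ℝ) * (g z * (if z = c then 1 else 0))) = g c := by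
  have hs : (Fintype.card S : ℝ) ≠ 0 := by exact_mod_cast Fintype.card_ne_zero
  rw [av_mul_left]
  unfold av
  simp only [mul_ite, mul_one, mul_zero, Finset.sum_ite_eq', Finset.mem_univ, if_true]
  field_simp

private theorem tvp_av (c : S) : av (fun z : S => tvp c z) = 0 := by
  have h1 := tv_ind c (fun _ => 1)
  simp only [one_mul] at h1
  unfold tvp
  rw [av_sub, av_const, h1, sub_self]

private theorem tvp_sq (c : S) : av (fun z : S => tvp c z ^ 2) ≤ Fintype.card S := by
  have h1 : ∀ z : S, tvp c z ^ 2 = (Fintype.card S : ℝ) * (((Fintype.card S : ℝ) - 2) * (if z = c then 1 else 0)) + 1 := by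
    intro z
    unfold tvp
    by_cases h : z = c
    · simp only [h, if_true]; ring
    · simp only [h, if_false]; ring
  simp only [h1]
  rw [av_add, av_const, tv_ind c (fun _ => (Fintype.card S : ℝ) - 2)]
  linarith

/-- the density of one block -/
private noncomputable def tvF (c : S) (x : T → S) : ℝ := av (fun a : T => tvp c (x a))

private theorem tvF_sq (c : S) : av (fun x : T → S => tvF c x ^ 2) ≤ (Fintype.card S : ℝ) / Fintype.card T := by
  have hN : (0 : ℝ) < Fintype.card T := by exact_mod_cast Fintype.card_pos
  have hoff : ∀ a b : T, a ≠ b → av (fun x : T → S => tvp c (x a) * tvp c (x b)) = 0 := by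
    intro a b hab
    rw [tv_res a]
    have h1 : ∀ q : T → S, av (fun z : S => tvp c (Function.update q a z a) * tvp c (Function.update q a z b)) = 0 := by
      intro q
      have h2 : ∀ z : S, tvp c (Function.update q a z a) * tvp c (Function.update q a z b) =
          tvp c (q b) * tvp c z := by
        intro z
        rw [Function.update_self, Function.update_of_ne hab.symm, mul_comm]
      simp only [h2]
      rw [av_mul_left, tvp_av, mul_zero]
    simp only [h1]
    exact av_const 0
  have hdiag : ∀ a : T, av (fun x : T → S => tvp c (x a) * tvp c (x a)) ≤ Fintype.card S := by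
    intro a
    rw [tv_res a]
    have h1 : ∀ q : T → S, av (fun z : S => tvp c (Function.update q a z a) * tvp c (Function.update q a z a)) ≤
        Fintype.card S := by
      intro q
      have h2 : ∀ z : S, tvp c (Function.update q a z a) * tvp c (Function.update q a z a) = tvp c z ^ 2 := by
        intro z
        rw [Function.update_self]; ring
      simp only [h2]
      exact tvp_sq c
    exact av_le h1
  have h1 : ∀ x : T → S, tvF c x ^ 2 = (∑ a, ∑ b, tvp c (x a) * tvp c (x b)) / (Fintype.card T : ℝ) ^ 2 := by
    intro x
    unfold tvF av
    rw [div_pow, sq (∑ a, tvp c (x a)), Finset.sum_mul_sum]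
  have h2 : av (fun x : T → S => tvF c x ^ 2) =
      (∑ a, ∑ b, av (fun x : T → S => tvp c (x a) * tvp c (x b))) / (Fintype.card T : ℝ) ^ 2 := by
    simp only [h1]
    unfold av
    rw [← Finset.sum_div, div_right_comm]
    congr 1
    rw [Finset.sum_comm, Finset.sum_div]
    refine Finset.sum_congr rfl fun a _ => ?_
    rw [Finset.sum_comm, Finset.sum_div]
  have h3 : ∀ a : T, ∑ b, av (fun x : T → S => tvp c (x a) * tvp c (x b)) ≤ Fintype.card S := by
    intro a
    rw [Finset.sum_eq_single a (fun b _ hb => hoff a b hb.symm) (fun h => absurd (Finset.mem_univ a) h)]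
    exact hdiag a
  rw [h2, div_le_div_iff₀ (by positivity) hN]
  have h4 : ∑ a : T, ∑ b, av (fun x : T → S => tvp c (x a) * tvp c (x b)) ≤ Fintype.card T * Fintype.card S := by
    calc _ ≤ ∑ a : T, (Fintype.card S : ℝ) := Finset.sum_le_sum fun a _ => h3 a
      _ = _ := by rw [Finset.sum_const, Finset.card_univ, nsmul_eq_mul]
  nlinarith [h4, hN]

/-- one block -/
private theorem tv_one (c : S) (g : (T → S) → ℝ) (hg : ∀ x, |g x| ≤ 1) :
    |av (fun p : T × (T → S) => g (Function.update p.2 p.1 c)) - av (fun p : T × (T → S) => g p.2)| ≤
      Real.sqrt ((Fintype.card S : ℝ) / Fintype.card T) := by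
  have h1 : av (fun p : T × (T → S) => g (Function.update p.2 p.1 c)) - av (fun p : T × (T → S) => g p.2) =
      av (fun x : T → S => g x * tvF c x) := by
    rw [← av_sub, av_prod]
    have h2 : ∀ a : T, av (fun x : T → S => g (Function.update x a c) - g x) =
        av (fun x : T → S => g x * tvp c (x a)) := by
      intro a
      have h3 : av (fun x : T → S => g (Function.update x a c)) =
          av (fun x : T → S => (Fintype.card S : ℝ) * (g x * (if x a = c then 1 else 0))) := by
        rw [tv_res a (fun x : T → S => (Fintype.card S : ℝ) * (g x * (if x a = c then 1 else 0)))]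
        congr 1
        funext q
        have h4 := tv_ind c (fun z => g (Function.update q a z))
        simp only [Function.update_self]
        exact h4.symm
      rw [av_sub, h3, ← av_sub]
      congr 1
      funext x
      unfold tvp
      ring
    simp only [h2]
    rw [← av_prod (fun p : T × (T → S) => g p.2 * tvp c (p.2 p.1)), av_prod']
    congr 1
    funext x
    exact av_mul_left (g x) (fun a => tvp c (x a))
  rw [h1]
  calc |av (fun x : T → S => g x * tvF c x)| ≤ av (fun x : T → S => |g x * tvF c x|) := abs_av_le _
    _ ≤ av (fun x : T → S => |tvF c x|) := av_mono fun x => by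
        rw [abs_mul]
        exact mul_le_of_le_one_left (abs_nonneg _) (hg x)
    _ ≤ Real.sqrt (av (fun x : T → S => tvF c x ^ 2)) := tv_cs _
    _ ≤ _ := Real.sqrt_le_sqrt (tvF_sq c)

end one

/-- the hybrid words: the blocks in `A` are changed -/
private def tvH {J T S : Type} [DecidableEq J] [DecidableEq T] (v : J → S) (A : Finset J) (q : J → T × (T → S)) :
    J × T → S :=
  fun p => if p.1 ∈ A ∧ p.2 = (q p.1).1 then v p.1 else (q p.1).2 p.2

theorem place_av {J T S : Type} [Fintype J] [Fintype T] [Fintype S] [DecidableEq J]
    [DecidableEq T] [Nonempty T] [Nonempty S] (v : J → S) (f : (J × T → S) → ℝ)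
    (hf : ∀ x, |f x| ≤ 1) :
    |av (fun q : (J → T) × (J × T → S) => f (place v q.1 q.2)) - av f|
      ≤ (Fintype.card J : ℝ) * Real.sqrt ((Fintype.card S : ℝ) / (Fintype.card T : ℝ)) := by
  classical
  set δ : ℝ := Real.sqrt ((Fintype.card S : ℝ) / (Fintype.card T : ℝ)) with hδ
  -- one more block
  have hstep : ∀ (A : Finset J) (j : J), j ∉ A →
      |av (fun q : J → T × (T → S) => f (tvH v (insert j A) q)) - av (fun q => f (tvH v A q))| ≤ δ := by
    intro A j hj
    rw [tv_res j (fun q : J → T × (T → S) => f (tvH v (insert j A) q)),
      tv_res j (fun q : J → T × (T → S) => f (tvH v A q)), ← av_sub]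
    refine (abs_av_le _).trans (av_le fun q => ?_)
    -- the word with the block `j` replaced
    set G : (T → S) → (J × T → S) := fun y p => if p.1 = j then y p.2 else tvH v A q p with hG
    have e1 : ∀ z : T × (T → S), tvH v (insert j A) (Function.update q j z) = G (Function.update z.2 z.1 (v j)) := by
      intro z
      funext p
      obtain ⟨i, a⟩ := p
      by_cases hi : i = j
      · subst hi
        simp only [tvH, hG, Finset.mem_insert, true_or, true_and, Function.update_self, if_true]
        by_cases ha : a = z.1
        · subst ha
          simp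
        · rw [if_neg ha, Function.update_of_ne ha]
      · simp only [tvH, hG, Finset.mem_insert, hi, false_or, if_false, Function.update_of_ne hi]
    have e2 : ∀ z : T × (T → S), tvH v A (Function.update q j z) = G z.2 := by
      intro z
      funext p
      obtain ⟨i, a⟩ := p
      by_cases hi : i = j
      · subst hi
        simp only [tvH, hG, hj, false_and, if_false, Function.update_self, if_true]
      · simp only [tvH, hG, hi, if_false, Function.update_of_ne hi]
    simp only [e1, e2]
    exact tv_one (v j) (fun y => f (G y)) (fun y => hf _)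
  -- all blocks
  have hall : ∀ A : Finset J,
      |av (fun q : J → T × (T → S) => f (tvH v A q)) - av (fun q : J → T × (T → S) => f (tvH v ∅ q))| ≤ A.card * δ := by
    intro A
    induction A using Finset.induction_on with
    | empty => simp
    | insert j A hj ih =>
      rw [Finset.card_insert_of_notMem hj]
      have h1 := hstep A j hj
      push_cast
      have h2 := abs_add_le (av (fun q : J → T × (T → S) => f (tvH v (insert j A) q)) - av (fun q => f (tvH v A q)))
        (av (fun q : J → T × (T → S) => f (tvH v A q)) - av (fun q => f (tvH v ∅ q)))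
      rw [sub_add_sub_cancel] at h2
      linarith
  -- change of variables
  let e : ((J → T) × (J × T → S)) ≃ (J → T × (T → S)) :=
    { toFun := fun q j => (q.1 j, fun a => q.2 (j, a))
      invFun := fun q => (fun j => (q j).1, fun p => (q p.1).2 p.2)
      left_inv := fun q => rfl
      right_inv := fun q => rfl }
  have h1 : av (fun q : (J → T) × (J × T → S) => f (place v q.1 q.2)) =
      av (fun q : J → T × (T → S) => f (tvH v Finset.univ q)) := by
    rw [← av_equiv e]
    congr 1
    funext q
    congr 1
    funext p
    simp only [place, tvH, Finset.mem_univ, true_and]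
    rfl
  have h2 : av f = av (fun q : J → T × (T → S) => f (tvH v ∅ q)) := by
    rw [← av_equiv e, av_prod]
    have h3 : ∀ (t : J → T) (x : J × T → S), tvH v ∅ (e (t, x)) = x := by
      intro t x
      funext p
      simp only [tvH, Finset.notMem_empty, false_and, if_false]
      rfl
    simp only [h3]
    exact (av_const _).symm
  rw [h1, h2]
  have h4 := hall Finset.univ
  rwa [Finset.card_univ] at h4

end GPR
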