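import Mathlib

/-!
# GPR/VdcInt: van der Corput's lemma for integrals, derivatives of any order

`vdc_one`: integration by parts, `∫ e(Φ) = [e(Φ)/(2πiΦ')] + ∫ e(Φ) Φ''/(2πi Φ'^2)`, so the integral is at
most `1/(π lam) + B (b-a)/(2 π lam^2)`.
`vdc_mono`: the same with `Φ'` monotone instead of a bound for `Φ''`: if `Φ''` has constant sign on
`[a,b]` and `|Φ'| ≥ lam` there: `∫ |Φ''|/Φ'^2 = |1/Φ'(b) - 1/Φ'(a)| ≤ 2/lam`.
`vdc_n`: induction on `n ≥ 2` (classical).  Suppose `|Φ^(n)| ≥ lam` on `[a,b]`; it has constant sign, so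
`Φ^(n-1)` is strictly monotone, and for `κ > 0` the set of `t ∈ [a,b]` with `|Φ^(n-1)(t)| ≤ κ` is
contained in an interval of length `≤ 2κ/lam`.  Outside, on at most two intervals, `|Φ^(n-1)| ≥ κ`; for
`n = 2` use `vdc_mono` there, for `n > 2` the induction hypothesis.  Take `κ = lam^((n-1)/n)`:
`2κ/lam = 2 lam^(-1/n)` and `C_{n-1} κ^(-1/(n-1)) = C_{n-1} lam^(-1/n)`.
-/

namespace GPR

open MeasureTheory

private theorem vdc_norm_e (Φ : ℝ → ℝ) (t : ℝ) :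
    ‖Complex.exp (2 * Real.pi * Complex.I * (Φ t : ℂ))‖ = 1 := by
  have h : 2 * Real.pi * Complex.I * (Φ t : ℂ) = ((2 * Real.pi * Φ t : ℝ) : ℂ) * Complex.I := by
    push_cast
    ring
  rw [h, Complex.norm_exp_ofReal_mul_I]

private theorem vdc_deriv2 {Φ : ℝ → ℝ} (hΦ : ContDiff ℝ 2 Φ) (t : ℝ) :
    HasDerivAt (deriv Φ) (iteratedDeriv 2 Φ t) t := by
  have h1 : Differentiable ℝ (iteratedDeriv 1 Φ) := hΦ.differentiable_iteratedDeriv 1 (by norm_num)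
  rw [iteratedDeriv_one] at h1
  have h2 : iteratedDeriv 2 Φ = deriv (deriv Φ) := by
    rw [iteratedDeriv_succ, iteratedDeriv_one]
  rw [h2]
  exact (h1 t).hasDerivAt

private theorem vdc_core (Φ : ℝ → ℝ) (a b : ℝ) (hab : a ≤ b) (hΦ : ContDiff ℝ 2 Φ)
    (h0 : ∀ t ∈ Set.Icc a b, deriv Φ t ≠ 0) :
    ‖∫ t in a..b, Complex.exp (2 * Real.pi * Complex.I * (Φ t : ℂ))‖ ≤
      (|deriv Φ a|⁻¹ + |deriv Φ b|⁻¹ + ∫ t in a..b, |iteratedDeriv 2 Φ t| / (deriv Φ t) ^ 2) / 2 := by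
  have hpi : (2 : ℝ) ≤ 2 * Real.pi := by linarith [Real.pi_gt_three]
  have hpi0 : (0 : ℝ) < 2 * Real.pi := by linarith
  obtain ⟨w, hw⟩ : ∃ w : ℂ, w = 2 * Real.pi * Complex.I := ⟨_, rfl⟩
  rw [← hw]
  have hwn : ‖w‖ = 2 * Real.pi := by
    rw [hw, norm_mul, Complex.norm_I, mul_one, ← Complex.ofReal_ofNat, ← Complex.ofReal_mul, Complex.norm_real,
      Real.norm_eq_abs, abs_of_pos hpi0]
  have hw0 : w ≠ 0 := by
    intro h
    rw [h, norm_zero] at hwn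
    linarith
  have hwx : ∀ x : ℝ, ‖w * (x : ℂ)‖ = 2 * Real.pi * |x| := fun x => by
    rw [norm_mul, hwn, Complex.norm_real, Real.norm_eq_abs]
  have hE1 : ∀ t : ℝ, ‖Complex.exp (w * (Φ t : ℂ))‖ = 1 := fun t => by
    rw [hw]
    exact vdc_norm_e Φ t
  have hd1 : Differentiable ℝ Φ := hΦ.differentiable (by norm_num)
  have hc1 : Continuous (deriv Φ) := hΦ.continuous_deriv (by norm_num)
  have hc2 : Continuous (iteratedDeriv 2 Φ) := hΦ.continuous_iteratedDeriv 2 (by norm_num)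
  have hv : ∀ t : ℝ, HasDerivAt (fun t : ℝ => Complex.exp (w * (Φ t : ℂ)))
      (Complex.exp (w * (Φ t : ℂ)) * (w * ((deriv Φ t : ℝ) : ℂ))) t := fun t =>
    (((hd1 t).hasDerivAt.ofReal_comp).const_mul w).cexp
  have hu : ∀ t ∈ Set.uIcc a b, HasDerivAt (fun t : ℝ => (w * ((deriv Φ t : ℝ) : ℂ))⁻¹)
      (-(w * ((iteratedDeriv 2 Φ t : ℝ) : ℂ)) / (w * ((deriv Φ t : ℝ) : ℂ)) ^ 2) t := fun t ht => by
    rw [Set.uIcc_of_le hab] at ht
    refine (((vdc_deriv2 hΦ t).ofReal_comp).const_mul w).inv ?_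
    exact mul_ne_zero hw0 (by exact_mod_cast h0 t ht)
  have hne : ∀ t ∈ Set.uIcc a b, w * ((deriv Φ t : ℝ) : ℂ) ≠ 0 := fun t ht => by
    rw [Set.uIcc_of_le hab] at ht
    exact mul_ne_zero hw0 (by exact_mod_cast h0 t ht)
  have hcP : Continuous fun t : ℝ => w * ((deriv Φ t : ℝ) : ℂ) := continuous_const.mul (Complex.continuous_ofReal.comp hc1)
  have hcQ : Continuous fun t : ℝ => w * ((iteratedDeriv 2 Φ t : ℝ) : ℂ) :=
    continuous_const.mul (Complex.continuous_ofReal.comp hc2)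
  have hcE : Continuous fun t : ℝ => Complex.exp (w * (Φ t : ℂ)) :=
    Complex.continuous_exp.comp (continuous_const.mul (Complex.continuous_ofReal.comp hd1.continuous))
  have hcU : ContinuousOn (fun t : ℝ => -(w * ((iteratedDeriv 2 Φ t : ℝ) : ℂ)) / (w * ((deriv Φ t : ℝ) : ℂ)) ^ 2)
      (Set.uIcc a b) :=
    hcQ.neg.continuousOn.div (hcP.pow 2).continuousOn fun t ht => pow_ne_zero 2 (hne t ht)
  have hparts := intervalIntegral.integral_mul_deriv_eq_deriv_mul (a := a) (b := b) hu (fun t _ => hv t)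
    hcU.intervalIntegrable ((hcE.mul hcP).intervalIntegrable a b)
  have hlhs : ∫ t in a..b, (w * ((deriv Φ t : ℝ) : ℂ))⁻¹ * (Complex.exp (w * (Φ t : ℂ)) * (w * ((deriv Φ t : ℝ) : ℂ))) =
      ∫ t in a..b, Complex.exp (w * (Φ t : ℂ)) := by
    refine intervalIntegral.integral_congr fun t ht => ?_
    have h3 := hne t ht
    show (w * ((deriv Φ t : ℝ) : ℂ))⁻¹ * (Complex.exp (w * (Φ t : ℂ)) * (w * ((deriv Φ t : ℝ) : ℂ))) =
      Complex.exp (w * (Φ t : ℂ))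
    rw [mul_comm (Complex.exp _), ← mul_assoc, inv_mul_cancel₀ h3, one_mul]
  rw [hlhs] at hparts
  rw [hparts]
  have hun : ∀ t : ℝ, ‖(w * ((deriv Φ t : ℝ) : ℂ))⁻¹ * Complex.exp (w * (Φ t : ℂ))‖ ≤ |deriv Φ t|⁻¹ / 2 := fun t => by
    rw [norm_mul, hE1, mul_one, norm_inv, hwx, mul_inv, mul_comm, div_eq_mul_inv]
    exact mul_le_mul_of_nonneg_left (inv_anti₀ (by norm_num) hpi) (by positivity)
  have hI : ‖∫ t in a..b, -(w * ((iteratedDeriv 2 Φ t : ℝ) : ℂ)) / (w * ((deriv Φ t : ℝ) : ℂ)) ^ 2 * Complex.exp (w * (Φ t : ℂ))‖ ≤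
      ∫ t in a..b, |iteratedDeriv 2 Φ t| / (deriv Φ t) ^ 2 / 2 := by
    refine intervalIntegral.norm_integral_le_of_norm_le hab ?_ ?_
    · refine Filter.Eventually.of_forall fun t _ => ?_
      rw [norm_mul, hE1, mul_one, norm_div, norm_neg, norm_pow, hwx, hwx, mul_pow, sq_abs]
      rcases eq_or_ne (deriv Φ t) 0 with h | h
      · rw [h]
        simp
      · have h4 : 2 * Real.pi * |iteratedDeriv 2 Φ t| / ((2 * Real.pi) ^ 2 * deriv Φ t ^ 2) =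
            (2 * Real.pi)⁻¹ * (|iteratedDeriv 2 Φ t| / deriv Φ t ^ 2) := by
          field_simp
        rw [h4, mul_comm, div_eq_mul_inv _ (2 : ℝ)]
        exact mul_le_mul_of_nonneg_left (inv_anti₀ (by norm_num) hpi) (by positivity)
    · refine ContinuousOn.intervalIntegrable (ContinuousOn.div_const ?_ 2)
      refine hc2.abs.continuousOn.div (hc1.pow 2).continuousOn fun t ht => ?_
      rw [Set.uIcc_of_le hab] at ht
      exact pow_ne_zero 2 (h0 t ht)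
  calc _ ≤ ‖(w * ((deriv Φ b : ℝ) : ℂ))⁻¹ * Complex.exp (w * (Φ b : ℂ)) - (w * ((deriv Φ a : ℝ) : ℂ))⁻¹ * Complex.exp (w * (Φ a : ℂ))‖ +
        ‖∫ t in a..b, -(w * ((iteratedDeriv 2 Φ t : ℝ) : ℂ)) / (w * ((deriv Φ t : ℝ) : ℂ)) ^ 2 * Complex.exp (w * (Φ t : ℂ))‖ :=
        norm_sub_le _ _
    _ ≤ (‖(w * ((deriv Φ b : ℝ) : ℂ))⁻¹ * Complex.exp (w * (Φ b : ℂ))‖ + ‖(w * ((deriv Φ a : ℝ) : ℂ))⁻¹ * Complex.exp (w * (Φ a : ℂ))‖) +
        ∫ t in a..b, |iteratedDeriv 2 Φ t| / (deriv Φ t) ^ 2 / 2 := add_le_add (norm_sub_le _ _) hI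
    _ ≤ _ := by
        have h5 := hun a
        have h6 := hun b
        rw [intervalIntegral.integral_div]
        linarith

private theorem vdc_J_int {Φ : ℝ → ℝ} {a b : ℝ} (hab : a ≤ b) (hΦ : ContDiff ℝ 2 Φ)
    (h0 : ∀ t ∈ Set.Icc a b, deriv Φ t ≠ 0) :
    IntervalIntegrable (fun t => |iteratedDeriv 2 Φ t| / (deriv Φ t) ^ 2) volume a b := by
  have hc1 : Continuous (deriv Φ) := hΦ.continuous_deriv (by norm_num)
  have hc2 : Continuous (iteratedDeriv 2 Φ) := hΦ.continuous_iteratedDeriv 2 (by norm_num)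
  refine ContinuousOn.intervalIntegrable ?_
  refine hc2.abs.continuousOn.div (hc1.pow 2).continuousOn fun t ht => ?_
  rw [Set.uIcc_of_le hab] at ht
  exact pow_ne_zero 2 (h0 t ht)

private theorem vdc_ne {Φ : ℝ → ℝ} {a b lam : ℝ} (hl : 0 < lam) (h1 : ∀ t ∈ Set.Icc a b, lam ≤ |deriv Φ t|) :
    ∀ t ∈ Set.Icc a b, deriv Φ t ≠ 0 := fun t ht h => by
  have := h1 t ht
  rw [h, abs_zero] at this
  linarith

theorem vdc_one (Φ : ℝ → ℝ) (a b lam B : ℝ) (hab : a ≤ b) (hl : 0 < lam) (hΦ : ContDiff ℝ 2 Φ)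
    (h1 : ∀ t ∈ Set.Icc a b, lam ≤ |deriv Φ t|)
    (h2 : ∀ t ∈ Set.Icc a b, |iteratedDeriv 2 Φ t| ≤ B) :
    ‖∫ t in a..b, Complex.exp (2 * Real.pi * Complex.I * (Φ t : ℂ))‖ ≤
      1 / lam * (1 + B * (b - a) / lam) := by
  have h0 := vdc_ne hl h1
  refine (vdc_core Φ a b hab hΦ h0).trans ?_
  have hB : 0 ≤ B := (abs_nonneg _).trans (h2 a ⟨le_rfl, hab⟩)
  have h3 : ∫ t in a..b, |iteratedDeriv 2 Φ t| / (deriv Φ t) ^ 2 ≤ ∫ _t in a..b, B / lam ^ 2 := by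
    refine intervalIntegral.integral_mono_on hab (vdc_J_int hab hΦ h0) intervalIntegrable_const ?_
    intro t ht
    refine div_le_div₀ hB (h2 t ht) (by positivity) ?_
    rw [← sq_abs (deriv Φ t)]
    exact pow_le_pow_left₀ hl.le (h1 t ht) 2
  rw [intervalIntegral.integral_const, smul_eq_mul] at h3
  have h4 := inv_anti₀ hl (h1 a ⟨le_rfl, hab⟩)
  have h5 := inv_anti₀ hl (h1 b ⟨hab, le_rfl⟩)
  have h6 : 0 ≤ (b - a) * (B / lam ^ 2) := mul_nonneg (by linarith) (by positivity)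
  have h7 : 1 / lam * (1 + B * (b - a) / lam) = lam⁻¹ + (b - a) * (B / lam ^ 2) := by
    field_simp
  rw [h7]
  linarith

/-- the same with a monotone derivative -/
private theorem vdc_mono (Φ : ℝ → ℝ) (a b lam : ℝ) (hab : a ≤ b) (hl : 0 < lam) (hΦ : ContDiff ℝ 2 Φ)
    (h1 : ∀ t ∈ Set.Icc a b, lam ≤ |deriv Φ t|)
    (h2 : (∀ t ∈ Set.Icc a b, 0 ≤ iteratedDeriv 2 Φ t) ∨ (∀ t ∈ Set.Icc a b, iteratedDeriv 2 Φ t ≤ 0)) :
    ‖∫ t in a..b, Complex.exp (2 * Real.pi * Complex.I * (Φ t : ℂ))‖ ≤ 2 * lam⁻¹ := by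
  have h0 := vdc_ne hl h1
  refine (vdc_core Φ a b hab hΦ h0).trans ?_
  have hc1 : Continuous (deriv Φ) := hΦ.continuous_deriv (by norm_num)
  have hc2 : Continuous (iteratedDeriv 2 Φ) := hΦ.continuous_iteratedDeriv 2 (by norm_num)
  have h4 := inv_anti₀ hl (h1 a ⟨le_rfl, hab⟩)
  have h5 := inv_anti₀ hl (h1 b ⟨hab, le_rfl⟩)
  have hF : ∫ t in a..b, -iteratedDeriv 2 Φ t / (deriv Φ t) ^ 2 = (deriv Φ b)⁻¹ - (deriv Φ a)⁻¹ := by
    refine intervalIntegral.integral_eq_sub_of_hasDerivAt (f := fun t => (deriv Φ t)⁻¹) ?_ ?_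
    · intro t ht
      rw [Set.uIcc_of_le hab] at ht
      exact (vdc_deriv2 hΦ t).inv (h0 t ht)
    · refine ContinuousOn.intervalIntegrable ?_
      refine hc2.neg.continuousOn.div (hc1.pow 2).continuousOn fun t ht => ?_
      rw [Set.uIcc_of_le hab] at ht
      exact pow_ne_zero 2 (h0 t ht)
  have hab1 : |(deriv Φ b)⁻¹| ≤ lam⁻¹ := by rw [abs_inv]; exact h5
  have haa1 : |(deriv Φ a)⁻¹| ≤ lam⁻¹ := by rw [abs_inv]; exact h4
  have h3 : ∫ t in a..b, |iteratedDeriv 2 Φ t| / (deriv Φ t) ^ 2 ≤ 2 * lam⁻¹ := by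
    rcases h2 with h2 | h2
    · have e : ∫ t in a..b, |iteratedDeriv 2 Φ t| / (deriv Φ t) ^ 2 =
          ∫ t in a..b, -(-iteratedDeriv 2 Φ t / (deriv Φ t) ^ 2) := by
        refine intervalIntegral.integral_congr fun t ht => ?_
        rw [Set.uIcc_of_le hab] at ht
        show |iteratedDeriv 2 Φ t| / (deriv Φ t) ^ 2 = -(-iteratedDeriv 2 Φ t / (deriv Φ t) ^ 2)
        rw [abs_of_nonneg (h2 t ht), neg_div, neg_neg]
      rw [e, intervalIntegral.integral_neg, hF]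
      linarith [(abs_le.1 hab1).1, (abs_le.1 haa1).2]
    · have e : ∫ t in a..b, |iteratedDeriv 2 Φ t| / (deriv Φ t) ^ 2 =
          ∫ t in a..b, -iteratedDeriv 2 Φ t / (deriv Φ t) ^ 2 := by
        refine intervalIntegral.integral_congr fun t ht => ?_
        rw [Set.uIcc_of_le hab] at ht
        show |iteratedDeriv 2 Φ t| / (deriv Φ t) ^ 2 = -iteratedDeriv 2 Φ t / (deriv Φ t) ^ 2
        rw [abs_of_nonpos (h2 t ht)]
      rw [e, hF]
      linarith [(abs_le.1 hab1).2, (abs_le.1 haa1).1]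
  linarith

private theorem vdc_split_pos (g g' : ℝ → ℝ) (a b lam κ : ℝ) (hab : a ≤ b) (hl : 0 < lam) (hκ : 0 < κ)
    (hg : ∀ t, HasDerivAt g (g' t) t) (h : ∀ t ∈ Set.Icc a b, lam ≤ g' t) :
    ∃ c d : ℝ, a ≤ c ∧ c ≤ d ∧ d ≤ b ∧ d - c ≤ 2 * κ / lam ∧ (c = a ∨ ∀ t ∈ Set.Icc a c, g t ≤ -κ) ∧
      (d = b ∨ ∀ t ∈ Set.Icc d b, κ ≤ g t) := by
  have hcont : Continuous g := continuous_iff_continuousAt.2 fun t => (hg t).continuousAt
  have hgrow : ∀ x ∈ Set.Icc a b, ∀ y ∈ Set.Icc a b, x ≤ y → lam * (y - x) ≤ g y - g x := by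
    intro x hx y hy hxy
    refine (convex_Icc a b).mul_sub_le_image_sub_of_le_deriv hcont.continuousOn
      (fun t _ => (hg t).differentiableAt.differentiableWithinAt) (fun t ht => ?_) x hx y hy hxy
    rw [(hg t).deriv]
    exact h t (interior_subset ht)
  have hmono : ∀ x ∈ Set.Icc a b, ∀ y ∈ Set.Icc a b, x ≤ y → g x ≤ g y := by
    intro x hx y hy hxy
    have := hgrow x hx y hy hxy
    nlinarith [mul_nonneg hl.le (sub_nonneg.2 hxy)]
  have h2 : 0 ≤ 2 * κ / lam := by positivity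
  have haI : a ∈ Set.Icc a b := ⟨le_rfl, hab⟩
  have hbI : b ∈ Set.Icc a b := ⟨hab, le_rfl⟩
  by_cases hb : g b ≤ -κ
  · exact ⟨b, b, hab, le_rfl, le_rfl, by rw [sub_self]; exact h2,
      Or.inr fun t ht => (hmono t ht b hbI ht.2).trans hb, Or.inl rfl⟩
  by_cases ha : κ ≤ g a
  · exact ⟨a, a, le_rfl, le_rfl, hab, by rw [sub_self]; exact h2, Or.inl rfl,
      Or.inr fun t ht => ha.trans (hmono a haI t ht ht.1)⟩
  push Not at hb ha
  obtain ⟨c, hcI, hc1, hc2, hc3⟩ : ∃ c ∈ Set.Icc a b, -κ ≤ g c ∧ g c < κ ∧ (c = a ∨ ∀ t ∈ Set.Icc a c, g t ≤ -κ) := by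
    by_cases hc : -κ ≤ g a
    · exact ⟨a, haI, hc, ha, Or.inl rfl⟩
    · push Not at hc
      obtain ⟨c, hcI, hc1⟩ := intermediate_value_Icc hab hcont.continuousOn (show -κ ∈ Set.Icc (g a) (g b) from
        ⟨hc.le, hb.le⟩)
      refine ⟨c, hcI, hc1.ge, by rw [hc1]; linarith, Or.inr fun t ht => ?_⟩
      rw [← hc1]
      exact hmono t ⟨ht.1, ht.2.trans hcI.2⟩ c hcI ht.2
  obtain ⟨d, hdI, hd1, hd2⟩ : ∃ d ∈ Set.Icc c b, g d ≤ κ ∧ (d = b ∨ ∀ t ∈ Set.Icc d b, κ ≤ g t) := by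
    by_cases hd : g b ≤ κ
    · exact ⟨b, ⟨hcI.2, le_rfl⟩, hd, Or.inl rfl⟩
    · push Not at hd
      obtain ⟨d, hdI, hd1⟩ := intermediate_value_Icc hcI.2 hcont.continuousOn (show κ ∈ Set.Icc (g c) (g b) from
        ⟨hc2.le, hd.le⟩)
      refine ⟨d, hdI, hd1.le, Or.inr fun t ht => ?_⟩
      rw [← hd1]
      exact hmono d ⟨hcI.1.trans hdI.1, hdI.2⟩ t ⟨(hcI.1.trans hdI.1).trans ht.1, ht.2⟩ ht.1
  refine ⟨c, d, hcI.1, hdI.1, hdI.2, ?_, hc3, hd2⟩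
  rw [le_div_iff₀ hl]
  have := hgrow c hcI d ⟨hcI.1.trans hdI.1, hdI.2⟩ hdI.1
  linarith

private theorem vdc_split (g g' : ℝ → ℝ) (a b lam κ : ℝ) (hab : a ≤ b) (hl : 0 < lam) (hκ : 0 < κ)
    (hg : ∀ t, HasDerivAt g (g' t) t) (hg' : Continuous g') (h : ∀ t ∈ Set.Icc a b, lam ≤ |g' t|) :
    ((∀ t ∈ Set.Icc a b, 0 ≤ g' t) ∨ (∀ t ∈ Set.Icc a b, g' t ≤ 0)) ∧
    ∃ c d : ℝ, a ≤ c ∧ c ≤ d ∧ d ≤ b ∧ d - c ≤ 2 * κ / lam ∧ (c = a ∨ ∀ t ∈ Set.Icc a c, κ ≤ |g t|) ∧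
      (d = b ∨ ∀ t ∈ Set.Icc d b, κ ≤ |g t|) := by
  have hne : ∀ t ∈ Set.Icc a b, g' t ≠ 0 := fun t ht h0 => by
    have := h t ht
    rw [h0, abs_zero] at this
    linarith
  by_cases ha : 0 < g' a
  · have hpos : ∀ t ∈ Set.Icc a b, 0 < g' t := by
      intro t ht
      by_contra hcon
      push Not at hcon
      obtain ⟨s, hs, hs0⟩ := intermediate_value_Icc' ht.1 hg'.continuousOn (show (0 : ℝ) ∈ Set.Icc (g' t) (g' a) from
        ⟨hcon, ha.le⟩)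
      exact hne s ⟨hs.1, hs.2.trans ht.2⟩ hs0
    refine ⟨Or.inl fun t ht => (hpos t ht).le, ?_⟩
    obtain ⟨c, d, h1, h2, h3, h4, h5, h6⟩ := vdc_split_pos g g' a b lam κ hab hl hκ hg fun t ht => by
      have := h t ht
      rwa [abs_of_pos (hpos t ht)] at this
    refine ⟨c, d, h1, h2, h3, h4, h5.imp id fun h5 t ht => ?_, h6.imp id fun h6 t ht => ?_⟩
    · have := h5 t ht
      rw [abs_of_nonpos (by linarith)]
      linarith
    · exact (h6 t ht).trans (le_abs_self _)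
  · push Not at ha
    have hneg : ∀ t ∈ Set.Icc a b, g' t < 0 := by
      intro t ht
      by_contra hcon
      push Not at hcon
      obtain ⟨s, hs, hs0⟩ := intermediate_value_Icc ht.1 hg'.continuousOn (show (0 : ℝ) ∈ Set.Icc (g' a) (g' t) from
        ⟨ha, hcon⟩)
      exact hne s ⟨hs.1, hs.2.trans ht.2⟩ hs0
    refine ⟨Or.inr fun t ht => (hneg t ht).le, ?_⟩
    obtain ⟨c, d, h1, h2, h3, h4, h5, h6⟩ := vdc_split_pos (fun t => -g t) (fun t => -g' t) a b lam κ hab hl hκ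
      (fun t => (hg t).neg) fun t ht => by
      have := h t ht
      rwa [abs_of_neg (hneg t ht)] at this
    refine ⟨c, d, h1, h2, h3, h4, h5.imp id fun h5 t ht => ?_, h6.imp id fun h6 t ht => ?_⟩
    · have := h5 t ht
      exact le_trans (by linarith) (le_abs_self (g t))
    · have := h6 t ht
      exact this.trans (neg_le_abs _)

/-- bound for the phases with `|Φ^(m)| ≥ lam` and `Φ^(m+1)` of constant sign -/
private def VS (m : ℕ) (C : ℝ) : Prop :=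
  ∀ (Φ : ℝ → ℝ) (a b lam : ℝ), a ≤ b → 0 < lam → ContDiff ℝ ((m + 1 : ℕ) : WithTop ℕ∞) Φ →
    (∀ t ∈ Set.Icc a b, lam ≤ |iteratedDeriv m Φ t|) →
    ((∀ t ∈ Set.Icc a b, 0 ≤ iteratedDeriv (m + 1) Φ t) ∨ (∀ t ∈ Set.Icc a b, iteratedDeriv (m + 1) Φ t ≤ 0)) →
    ‖∫ t in a..b, Complex.exp (2 * Real.pi * Complex.I * (Φ t : ℂ))‖ ≤ C * lam ^ (-(1 / (m : ℝ)))

private def VP (n : ℕ) (C : ℝ) : Prop :=
  ∀ (Φ : ℝ → ℝ) (a b lam : ℝ), a ≤ b → 0 < lam → ContDiff ℝ (n : WithTop ℕ∞) Φ →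
    (∀ t ∈ Set.Icc a b, lam ≤ |iteratedDeriv n Φ t|) →
    ‖∫ t in a..b, Complex.exp (2 * Real.pi * Complex.I * (Φ t : ℂ))‖ ≤ C * lam ^ (-(1 / (n : ℝ)))

private theorem VS_one : VS 1 2 := by
  intro Φ a b lam hab hl hΦ h1 h2
  rw [iteratedDeriv_one] at h1
  have h3 := vdc_mono Φ a b lam hab hl hΦ h1 h2
  refine h3.trans (le_of_eq ?_)
  rw [Nat.cast_one, div_one, Real.rpow_neg_one]

private theorem VP_VS {m : ℕ} {C : ℝ} (h : VP m C) : VS m C := by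
  intro Φ a b lam hab hl hΦ h1 _
  exact h Φ a b lam hab hl (hΦ.of_le (by exact_mod_cast Nat.le_succ m)) h1

private theorem VS_VP {m : ℕ} (hm : 1 ≤ m) {C : ℝ} (hC : 0 < C) (h : VS m C) : VP (m + 1) (2 * C + 2) := by
  intro Φ a b lam hab hl hΦ h1
  have hm0 : (0 : ℝ) < m := by exact_mod_cast hm
  have hm1 : (0 : ℝ) < (m : ℝ) + 1 := by linarith
  have hd : Differentiable ℝ (iteratedDeriv m Φ) :=
    hΦ.differentiable_iteratedDeriv m (by exact_mod_cast Nat.lt_succ_self m)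
  have hc : Continuous (iteratedDeriv (m + 1) Φ) := hΦ.continuous_iteratedDeriv (m + 1) le_rfl
  have hD : ∀ t, HasDerivAt (iteratedDeriv m Φ) (iteratedDeriv (m + 1) Φ t) t := fun t => by
    rw [iteratedDeriv_succ]
    exact (hd t).hasDerivAt
  obtain ⟨κ, hκ⟩ : ∃ κ : ℝ, κ = lam ^ ((m : ℝ) / (m + 1)) := ⟨_, rfl⟩
  have hκ0 : 0 < κ := by rw [hκ]; exact Real.rpow_pos_of_pos hl _
  obtain ⟨hsgn, c, d, h2, h3, h4, h5, h6, h7⟩ := vdc_split _ _ a b lam κ hab hl hκ0 hD hc h1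
  obtain ⟨T, hT⟩ : ∃ T : ℝ, T = lam ^ (-(1 / ((m : ℝ) + 1))) := ⟨_, rfl⟩
  have hT0 : 0 < T := by rw [hT]; exact Real.rpow_pos_of_pos hl _
  have hκ1 : κ ^ (-(1 / (m : ℝ))) = T := by
    rw [hκ, hT, ← Real.rpow_mul hl.le]
    congr 1
    field_simp
  have hκ2 : κ / lam = T := by
    rw [hκ, hT, ← Real.rpow_sub_one hl.ne']
    congr 1
    field_simp
    ring
  have hcE : Continuous fun t : ℝ => Complex.exp (2 * Real.pi * Complex.I * (Φ t : ℂ)) :=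
    Complex.continuous_exp.comp (continuous_const.mul (Complex.continuous_ofReal.comp hΦ.continuous))
  have hcb : c ≤ b := h3.trans h4
  have hI1 : ‖∫ t in a..c, Complex.exp (2 * Real.pi * Complex.I * (Φ t : ℂ))‖ ≤ C * T := by
    rcases h6 with h6 | h6
    · rw [h6, intervalIntegral.integral_same, norm_zero]
      positivity
    · rw [← hκ1]
      exact h Φ a c κ h2 hκ0 hΦ h6 (hsgn.imp (fun hs t ht => hs t ⟨ht.1, ht.2.trans hcb⟩)
        fun hs t ht => hs t ⟨ht.1, ht.2.trans hcb⟩)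
  have hI3 : ‖∫ t in d..b, Complex.exp (2 * Real.pi * Complex.I * (Φ t : ℂ))‖ ≤ C * T := by
    rcases h7 with h7 | h7
    · rw [h7, intervalIntegral.integral_same, norm_zero]
      positivity
    · rw [← hκ1]
      exact h Φ d b κ h4 hκ0 hΦ h7 (hsgn.imp (fun hs t ht => hs t ⟨(h2.trans h3).trans ht.1, ht.2⟩)
        fun hs t ht => hs t ⟨(h2.trans h3).trans ht.1, ht.2⟩)
  have hI2 : ‖∫ t in c..d, Complex.exp (2 * Real.pi * Complex.I * (Φ t : ℂ))‖ ≤ 2 * T := by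
    have h8 := intervalIntegral.norm_integral_le_of_norm_le_const (a := c) (b := d) (C := 1)
      (f := fun t : ℝ => Complex.exp (2 * Real.pi * Complex.I * (Φ t : ℂ))) fun t _ => (vdc_norm_e Φ t).le
    rw [one_mul, abs_of_nonneg (by linarith)] at h8
    refine h8.trans (h5.trans (le_of_eq ?_))
    rw [mul_div_assoc, hκ2]
  have hsum : ∫ t in a..b, Complex.exp (2 * Real.pi * Complex.I * (Φ t : ℂ)) =
      (∫ t in a..c, Complex.exp (2 * Real.pi * Complex.I * (Φ t : ℂ))) +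
      (∫ t in c..d, Complex.exp (2 * Real.pi * Complex.I * (Φ t : ℂ))) +
      ∫ t in d..b, Complex.exp (2 * Real.pi * Complex.I * (Φ t : ℂ)) := by
    rw [intervalIntegral.integral_add_adjacent_intervals (hcE.intervalIntegrable _ _) (hcE.intervalIntegrable _ _),
      intervalIntegral.integral_add_adjacent_intervals (hcE.intervalIntegrable _ _) (hcE.intervalIntegrable _ _)]
  rw [hsum]
  refine (norm_add_le _ _).trans ((add_le_add_left (norm_add_le _ _) _).trans ?_)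
  have hcast : ((m + 1 : ℕ) : ℝ) = (m : ℝ) + 1 := by push_cast; rfl
  rw [hcast, ← hT]
  linarith

theorem vdc_n (n : ℕ) (hn : 2 ≤ n) : ∃ C : ℝ, 0 < C ∧ ∀ (Φ : ℝ → ℝ) (a b lam : ℝ), a ≤ b →
    0 < lam → ContDiff ℝ n Φ → (∀ t ∈ Set.Icc a b, lam ≤ |iteratedDeriv n Φ t|) →
    ‖∫ t in a..b, Complex.exp (2 * Real.pi * Complex.I * (Φ t : ℂ))‖ ≤
      C * lam ^ (-(1 / (n : ℝ))) := by
  obtain ⟨m, rfl⟩ : ∃ m, n = m + 1 + 1 := ⟨n - 2, by omega⟩
  suffices h : ∃ C : ℝ, 0 < C ∧ VP (m + 1 + 1) C from h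
  induction m with
  | zero => exact ⟨_, by norm_num, VS_VP le_rfl (by norm_num) VS_one⟩
  | succ m ih =>
    obtain ⟨C, hC, h⟩ := ih (by omega)
    exact ⟨2 * C + 2, by linarith, VS_VP (by omega) hC (VP_VS h)⟩

end GPR
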